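import Pool.Agent.MP_b86f6c_nt.Pade

set_option autoImplicit false

namespace Pool.Agent.MP_b86f6c_nt

open Polynomial Finset

/-- Degree at most `n` and coefficients bounded by `2 ^ a`. -/
def Bd (n a : ℕ) (P : ℤ[X]) : Prop := P.natDegree ≤ n ∧ ∀ e, |(P.coeff e : ℝ)| ≤ 2 ^ a

/-- The properties of the base number of degree `m` that the construction uses. -/
structure Base (m D N : ℕ) (γ : ℝ) (c0 : ℕ) (cb : ℕ → ℕ) : Prop where
  hN : 1 ≤ N
  eq : (N : ℝ) * γ ^ m = N + 1
  h1 : 1 ≤ γ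
  h2 : γ ≤ 2
  lin : ∀ (l : ℕ) (q r : ℤ), 1 ≤ q → q ≤ 2 ^ (D * l) → tw ((D + 1) * l + c0) ≤ |q * γ - r|
  pol : ∀ n a (P : ℤ[X]), Bd n a P → aeval γ P ≠ 0 → tw (2 * n * a + cb n) ≤ |aeval γ P|
  ne : ∀ P : ℤ[X], P ≠ 0 → P.natDegree < m → aeval γ P ≠ 0

lemma exists_base (m D : ℕ) (hm : 2 ≤ m) (hD : 1 ≤ D) :
    ∃ N γ c0 cb, Base m D N γ c0 cb := by
  obtain ⟨N, γ, c, hN, hγ, hγ1, hγ2, H⟩ := exists_gamma m D hm hD
  have hlow : ∀ n < m, ∀ a (P : ℤ[X]), Bd n a P → P ≠ 0 → tw (2 * n * a + c) ≤ |aeval γ P| := by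
    intro n hn a P hP hP0
    have h1 := H n hn a (fun j => P.coeff j) (by
      intro h
      apply hP0
      ext e
      by_cases he : e ≤ n
      · exact congrFun h ⟨e, by omega⟩
      · exact coeff_eq_zero_of_natDegree_lt (by have := hP.1; omega)) (fun j => hP.2 j)
    rw [aeval_eq_sum_range' (n := n + 1) (by have := hP.1; omega), ← Fin.sum_univ_eq_sum_range
      (fun i => P.coeff i • γ ^ i)]
    simp only [zsmul_eq_mul]
    refine (tw_anti ?_).trans h1
    have : a / D ≤ a := Nat.div_le_self _ _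
    nlinarith
  have hpol : ∀ n, ∃ c' : ℕ, ∀ a (P : ℤ[X]), Bd n a P → aeval γ P ≠ 0 →
      tw (2 * n * a + c') ≤ |aeval γ P| := by
    intro n
    induction n with
    | zero => exact ⟨c, fun a P hP h => hlow 0 (by omega) a P hP (by rintro rfl; simp at h)⟩
    | succ n ih =>
      by_cases hn : n + 1 < m
      · exact ⟨c, fun a P hP h => hlow _ hn a P hP (by rintro rfl; simp at h)⟩
      obtain ⟨c', hc'⟩ := ih
      obtain ⟨t, ht⟩ : ∃ t, n + 1 = t + m := ⟨n + 1 - m, by omega⟩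
      refine ⟨2 * n * (N + 2) + c' + N, fun a P hP h => ?_⟩
      have hNr : (0 : ℝ) < N := by exact_mod_cast hN
      let P' : ℤ[X] := C (N : ℤ) * P - monomial (n + 1) (P.coeff (n + 1) * N)
        + monomial t (P.coeff (n + 1) * (N + 1))
      have hev : aeval γ P' = N * aeval γ P := by
        simp only [P', map_add, map_sub, map_mul, aeval_C, aeval_monomial, ht, pow_add,
          algebraMap_int_eq, eq_intCast, Int.cast_natCast, map_one, map_natCast]
        linear_combination (-(P.coeff (t + m) : ℝ) * γ ^ t) * hγ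
      have hco : ∀ e, P'.coeff e = N * P.coeff e
          - (if n + 1 = e then P.coeff (n + 1) * N else 0)
          + (if t = e then P.coeff (n + 1) * (N + 1) else 0) := by
        intro e; simp only [P', coeff_add, coeff_sub, coeff_C_mul, coeff_monomial]
      have hB : Bd n (a + (N + 2)) P' := by
        constructor
        · refine natDegree_le_iff_coeff_eq_zero.2 fun e he => ?_
          rw [hco, if_neg (by omega : ¬ t = e)]
          split_ifs with h1
          · subst h1; ring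
          · rw [coeff_eq_zero_of_natDegree_lt (by have := hP.1; omega)]; simp
        · intro e
          have a1 := hP.2 e
          have a2 := hP.2 (n + 1)
          have a3 := nat_succ_le_two_pow N
          have a4 : |(N : ℝ) * P.coeff e| ≤ 2 ^ N * 2 ^ a := by
            rw [abs_mul, abs_of_pos hNr]; gcongr; linarith
          have a5 : |(P.coeff (n + 1) : ℝ) * N| ≤ 2 ^ N * 2 ^ a := by
            rw [abs_mul, abs_of_pos hNr, mul_comm]; gcongr; linarith
          have a6 : |(P.coeff (n + 1) : ℝ) * (N + 1)| ≤ 2 ^ N * 2 ^ a := by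
            rw [abs_mul, abs_of_pos (by positivity : (0 : ℝ) < N + 1), mul_comm]; gcongr
          have a7 : (2 : ℝ) ^ (a + (N + 2)) = 4 * (2 ^ N * 2 ^ a) := by ring
          have a8 : (0 : ℝ) < 2 ^ N * 2 ^ a := by positivity
          rw [hco, a7]
          rw [abs_le] at a4 a5 a6 ⊢
          split_ifs <;> push_cast <;> constructor <;>
            linarith [a4.1, a4.2, a5.1, a5.2, a6.1, a6.2]
      have h1 := hc' _ P' hB (by rw [hev]; exact mul_ne_zero hNr.ne' h)
      rw [hev, abs_mul, abs_of_pos hNr] at h1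
      have h2 : (N : ℝ) ≤ 2 ^ N := nat_le_two_pow N
      have h3 : (2 : ℝ) ^ N * tw (2 * (n + 1) * a + (2 * n * (N + 2) + c' + N))
          ≤ tw (2 * n * (a + (N + 2)) + c') := two_pow_mul_tw_le (by nlinarith)
      have h4 : (2 : ℝ) ^ N * tw (2 * (n + 1) * a + (2 * n * (N + 2) + c' + N))
          ≤ 2 ^ N * |aeval γ P| :=
        h3.trans (h1.trans (mul_le_mul_of_nonneg_right h2 (abs_nonneg _)))
      exact le_of_mul_le_mul_left h4 (by positivity)
  choose cb hcb using hpol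
  refine ⟨N, γ, c + 4, cb, hN, hγ, hγ1, hγ2, ?_, hcb, ?_⟩
  · intro l q r hq1 hq2
    by_cases h : 1 ≤ |q * γ - r|
    · exact (tw_le_one _).trans h
    push Not at h
    have a1 : (1 : ℝ) ≤ q := by exact_mod_cast hq1
    have a2 : (q : ℝ) ≤ 2 ^ (D * l) := by exact_mod_cast hq2
    have a3 : (2 : ℝ) ^ (D * l + 2) = 4 * 2 ^ (D * l) := by ring
    have h1 := H 1 (by omega) (D * l + 2) ![-r, q] (by
      intro h0
      have := congrFun h0 1
      simp at this
      omega) (by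
      intro j
      rw [a3]
      fin_cases j
      · simp only [Fin.zero_eta, Matrix.cons_val_zero, Int.cast_neg, abs_neg]
        rw [abs_lt] at h
        rw [abs_le]
        constructor <;> nlinarith [h.1, h.2]
      · simp only [Fin.mk_one, Matrix.cons_val_one, Matrix.cons_val_fin_one]
        rw [abs_of_pos (by linarith)]; linarith)
    rw [Fin.sum_univ_two] at h1
    simp only [Matrix.cons_val_zero, Matrix.cons_val_one,
      Matrix.cons_val_fin_one, Fin.val_zero, Fin.val_one, pow_zero, pow_one, mul_one,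
      Int.cast_neg] at h1
    rw [show (q : ℝ) * γ - r = -r + q * γ by ring]
    refine (tw_anti ?_).trans h1
    have : (D * l + 2) / D ≤ l + 2 := by
      rw [Nat.div_le_iff_le_mul_add_pred (by omega)]
      nlinarith [Nat.zero_le (D - 1)]
    nlinarith
  · intro P hP0 hd h
    obtain ⟨a, ha⟩ : ∃ a : ℕ, ∀ e, |(P.coeff e : ℝ)| ≤ 2 ^ a := by
      refine ⟨∑ e ∈ P.support, (P.coeff e).natAbs, fun e => ?_⟩
      by_cases he : e ∈ P.support
      · have h1 : (P.coeff e).natAbs ≤ ∑ e ∈ P.support, (P.coeff e).natAbs :=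
          Finset.single_le_sum (f := fun e => (P.coeff e).natAbs) (fun _ _ => Nat.zero_le _) he
        rw [← Int.cast_abs, Int.abs_eq_natAbs, Int.cast_natCast]
        exact (Nat.cast_le.2 h1).trans (nat_le_two_pow _)
      · rw [notMem_support_iff.1 he]; simp
    have := hlow _ hd a P ⟨le_rfl, ha⟩ hP0
    rw [h, abs_zero] at this
    exact absurd (tw_pos _) (not_lt.2 this)

lemma exists_transfer (n a u g : ℕ) (c : ℤ) (hg1 : 1 ≤ g) (hg : g ≤ 2 ^ (u + 1))
    (hc : |(c : ℝ)| ≤ 2 ^ (u + 1)) (P : ℤ[X]) (hP : Bd n a P) :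
    ∃ Q : ℤ[X], Bd n (a + n * (u + 3)) Q ∧ (P ≠ 0 → Q ≠ 0) ∧
      ∀ t : ℝ, aeval t Q = (g : ℝ) ^ n * aeval ((c + t) / g) P := by
  have hg' : (0 : ℝ) < g := by exact_mod_cast hg1
  have hg2 : (g : ℝ) ≤ 2 ^ (u + 1) := by exact_mod_cast hg
  let Q : ℤ[X] := ∑ i ∈ range (n + 1), C (P.coeff i * (g : ℤ) ^ (n - i)) * (X + C c) ^ i
  have hev : ∀ t : ℝ, aeval t Q = (g : ℝ) ^ n * aeval ((c + t) / g) P := by
    intro t
    rw [aeval_eq_sum_range' (n := n + 1) (p := P) (by have := hP.1; omega), Finset.mul_sum]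
    simp only [Q, map_sum, map_mul, map_pow, map_add, aeval_C, aeval_X, algebraMap_int_eq,
      eq_intCast, zsmul_eq_mul, Int.cast_natCast, map_intCast, map_natCast]
    refine Finset.sum_congr rfl fun i hi => ?_
    obtain ⟨d, rfl⟩ := Nat.exists_eq_add_of_le (by have := Finset.mem_range.1 hi; omega : i ≤ n)
    rw [Nat.add_sub_cancel_left, div_pow]
    field_simp
    ring
  refine ⟨Q, ⟨?_, ?_⟩, ?_, hev⟩
  · refine natDegree_sum_le_of_forall_le _ _ fun i hi => ?_
    refine (natDegree_C_mul_le _ _).trans ((natDegree_pow_le).trans ?_)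
    rw [natDegree_X_add_C]
    have := Finset.mem_range.1 hi; omega
  · intro e
    simp only [Q, finsetSum_coeff, coeff_C_mul, coeff_X_add_C_pow]
    push_cast
    calc |∑ i ∈ range (n + 1), (P.coeff i : ℝ) * (g : ℝ) ^ (n - i) *
            ((c : ℝ) ^ (i - e) * (i.choose e : ℝ))|
        ≤ ∑ i ∈ range (n + 1), |(P.coeff i : ℝ) * (g : ℝ) ^ (n - i) *
            ((c : ℝ) ^ (i - e) * (i.choose e : ℝ))| := Finset.abs_sum_le_sum_abs _ _
      _ ≤ ∑ i ∈ range (n + 1), (2 : ℝ) ^ (a + n * (u + 2)) := by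
          refine Finset.sum_le_sum fun i hi => ?_
          have hi' : i ≤ n := by have := Finset.mem_range.1 hi; omega
          rw [abs_mul, abs_mul, abs_mul, abs_pow, abs_pow, abs_of_pos hg', Nat.abs_cast]
          have b1 := hP.2 i
          have b2 := choose_le_two_pow' i e
          calc _ ≤ (2 : ℝ) ^ a * (2 ^ (u + 1)) ^ (n - i) * ((2 ^ (u + 1)) ^ (i - e) * 2 ^ i) := by
                gcongr
            _ = 2 ^ (a + (u + 1) * ((n - i) + (i - e)) + i) := by
                rw [← pow_mul, ← pow_mul, ← pow_add, ← pow_add, ← pow_add]; congr 1; ring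
            _ ≤ 2 ^ (a + n * (u + 2)) := by
                refine pow_le_pow_right₀ (by norm_num) ?_
                have : (u + 1) * ((n - i) + (i - e)) ≤ (u + 1) * n :=
                  Nat.mul_le_mul_left _ (by omega)
                nlinarith
      _ = ((n : ℝ) + 1) * 2 ^ (a + n * (u + 2)) := by
          rw [Finset.sum_const, Finset.card_range, nsmul_eq_mul]; push_cast; ring
      _ ≤ 2 ^ n * 2 ^ (a + n * (u + 2)) :=
          mul_le_mul_of_nonneg_right (nat_succ_le_two_pow n) (by positivity)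
      _ = 2 ^ (a + n * (u + 3)) := by rw [← pow_add]; congr 1; ring
  · intro hP0 hQ0
    apply hP0
    have h1 : P.map (algebraMap ℤ ℝ) = 0 := by
      refine Polynomial.funext fun x => ?_
      have := hev (g * x - c)
      rw [hQ0, map_zero, add_sub_cancel, mul_div_cancel_left₀ _ hg'.ne'] at this
      rw [eval_map_algebraMap, eval_zero]
      exact (mul_eq_zero.1 this.symm).resolve_left (by positivity)
    exact (Polynomial.map_eq_zero_iff (algebraMap ℤ ℝ).injective_int).1 h1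

lemma Bd.hasseDeriv {n a : ℕ} {P : ℤ[X]} (hP : Bd n a P) (s : ℕ) :
    Bd n (a + n) (hasseDeriv s P) := by
  refine ⟨(natDegree_hasseDeriv_le P s).trans ((Nat.sub_le _ _).trans hP.1), fun e => ?_⟩
  rw [hasseDeriv_coeff]
  by_cases he : e + s ≤ n
  · push_cast
    rw [abs_mul, Nat.abs_cast, pow_add, mul_comm ((2 : ℝ) ^ a)]
    exact mul_le_mul ((choose_le_two_pow' _ _).trans (pow_le_pow_right₀ (by norm_num) he))
      (hP.2 _) (abs_nonneg _) (by positivity)
  · rw [coeff_eq_zero_of_natDegree_lt (by have := hP.1; omega)]; simp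

lemma taylor_map_coeff (P : ℤ[X]) (y : ℝ) (s : ℕ) :
    (taylor y (P.map (algebraMap ℤ ℝ))).coeff s = aeval y (hasseDeriv s P) := by
  rw [taylor_coeff, ← eval_map_algebraMap]
  congr 1
  ext e
  simp [hasseDeriv_coeff]

/-- exponent for the Liouville type range -/
def UU (n : ℕ) : ℕ := 30 * (n + 1) ^ 3

lemma Base.point_lower {m D N : ℕ} {γ : ℝ} {c0 : ℕ} {cb : ℕ → ℕ} (hB : Base m D N γ c0 cb)
    (n a u g : ℕ) (c : ℤ) (hg1 : 1 ≤ g) (hg : g ≤ 2 ^ (u + 1))
    (hc : |(c : ℝ)| ≤ 2 ^ (u + 1)) (P : ℤ[X]) (hP : Bd n (a + n) P)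
    (ha : 1 ≤ a) (hu : u ≤ 6 * (n + 1) * a) (hcb : cb n ≤ u)
    (h0 : aeval ((c + γ) / g) P ≠ 0) : tw (UU n * a) ≤ |aeval ((c + γ) / g) P| := by
  obtain ⟨Q, hQ, -, hev⟩ := exists_transfer n (a + n) u g c hg1 hg hc P hP
  have hg' : (0 : ℝ) < g := by exact_mod_cast hg1
  have hg2 : (g : ℝ) ≤ 2 ^ (u + 1) := by exact_mod_cast hg
  have h1 := hB.pol n _ Q hQ (by rw [hev]; exact mul_ne_zero (by positivity) h0)
  rw [hev, abs_mul, abs_of_pos (by positivity)] at h1
  have h2 : (g : ℝ) ^ n ≤ 2 ^ ((u + 1) * n) := by rw [pow_mul]; gcongr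
  have h3 : (2 : ℝ) ^ ((u + 1) * n) * tw (UU n * a)
      ≤ tw (2 * n * (a + n + n * (u + 3)) + cb n) := by
    refine two_pow_mul_tw_le ?_
    have b1 : (2 * n ^ 2 + n + 1) * u ≤ (2 * n ^ 2 + n + 1) * (6 * (n + 1) * a) :=
      Nat.mul_le_mul_left _ hu
    have b2 : 8 * n ^ 2 + n ≤ (8 * n ^ 2 + n) * a := Nat.le_mul_of_pos_right _ ha
    have b3 : (2 * n ^ 2 + n + 1) * (6 * (n + 1)) + (8 * n ^ 2 + n) + 2 * n ≤ UU n := by
      unfold UU; nlinarith [Nat.zero_le (n ^ 3), Nat.zero_le (n ^ 2)]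
    have b4 := Nat.mul_le_mul_right a b3
    nlinarith
  have h4 : (2 : ℝ) ^ ((u + 1) * n) * tw (UU n * a)
      ≤ 2 ^ ((u + 1) * n) * |aeval ((c + γ) / g) P| :=
    h3.trans (h1.trans (mul_le_mul_of_nonneg_right h2 (abs_nonneg _)))
  exact le_of_mul_le_mul_left h4 (by positivity)

lemma Base.local_lower {m D N : ℕ} {γ : ℝ} {c0 : ℕ} {cb : ℕ → ℕ} (hB : Base m D N γ c0 cb)
    (n a u g ρ : ℕ) (c : ℤ) (hg1 : 1 ≤ g) (hg : g ≤ 2 ^ (u + 1))
    (hc : |(c : ℝ)| ≤ 2 ^ (u + 1)) (hy : |(c + γ) / g| ≤ 2) (P : ℤ[X]) (hP : Bd n a P)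
    (hP0 : P ≠ 0) (ha : 1 ≤ a) (hu : u ≤ 6 * (n + 1) * a) (hcb : cb n ≤ u)
    (hρ : (UU n + 4 * n + 3) * a ≤ ρ) (t : ℝ) (ht1 : tw ρ ≤ t) (ht2 : t ≤ 2 * tw ρ)
    (W : ℕ) (hW : (UU n + 1) * a ≤ W) (hW' : m ≤ n → (UU n + 1) * a + n * ρ ≤ W) :
    tw W ≤ |aeval ((c + γ) / g + t) P| := by
  classical
  set y := (c + γ) / g with hy0
  set Pr := P.map (algebraMap ℤ ℝ) with hPr
  have hPr0 : Pr ≠ 0 := (Polynomial.map_ne_zero_iff (algebraMap ℤ ℝ).injective_int).2 hP0
  have hex : ∃ s, (taylor y Pr).coeff s ≠ 0 := by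
    by_contra h
    push Not at h
    exact hPr0 ((taylor_eq_zero y Pr).1 (Polynomial.ext h))
  set s := Nat.find hex with hs
  have hs1 : (taylor y Pr).coeff s ≠ 0 := Nat.find_spec hex
  have hs2 : ∀ r < s, (taylor y Pr).coeff r = 0 := fun r hr => by
    simpa using Nat.find_min hex hr
  have hdeg : Pr.natDegree ≤ n := natDegree_map_le.trans hP.1
  have hsn : s ≤ n := by
    have := le_natDegree_of_ne_zero hs1
    rw [natDegree_taylor] at this
    omega
  have hρ1 : 1 ≤ ρ := by nlinarith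
  have htpos : 0 < t := (tw_pos _).trans_le ht1
  have ht3 : t ≤ 1 := by
    have := tw_anti hρ1
    rw [tw_one] at this; linarith
  have h1 := taylor_tail_lower Pr n (2 ^ a) y t hdeg
    (fun e => by simpa [hPr] using hP.2 e) hy (by rw [abs_of_pos htpos]; exact ht3) s hs2
  have h2 : tw (UU n * a) ≤ |(taylor y Pr).coeff s| := by
    rw [hPr, taylor_map_coeff] at hs1 ⊢
    exact hB.point_lower n a u g c hg1 hg hc _ (hP.hasseDeriv s) ha hu hcb hs1
  have h3 : (2 : ℝ) ^ (4 * n) * 2 ^ a * t ≤ tw (UU n * a + 1) := by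
    calc (2 : ℝ) ^ (4 * n) * 2 ^ a * t ≤ 2 ^ (4 * n) * 2 ^ a * (2 * tw ρ) := by gcongr
      _ = 2 ^ (4 * n + a + 1) * tw ρ := by ring
      _ ≤ tw (UU n * a + 1) := two_pow_mul_tw_le (by nlinarith)
  have h4 := tw_succ (UU n * a)
  rw [abs_of_pos htpos, hPr, eval_map_algebraMap, ← hPr] at h1
  have h5 : t ^ s * tw (UU n * a + 1) ≤ |aeval (y + t) P| :=
    (mul_le_mul_of_nonneg_left (by linarith) (by positivity)).trans h1
  refine le_trans ?_ h5
  rcases Nat.eq_zero_or_pos s with h6 | h6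
  · rw [h6, pow_zero, one_mul]
    exact tw_anti (by nlinarith)
  · have h7 : m ≤ n := by
      by_contra h8
      push Not at h8
      obtain ⟨Q, hQ, hQ0, hev⟩ := exists_transfer n a u g c hg1 hg hc P hP
      apply hB.ne Q (hQ0 hP0) (hQ.1.trans_lt h8)
      have := hs2 0 h6
      rw [taylor_coeff_zero, hPr, eval_map_algebraMap] at this
      rw [hev, ← hy0, this, mul_zero]
    have h8 := hW' h7
    calc tw W ≤ tw (ρ * s + (UU n * a + 1)) := tw_anti (by nlinarith)
      _ = tw ρ ^ s * tw (UU n * a + 1) := by rw [tw_add, tw_mul]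
      _ ≤ t ^ s * tw (UU n * a + 1) := by
          have := tw_pos ρ
          have := tw_pos (UU n * a + 1)
          gcongr

lemma exists_root_shadow (P : ℤ[X]) (hP0 : P ≠ 0) :
    ∃ T : Finset ℝ, T.card ≤ P.natDegree ∧ ∀ (n : ℕ) (x δ : ℝ), P.natDegree ≤ n → 0 ≤ δ → δ ≤ 1 →
      (∀ β ∈ T, δ ≤ |x - β|) → δ ^ n ≤ |aeval x P| := by
  classical
  set Pc := P.map (algebraMap ℤ ℂ) with hPc
  have hcard : Multiset.card Pc.roots ≤ P.natDegree := (card_roots' Pc).trans natDegree_map_le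
  refine ⟨Pc.roots.toFinset.image Complex.re,
    Finset.card_image_le.trans ((Multiset.toFinset_card_le _).trans hcard), ?_⟩
  intro n x δ hn h0 h1 h
  have h2 : ∀ s : Multiset ℂ, (∀ α ∈ s, δ ≤ ‖(x : ℂ) - α‖) →
      δ ^ Multiset.card s ≤ ‖(s.map ((x : ℂ) - ·)).prod‖ := by
    intro s
    induction s using Multiset.induction_on with
    | empty => simp
    | cons α s ih =>
      intro hs
      rw [Multiset.card_cons, Multiset.map_cons, Multiset.prod_cons, norm_mul, pow_succ, mul_comm]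
      exact mul_le_mul (hs α (Multiset.mem_cons_self _ _))
        (ih fun β hβ => hs β (Multiset.mem_cons_of_mem hβ)) (by positivity) (norm_nonneg _)
  have h3 := h2 Pc.roots fun α hα => by
    refine (h α.re (Finset.mem_image_of_mem _ (Multiset.mem_toFinset.2 hα))).trans ?_
    simpa using Complex.abs_re_le_norm ((x : ℂ) - α)
  have h4 := (IsAlgClosed.splits Pc).eval_eq_prod_roots (x : ℂ)
  have h5 : Pc.eval (x : ℂ) = ((aeval x P : ℝ) : ℂ) := by
    rw [hPc, eval_map_algebraMap]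
    exact aeval_algebraMap_apply ℂ x P
  have h6 : 1 ≤ ‖Pc.leadingCoeff‖ := by
    rw [hPc, leadingCoeff_map_of_injective (algebraMap ℤ ℂ).injective_int]
    have := Int.one_le_abs (leadingCoeff_ne_zero.2 hP0)
    simp only [algebraMap_int_eq, eq_intCast, Complex.norm_intCast]
    exact_mod_cast this
  calc δ ^ n ≤ δ ^ Multiset.card Pc.roots := pow_le_pow_of_le_one h0 h1 (hcard.trans hn)
    _ ≤ ‖Pc.leadingCoeff‖ * ‖(Pc.roots.map ((x : ℂ) - ·)).prod‖ :=
        h3.trans (le_mul_of_one_le_left (norm_nonneg _) h6)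
    _ = |aeval x P| := by rw [← norm_mul, ← h4, h5, Complex.norm_real, Real.norm_eq_abs]

/-- The polynomials of bounded degree and height form a finite set of controlled size. -/
lemma exists_finset_Bd (n a : ℕ) :
    ∃ F : Finset ℤ[X], (F.card : ℝ) ≤ 2 ^ ((n + 1) * (a + 2)) ∧ ∀ P, Bd n a P → P ∈ F := by
  classical
  refine ⟨(Fintype.piFinset fun _ : Fin (n + 1) => Finset.Icc (-(2 : ℤ) ^ a) (2 ^ a)).image
    fun f => ∑ i : Fin (n + 1), monomial (i : ℕ) (f i), ?_, ?_⟩
  · have h1 : (Finset.Icc (-(2 : ℤ) ^ a) (2 ^ a)).card ≤ 2 ^ (a + 2) := by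
      rw [Int.card_Icc]
      have : (0 : ℤ) < 2 ^ a := by positivity
      rw [Int.toNat_le]
      push_cast
      rw [pow_add]; linarith
    have h2 : (Fintype.piFinset fun _ : Fin (n + 1) => Finset.Icc (-(2 : ℤ) ^ a) (2 ^ a)).card
        ≤ 2 ^ ((n + 1) * (a + 2)) := by
      rw [Fintype.card_piFinset, Finset.prod_const, Finset.card_univ, Fintype.card_fin,
        mul_comm, pow_mul]
      exact Nat.pow_le_pow_left h1 _
    exact_mod_cast Finset.card_image_le.trans h2
  · intro P hP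
    refine Finset.mem_image.2 ⟨fun i => P.coeff i, ?_, ?_⟩
    · refine Fintype.mem_piFinset.2 fun i => Finset.mem_Icc.2 ?_
      have := hP.2 i
      rw [← abs_le]
      exact_mod_cast this
    · rw [Fin.sum_univ_eq_sum_range (fun i => monomial i (P.coeff i))]
      exact (P.as_sum_range' (n + 1) (by have := hP.1; omega)).symm

end Pool.Agent.MP_b86f6c_nt
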