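import Mathlib

set_option autoImplicit false

namespace Pool.Agent.MP_b86f6c_nt

open Polynomial Finset

/-- `tw k = 2 ^ (-k)`. -/
noncomputable def tw (k : ℕ) : ℝ := (1 / 2) ^ k

lemma tw_pos (k : ℕ) : 0 < tw k := by unfold tw; positivity

lemma tw_add (a b : ℕ) : tw (a + b) = tw a * tw b := by unfold tw; rw [pow_add]

lemma tw_mul (a b : ℕ) : tw (a * b) = tw a ^ b := by unfold tw; rw [pow_mul]

lemma tw_anti {a b : ℕ} (h : a ≤ b) : tw b ≤ tw a := by
  unfold tw; exact pow_le_pow_of_le_one (by norm_num) (by norm_num) h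

lemma tw_strictAnti {a b : ℕ} (h : a < b) : tw b < tw a := by
  unfold tw; exact pow_lt_pow_right_of_lt_one₀ (by norm_num) (by norm_num) h

lemma tw_le_iff {a b : ℕ} : tw b ≤ tw a ↔ a ≤ b := by
  constructor
  · intro h; by_contra hh; push Not at hh; exact absurd (tw_strictAnti hh) (not_lt.2 h)
  · exact tw_anti

lemma tw_lt_iff {a b : ℕ} : tw b < tw a ↔ a < b := by
  rw [← not_le, tw_le_iff, not_le]

@[simp] lemma tw_zero : tw 0 = 1 := by simp [tw]

lemma tw_one : tw 1 = 1 / 2 := by simp [tw]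

lemma tw_le_one (k : ℕ) : tw k ≤ 1 := by simpa using tw_anti (Nat.zero_le k)

lemma two_pow_mul_tw (k : ℕ) : (2 : ℝ) ^ k * tw k = 1 := by
  unfold tw; rw [← mul_pow]; norm_num

lemma tw_succ (k : ℕ) : 2 * tw (k + 1) = tw k := by
  rw [tw_add, tw_one]; ring

lemma two_pow_mul_tw_add (a b : ℕ) : (2 : ℝ) ^ a * tw (a + b) = tw b := by
  rw [tw_add, ← mul_assoc, two_pow_mul_tw, one_mul]

lemma two_pow_mul_tw_le {a b c : ℕ} (h : a + c ≤ b) : (2 : ℝ) ^ a * tw b ≤ tw c := by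
  rw [← two_pow_mul_tw_add a c]
  exact mul_le_mul_of_nonneg_left (tw_anti h) (by positivity)

lemma two_pow_mul_tw_le' {a b c : ℕ} (h : a ≤ b + c) : (2 : ℝ) ^ a * tw b ≤ 2 ^ c := by
  calc (2 : ℝ) ^ a * tw b ≤ 2 ^ (b + c) * tw b :=
        mul_le_mul_of_nonneg_right (pow_le_pow_right₀ (by norm_num) h) (tw_pos _).le
    _ = 2 ^ c := by rw [pow_add, mul_right_comm, two_pow_mul_tw, one_mul]

lemma tw_eq_inv (k : ℕ) : tw k = ((2 : ℝ) ^ k)⁻¹ := by
  unfold tw; rw [one_div, inv_pow]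

lemma sum_tw_le (s : Finset ℕ) (t : ℕ) (h : ∀ a ∈ s, t ≤ a) : ∑ a ∈ s, tw a ≤ 2 * tw t := by
  obtain ⟨L, hL⟩ := s.exists_nat_subset_range
  have h1 : s ⊆ Finset.Ico t (t + L) := by
    intro a ha
    have := Finset.mem_range.1 (hL ha)
    exact Finset.mem_Ico.2 ⟨h a ha, by omega⟩
  have h2 : ∀ L : ℕ, ∑ a ∈ Finset.Ico t (t + L), tw a = 2 * tw t - 2 * tw (t + L) := by
    intro L
    induction L with
    | zero => simp
    | succ L ih =>
      rw [← add_assoc, Finset.sum_Ico_succ_top (by omega), ih, tw_succ]; ring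
  calc ∑ a ∈ s, tw a ≤ ∑ a ∈ Finset.Ico t (t + L), tw a :=
        Finset.sum_le_sum_of_subset_of_nonneg h1 (fun _ _ _ => (tw_pos _).le)
    _ ≤ 2 * tw t := by rw [h2]; linarith [tw_pos (t + L)]

lemma nat_le_two_pow (n : ℕ) : (n : ℝ) ≤ 2 ^ n := by
  exact_mod_cast (Nat.lt_two_pow_self (n := n)).le

lemma nat_succ_le_two_pow (n : ℕ) : (n : ℝ) + 1 ≤ 2 ^ n := by
  exact_mod_cast (Nat.lt_two_pow_self (n := n))

lemma choose_le_two_pow' (i r : ℕ) : ((i.choose r : ℕ) : ℝ) ≤ 2 ^ i := by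
  exact_mod_cast Nat.choose_le_two_pow i r

/-- Bound for Taylor coefficients at a point of absolute value at most two. -/
lemma taylor_coeff_bound (P : ℝ[X]) (M : ℕ) (H x : ℝ) (hd : P.natDegree ≤ M)
    (hH : ∀ e, |P.coeff e| ≤ H) (hx : |x| ≤ 2) (r : ℕ) :
    |(taylor x P).coeff r| ≤ 2 ^ (3 * M) * H := by
  have hH0 : 0 ≤ H := (abs_nonneg _).trans (hH 0)
  have h1 : P = ∑ e ∈ range (M + 1), monomial e (P.coeff e) :=
    P.as_sum_range' (M + 1) (by omega)
  have h2 : (taylor x P).coeff r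
      = ∑ e ∈ range (M + 1), P.coeff e * (x ^ (e - r) * (e.choose r : ℝ)) := by
    conv_lhs => rw [h1]
    rw [map_sum, finsetSum_coeff]
    refine Finset.sum_congr rfl fun e _ => ?_
    rw [taylor_monomial, coeff_C_mul, coeff_X_add_C_pow]
  rw [h2]
  calc |∑ e ∈ range (M + 1), P.coeff e * (x ^ (e - r) * (e.choose r : ℝ))|
      ≤ ∑ e ∈ range (M + 1), |P.coeff e * (x ^ (e - r) * (e.choose r : ℝ))| :=
        Finset.abs_sum_le_sum_abs _ _
    _ ≤ ∑ e ∈ range (M + 1), H * (2 ^ M * 2 ^ M) := by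
        refine Finset.sum_le_sum fun e he => ?_
        have he' : e ≤ M := by have := Finset.mem_range.1 he; omega
        rw [abs_mul, abs_mul, abs_pow, Nat.abs_cast]
        refine mul_le_mul (hH e) (mul_le_mul ?_ ?_ (by positivity) (by positivity))
          (by positivity) hH0
        · calc |x| ^ (e - r) ≤ 2 ^ (e - r) := pow_le_pow_left₀ (abs_nonneg _) hx _
            _ ≤ 2 ^ M := pow_le_pow_right₀ (by norm_num) (by omega)
        · exact (choose_le_two_pow' e r).trans (pow_le_pow_right₀ (by norm_num) he')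
    _ = ((M : ℝ) + 1) * (H * (2 ^ M * 2 ^ M)) := by
        rw [Finset.sum_const, Finset.card_range, nsmul_eq_mul]; push_cast; ring
    _ ≤ 2 ^ M * (H * (2 ^ M * 2 ^ M)) :=
        mul_le_mul_of_nonneg_right (nat_succ_le_two_pow M) (by positivity)
    _ = 2 ^ (3 * M) * H := by ring

/-- Taylor tail bound. -/
lemma taylor_tail (P : ℝ[X]) (M : ℕ) (H x y : ℝ) (hd : P.natDegree ≤ M)
    (hH : ∀ e, |P.coeff e| ≤ H) (hx : |x| ≤ 2) (hy : |y| ≤ 1) (u : ℕ) :
    |P.eval (x + y) - ∑ r ∈ range u, (taylor x P).coeff r * y ^ r| ≤ 2 ^ (4 * M) * H * |y| ^ u := by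
  have hH0 : 0 ≤ H := (abs_nonneg _).trans (hH 0)
  have h1 : P.eval (x + y) = ∑ r ∈ range (u + (M + 1)), (taylor x P).coeff r * y ^ r := by
    rw [add_comm x y, ← taylor_eval]
    exact eval_eq_sum_range' (by rw [natDegree_taylor]; omega) y
  rw [h1, Finset.sum_range_add, add_sub_cancel_left]
  calc |∑ r ∈ range (M + 1), (taylor x P).coeff (u + r) * y ^ (u + r)|
      ≤ ∑ r ∈ range (M + 1), |(taylor x P).coeff (u + r) * y ^ (u + r)| :=
        Finset.abs_sum_le_sum_abs _ _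
    _ ≤ ∑ r ∈ range (M + 1), (2 ^ (3 * M) * H) * |y| ^ u := by
        refine Finset.sum_le_sum fun r _ => ?_
        rw [abs_mul, abs_pow]
        refine mul_le_mul (taylor_coeff_bound P M H x hd hH hx _) ?_ (by positivity)
          (by positivity)
        exact pow_le_pow_of_le_one (abs_nonneg _) hy (by omega)
    _ = ((M : ℝ) + 1) * ((2 ^ (3 * M) * H) * |y| ^ u) := by
        rw [Finset.sum_const, Finset.card_range, nsmul_eq_mul]; push_cast; ring
    _ ≤ 2 ^ M * ((2 ^ (3 * M) * H) * |y| ^ u) :=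
        mul_le_mul_of_nonneg_right (nat_succ_le_two_pow M) (by positivity)
    _ = 2 ^ (4 * M) * H * |y| ^ u := by ring

lemma taylor_tail_zero (P : ℝ[X]) (M : ℕ) (H x y : ℝ) (hd : P.natDegree ≤ M)
    (hH : ∀ e, |P.coeff e| ≤ H) (hx : |x| ≤ 2) (hy : |y| ≤ 1) (u : ℕ)
    (hz : ∀ r < u, (taylor x P).coeff r = 0) :
    |P.eval (x + y)| ≤ 2 ^ (4 * M) * H * |y| ^ u := by
  have := taylor_tail P M H x y hd hH hx hy u
  rwa [Finset.sum_eq_zero (fun r hr => by rw [hz r (Finset.mem_range.1 hr), zero_mul]),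
    sub_zero] at this

lemma taylor_tail_lower (P : ℝ[X]) (M : ℕ) (H x y : ℝ) (hd : P.natDegree ≤ M)
    (hH : ∀ e, |P.coeff e| ≤ H) (hx : |x| ≤ 2) (hy : |y| ≤ 1) (u : ℕ)
    (hz : ∀ r < u, (taylor x P).coeff r = 0) :
    |y| ^ u * (|(taylor x P).coeff u| - 2 ^ (4 * M) * H * |y|) ≤ |P.eval (x + y)| := by
  have := taylor_tail P M H x y hd hH hx hy (u + 1)
  rw [Finset.sum_range_succ,
    Finset.sum_eq_zero (fun r hr => by rw [hz r (Finset.mem_range.1 hr), zero_mul]),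
    zero_add] at this
  have h2 := abs_sub_abs_le_abs_sub ((taylor x P).coeff u * y ^ u) (P.eval (x + y))
  rw [abs_sub_comm, abs_mul, abs_pow] at h2
  rw [pow_succ] at this
  nlinarith

/-- Determinant bound with row and column weights. -/
lemma abs_det_le {n : ℕ} (A : Matrix (Fin n) (Fin n) ℝ) (u w : Fin n → ℝ)
    (h : ∀ i j, |A i j| ≤ u i * w j) :
    |A.det| ≤ (n.factorial : ℝ) * ((∏ i, u i) * ∏ j, w j) := by
  rw [Matrix.det_apply']
  calc |∑ σ : Equiv.Perm (Fin n), (Equiv.Perm.sign σ : ℤ) * ∏ i, A (σ i) i|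
      ≤ ∑ σ : Equiv.Perm (Fin n), |(Equiv.Perm.sign σ : ℤ) * ∏ i, A (σ i) i| :=
        Finset.abs_sum_le_sum_abs _ _
    _ ≤ ∑ σ : Equiv.Perm (Fin n), (∏ i, u i) * ∏ j, w j := by
        refine Finset.sum_le_sum fun σ _ => ?_
        have hs : |((Equiv.Perm.sign σ : ℤ) : ℝ)| = 1 := by
          rcases Int.units_eq_one_or (Equiv.Perm.sign σ) with h1 | h1 <;> simp [h1]
        rw [abs_mul, hs, one_mul, Finset.abs_prod, ← Equiv.prod_comp σ u,
          ← Finset.prod_mul_distrib]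
        exact Finset.prod_le_prod (fun _ _ => abs_nonneg _) fun i _ => h _ _
    _ = (n.factorial : ℝ) * ((∏ i, u i) * ∏ j, w j) := by
        rw [Finset.sum_const, Finset.card_univ, Fintype.card_perm, Fintype.card_fin, nsmul_eq_mul]

/-- `k!` divides `m^k * ∏_{h<k} (y - m h)`. -/
lemma factorial_dvd_prod (m k : ℕ) (y : ℤ) :
    (k.factorial : ℤ) ∣ (m : ℤ) ^ k * ∏ h ∈ range k, (y - m * h) := by
  rw [Int.natCast_dvd]
  rw [Nat.dvd_iff_prime_pow_dvd_dvd]
  intro p j hp hj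
  rw [← Int.natCast_dvd]
  by_cases hpm : p ∣ m
  · rcases Nat.eq_zero_or_pos k with rfl | hk
    · have : p ^ j = 1 := by simpa using hj
      simp [this]
    · have := Fact.mk hp
      have h1 : j ≤ padicValNat p k.factorial :=
        (padicValNat_dvd_iff_le (Nat.factorial_ne_zero k)).1 hj
      have h2 := padicValNat_factorial_lt_of_ne_zero p hk.ne'
      have h3 : p ^ j ∣ m ^ k := (pow_dvd_pow p (by omega)).trans (pow_dvd_pow_of_dvd hpm k)
      exact Dvd.dvd.mul_right (by exact_mod_cast h3) _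
  · have hc : IsCoprime (m : ℤ) ((p ^ j : ℕ) : ℤ) := by
      rw [Nat.isCoprime_iff_coprime]
      exact (((Nat.Prime.coprime_iff_not_dvd hp).2 hpm).symm).pow_right j
    obtain ⟨a, b, hab⟩ := hc
    have h1 : ∏ h ∈ range k, (y - m * h)
        ≡ ∏ h ∈ range k, ((m : ℤ) * (a * y - h)) [ZMOD ((p ^ j : ℕ) : ℤ)] := by
      refine Int.ModEq.prod fun h _ => ?_
      rw [Int.modEq_iff_dvd]
      exact ⟨-(b * y), by linear_combination y * hab⟩
    have h2 : ((p ^ j : ℕ) : ℤ) ∣ ∏ h ∈ range k, ((m : ℤ) * (a * y - h)) := by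
      rw [Finset.prod_mul_distrib]
      refine Dvd.dvd.mul_left ?_ _
      refine (Int.natCast_dvd_natCast.2 hj).trans ?_
      have h3 := Ring.descPochhammer_eq_factorial_smul_choose (a * y) k
      have h4 : (descPochhammer ℤ k).smeval (a * y) = ∏ h ∈ range k, (a * y - h) := by
        rw [← descPochhammer_eval_eq_prod_range, ← Polynomial.eval_eq_smeval]
      rw [← h4, h3]
      exact ⟨Ring.choose (a * y) k, by simp⟩
    exact Dvd.dvd.mul_left (h1.dvd_iff.2 h2) _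

lemma theta_dvd (P : ℝ[X]) (s : ℕ) (r : ℝ) (h : (X - 1) ^ (s + 1) ∣ P) :
    (X - 1) ^ s ∣ X * derivative P - C r * P := by
  obtain ⟨Q, rfl⟩ := h
  refine ⟨X * (((s + 1 : ℕ) : ℝ[X]) * Q + (X - 1) * derivative Q) - C r * ((X - 1) * Q), ?_⟩
  simp only [derivative_mul, derivative_pow, derivative_sub, derivative_X, derivative_one,
    Nat.add_sub_cancel, map_natCast]
  ring

lemma theta_coeff (P : ℝ[X]) (r : ℝ) (e : ℕ) :
    (X * derivative P - C r * P).coeff e = (e - r) * P.coeff e := by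
  rw [coeff_sub, coeff_C_mul]
  cases e with
  | zero => simp
  | succ e => rw [coeff_X_mul, coeff_derivative]; push_cast; ring

lemma exists_theta {ι : Type*} (S : Finset ι) (r : ι → ℝ) (P : ℝ[X]) (s : ℕ)
    (h : (X - 1) ^ (s + S.card) ∣ P) :
    ∃ Q : ℝ[X], (X - 1) ^ s ∣ Q ∧ ∀ e, Q.coeff e = (∏ x ∈ S, ((e : ℝ) - r x)) * P.coeff e := by
  classical
  induction S using Finset.induction_on generalizing s with
  | empty => exact ⟨P, by simpa using h, by simp⟩
  | insert a S ha ih =>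
    rw [Finset.card_insert_of_notMem ha, show s + (S.card + 1) = (s + 1) + S.card by ring] at h
    obtain ⟨Q, hQ, hc⟩ := ih (s + 1) h
    refine ⟨X * derivative Q - C (r a) * Q, theta_dvd Q s _ hQ, fun e => ?_⟩
    rw [theta_coeff, hc, Finset.prod_insert ha]; ring

/-- A polynomial with at most `s` monomials vanishing to order `s` at one is zero. -/
lemma eq_zero_of_sparse (s : ℕ) (G : ℝ[X]) (hs : G.support.card ≤ s) (h : (X - 1) ^ s ∣ G) :
    G = 0 := by
  by_contra hG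
  obtain ⟨e0, he0⟩ := support_nonempty.2 hG
  have hcard : (G.support.erase e0).card + 1 = G.support.card :=
    Finset.card_erase_add_one he0
  have h1 : (X - 1 : ℝ[X]) ^ (1 + (G.support.erase e0).card) ∣ G :=
    (pow_dvd_pow _ (by omega)).trans h
  obtain ⟨Q, hQ, hc⟩ := exists_theta (G.support.erase e0) (fun e => (e : ℝ)) G 1 h1
  have hQ' : Q = monomial e0 (Q.coeff e0) := by
    ext e
    rw [coeff_monomial]
    split_ifs with he
    · rw [he]
    · rw [hc]
      by_cases hs : e ∈ G.support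
      · rw [Finset.prod_eq_zero (Finset.mem_erase.2 ⟨fun h => he h.symm, hs⟩) (sub_self _),
          zero_mul]
      · rw [notMem_support_iff.1 hs, mul_zero]
  have h2 : Q.eval 1 = 0 := by
    obtain ⟨R, hR⟩ := hQ
    rw [hR]; simp
  rw [hQ'] at h2
  simp only [eval_monomial, one_pow, mul_one] at h2
  rw [hc] at h2
  rcases mul_eq_zero.1 h2 with h3 | h3
  · obtain ⟨e, he, h4⟩ := Finset.prod_eq_zero_iff.1 h3
    have : e0 = e := by exact_mod_cast sub_eq_zero.1 h4
    exact (Finset.mem_erase.1 he).1 this.symm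
  · exact mem_support_iff.1 he0 h3

end Pool.Agent.MP_b86f6c_nt
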