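import Pool.Agent.MP_b86f6c_nt.Basic

set_option autoImplicit false

namespace Pool.Agent.MP_b86f6c_nt

open Polynomial Finset

lemma card_le_of_separated {ι : Type*} (S : Finset ι) (f : ι → ℝ) (A L s : ℝ) (hs : 0 < s)
    (hL : 0 ≤ L) (h1 : ∀ i ∈ S, A ≤ f i ∧ f i ≤ A + L)
    (h2 : ∀ i ∈ S, ∀ j ∈ S, i ≠ j → s ≤ |f i - f j|) : (S.card : ℝ) ≤ L / s + 1 := by
  have h3 : S.card ≤ (range (⌊L / s⌋₊ + 1)).card := by
    refine Finset.card_le_card_of_injOn (fun i => ⌊(f i - A) / s⌋₊) ?_ ?_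
    · intro i hi
      have := h1 i hi
      simp only [coe_range, Set.mem_Iio]
      refine Nat.lt_succ_of_le (Nat.floor_le_floor ?_)
      exact div_le_div_of_nonneg_right (by linarith [this.2]) hs.le
    · intro i hi j hj hij
      by_contra hne
      have h4 := h2 i hi j hj hne
      have hi0 : 0 ≤ (f i - A) / s := div_nonneg (by linarith [(h1 i hi).1]) hs.le
      have hj0 : 0 ≤ (f j - A) / s := div_nonneg (by linarith [(h1 j hj).1]) hs.le
      have a1 := Nat.floor_le hi0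
      have a2 := Nat.lt_floor_add_one ((f i - A) / s)
      have a3 := Nat.floor_le hj0
      have a4 := Nat.lt_floor_add_one ((f j - A) / s)
      simp only at hij
      rw [hij] at a1 a2
      have h5 : |(f i - A) / s - (f j - A) / s| < 1 := by
        rw [abs_lt]; constructor <;> linarith
      rw [← sub_div, abs_div, abs_of_pos hs, div_lt_one hs, sub_sub_sub_cancel_right] at h5
      linarith
  rw [Finset.card_range] at h3
  have h4 : (S.card : ℝ) ≤ (⌊L / s⌋₊ : ℝ) + 1 := by exact_mod_cast h3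
  linarith [Nat.floor_le (div_nonneg hL hs.le)]

lemma one_le_abs_sub_int {a b : ℤ} (h : a ≠ b) : (1 : ℝ) ≤ |(a : ℝ) - b| := by
  have := Int.one_le_abs (sub_ne_zero.2 h)
  exact_mod_cast this

lemma count_near (S : Finset ℤ) (γ β δ : ℝ) (g : ℕ) (hg : 1 ≤ g) (hδ : 0 ≤ δ)
    (h : ∀ c ∈ S, |(c + γ) / g - β| < δ) : (S.card : ℝ) ≤ 2 * δ * g + 1 := by
  have hg' : (0 : ℝ) < g := by exact_mod_cast hg
  have := card_le_of_separated S (fun c => (c + γ) / g) (β - δ) (2 * δ) (1 / g) (by positivity)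
    (by positivity) (fun c hc => by
      have := abs_lt.1 (h c hc); constructor <;> linarith [this.1, this.2])
    (fun c _ c' _ hne => by
      rw [← sub_div, abs_div, abs_of_pos hg', add_sub_add_right_eq_sub]
      exact div_le_div_of_nonneg_right (one_le_abs_sub_int hne) hg'.le)
  simpa using this

lemma card_le_of_fibers {ι κ : Type*} [DecidableEq κ] (S : Finset ι) (φ : ι → κ) (T : Finset κ)
    (hT : ∀ i ∈ S, φ i ∈ T) (b : ℝ) (hb : ∀ t ∈ T, ((S.filter fun i => φ i = t).card : ℝ) ≤ b) :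
    (S.card : ℝ) ≤ T.card * b := by
  rw [Finset.card_eq_sum_card_fiberwise hT]
  push_cast
  exact (Finset.sum_le_card_nsmul _ _ _ hb).trans (by rw [nsmul_eq_mul])

lemma count_small (S : Finset ℤ) (γ x0 r δ : ℝ) (g Q : ℕ) (hg : 1 ≤ g) (hQ : 1 ≤ Q)
    (hδ : 0 ≤ δ) (hr : 0 ≤ r) (hS : ∀ c ∈ S, x0 ≤ (c + γ) / g ∧ (c + γ) / g ≤ x0 + r)
    (hbad : ∀ c ∈ S, ∃ q p : ℤ, 1 ≤ q ∧ q ≤ Q ∧ |(c + γ) / g - p / q| < δ) :
    (S.card : ℝ) ≤ ((r + 2 * δ) * Q ^ 2 + 1) * (2 * δ * g + 1) := by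
  classical
  choose! q p hq1 hq2 hpq using hbad
  let φ : ℤ → ℝ := fun c => (p c : ℝ) / q c
  have hQ' : (0 : ℝ) < Q := by exact_mod_cast hQ
  have h1 := card_le_of_fibers S φ (S.image φ) (fun c hc => Finset.mem_image_of_mem _ hc)
    (2 * δ * g + 1) (fun β _ => count_near _ γ β δ g hg hδ fun c hc => by
      obtain ⟨h1, h2⟩ := Finset.mem_filter.1 hc
      rw [← h2]; exact hpq c h1)
  have h2 := card_le_of_separated (S.image φ) id (x0 - δ) (r + 2 * δ) (1 / Q ^ 2) (by positivity)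
    (by positivity) (fun β hβ => by
      obtain ⟨c, hc, rfl⟩ := Finset.mem_image.1 hβ
      have h3 := abs_lt.1 (hpq c hc)
      have h4 := hS c hc
      simp only [id, φ]
      constructor <;> linarith [h3.1, h3.2, h4.1, h4.2])
    (fun β hβ β' hβ' hne => by
      obtain ⟨c, hc, rfl⟩ := Finset.mem_image.1 hβ
      obtain ⟨c', hc', rfl⟩ := Finset.mem_image.1 hβ'
      simp only [id, φ] at hne ⊢
      have a1 : (1 : ℝ) ≤ q c := by exact_mod_cast hq1 c hc
      have a2 : (1 : ℝ) ≤ q c' := by exact_mod_cast hq1 c' hc'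
      have a3 : (q c : ℝ) ≤ Q := by exact_mod_cast hq2 c hc
      have a4 : (q c' : ℝ) ≤ Q := by exact_mod_cast hq2 c' hc'
      have a5 : p c * q c' ≠ q c * p c' := by
        intro h
        apply hne
        rw [div_eq_div_iff (by positivity) (by positivity)]
        have : ((p c * q c' : ℤ) : ℝ) = ((q c * p c' : ℤ) : ℝ) := by rw [h]
        push_cast at this
        linarith
      have a6 := one_le_abs_sub_int a5
      push_cast at a6
      rw [div_sub_div _ _ (by positivity) (by positivity), abs_div,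
        abs_of_pos (by positivity : (0 : ℝ) < q c * q c')]
      refine div_le_div₀ (by positivity) a6 (by positivity) ?_
      rw [sq]; gcongr)
  refine h1.trans (mul_le_mul_of_nonneg_right ?_ (by positivity))
  simpa using h2

lemma count_pairs (S : Finset ℤ) (γ δ : ℝ) (g : ℕ) (hg : g.Prime) (Q : ℕ)
    (hS : ∀ c ∈ S, ∀ c' ∈ S, |c - c'| < g)
    (hbad : ∀ c ∈ S, ∃ q p : ℤ, 1 ≤ q ∧ q ≤ Q ∧ |(c + γ) / g - p / q| < δ)
    (hex : ∀ q r : ℤ, 1 ≤ q → q ≤ Q → δ * Q ≤ |q * γ - r|) :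
    ∃ T : Finset (ℤ × ℤ), S.card = T.card ∧
      ∀ x ∈ T, 1 ≤ x.1 ∧ x.1 ≤ Q ∧ |x.1 * γ - x.2| < δ * g * Q := by
  classical
  choose! q p hq1 hq2 hpq using hbad
  have hg' : (0 : ℝ) < g := by exact_mod_cast hg.pos
  have hkey : ∀ c ∈ S, |q c * γ - ((g * p c - c * q c : ℤ) : ℝ)| < δ * g * q c := by
    intro c hc
    have a1 : (0 : ℝ) < q c := by exact_mod_cast hq1 c hc
    have a2 := hpq c hc
    have a3 : (c + γ) / g - p c / q c
        = (q c * γ - ((g * p c - c * q c : ℤ) : ℝ)) / (g * q c) := by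
      push_cast; field_simp; ring
    rw [a3, abs_div, abs_of_pos (by positivity : (0 : ℝ) < g * q c),
      div_lt_iff₀ (by positivity)] at a2
    linarith
  have hδ : ∀ c ∈ S, 0 < δ := fun c hc => (abs_nonneg _).trans_lt (hpq c hc)
  refine ⟨S.image fun c => (q c, g * p c - c * q c), ?_, ?_⟩
  · refine (Finset.card_image_of_injOn ?_).symm
    intro c hc c' hc' h
    simp only [Prod.mk.injEq] at h
    obtain ⟨e1, e2⟩ := h
    have h1 : (g : ℤ) ∣ (c - c') * q c := ⟨p c - p c', by rw [← e1] at e2; linear_combination -e2⟩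
    rcases (Nat.prime_iff_prime_int.1 hg).dvd_or_dvd h1 with h2 | h2
    · have := Int.eq_zero_of_abs_lt_dvd h2 (hS c hc c' hc')
      linarith
    · exfalso
      obtain ⟨q', hq'⟩ := h2
      have b0 : (1 : ℤ) ≤ g := by exact_mod_cast hg.pos
      have b1 := hq1 c hc
      have b2 := hq2 c hc
      have b3 : 1 ≤ q' := by
        by_contra hn
        push Not at hn
        have : (g : ℤ) * q' ≤ 0 := mul_nonpos_of_nonneg_of_nonpos (by omega) (by omega)
        omega
      have b4 : q' ≤ Q := by nlinarith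
      have b5 := hex q' (p c - c * q') b3 b4
      have b6 := hkey c hc
      have b7 : q c * γ - ((g * p c - c * q c : ℤ) : ℝ)
          = g * (q' * γ - ((p c - c * q' : ℤ) : ℝ)) := by
        rw [hq']; push_cast; ring
      rw [b7, abs_mul, abs_of_pos hg'] at b6
      have b8 : (q c : ℝ) ≤ Q := by exact_mod_cast b2
      have b9 := hδ c hc
      have : δ * g * q c ≤ g * (δ * Q) := by
        rw [show g * (δ * Q) = δ * g * Q by ring]; gcongr
      nlinarith
  · intro x hx
    obtain ⟨c, hc, rfl⟩ := Finset.mem_image.1 hx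
    refine ⟨hq1 c hc, hq2 c hc, (hkey c hc).trans_le ?_⟩
    have b8 : (q c : ℝ) ≤ Q := by exact_mod_cast hq2 c hc
    have b9 := hδ c hc
    gcongr

lemma count_mid (T : Finset (ℤ × ℤ)) (γ η : ℝ) (Q : ℕ) (hη : 0 ≤ η)
    (h : ∀ x ∈ T, 1 ≤ x.1 ∧ x.1 ≤ Q ∧ |x.1 * γ - x.2| < η) :
    (T.card : ℝ) ≤ Q * (2 * η + 1) := by
  have := card_le_of_fibers T Prod.fst (Finset.Icc 1 (Q : ℤ))
    (fun x hx => Finset.mem_Icc.2 ⟨(h x hx).1, (h x hx).2.1⟩) (2 * η + 1) (fun q _ => by
      have := card_le_of_separated (T.filter fun x => x.1 = q) (fun x => (x.2 : ℝ))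
        (q * γ - η) (2 * η) 1 one_pos (by positivity) (fun x hx => by
          obtain ⟨h1, h2⟩ := Finset.mem_filter.1 hx
          have := abs_lt.1 (h x h1).2.2
          rw [h2] at this
          constructor <;> linarith [this.1, this.2])
        (fun x hx y hy hne => by
          refine one_le_abs_sub_int fun h3 => hne (Prod.ext ?_ h3)
          rw [(Finset.mem_filter.1 hx).2, (Finset.mem_filter.1 hy).2])
      simpa using this)
  simpa using this

lemma count_large (T : Finset (ℤ × ℤ)) (γ η : ℝ) (Q G : ℕ) (hG : 1 ≤ G) (hη : 2 * η ≤ 1)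
    (h : ∀ x ∈ T, 1 ≤ x.1 ∧ x.1 ≤ Q ∧ |x.1 * γ - x.2| < η)
    (hgap : ∀ q r : ℤ, 1 ≤ q → q ≤ G → 2 * η ≤ |q * γ - r|) :
    (T.card : ℝ) ≤ Q / G + 1 := by
  have hG' : (0 : ℝ) < G := by exact_mod_cast hG
  refine card_le_of_separated T (fun x => (x.1 : ℝ)) 0 Q G hG' (by positivity) ?_ ?_
  · intro x hx
    obtain ⟨h1, h2, -⟩ := h x hx
    constructor
    · exact_mod_cast (by omega : 0 ≤ x.1)
    · rw [zero_add]; exact_mod_cast h2
  · have aux : ∀ x ∈ T, ∀ y ∈ T, x ≠ y → y.1 ≤ x.1 → (G : ℝ) ≤ |(x.1 : ℝ) - y.1| := by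
      intro x hx y hy hne hle
      have a1 := abs_lt.1 (h x hx).2.2
      have a2 := abs_lt.1 (h y hy).2.2
      have a3 : |((x.1 - y.1 : ℤ) : ℝ) * γ - ((x.2 - y.2 : ℤ) : ℝ)| < 2 * η := by
        push_cast
        rw [abs_lt]; constructor <;> nlinarith [a1.1, a1.2, a2.1, a2.2]
      by_contra hc
      push Not at hc
      rcases hle.eq_or_lt with h0 | h0
      · have a4 : x.2 ≠ y.2 := fun h4 => hne (Prod.ext h0.symm h4)
        have a5 := one_le_abs_sub_int a4
        rw [h0, sub_self] at a3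
        push_cast at a3
        rw [zero_mul, zero_sub, abs_neg] at a3
        linarith
      · have a4 : |x.1 - y.1| < G := by exact_mod_cast hc
        have a5 := hgap (x.1 - y.1) (x.2 - y.2) (by omega) (by
          have := le_abs_self (x.1 - y.1); omega)
        linarith
    intro x hx y hy hne
    rcases le_total y.1 x.1 with h1 | h1
    · exact aux x hx y hy hne h1
    · rw [abs_sub_comm]; exact aux y hy x hx hne.symm h1

end Pool.Agent.MP_b86f6c_nt
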