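import Pool.Agent.MP_b86f6c_nt.Main

set_option autoImplicit false

namespace Pool.Agent.MP_b86f6c_nt

open Polynomial Finset

/-- The naive height. -/
def ht (P : ℤ[X]) : ℕ := P.support.sup fun i => (P.coeff i).natAbs

lemma coeff_le_ht (P : ℤ[X]) (e : ℕ) : |(P.coeff e : ℝ)| ≤ ht P := by
  by_cases he : e ∈ P.support
  · have h1 : (P.coeff e).natAbs ≤ ht P :=
      Finset.le_sup (f := fun i => (P.coeff i).natAbs) he
    rw [← Int.cast_abs, Int.abs_eq_natAbs, Int.cast_natCast]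
    exact_mod_cast h1
  · rw [notMem_support_iff.1 he]; simp

lemma Bd.ht_le {n a : ℕ} {P : ℤ[X]} (h : Bd n a P) : (ht P : ℝ) ≤ 2 ^ a := by
  have : ht P ≤ 2 ^ a := Finset.sup_le fun e _ => by
    have h1 := h.2 e
    rw [← Int.cast_abs, Int.abs_eq_natAbs, Int.cast_natCast] at h1
    exact_mod_cast h1
  exact_mod_cast this

lemma Bd_of_ht {n a : ℕ} {P : ℤ[X]} (h1 : P.natDegree ≤ n) (h2 : ht P ≤ 2 ^ a) : Bd n a P :=
  ⟨h1, fun e => (coeff_le_ht P e).trans (by exact_mod_cast h2)⟩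

lemma one_le_ht {P : ℤ[X]} (h : P ≠ 0) : (1 : ℝ) ≤ ht P := by
  refine le_trans ?_ (coeff_le_ht P P.natDegree)
  exact_mod_cast Int.one_le_abs (leadingCoeff_ne_zero.2 h)

lemma finite_Bd (n a : ℕ) : {P : ℤ[X] | Bd n a P}.Finite := by
  obtain ⟨F, -, hF⟩ := exists_finset_Bd n a
  exact F.finite_toSet.subset fun P hP => hF P hP

lemma tw_eq_rpow (k : ℕ) : tw k = (2 : ℝ) ^ (-(k : ℝ)) := by
  rw [tw_eq_inv, Real.rpow_neg (by norm_num), Real.rpow_natCast]

lemma rpow_neg_le_tw {H w : ℝ} {b k : ℕ} (hH : 2 ^ b ≤ H) (hw : 0 ≤ w) (hk : (k : ℝ) ≤ b * w) :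
    H ^ (-w) ≤ tw k := by
  calc H ^ (-w) ≤ ((2 : ℝ) ^ b) ^ (-w) :=
        Real.rpow_le_rpow_of_nonpos (by positivity) hH (by linarith)
    _ = 2 ^ (b * -w) := by rw [← Real.rpow_natCast, ← Real.rpow_mul (by norm_num)]
    _ ≤ tw k := by
        rw [tw_eq_rpow]
        exact Real.rpow_le_rpow_of_exponent_le (by norm_num) (by linarith)

lemma tw_le_rpow_neg {H w : ℝ} {b k : ℕ} (hH0 : 0 < H) (hH : H ≤ 2 ^ b) (hw : 0 ≤ w)
    (hk : b * w ≤ (k : ℝ)) : tw k ≤ H ^ (-w) := by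
  calc tw k ≤ 2 ^ (b * -w) := by
        rw [tw_eq_rpow]
        exact Real.rpow_le_rpow_of_exponent_le (by norm_num) (by linarith)
    _ = ((2 : ℝ) ^ b) ^ (-w) := by rw [← Real.rpow_natCast, ← Real.rpow_mul (by norm_num)]
    _ ≤ H ^ (-w) := Real.rpow_le_rpow_of_nonpos hH0 hH (by linarith)

theorem main (ε : ℝ) (hε : 0 < ε) : ∃ ξ : ℝ, Transcendental ℤ ξ ∧
      (∀ n : ℕ, ∃ W : ℝ,
        {P : Polynomial ℤ | P.natDegree ≤ n ∧ Polynomial.aeval ξ P ≠ 0 ∧
          |Polynomial.aeval ξ P| ≤ (ht P : ℝ) ^ (-W)}.Finite) ∧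
      (∀ M : ℝ, ∃ n : ℕ, 1 ≤ n ∧ ∃ w : ℝ, M * (n : ℝ) < w ∧
        {P : Polynomial ℤ | P.natDegree ≤ n ∧ Polynomial.aeval ξ P ≠ 0 ∧
          |Polynomial.aeval ξ P| ≤ (ht P : ℝ) ^ (-w)}.Infinite) ∧
      (∀ w : ℝ, 1 + ε < w →
        {P : Polynomial ℤ | P.natDegree ≤ 1 ∧ Polynomial.aeval ξ P ≠ 0 ∧
          |Polynomial.aeval ξ P| ≤ (ht P : ℝ) ^ (-w)}.Finite) := by
  obtain ⟨D, hD⟩ := exists_nat_gt (4 / ε)
  have hD0 : (0 : ℝ) < D := lt_trans (by positivity) hD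
  have hD1 : 1 ≤ D := by exact_mod_cast hD0
  have hDε : 4 < D * ε := by rwa [div_lt_iff₀ hε] at hD
  obtain ⟨ξ, ⟨l0, h1⟩, h2, h3⟩ := exists_xi D hD1
  have htr : ∀ P : ℤ[X], P ≠ 0 → aeval ξ P ≠ 0 := by
    intro P hP h
    obtain ⟨a0, ha0⟩ := h2 P.natDegree
    have := ha0 (a0 + ht P) (by omega) P hP (Bd_of_ht le_rfl
      ((Nat.lt_two_pow_self).le.trans (Nat.pow_le_pow_right (by norm_num) (by omega))))
    rw [h, abs_zero] at this
    exact absurd (tw_pos _) (not_lt.2 this)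
  refine ⟨ξ, ?_, ?_, ?_, ?_⟩
  · rintro ⟨P, hP, h⟩
    exact htr P hP h
  · intro n
    obtain ⟨a0, ha0⟩ := h2 n
    refine ⟨(WW D n + 1 : ℕ), (finite_Bd n (a0 + WW D n + 2)).subset ?_⟩
    rintro P ⟨b1, b2, b3⟩
    have hP0 : P ≠ 0 := by rintro rfl; simp at b2
    by_cases hc : ht P ≤ 2 ^ (a0 + WW D n + 2)
    · exact Bd_of_ht b1 hc
    exfalso
    push Not at hc
    have hex : ∃ a, ht P ≤ 2 ^ a := ⟨ht P, (Nat.lt_two_pow_self).le⟩
    classical
    have c1 := Nat.find_spec hex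
    have c2 : a0 + WW D n + 2 < Nat.find hex := by
      by_contra h
      exact absurd (c1.trans (Nat.pow_le_pow_right (by norm_num) (not_lt.1 h))) (not_le.2 hc)
    obtain ⟨a, ha⟩ : ∃ a, Nat.find hex = a + 1 := ⟨Nat.find hex - 1, by omega⟩
    have c3 : ¬ ht P ≤ 2 ^ a := Nat.find_min hex (by omega)
    rw [ha] at c1 c2
    have c4 := ha0 (a + 1) (by omega) P hP0 (Bd_of_ht b1 c1)
    have c5 : (ht P : ℝ) ^ (-((WW D n + 1 : ℕ) : ℝ)) ≤ tw (a * (WW D n + 1)) :=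
      rpow_neg_le_tw (b := a) (by exact_mod_cast (not_le.1 c3).le) (by positivity)
        (by push_cast; exact le_rfl)
    have c6 := tw_le_iff.1 (c4.trans (b3.trans c5))
    nlinarith
  · intro M
    obtain ⟨m0, hm0⟩ := exists_nat_gt M
    refine ⟨m0 + 2, by omega, ((m0 + 2 : ℕ) : ℝ) ^ 2, ?_, ?_⟩
    · rw [sq]
      refine mul_lt_mul_of_pos_right ?_ (by positivity)
      push_cast; linarith
    · intro hfin
      obtain ⟨B, hB⟩ := (hfin.image ht).bddAbove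
      obtain ⟨P, u, c1, c2, c3, c4⟩ := h3 (m0 + 2) (by omega) B
      have hP0 : P ≠ 0 := by
        rintro rfl
        simp only [coeff_zero, Int.cast_zero, abs_zero] at c2
        exact absurd c2 (not_le.2 (by positivity))
      have c5 : ht P ≤ B := hB ⟨P, ⟨c3.1, htr P hP0, c4.trans
        (tw_le_rpow_neg (lt_of_lt_of_le one_pos (one_le_ht hP0)) c3.ht_le (by positivity)
          (by push_cast; exact le_rfl))⟩, rfl⟩
      have c6 : 2 ^ u ≤ ht P := by exact_mod_cast c2.trans (coeff_le_ht P _)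
      have c7 : 2 ^ B ≤ 2 ^ u := Nat.pow_le_pow_right (by norm_num) c1
      have c8 : B < 2 ^ B := Nat.lt_two_pow_self
      omega
  · intro w hw
    obtain ⟨b, hb⟩ := exists_nat_ge |ξ|
    have hb2 : |ξ| ≤ 2 ^ b := hb.trans (nat_le_two_pow b)
    set L := l0 + 2 * D + 5 with hL
    refine (finite_Bd 1 (D * L + b + 1)).subset ?_
    rintro P ⟨b1, b2, b3⟩
    have hP0 : P ≠ 0 := by rintro rfl; simp at b2
    have hev : aeval ξ P = P.coeff 1 * ξ + P.coeff 0 := by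
      rw [aeval_eq_sum_range' (n := 2) (by omega)]
      simp [Finset.sum_range_succ, add_comm]
    have hw0 : 0 ≤ w := by linarith
    have b4 : |aeval ξ P| ≤ 1 :=
      b3.trans (Real.rpow_le_one_of_one_le_of_nonpos (one_le_ht hP0) (by linarith))
    by_cases hc : |P.coeff 1| ≤ 2 ^ (D * L)
    · have hc' : |(P.coeff 1 : ℝ)| ≤ 2 ^ (D * L) := by exact_mod_cast hc
      refine ⟨b1, fun e => ?_⟩
      rcases e with _ | _ | e
      · have d1 : (P.coeff 0 : ℝ) = aeval ξ P - P.coeff 1 * ξ := by rw [hev]; ring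
        rw [d1]
        refine (abs_sub _ _).trans ?_
        have d2 : |(P.coeff 1 : ℝ) * ξ| ≤ 2 ^ (D * L + b) := by
          rw [abs_mul, pow_add]; gcongr
        have d3 : (2 : ℝ) ^ 0 + 2 ^ (D * L + b) ≤ 2 ^ (D * L + b + 1) :=
          two_pow_add_le (by omega) le_rfl
        rw [pow_zero] at d3
        linarith
      · exact hc'.trans (pow_le_pow_right₀ (by norm_num) (by omega))
      · rw [coeff_eq_zero_of_natDegree_lt (by omega)]; simp
    exfalso
    push Not at hc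
    obtain ⟨q, p, hq, hqp⟩ : ∃ q p : ℤ, q = |P.coeff 1| ∧ |aeval ξ P| = |q * ξ - p| := by
      rcases le_total 0 (P.coeff 1) with h | h
      · exact ⟨P.coeff 1, -P.coeff 0, (abs_of_nonneg h).symm, by rw [hev]; push_cast; ring_nf⟩
      · refine ⟨-P.coeff 1, P.coeff 0, (abs_of_nonpos h).symm, ?_⟩
        rw [hev, ← abs_neg]; push_cast; ring_nf
    rw [← hq] at hc
    have hq1 : 1 ≤ q := by
      have : (0 : ℤ) < 2 ^ (D * L) := by positivity
      omega
    have hex : ∃ l, q ≤ 2 ^ (D * l) := by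
      refine ⟨q.toNat, ?_⟩
      have d1 : q.toNat ≤ 2 ^ (D * q.toNat) := (Nat.lt_two_pow_self).le.trans
        (Nat.pow_le_pow_right (by norm_num) (Nat.le_mul_of_pos_left _ hD1))
      have d2 : (q.toNat : ℤ) ≤ 2 ^ (D * q.toNat) := by exact_mod_cast d1
      rwa [Int.toNat_of_nonneg (by omega)] at d2
    classical
    have c1 := Nat.find_spec hex
    have c2 : L < Nat.find hex := by
      by_contra h
      exact absurd (c1.trans (pow_le_pow_right₀ (by norm_num)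
        (Nat.mul_le_mul_left _ (not_lt.1 h)))) (not_le.2 hc)
    obtain ⟨l, hl⟩ : ∃ l, Nat.find hex = l + 1 := ⟨Nat.find hex - 1, by omega⟩
    have c3 : ¬ q ≤ 2 ^ (D * l) := Nat.find_min hex (by omega)
    rw [hl] at c1 c2
    have c4 := h1 (l + 1) (by omega) q p hq1 c1
    have c5 : (2 : ℝ) ^ (D * l) ≤ q := by exact_mod_cast (not_le.1 c3).le
    have hq0 : (0 : ℝ) < q := by exact_mod_cast hq1
    have c6 : tw ((D + 3) * l + (2 * D + 3)) ≤ |q * ξ - p| := by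
      have d1 : (q : ℝ) * ξ - p = q * (ξ - p / q) := by field_simp
      rw [d1, abs_mul, abs_of_pos hq0, ← two_pow_mul_tw_add (D * l),
        show D * l + ((D + 3) * l + (2 * D + 3)) = (2 * D + 3) * (l + 1) by ring]
      exact mul_le_mul c5 c4 (tw_pos _).le hq0.le
    have c7 : (ht P : ℝ) ^ (-w) ≤ tw ((D + 4) * l) := by
      refine rpow_neg_le_tw (b := D * l) (c5.trans ?_) hw0 ?_
      · rw [hq]; push_cast; exact coeff_le_ht P 1
      · push_cast
        have : (D : ℝ) + 4 ≤ D * w := by nlinarith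
        have hl0 : (0 : ℝ) ≤ l := by positivity
        nlinarith
    have c8 := tw_le_iff.1 (c6.trans (hqp.symm.le.trans (b3.trans c7)))
    have c9 : (D + 4) * l = (D + 3) * l + l := by ring
    omega

end Pool.Agent.MP_b86f6c_nt
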