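import Pool.Agent.MP_b86f6c_nt.Basic

set_option autoImplicit false

namespace Pool.Agent.MP_b86f6c_nt

open Polynomial Finset

lemma lagr (f : ℝ[X]) (d : ℕ) (hd : f.natDegree ≤ d) (z : Fin (d + 1) → ℝ) (a l s ε y : ℝ)
    (hs : 0 < s) (hz : ∀ i, z i ∈ Set.Icc a (a + l)) (sep : ∀ i j, i ≠ j → s ≤ |z i - z j|)
    (hf : ∀ i, |f.eval (z i)| ≤ ε) (hy : y ∈ Set.Icc a (a + l)) :
    |f.eval y| ≤ (d + 1) * ε * (l / s) ^ d := by
  have hinj : Set.InjOn z (univ : Finset (Fin (d + 1))) := fun i _ j _ h => by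
    by_contra hne
    have := sep i j hne
    rw [h, sub_self, abs_zero] at this
    linarith
  have hl : 0 ≤ l := by linarith [hy.1, hy.2]
  have hε : 0 ≤ ε := (abs_nonneg _).trans (hf 0)
  have h1 := Lagrange.eq_interpolate (f := f) hinj (by
    rw [card_univ, Fintype.card_fin]
    exact degree_le_natDegree.trans_lt (by exact_mod_cast Nat.lt_succ_of_le hd))
  rw [h1, Lagrange.interpolate_apply, eval_finsetSum]
  refine (abs_sum_le_sum_abs _ _).trans
    ((sum_le_card_nsmul _ _ (ε * (l / s) ^ d) fun i _ => ?_).trans (by simp [mul_assoc]))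
  rw [eval_mul, eval_C, abs_mul, Lagrange.basis, eval_prod, abs_prod]
  refine mul_le_mul (hf i) ?_ (prod_nonneg fun _ _ => abs_nonneg _) hε
  have h2 : (l / s) ^ d = ∏ _j ∈ univ.erase i, (l / s) := by
    rw [prod_const, card_erase_of_mem (mem_univ _)]; simp
  rw [h2]
  refine prod_le_prod (fun _ _ => abs_nonneg _) fun j hj => ?_
  rw [Lagrange.basisDivisor, eval_mul, eval_C, eval_sub, eval_X, eval_C, abs_mul, abs_inv,
    inv_mul_eq_div]
  refine div_le_div₀ hl ?_ hs (sep i j (ne_of_mem_erase hj).symm)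
  rw [abs_le]
  constructor <;> linarith [hy.1, hy.2, (hz j).1, (hz j).2]

lemma succ_pow_le (d : ℕ) : ((d : ℝ) + 1) ^ (d + 1) ≤ 2 ^ (d * (d + 1)) := by
  rw [pow_mul]
  exact pow_le_pow_left₀ (by positivity) (nat_succ_le_two_pow d) _

lemma abs_sub_nat {a b M : ℕ} {s : ℝ} (hs : 0 ≤ s) (h : a + M ≤ b ∨ b + M ≤ a) (x : ℝ) :
    M * s ≤ |x + a * s - (x + b * s)| := by
  rw [add_sub_add_left_eq_sub, ← sub_mul, abs_mul, abs_of_nonneg hs]
  refine mul_le_mul_of_nonneg_right ?_ hs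
  rcases h with h | h
  · have : (a : ℝ) + M ≤ b := by exact_mod_cast h
    exact le_abs'.2 (Or.inl (by linarith))
  · have : (b : ℝ) + M ≤ a := by exact_mod_cast h
    exact le_abs'.2 (Or.inr (by linarith))

/-- Doubling property of polynomials. -/
lemma poly_dbl (f : ℝ[X]) (d : ℕ) (hd : f.natDegree ≤ d) (a x l y : ℝ) (hl : 0 < l)
    (h1 : a ≤ x) (h2 : x ≤ a + l) (hy : y ∈ Set.Icc a (a + 2 * l))
    (hf : 2 ^ ((d + 1) ^ 2) ≤ |f.eval y|) : ∃ z ∈ Set.Icc x (x + l), 1 ≤ |f.eval z| := by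
  by_contra hc
  push Not at hc
  have hd0 : (0 : ℝ) < d + 1 := by positivity
  have hm : ∀ i : Fin (d + 1), x + (i : ℕ) * (l / (d + 1)) ∈ Set.Icc x (x + l) := by
    intro i
    have h3 : ((i : ℕ) : ℝ) ≤ d + 1 := by exact_mod_cast i.2.le
    have h4 : (i : ℕ) * (l / (d + 1)) ≤ (d + 1) * (l / (d + 1)) := by gcongr
    rw [mul_div_cancel₀ _ hd0.ne'] at h4
    exact ⟨le_add_of_nonneg_right (by positivity), by linarith⟩
  have h3 := lagr f d hd (fun i => x + (i : ℕ) * (l / (d + 1))) a (2 * l) (l / (d + 1)) 1 y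
    (by positivity) (fun i => ⟨by linarith [(hm i).1], by linarith [(hm i).2]⟩)
    (fun i j hij => by
      have := abs_sub_nat (a := i) (b := j) (M := 1) (s := l / (d + 1)) (by positivity)
        (by have := Fin.val_ne_of_ne hij; omega) x
      simpa using this)
    (fun i => (hc _ (hm i)).le) hy
  have h4 : 2 * l / (l / (d + 1)) = 2 * (d + 1) := by field_simp
  rw [h4, mul_one, mul_pow] at h3
  have h5 : ((d : ℝ) + 1) * (2 ^ d * (d + 1) ^ d) ≤ 2 ^ d * 2 ^ (d * (d + 1)) := by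
    rw [mul_left_comm, ← pow_succ']
    exact mul_le_mul_of_nonneg_left (succ_pow_le d) (by positivity)
  rw [← pow_add] at h5
  have h6 : (2 : ℝ) ^ (d + d * (d + 1)) < 2 ^ ((d + 1) ^ 2) :=
    pow_lt_pow_right₀ (by norm_num) (by nlinarith)
  linarith

lemma pick (Y : Finset ℕ) (M d : ℕ) (hM : 1 ≤ M) (h : (d + 1) * M ≤ Y.card) :
    ∃ z : Fin (d + 1) → ℕ, (∀ i, z i ∈ Y) ∧ ∀ i j, i < j → z i + M ≤ z j := by
  let e := Y.orderEmbOfFin rfl
  have h1 : ∀ t (a : ℕ) (ha : a + t < Y.card), e ⟨a, by omega⟩ + t ≤ e ⟨a + t, ha⟩ := by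
    intro t
    induction t with
    | zero => intro a ha; simp
    | succ t ih =>
      intro a ha
      have h2 := ih a (by omega)
      have h3 : e ⟨a + t, by omega⟩ < e ⟨a + (t + 1), ha⟩ := e.strictMono (by simp [Fin.lt_def])
      omega
  have h2 : ∀ i : Fin (d + 1), i * M < Y.card := fun i => by have := i.2; nlinarith
  refine ⟨fun i => e ⟨i * M, h2 i⟩, fun i => Y.orderEmbOfFin_mem _ _, fun i j hij => ?_⟩
  have h3 : (i : ℕ) * M + M ≤ j * M := by have : (i : ℕ) < j := hij; nlinarith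
  exact (h1 M (i * M) (h3.trans_lt (h2 j))).trans (e.monotone (by simpa [Fin.le_def] using h3))

/-- The cell of index `i`. -/
def cell (x σ : ℝ) (i : ℕ) : Set ℝ := Set.Icc (x + i * σ) (x + (i + 1) * σ)

/-- The block of `2 ^ L` cells starting at index `i`. -/
def blk (x σ : ℝ) (i L : ℕ) : Set ℝ := Set.Icc (x + i * σ) (x + i * σ + 2 ^ L * σ)

lemma cell_sub {x σ : ℝ} (hσ : 0 < σ) {i L k : ℕ} (hk : k < 2 ^ L) :
    cell x σ (i + k) ⊆ blk x σ i L := by
  have h1 : (k : ℝ) + 1 ≤ 2 ^ L := by exact_mod_cast hk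
  have h2 : (0 : ℝ) ≤ k := by positivity
  refine Set.Icc_subset_Icc ?_ ?_ <;> push_cast <;> nlinarith

open Classical in
/-- A polynomial which is large somewhere on a block is small on few cells. -/
lemma poly_good (f : ℝ[X]) (d g : ℕ) (hd : f.natDegree ≤ d) (hd1 : d ≠ 0) (x σ : ℝ) (hσ : 0 < σ)
    (i L : ℕ) (y : ℝ) (hy : y ∈ blk x σ i L) (hf : 1 ≤ |f.eval y|) :
    (((range (2 ^ L)).filter fun k => ∀ z ∈ cell x σ (i + k),
      |f.eval z| < tw (g * d + d * (d + 1))).card : ℝ) ≤ tw g * 2 ^ L := by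
  set Z := (range (2 ^ L)).filter fun k => ∀ z ∈ cell x σ (i + k),
      |f.eval z| < tw (g * d + d * (d + 1)) with hZ
  have htg := tw_pos g
  rcases Nat.eq_zero_or_pos Z.card with h0 | h0
  · rw [h0, Nat.cast_zero]; positivity
  let Y := (Z ×ˢ range (d + 1)).image fun p => p.1 * (d + 1) + p.2
  have hY : Y.card = Z.card * (d + 1) := by
    rw [card_image_of_injOn, card_product, card_range]
    rintro ⟨a, b⟩ h1 ⟨a', b'⟩ h2 h
    have b1 : b < d + 1 := mem_range.1 (mem_product.1 h1).2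
    have b2 : b' < d + 1 := mem_range.1 (mem_product.1 h2).2
    simp only at h
    have h3 : a = a' := by
      rcases lt_trichotomy a a' with h3 | h3 | h3
      · nlinarith
      · exact h3
      · nlinarith
    subst h3
    simpa using h
  obtain ⟨z, hz1, hz2⟩ := pick Y Z.card d h0 (by rw [hY, mul_comm])
  have hd0 : (0 : ℝ) < d + 1 := by positivity
  have hm : ∀ j, ∃ k ∈ Z, x + i * σ + z j * (σ / (d + 1)) ∈ cell x σ (i + k) := by
    intro j
    obtain ⟨⟨a, b⟩, h1, h2⟩ := mem_image.1 (hz1 j)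
    have b1 : (b : ℝ) ≤ d + 1 := by exact_mod_cast (mem_range.1 (mem_product.1 h1).2).le
    have b2 : (z j : ℝ) * (σ / (d + 1)) = a * σ + b * (σ / (d + 1)) := by
      rw [← h2]; push_cast; field_simp
    have b3 : (b : ℝ) * (σ / (d + 1)) ≤ (d + 1) * (σ / (d + 1)) := by gcongr
    have b4 : 0 ≤ (b : ℝ) * (σ / (d + 1)) := by positivity
    rw [mul_div_cancel₀ _ hd0.ne'] at b3
    refine ⟨a, (mem_product.1 h1).1, ?_, ?_⟩ <;> rw [b2] <;> push_cast <;> linarith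
  have hM : (0 : ℝ) < Z.card := by exact_mod_cast h0
  have h3 := lagr f d hd (fun j => x + i * σ + z j * (σ / (d + 1))) (x + i * σ) (2 ^ L * σ)
    (Z.card * (σ / (d + 1))) (tw (g * d + d * (d + 1))) y (by positivity)
    (fun j => by
      obtain ⟨k, hk, h⟩ := hm j
      exact cell_sub hσ (mem_range.1 (mem_filter.1 hk).1) h)
    (fun j j' h => abs_sub_nat (by positivity)
      ((lt_or_gt_of_ne h).imp (hz2 j j') (hz2 j' j)) _)
    (fun j => by
      obtain ⟨k, hk, h⟩ := hm j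
      exact ((mem_filter.1 hk).2 _ h).le) hy
  have h4 : 2 ^ L * σ / (Z.card * (σ / (d + 1))) = (d + 1) * (2 ^ L / Z.card) := by field_simp
  rw [h4, mul_pow, tw_add, tw_mul] at h3
  have h5 := two_pow_mul_tw (d * (d + 1))
  have h6 := tw_pos (d * (d + 1))
  have h7 : (1 : ℝ) ≤ (tw g * (2 ^ L / Z.card)) ^ d := by
    calc (1 : ℝ) ≤ _ := hf.trans h3
      _ = (d + 1) ^ (d + 1) * tw (d * (d + 1)) * (tw g * (2 ^ L / Z.card)) ^ d := by
          rw [mul_pow]; ring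
      _ ≤ 2 ^ (d * (d + 1)) * tw (d * (d + 1)) * (tw g * (2 ^ L / Z.card)) ^ d := by
          gcongr; exact succ_pow_le d
      _ = _ := by rw [h5, one_mul]
  rw [one_le_pow_iff_of_nonneg (by positivity) hd1, ← mul_div_assoc, le_div_iff₀ hM, one_mul] at h7
  exact h7

lemma card_filter_range_add (p : ℕ → Prop) [DecidablePred p] (a b : ℕ) :
    ((range (a + b)).filter p).card
      = ((range a).filter p).card + ((range b).filter fun k => p (a + k)).card := by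
  simp only [← Nat.count_eq_card_filter_range, Nat.count_add]

open Classical in
/-- Abstract dyadic form of the nondivergence argument. -/
theorem km_abs {α : Type*} [PartialOrder α] (N : ℕ) (rk : α → ℕ) (hrk : StrictMono rk)
    (hN : ∀ W, rk W ≤ N) (o : α) (φ : α → ℝ → ℝ) (x σ C ε κ : ℝ) (hσ : 0 < σ) (hκ : 0 ≤ κ)
    (hC : ε ≤ C) (Bad : ℕ → Prop)
    (hdbl : ∀ W a z l y, 0 < l → a ≤ z → z ≤ a + l → y ∈ Set.Icc a (a + 2 * l) → C ≤ φ W y →
      ∃ y' ∈ Set.Icc z (z + l), 1 ≤ φ W y')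
    (hgood : ∀ W i L, (∃ y ∈ blk x σ i L, 1 ≤ φ W y) →
      (((range (2 ^ L)).filter fun k => ∀ z ∈ cell x σ (i + k), φ W z < ε).card : ℝ) ≤ κ * 2 ^ L)
    (hbad : ∀ i (F : Finset α), o ∈ F → (∀ W ∈ F, ∀ Z ∈ F, W ≤ Z ∨ Z ≤ W) →
      (∀ W ∈ F, ∀ z ∈ cell x σ i, φ W z ≤ C) →
      (∀ W, (∀ Z ∈ F, W ≤ Z ∨ Z ≤ W) → ∃ z ∈ cell x σ i, ε ≤ φ W z) → ¬ Bad i)
    (k : ℕ) : ∀ F : Finset α, o ∈ F → (∀ W ∈ F, ∀ Z ∈ F, W ≤ Z ∨ Z ≤ W) → N + 1 ≤ F.card + k →
      ∀ L i, (∀ W ∉ F, (∀ Z ∈ F, W ≤ Z ∨ Z ≤ W) → ∃ y ∈ blk x σ i L, 1 ≤ φ W y) →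
      (((range (2 ^ L)).filter fun j => (∀ W ∈ F, (∃ z ∈ cell x σ (i + j), ε ≤ φ W z) ∧
        ∀ z ∈ cell x σ (i + j), φ W z ≤ C) ∧ Bad (i + j)).card : ℝ) ≤ k * κ * 2 ^ L := by
  have hch : ∀ (F : Finset α) W, (∀ W ∈ F, ∀ Z ∈ F, W ≤ Z ∨ Z ≤ W) → (∀ Z ∈ F, W ≤ Z ∨ Z ≤ W) →
      ∀ W' ∈ insert W F, ∀ Z ∈ insert W F, W' ≤ Z ∨ Z ≤ W' := by
    intro F W h1 h2 A hA B hB
    rcases mem_insert.1 hA with rfl | hA' <;> rcases mem_insert.1 hB with rfl | hB'
    · exact Or.inl le_rfl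
    · exact h2 B hB'
    · exact (h2 A hA').symm
    · exact h1 A hA' B hB'
  have main : ∀ (k : ℕ) (F : Finset α), o ∈ F → (∀ W ∈ F, ∀ Z ∈ F, W ≤ Z ∨ Z ≤ W) →
      (∀ W ∉ F, (∀ Z ∈ F, W ≤ Z ∨ Z ≤ W) → ∀ L i, (∀ z ∈ blk x σ i L, φ W z ≤ C) →
        (∀ W ∉ F, (∀ Z ∈ F, W ≤ Z ∨ Z ≤ W) → ∃ y ∈ blk x σ i L, 1 ≤ φ W y) →
        (((range (2 ^ L)).filter fun j => (∀ W ∈ F, (∃ z ∈ cell x σ (i + j), ε ≤ φ W z) ∧
          ∀ z ∈ cell x σ (i + j), φ W z ≤ C) ∧ Bad (i + j)).card : ℝ) ≤ k * κ * 2 ^ L) →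
      ∀ L i, (∀ W ∉ F, (∀ Z ∈ F, W ≤ Z ∨ Z ≤ W) → ∃ y ∈ blk x σ i L, 1 ≤ φ W y) →
      (((range (2 ^ L)).filter fun j => (∀ W ∈ F, (∃ z ∈ cell x σ (i + j), ε ≤ φ W z) ∧
        ∀ z ∈ cell x σ (i + j), φ W z ≤ C) ∧ Bad (i + j)).card : ℝ) ≤ k * κ * 2 ^ L := by
    intro k F ho hF sel L
    have red : ∀ L i, (∀ W ∉ F, (∀ Z ∈ F, W ≤ Z ∨ Z ≤ W) → ∃ y ∈ blk x σ i L, 1 ≤ φ W y) →
        ((∀ W ∉ F, (∀ Z ∈ F, W ≤ Z ∨ Z ≤ W) → ∃ y ∈ blk x σ i L, C ≤ φ W y) →
        (((range (2 ^ L)).filter fun j => (∀ W ∈ F, (∃ z ∈ cell x σ (i + j), ε ≤ φ W z) ∧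
          ∀ z ∈ cell x σ (i + j), φ W z ≤ C) ∧ Bad (i + j)).card : ℝ) ≤ k * κ * 2 ^ L) →
        (((range (2 ^ L)).filter fun j => (∀ W ∈ F, (∃ z ∈ cell x σ (i + j), ε ≤ φ W z) ∧
          ∀ z ∈ cell x σ (i + j), φ W z ≤ C) ∧ Bad (i + j)).card : ℝ) ≤ k * κ * 2 ^ L := by
      intro L i h1 h2
      by_cases h3 : ∀ W ∉ F, (∀ Z ∈ F, W ≤ Z ∨ Z ≤ W) → ∃ y ∈ blk x σ i L, C ≤ φ W y
      · exact h2 h3
      · push Not at h3
        obtain ⟨W, a1, a2, a3⟩ := h3
        exact sel W a1 a2 L i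
          (fun z hz => (a3 z hz).le) h1
    induction L with
    | zero =>
      intro i h1
      refine red 0 i h1 fun h2 => ?_
      rw [filter_eq_empty_iff.2, card_empty, Nat.cast_zero]
      · positivity
      rintro j hj ⟨a1, a2⟩
      obtain rfl : j = 0 := by simpa using hj
      refine hbad (i + 0) F ho hF (fun W hW => (a1 W hW).2) (fun W hW => ?_) a2
      by_cases h4 : W ∈ F
      · exact (a1 W h4).1
      · obtain ⟨y, b1, b2⟩ := h2 W h4 hW
        refine ⟨y, ?_, hC.trans b2⟩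
        simpa [cell, blk, add_mul, add_assoc] using b1
    | succ L ih =>
      intro i h1
      refine red (L + 1) i h1 fun h2 => ?_
      have hl : 0 < 2 ^ L * σ := by positivity
      have b1 := ih i fun W a1 a2 => by
        obtain ⟨y, b1, b2⟩ := h2 W a1 a2
        exact hdbl W (x + i * σ) (x + i * σ) (2 ^ L * σ) y hl le_rfl (by linarith)
          (by simpa [blk, pow_succ', mul_assoc] using b1) b2
      have b2 := ih (i + 2 ^ L) fun W a1 a2 => by
        obtain ⟨y, b1, b2⟩ := h2 W a1 a2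
        have := hdbl W (x + i * σ) (x + i * σ + 2 ^ L * σ) (2 ^ L * σ) y hl (by linarith) le_rfl
          (by simpa [blk, pow_succ', mul_assoc] using b1) b2
        simpa [blk, add_mul, add_assoc] using this
      rw [pow_succ 2 L, mul_two, card_filter_range_add, pow_succ]
      simp only [← add_assoc]
      push_cast
      linarith
  induction k with
  | zero =>
    intro F ho hF hc
    refine main 0 F ho hF fun W a1 a2 => ?_
    exfalso
    have h1 : (insert W F).card ≤ (range (N + 1)).card := by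
      refine card_le_card_of_injOn rk (fun Z _ => by simpa using Nat.lt_succ_of_le (hN Z)) ?_
      intro A hA B hB h
      rcases hch F W hF a2 A hA B hB with h2 | h2
      · exact h2.eq_or_lt.resolve_right fun h3 => (hrk h3).ne h
      · exact (h2.eq_or_lt.resolve_right fun h3 => (hrk h3).ne h.symm).symm
    rw [card_insert_of_notMem a1, card_range] at h1
    omega
  | succ k ih =>
    intro F ho hF hc
    refine main (k + 1) F ho hF fun W a1 a2 L i a3 a4 => ?_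
    have h1 := ih (insert W F) (mem_insert_of_mem ho) (hch F W hF a2)
      (by rw [card_insert_of_notMem a1]; omega) L i fun Z b1 b2 =>
        a4 Z (fun h => b1 (mem_insert_of_mem h)) fun Y hY => b2 Y (mem_insert_of_mem hY)
    have h2 := hgood W i L (a4 W a1 a2)
    have h3 := add_le_add h1 h2
    rw [← Nat.cast_add] at h3
    refine le_trans (Nat.cast_le.2 ((card_le_card ?_).trans (card_union_le _ _)))
      (h3.trans (le_of_eq (by push_cast; ring)))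
    intro j hj
    obtain ⟨b1, b2, b3⟩ := mem_filter.1 hj
    by_cases h3 : ∀ z ∈ cell x σ (i + j), φ W z < ε
    · exact mem_union_right _ (mem_filter.2 ⟨b1, h3⟩)
    · push Not at h3
      refine mem_union_left _ (mem_filter.2 ⟨b1, fun Z hZ => ?_, b3⟩)
      rcases mem_insert.1 hZ with rfl | hZ
      · exact ⟨h3, fun z hz => a3 z (cell_sub hσ (mem_range.1 b1) hz)⟩
      · exact b2 Z hZ

end Pool.Agent.MP_b86f6c_nt
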