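import Pool.Agent.MP_b86f6c_nt.KmA

set_option autoImplicit false

namespace Pool.Agent.MP_b86f6c_nt

open Polynomial Finset Matrix Module

open MeasureTheory in
/-- Minkowski's linear forms theorem -/
lemma linear_forms {d : ℕ} (G : Matrix (Fin d) (Fin d) ℝ) (h0 : G.det ≠ 0) (h1 : |G.det| < 1) :
    ∃ z : Fin d → ℤ, z ≠ 0 ∧ ∀ i, |(G *ᵥ fun j => (z j : ℝ)) i| < 1 := by
  classical
  have hdet : LinearMap.det (Matrix.toLin' G) = G.det := LinearMap.det_toLin' G
  have hc : Countable (Submodule.span ℤ (Set.range (Pi.basisFun ℝ (Fin d)))).toAddSubgroup :=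
    inferInstanceAs (Countable (Submodule.span ℤ (Set.range (Pi.basisFun ℝ (Fin d)))))
  obtain ⟨x, hx0, hx⟩ := exists_ne_zero_mem_lattice_of_measure_mul_two_pow_lt_measure
    (μ := volume) (s := (Matrix.toLin' G) ⁻¹' (Metric.ball 0 1))
    (ZSpan.isAddFundamentalDomain' (Pi.basisFun ℝ (Fin d)) volume)
    (by
      intro x hx
      simpa [Matrix.mulVec_neg] using hx)
    ((convex_ball 0 1).linear_preimage _)
    (by
      rw [Measure.addHaar_preimage_linearMap _ (by rw [hdet]; exact h0), hdet,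
        Real.volume_pi_ball _ one_pos, ZSpan.volume_fundamentalDomain]
      have : (Matrix.of (Pi.basisFun ℝ (Fin d))) = (1 : Matrix (Fin d) (Fin d) ℝ) := by
        ext i j
        simp [Matrix.one_apply, Pi.single_apply, eq_comm]
      rw [this, Matrix.det_one, abs_one, ENNReal.ofReal_one, one_mul, Module.finrank_fin_fun,
        Fintype.card_fin, mul_one, ← ENNReal.ofReal_mul (abs_nonneg _)]
      have h2 : (2 : ENNReal) ^ d = ENNReal.ofReal (2 ^ d) := by
        rw [ENNReal.ofReal_pow (by norm_num)]; simp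
      rw [h2, ENNReal.ofReal_lt_ofReal_iff (by positivity)]
      have h3 : 1 < |G.det⁻¹| := by
        rw [abs_inv]
        exact (one_lt_inv₀ (abs_pos.mpr h0)).mpr h1
      have h4 : (0 : ℝ) < 2 ^ d := by positivity
      nlinarith)
  have hz := ((Pi.basisFun ℝ (Fin d)).mem_span_iff_repr_mem ℤ (x : Fin d → ℝ)).mp x.2
  choose z hz using hz
  have e : (fun j => (z j : ℝ)) = (x : Fin d → ℝ) := by
    ext j
    simpa using hz j
  refine ⟨z, ?_, ?_⟩
  · rintro rfl
    apply hx0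
    ext j
    rw [← e]
    simp
  · intro i
    rw [e]
    have h2 : ‖G *ᵥ (x : Fin d → ℝ)‖ < 1 := by simpa using hx
    exact (norm_le_pi_norm _ i).trans_lt h2

lemma exists_minor {K ι : Type} [Field K] [Fintype ι] {r : ℕ} (A : Matrix (Fin r) ι K)
    (h : LinearIndependent K A.row) : ∃ S : Fin r → ι, (A.submatrix id S).det ≠ 0 := by
  obtain ⟨f, h1, -, h3⟩ := Submodule.exists_fun_fin_finrank_span_eq K (Set.range A.col)
  have h4 : finrank K (Submodule.span K (Set.range A.col)) = r := by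
    rw [← rank_eq_finrank_span_cols, h.rank_matrix, Fintype.card_fin]
  choose S hS using h1
  refine ⟨S ∘ Fin.cast h4.symm, ?_⟩
  rw [← isUnit_iff_ne_zero, ← isUnit_iff_isUnit_det, ← linearIndependent_cols_iff_isUnit]
  have h5 : (A.submatrix id (S ∘ Fin.cast h4.symm)).col = f ∘ Fin.cast h4.symm := by
    funext i
    rw [Function.comp_apply, ← hS]
    rfl
  rw [h5]
  exact h3.comp _ (Fin.cast_injective _)

lemma normal_form {ι : Type} [Fintype ι] {r : ℕ} (A : Matrix (Fin r) ι ℝ) (S : Fin r → ι)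
    (h : (A.submatrix id S).det ≠ 0) : ∃ (S0 : Fin r → ι) (B : Matrix (Fin r) ι ℝ),
      |(A.submatrix id S).det| ≤ |(A.submatrix id S0).det| ∧ A = A.submatrix id S0 * B ∧
      (∀ i j, |B i j| ≤ 1) ∧ B.submatrix id S0 = 1 := by
  classical
  obtain ⟨S0, -, h0⟩ := exists_max_image univ (fun S : Fin r → ι => |(A.submatrix id S).det|)
    ⟨S, mem_univ _⟩
  have h1 : 0 < |(A.submatrix id S0).det| := (abs_pos.2 h).trans_le (h0 S (mem_univ _))
  have h2 : IsUnit (A.submatrix id S0).det := (abs_pos.1 h1).isUnit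
  refine ⟨S0, (A.submatrix id S0)⁻¹ * A, h0 S (mem_univ _), ?_, fun i j => ?_, ?_⟩
  · rw [← Matrix.mul_assoc, mul_nonsing_inv _ h2, Matrix.one_mul]
  · have h3 := congrFun (det_smul_inv_mulVec_eq_cramer _ (A.col j) h2) i
    have h4 : (A.submatrix id S0).updateCol i (A.col j)
        = A.submatrix id (Function.update S0 i j) := by
      ext a b
      by_cases hb : b = i
      · subst hb; simp
      · simp [updateCol_ne hb, Function.update_of_ne hb]
    rw [cramer_apply, h4] at h3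
    have h5 := h0 (Function.update S0 i j) (mem_univ _)
    rw [← h3, Pi.smul_apply, smul_eq_mul, abs_mul] at h5
    exact (mul_le_iff_le_one_right h1).1 h5
  · exact nonsing_inv_mul _ h2

/-- Covolume bound from the first minimum. -/
lemma mink {ι : Type} [Fintype ι] {r : ℕ} (A : Matrix (Fin r) ι ℝ) (S : Fin r → ι)
    (h : (A.submatrix id S).det ≠ 0) (lam : ℝ) (hl : 0 < lam)
    (hz : ∀ z : Fin r → ℤ, z ≠ 0 → ∃ j, r * lam ≤ |((fun i => (z i : ℝ)) ᵥ* A) j|) :
    ∃ S : Fin r → ι, lam ^ r ≤ |(A.submatrix id S).det| := by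
  obtain ⟨S0, B, h1, h2, h3, -⟩ := normal_form A S h
  refine ⟨S0, le_of_not_gt fun hc => ?_⟩
  have h4 : 0 < |(A.submatrix id S0).det| := (abs_pos.2 h).trans_le h1
  have h5 : (lam⁻¹ • (A.submatrix id S0)ᵀ).det = (lam ^ r)⁻¹ * (A.submatrix id S0).det := by
    rw [det_smul, det_transpose, Fintype.card_fin, inv_pow]
  obtain ⟨z, hz0, hz1⟩ := linear_forms (lam⁻¹ • (A.submatrix id S0)ᵀ)
    (by rw [h5]; exact mul_ne_zero (by positivity) (abs_pos.1 h4))
    (by rw [h5, abs_mul, abs_of_pos (by positivity), inv_mul_lt_iff₀ (by positivity), mul_one]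
        exact hc)
  obtain ⟨j, hj⟩ := hz z hz0
  rw [h2, ← vecMul_vecMul] at hj
  obtain ⟨i0, -⟩ := Function.ne_iff.1 hz0
  have h6 : ∀ i, |((fun i => (z i : ℝ)) ᵥ* A.submatrix id S0) i * B i j| < lam := by
    intro i
    have h7 := hz1 i
    rw [smul_mulVec, mulVec_transpose, Pi.smul_apply, smul_eq_mul, abs_mul,
      abs_of_pos (inv_pos.2 hl), inv_mul_lt_iff₀ hl, mul_one] at h7
    rw [abs_mul]
    exact (mul_le_of_le_one_right (abs_nonneg _) (h3 i j)).trans_lt h7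
  have h7 := (abs_sum_le_sum_abs _ _).trans_lt
    (sum_lt_sum_of_nonempty ⟨i0, mem_univ _⟩ fun i _ => h6 i)
  rw [sum_const, card_univ, Fintype.card_fin, nsmul_eq_mul] at h7
  exact absurd (hj.trans_lt h7) (lt_irrefl _)

/-- An integer basis of a rational subspace with minimal covolume. -/
def Rep {N : ℕ} (W : Submodule ℚ (Fin N → ℚ)) (r : ℕ) (b : Matrix (Fin r) (Fin N) ℤ) : Prop :=
  Submodule.span ℚ (Set.range (b.map (Int.cast : ℤ → ℚ)).row) = W ∧ finrank ℚ W = r ∧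
    ∀ b' : Matrix (Fin r) (Fin N) ℤ,
      Submodule.span ℚ (Set.range (b'.map (Int.cast : ℤ → ℚ)).row) = W →
      ∃ G : Matrix (Fin r) (Fin r) ℚ,
        b'.map (Int.cast : ℤ → ℚ) = G * b.map (Int.cast : ℤ → ℚ) ∧ 1 ≤ |G.det|

lemma minor_of_span {N r : ℕ} {W : Submodule ℚ (Fin N → ℚ)} {b : Matrix (Fin r) (Fin N) ℤ}
    (h1 : Submodule.span ℚ (Set.range (b.map (Int.cast : ℤ → ℚ)).row) = W)
    (h2 : finrank ℚ W = r) : LinearIndependent ℚ (b.map (Int.cast : ℤ → ℚ)).row ∧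
      ∃ S, (b.submatrix id S).det ≠ 0 := by
  have h3 : LinearIndependent ℚ (b.map (Int.cast : ℤ → ℚ)).row := by
    rw [linearIndependent_iff_card_eq_finrank_span, Set.finrank, h1, h2, Fintype.card_fin]
  obtain ⟨S, hS⟩ := exists_minor _ h3
  refine ⟨h3, S, fun h => hS ?_⟩
  rw [submatrix_map, ← Int.cast_det, h, Int.cast_zero]

lemma exists_rep {N : ℕ} (W : Submodule ℚ (Fin N → ℚ)) : ∃ b, Rep W (finrank ℚ W) b := by
  classical
  set r := finrank ℚ W with hr
  have h0 : ∃ b : Matrix (Fin r) (Fin N) ℤ,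
      Submodule.span ℚ (Set.range (b.map (Int.cast : ℤ → ℚ)).row) = W := by
    let e := finBasis ℚ W
    obtain ⟨m, hm⟩ := IsLocalization.exist_integer_multiples_of_finite (nonZeroDivisors ℤ)
      fun p : Fin r × Fin N => (e p.1 : Fin N → ℚ) p.2
    choose b hb using hm
    have hm0 : ((m : ℤ) : ℚ) ≠ 0 := by exact_mod_cast nonZeroDivisors.coe_ne_zero m
    refine ⟨Matrix.of fun i j => b (i, j), ?_⟩
    have h1 : ((Matrix.of fun i j => b (i, j)).map (Int.cast : ℤ → ℚ)).row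
        = fun i => Units.mk0 _ hm0 • (W.subtype ∘ e) i := by
      funext i j
      simpa using hb (i, j)
    have h2 : (fun i => Units.mk0 _ hm0 • (W.subtype ∘ e) i)
        = W.subtype ∘ e.unitsSMul fun _ => Units.mk0 _ hm0 := by
      funext i
      simp [Basis.unitsSMul_apply]
    rw [h1, h2, Set.range_comp, ← Submodule.map_span, Basis.span_eq, Submodule.map_subtype_top]
  let g : Matrix (Fin r) (Fin N) ℤ → ℕ := fun b => ∑ S : Fin r → Fin N, (b.submatrix id S).det.natAbs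
  have hex : ∃ n, ∃ b : Matrix (Fin r) (Fin N) ℤ,
      Submodule.span ℚ (Set.range (b.map (Int.cast : ℤ → ℚ)).row) = W ∧ g b = n :=
    h0.elim fun b hb => ⟨_, b, hb, rfl⟩
  obtain ⟨b, hb, hg⟩ := Nat.find_spec hex
  refine ⟨b, hb, rfl, fun b' hb' => ?_⟩
  have h1 : ∀ i, ∃ c : Fin r → ℚ, ∑ k, c k • (b.map (Int.cast : ℤ → ℚ)).row k
      = (b'.map (Int.cast : ℤ → ℚ)).row i := fun i => by
    rw [← Submodule.mem_span_range_iff_exists_fun, hb, ← hb']
    exact Submodule.subset_span ⟨i, rfl⟩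
  choose G hG using h1
  have h2 : b'.map (Int.cast : ℤ → ℚ) = Matrix.of G * b.map (Int.cast : ℤ → ℚ) := by
    ext i j
    simpa [Matrix.mul_apply] using (congrFun (hG i) j).symm
  refine ⟨Matrix.of G, h2, ?_⟩
  have h3 : (g b' : ℚ) = |(Matrix.of G).det| * g b := by
    simp only [g]
    push_cast
    rw [mul_sum]
    refine sum_congr rfl fun S _ => ?_
    rw [Nat.cast_natAbs, Nat.cast_natAbs, Int.cast_abs, Int.cast_abs, Int.cast_det, Int.cast_det,
      ← submatrix_map, ← submatrix_map, h2, ← abs_mul, ← det_mul]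
    rfl
  have h4 : (g b : ℚ) ≤ g b' := by exact_mod_cast hg ▸ Nat.find_min' hex ⟨b', hb', rfl⟩
  obtain ⟨-, S, hS⟩ := minor_of_span hb rfl
  have h5 : (0 : ℚ) < g b := by
    exact_mod_cast lt_of_lt_of_le (Int.natAbs_pos.2 hS) (single_le_sum
      (f := fun S : Fin r → Fin N => (b.submatrix id S).det.natAbs) (fun _ _ => Nat.zero_le _)
      (mem_univ S))
  rw [h3] at h4
  exact (le_mul_iff_one_le_left h5).1 h4

/-- The covolume: the largest minor. -/
noncomputable def cov {ι : Type} [Fintype ι] {N r : ℕ} (b : Matrix (Fin r) (Fin N) ℤ)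
    (h : Matrix (Fin N) ι ℝ) : ℝ :=
  ‖fun S : Fin r → ι => ((b.map (Int.cast : ℤ → ℝ) * h).submatrix id S).det‖

lemma cov_sup {ι : Type} [Fintype ι] {N r r' : ℕ} {W : Submodule ℚ (Fin N → ℚ)}
    {b : Matrix (Fin r) (Fin N) ℤ} {b' : Matrix (Fin r') (Fin N) ℤ} (v : Fin N → ℤ)
    (hb : Rep W r b) (hv : (fun i => (v i : ℚ)) ∉ W)
    (hb' : Rep (Submodule.span ℚ {fun i => (v i : ℚ)} ⊔ W) r' b') (h : Matrix (Fin N) ι ℝ) (η : ℝ)
    (hη : 0 ≤ η) (hs : ∀ c, |((fun i => (v i : ℝ)) ᵥ* h) c| ≤ η) :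
    cov b' h ≤ r' * η * cov b h := by
  let c : Matrix (Fin (r + 1)) (Fin N) ℤ := Matrix.of (Fin.cons v b)
  have h1 : (c.map (Int.cast : ℤ → ℚ)).row
      = Fin.cons (fun i => (v i : ℚ)) (b.map (Int.cast : ℤ → ℚ)).row := by
    funext i
    refine Fin.cases rfl (fun i => rfl) i
  have h2 : Submodule.span ℚ (Set.range (c.map (Int.cast : ℤ → ℚ)).row)
      = Submodule.span ℚ {fun i => (v i : ℚ)} ⊔ W := by
    rw [h1, Fin.range_cons, Submodule.span_insert, hb.1]
  obtain rfl : r' = r + 1 := by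
    rw [← hb'.2.1, ← h2, finrank_span_eq_card, Fintype.card_fin]
    rw [h1]
    exact linearIndependent_finCons.2 ⟨(minor_of_span hb.1 hb.2.1).1, hb.1 ▸ hv⟩
  obtain ⟨G, hG, hG1⟩ := hb'.2.2 c h2
  have h3 : c.map (Int.cast : ℤ → ℝ) = G.map (Rat.castHom ℝ) * b'.map (Int.cast : ℤ → ℝ) := by
    have := congrArg (fun M => M.map (Rat.castHom ℝ)) hG
    simp only [Matrix.map_mul, Matrix.map_map] at this
    exact this
  have h4 : (1 : ℝ) ≤ |(G.map (Rat.castHom ℝ)).det| := by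
    rw [← RingHom.mapMatrix_apply, ← RingHom.map_det]
    simp only [eq_ratCast]
    exact_mod_cast hG1
  have h0 : 0 ≤ cov b h := norm_nonneg _
  refine (pi_norm_le_iff_of_nonneg (by positivity)).2 fun S => ?_
  rw [Real.norm_eq_abs]
  refine (le_mul_of_one_le_left (abs_nonneg _) h4).trans ?_
  rw [← abs_mul, ← det_mul]
  have h5 : G.map (Rat.castHom ℝ) * (b'.map (Int.cast : ℤ → ℝ) * h).submatrix id S
      = (c.map (Int.cast : ℤ → ℝ) * h).submatrix id S := by
    rw [h3, Matrix.mul_assoc]; rfl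
  rw [h5, det_succ_row_zero]
  refine (abs_sum_le_sum_abs _ _).trans
    ((sum_le_card_nsmul _ _ (η * cov b h) fun j _ => ?_).trans (by simp [mul_assoc]))
  rw [abs_mul, abs_mul, abs_pow, abs_neg, abs_one, one_pow, one_mul]
  exact mul_le_mul (hs (S j)) (norm_le_pi_norm
    (fun S : Fin r → ι => ((b.map (Int.cast : ℤ → ℝ) * h).submatrix id S).det) (S ∘ j.succAbove))
    (abs_nonneg _) hη

lemma det_poly {r e : ℕ} (A : ℝ → Matrix (Fin r) (Fin r) ℝ)
    (hA : ∀ i j, ∃ q : ℝ[X], q.natDegree ≤ e ∧ ∀ y, A y i j = q.eval y) :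
    ∃ q : ℝ[X], q.natDegree ≤ r * e ∧ ∀ y, (A y).det = q.eval y := by
  choose p hp1 hp2 using hA
  refine ⟨(Matrix.of p).det, ?_, fun y => ?_⟩
  · rw [det_apply']
    refine natDegree_sum_le_of_forall_le _ _ fun σ _ => ?_
    refine natDegree_mul_le.trans ?_
    rw [natDegree_intCast, zero_add]
    refine (natDegree_prod_le _ _).trans ((sum_le_card_nsmul _ _ e fun i _ => hp1 _ _).trans ?_)
    simp
  · rw [← coe_evalRingHom, RingHom.map_det]
    congr 1
    ext i j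
    exact hp2 i j y

/-- The constant of the nondivergence estimate. -/
def EE (N e : ℕ) : ℕ := (N * e + 1) * (N * e + 1 + 1) + (N * e + 1 + 1) ^ 2 + N + 1

open Classical in
/-- Quantitative nondivergence for polynomial families. -/
theorem km (N e : ℕ) {ι : Type} [Fintype ι] (h : ℝ → Matrix (Fin N) ι ℝ)
    (hh : ∀ i j, ∃ q : ℝ[X], q.natDegree ≤ e ∧ ∀ y, h y i j = q.eval y) (x σ : ℝ) (hσ : 0 < σ)
    (L g : ℕ) (hsup : ∀ r (b : Matrix (Fin r) (Fin N) ℤ), (∃ S, (b.submatrix id S).det ≠ 0) →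
      ∃ y ∈ blk x σ 0 L, ∃ S : Fin r → ι,
        1 ≤ |((b.map (Int.cast : ℤ → ℝ) * h y).submatrix id S).det|) :
    (((range (2 ^ L)).filter fun j => ∃ v : Fin N → ℤ, v ≠ 0 ∧ ∀ z ∈ cell x σ j, ∀ c,
      |((fun i => (v i : ℝ)) ᵥ* h z) c| ≤ tw (g * (N * e + 1) + EE N e)).card : ℝ)
      ≤ N * tw g * 2 ^ L := by
  choose b hb using fun W : Submodule ℚ (Fin N → ℚ) => exists_rep W
  set d := N * e + 1 with hd
  have hN : ∀ W : Submodule ℚ (Fin N → ℚ), finrank ℚ W ≤ N := fun W =>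
    W.finrank_le.trans (by simp)
  have hq : ∀ (W : Submodule ℚ (Fin N → ℚ)) (S : Fin (finrank ℚ W) → ι),
      ∃ q : ℝ[X], q.natDegree ≤ d ∧
      ∀ y, (((b W).map (Int.cast : ℤ → ℝ) * h y).submatrix id S).det = q.eval y := by
    intro W S
    obtain ⟨q, h1, h2⟩ := det_poly (e := e)
      (fun y => ((b W).map (Int.cast : ℤ → ℝ) * h y).submatrix id S) fun i j => by
        choose p hp1 hp2 using hh
        refine ⟨∑ k, C ((b W i k : ℤ) : ℝ) * p k (S j), natDegree_sum_le_of_forall_le _ _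
          fun k _ => (natDegree_C_mul_le _ _).trans (hp1 _ _), fun y => ?_⟩
        simp [Matrix.mul_apply, eval_finsetSum, hp2]
    exact ⟨q, h1.trans ((Nat.mul_le_mul_right _ (hN W)).trans (by omega)), h2⟩
  have hlarge : ∀ W y (c : ℝ), 0 < c → c ≤ cov (b W) (h y) →
      ∃ S, c ≤ |(((b W).map (Int.cast : ℤ → ℝ) * h y).submatrix id S).det| := by
    intro W y c hc h1
    by_contra h2
    push Not at h2
    exact absurd ((pi_norm_lt_iff hc).2 h2) (not_lt.2 h1)
  have hle : ∀ W y S, |(((b W).map (Int.cast : ℤ → ℝ) * h y).submatrix id S).det|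
      ≤ cov (b W) (h y) := fun W y S => norm_le_pi_norm
    (fun S => (((b W).map (Int.cast : ℤ → ℝ) * h y).submatrix id S).det) S
  have hC : (1 : ℝ) ≤ 2 ^ ((d + 1) ^ 2) := one_le_pow₀ (by norm_num)
  have hbot : ∀ y, cov (b ⊥) (h y) = 1 := by
    have : ∀ r (c : Matrix (Fin r) (Fin N) ℤ) y, r = 0 → cov c (h y) = 1 := by
      rintro r c y rfl
      simp [cov, pi_norm_const]
    exact fun y => this _ _ y (finrank_bot _ _)
  have key := km_abs N (fun W : Submodule ℚ (Fin N → ℚ) => finrank ℚ W)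
    Submodule.finrank_strictMono hN ⊥ (fun W y => cov (b W) (h y)) x σ (2 ^ ((d + 1) ^ 2))
    (tw (g * d + d * (d + 1))) (tw g) hσ (tw_pos _).le ((tw_le_one _).trans hC)
    (fun j => ∃ v : Fin N → ℤ, v ≠ 0 ∧ ∀ z ∈ cell x σ j, ∀ c,
      |((fun i => (v i : ℝ)) ᵥ* h z) c| ≤ tw (g * d + EE N e))
    (by
      intro W a z l y h1 h2 h3 h4 h5
      obtain ⟨S, hS⟩ := hlarge W y _ (by positivity) h5
      obtain ⟨q, q1, q2⟩ := hq W S
      obtain ⟨y', a1, a2⟩ := poly_dbl q d q1 a z l y h1 h2 h3 h4 (q2 y ▸ hS)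
      exact ⟨y', a1, (q2 y' ▸ a2).trans (hle W y' S)⟩)
    (by
      rintro W i L ⟨y, h1, h2⟩
      obtain ⟨S, hS⟩ := hlarge W y _ one_pos h2
      obtain ⟨q, q1, q2⟩ := hq W S
      refine le_trans (Nat.cast_le.2 (card_le_card fun k hk => ?_))
        (poly_good q d g q1 (by omega) x σ hσ i L y h1 (q2 y ▸ hS))
      obtain ⟨a1, a2⟩ := mem_filter.1 hk
      exact mem_filter.2 ⟨a1, fun z hz => (q2 z ▸ hle W z S).trans_lt (a2 z hz)⟩)
    (by
      rintro i F h1 h2 h3 h4 ⟨v, hv0, hv⟩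
      have hv1 : (fun i => (v i : ℚ)) ∉ (⊥ : Submodule ℚ (Fin N → ℚ)) := fun h =>
        hv0 (funext fun i => by simpa using congrFun ((Submodule.mem_bot _).1 h) i)
      obtain ⟨W, hW, hmax⟩ := exists_max_image (F.filter fun W => (fun i => (v i : ℚ)) ∉ W)
        (fun W => finrank ℚ W) ⟨⊥, mem_filter.2 ⟨h1, hv1⟩⟩
      obtain ⟨hW1, hW2⟩ := mem_filter.1 hW
      obtain ⟨z, hz, a1⟩ := h4 (Submodule.span ℚ {fun i => (v i : ℚ)} ⊔ W) fun Z hZ => by
        by_cases hvZ : (fun i => (v i : ℚ)) ∈ Z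
        · exact Or.inl (sup_le ((Submodule.span_singleton_le_iff_mem _ _).2 hvZ)
            ((h2 W hW1 Z hZ).resolve_right fun h => hW2 (h hvZ)))
        · refine Or.inr (le_sup_of_le_right ?_)
          rcases h2 W hW1 Z hZ with h | h
          · exact (Submodule.eq_of_le_of_finrank_le h (hmax Z (mem_filter.2 ⟨hZ, hvZ⟩))).ge
          · exact h
      have a2 := cov_sup v (hb W) hW2 (hb _) (h z) _ (tw_pos _).le (hv z hz)
      have a3 : ((finrank ℚ (Submodule.span ℚ {fun i => (v i : ℚ)} ⊔ W : Submodule ℚ _) : ℕ) : ℝ)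
          ≤ 2 ^ N := (Nat.cast_le.2 (hN _)).trans (nat_le_two_pow N)
      have a4 := h3 W hW1 z hz
      have a5 := tw_pos (g * d + EE N e)
      have a6 : 0 ≤ cov (b W) (h z) := norm_nonneg _
      have a7 : tw (g * d + d * (d + 1)) ≤ tw (g * d + d * (d + 1) + 1) :=
        calc _ ≤ _ := a1.trans a2
          _ ≤ 2 ^ N * tw (g * d + EE N e) * 2 ^ ((d + 1) ^ 2) := by gcongr
          _ = 2 ^ (N + (d + 1) ^ 2) * tw (g * d + EE N e) := by ring
          _ ≤ _ := two_pow_mul_tw_le (by unfold EE; rw [← hd]; omega)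
      have := tw_le_iff.1 a7
      omega)
    N {⊥} (mem_singleton_self _) (by simp) (by simp [add_comm]) L 0 (fun W _ _ => by
      obtain ⟨y, a1, S, a2⟩ := hsup _ (b W) (minor_of_span (hb W).1 rfl).2
      exact ⟨y, a1, a2.trans (hle W y S)⟩)
  refine le_trans (Nat.cast_le.2 (card_le_card fun j hj => ?_)) key
  obtain ⟨a1, a2⟩ := mem_filter.1 hj
  refine mem_filter.2 ⟨a1, fun W hW => ?_, by rwa [zero_add]⟩
  obtain rfl := mem_singleton.1 hW
  refine ⟨⟨x + ((0 + j : ℕ) : ℝ) * σ, ⟨le_rfl, by nlinarith⟩, ?_⟩, fun z _ => ?_⟩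
  · rw [hbot]; exact tw_le_one _
  · rw [hbot]; exact hC

end Pool.Agent.MP_b86f6c_nt
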