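import Pool.Agent.MP_b86f6c_nt.KmB

set_option autoImplicit false

namespace Pool.Agent.MP_b86f6c_nt

open Polynomial Finset Matrix

/-- The matrix giving the first `s` Taylor coefficients at `β`. -/
noncomputable def UT (n s : ℕ) (β : ℝ) : Matrix (Fin (n + 1)) (Fin s) ℝ :=
  Matrix.of fun l i => ((l : ℕ).choose i : ℝ) * β ^ ((l : ℕ) - i)

/-- The polynomial with a given coefficient vector. -/
noncomputable def toP {R : Type} [Semiring R] {n : ℕ} (x : Fin (n + 1) → R) : R[X] :=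
  ∑ l : Fin (n + 1), monomial (l : ℕ) (x l)

lemma toP_coeff {R : Type} [Semiring R] {n : ℕ} (x : Fin (n + 1) → R) (l : Fin (n + 1)) :
    (toP x).coeff l = x l := by
  simp [toP, finsetSum_coeff, coeff_monomial, Fin.val_inj]

lemma toP_natDegree {R : Type} [Semiring R] {n : ℕ} (x : Fin (n + 1) → R) :
    (toP x).natDegree ≤ n :=
  natDegree_sum_le_of_forall_le _ _ fun l _ => (natDegree_monomial_le _).trans (Nat.lt_succ_iff.1 l.2)

lemma toP_of {R : Type} [Semiring R] {n : ℕ} (P : R[X]) (h : P.natDegree ≤ n) :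
    toP (fun l : Fin (n + 1) => P.coeff l) = P := by
  rw [toP, Fin.sum_univ_eq_sum_range (fun i => monomial i (P.coeff i))]
  exact (P.as_sum_range' (n + 1) (by omega)).symm

lemma toP_hasse {n : ℕ} (x : Fin (n + 1) → ℝ) (i : ℕ) (β : ℝ) :
    (hasseDeriv i (toP x)).eval β = ∑ l, x l * (((l : ℕ).choose i : ℝ) * β ^ ((l : ℕ) - i)) := by
  simp only [toP, map_sum, hasseDeriv_monomial, eval_finsetSum, eval_monomial]
  exact sum_congr rfl fun l _ => by ring

lemma wr_ne {n s : ℕ} (B : Matrix (Fin s) (Fin (n + 1)) ℝ) (S : Fin s → Fin (n + 1))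
    (h : (B.submatrix id S).det ≠ 0) : ∃ β ∈ Set.Icc (-1 : ℝ) 0, (B * UT n s β).det ≠ 0 := by
  classical
  by_contra hc
  push Not at hc
  let Wp : Matrix (Fin s) (Fin s) ℝ[X] := Matrix.of fun j i => hasseDeriv i (toP (B j))
  have h1 : Wp.det = 0 := by
    refine eq_zero_of_infinite_isRoot _ ((Set.Icc_infinite (by norm_num : (-1 : ℝ) < 0)).mono
      fun β hβ => ?_)
    rw [Set.mem_ofPred_eq, IsRoot, ← coe_evalRingHom, RingHom.map_det, ← hc β hβ]
    congr 1
    ext j i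
    exact toP_hasse (B j) i β
  obtain ⟨c, hc0, hc1⟩ := exists_mulVec_eq_zero_iff.2 h1
  obtain ⟨t0, ht0⟩ := Function.ne_iff.1 hc0
  obtain ⟨t, ht, hmax⟩ := exists_max_image (univ.filter fun i => c i ≠ 0) id
    ⟨t0, mem_filter.2 ⟨mem_univ _, ht0⟩⟩
  obtain ⟨β, hβ⟩ : ∃ β, (c t).eval β ≠ 0 := by
    by_contra h2
    push Not at h2
    exact (mem_filter.1 ht).2 (Polynomial.funext fun r => by rw [h2, eval_zero])
  obtain ⟨x, hx0, hx1⟩ := exists_vecMul_eq_zero_iff.2 (det_eq_zero_of_column_eq_zero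
    (A := Matrix.of fun j i : Fin s => if i < t then (Wp j i).eval β else 0) t (by simp))
  set f : ℝ[X] := ∑ j, x j • toP (B j) with hf
  have hf0 : f ≠ 0 := by
    intro h2
    refine h (exists_vecMul_eq_zero_iff.1 ⟨x, hx0, funext fun i => ?_⟩)
    have := congrArg (fun p => p.coeff (S i)) h2
    simpa [hf, finsetSum_coeff, toP_coeff, vecMul, dotProduct] using this
  set g := taylor β f with hg
  have hg0 : g ≠ 0 := fun h2 => hf0 ((taylor_eq_zero β f).1 h2)
  have h2 : ∀ i : Fin s, hasseDeriv i f = ∑ j, x j • Wp j i := fun i => by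
    simp [hf, Wp]
  have h3 : (t : ℕ) ≤ g.natTrailingDegree := by
    by_contra h3
    push Not at h3
    let i : Fin s := ⟨g.natTrailingDegree, h3.trans t.2⟩
    have h4 := congrFun hx1 i
    have h5 : i < t := h3
    apply trailingCoeff_nonzero_iff_nonzero.2 hg0
    rw [trailingCoeff, hg, taylor_coeff, ← hg, h2 i]
    simpa [vecMul, dotProduct, h5, eval_finsetSum] using h4
  have h4 : ∑ i : Fin s, hasseDeriv i f * c i = 0 := by
    simp only [h2, sum_mul, smul_mul_assoc]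
    rw [sum_comm]
    refine sum_eq_zero fun j _ => ?_
    rw [← smul_sum]
    exact smul_eq_zero_of_right _ (congrFun hc1 j)
  have h5 : ∀ i a, (taylor β (hasseDeriv i f)).coeff a = (a + i).choose a * g.coeff (a + i) := by
    intro i a
    rw [taylor_coeff, hg, taylor_coeff, ← LinearMap.comp_apply, hasseDeriv_comp]
    simp
  obtain ⟨u, hu⟩ := Nat.exists_eq_add_of_le' h3
  have h6 := congrArg (fun p => (taylor β p).coeff u) h4
  simp only [map_sum, taylor_mul, finsetSum_coeff, coeff_mul, h5, map_zero, coeff_zero] at h6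
  rw [sum_eq_single t, sum_eq_single (u, 0)] at h6
  · rw [taylor_coeff_zero, ← hu] at h6
    refine mul_ne_zero (mul_ne_zero ?_ (trailingCoeff_nonzero_iff_nonzero.2 hg0)) hβ h6
    exact_mod_cast (Nat.choose_pos (by omega)).ne'
  · intro p hp hne
    have := mem_antidiagonal.1 hp
    have h7 : p.1 < u := by
      by_contra h8
      exact hne (Prod.ext (by simp only; omega) (by simp only; omega))
    rw [coeff_eq_zero_of_lt_natTrailingDegree (by omega), mul_zero, zero_mul]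
  · simp
  · intro i _ hne
    by_cases hi : c i = 0
    · simp [hi]
    · have h7 : (i : ℕ) < t := lt_of_le_of_ne (hmax i (mem_filter.2 ⟨mem_univ _, hi⟩))
        fun h8 => hne (Fin.ext h8)
      refine sum_eq_zero fun p hp => ?_
      have := mem_antidiagonal.1 hp
      rw [coeff_eq_zero_of_lt_natTrailingDegree (by omega), mul_zero, zero_mul]
  · simp

lemma wr_low (n s : ℕ) : ∃ c : ℕ, ∀ (A : Matrix (Fin s) (Fin (n + 1)) ℝ) (S : Fin s → Fin (n + 1)),
    ∃ β ∈ Set.Icc (-1 : ℝ) 0, tw c * |(A.submatrix id S).det| ≤ |(A * UT n s β).det| := by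
  let K : Set (Fin s → Fin (n + 1) → ℝ) := Set.Icc (fun _ _ => -1) (fun _ _ => 1) ∩
    ⋃ S : Fin s → Fin (n + 1), {B | 1 ≤ |((Matrix.of B).submatrix id S).det|}
  have hK : IsCompact K := isCompact_Icc.inter_right (isClosed_iUnion_of_finite fun S =>
    isClosed_le continuous_const (Continuous.matrix_det (by
      exact continuous_pi fun i => continuous_pi fun j =>
        (continuous_apply (S j)).comp (continuous_apply i))).abs)
  obtain ⟨c, hc⟩ := hK.elim_directed_cover (fun c : ℕ => ⋃ β ∈ Set.Icc (-1 : ℝ) 0,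
      {B : Fin s → Fin (n + 1) → ℝ | tw c < |(Matrix.of B * UT n s β).det|})
    (fun c => isOpen_biUnion fun β _ => isOpen_lt continuous_const
      (Continuous.matrix_det (Continuous.matrix_mul continuous_id continuous_const)).abs)
    (by
      rintro B ⟨-, hB⟩
      obtain ⟨S, hS⟩ := Set.mem_iUnion.1 hB
      obtain ⟨β, h1, h2⟩ := wr_ne (Matrix.of B) S (abs_pos.1 (one_pos.trans_le hS))
      obtain ⟨k, hk⟩ := exists_pow_lt_of_lt_one (abs_pos.2 h2) (by norm_num : (1 / 2 : ℝ) < 1)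
      exact Set.mem_iUnion.2 ⟨k, Set.mem_biUnion h1 hk⟩)
    (Monotone.directed_le fun a b hab => Set.iUnion₂_mono fun β _ B hB =>
      lt_of_le_of_lt (tw_anti hab) hB)
  refine ⟨c, fun A S => ?_⟩
  by_cases h : (A.submatrix id S).det = 0
  · exact ⟨0, by norm_num, by rw [h, abs_zero, mul_zero]; exact abs_nonneg _⟩
  obtain ⟨S0, B, h1, h2, h3, h4⟩ := normal_form A S h
  have h5 : B ∈ K := ⟨⟨fun i j => (abs_le.1 (h3 i j)).1, fun i j => (abs_le.1 (h3 i j)).2⟩,
    Set.mem_iUnion.2 ⟨S0, by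
      have : (Matrix.of B).submatrix id S0 = 1 := h4
      simp [this]⟩⟩
  obtain ⟨β, b1, b2⟩ := Set.mem_iUnion₂.1 (hc h5)
  refine ⟨β, b1, ?_⟩
  have h6 : A * UT n s β = A.submatrix id S0 * (B * UT n s β) := by
    rw [← Matrix.mul_assoc, ← h2]
  rw [h6, det_mul, abs_mul, mul_comm]
  exact mul_le_mul h1 (le_of_lt b2) (tw_pos _).le (abs_nonneg _)

/-- A column put in front of a matrix. -/
def colCons {m : Type} {s : ℕ} (g : m → ℝ) (Z : Matrix m (Fin s) ℝ) : Matrix m (Fin (s + 1)) ℝ :=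
  Matrix.of fun l j => (Fin.cons (g l) (Z l) : Fin (s + 1) → ℝ) j

lemma mul_colCons {m k : Type} [Fintype m] {s : ℕ} (A : Matrix k m ℝ) (g : m → ℝ)
    (Z : Matrix m (Fin s) ℝ) : A * colCons g Z = colCons (A *ᵥ g) (A * Z) := by
  ext i j
  refine Fin.cases rfl (fun j => rfl) j

lemma det_colCons {s : ℕ} (Z : Matrix (Fin (s + 1)) (Fin s) ℝ) (g : Fin (s + 1) → ℝ)
    (h0 : g 0 = 1) (h1 : ∀ i : Fin s, g i.succ = 0) :
    (colCons g Z).det = (Z.submatrix Fin.succ id).det := by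
  rw [det_succ_column_zero, Fin.sum_univ_succ]
  simp only [colCons, of_apply, Fin.cons_zero, h0, h1]
  simp
  rfl

lemma wr_low' (n : ℕ) : ∃ c : ℕ, (∀ s ≤ n + 1, ∀ (A : Matrix (Fin s) (Fin (n + 1)) ℝ)
      (S : Fin s → Fin (n + 1)),
      ∃ β ∈ Set.Icc (-1 : ℝ) 0, tw c * |(A.submatrix id S).det| ≤ |(A * UT n s β).det|) ∧
    ∀ s ≤ n + 1, ∀ (A : Matrix (Fin (s + 1)) (Fin (n + 1)) ℝ) (S : Fin s → Fin (n + 1))
      (g : Fin (n + 1) → ℝ), ∃ β ∈ Set.Icc (-1 : ℝ) 0,
      tw c * |(colCons (A *ᵥ g) (A.submatrix id S)).det| ≤ |(A * colCons g (UT n s β)).det| := by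
  choose c hc using wr_low n
  have h1 : ∀ s ≤ n + 1, ∀ (A : Matrix (Fin s) (Fin (n + 1)) ℝ) (S : Fin s → Fin (n + 1)),
      ∃ β ∈ Set.Icc (-1 : ℝ) 0,
        tw (∑ s ∈ range (n + 2), c s) * |(A.submatrix id S).det| ≤ |(A * UT n s β).det| := by
    intro s hs A S
    obtain ⟨β, b1, b2⟩ := hc s A S
    exact ⟨β, b1, (mul_le_mul_of_nonneg_right (tw_anti (single_le_sum (f := c)
      (fun _ _ => Nat.zero_le _) (mem_range.2 (by omega)))) (abs_nonneg _)).trans b2⟩
  refine ⟨_, h1, fun s hs A S g => ?_⟩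
  set M := colCons (A *ᵥ g) (A.submatrix id S) with hM
  by_cases h : M.det = 0
  · exact ⟨0, by norm_num, by rw [h, abs_zero, mul_zero]; exact abs_nonneg _⟩
  have h2 : IsUnit M.det := Ne.isUnit h
  have h3 : colCons ((M⁻¹ * A) *ᵥ g) ((M⁻¹ * A).submatrix id S) = 1 := by
    rw [← nonsing_inv_mul _ h2]
    conv_rhs => rw [hM, mul_colCons, ← hM, mulVec_mulVec]
    rfl
  obtain ⟨β, b1, b2⟩ := h1 s hs ((M⁻¹ * A).submatrix Fin.succ id) S
  refine ⟨β, b1, ?_⟩
  have h4 : ((M⁻¹ * A).submatrix Fin.succ id).submatrix id S = 1 := by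
    ext i j
    have := congrFun (congrFun h3 i.succ) j.succ
    simpa [colCons, one_apply] using this
  have h5 : A * colCons g (UT n s β) = M * (M⁻¹ * A * colCons g (UT n s β)) := by
    rw [Matrix.mul_assoc, ← Matrix.mul_assoc M, mul_nonsing_inv _ h2, Matrix.one_mul]
  rw [h4, det_one, abs_one, mul_one] at b2
  rw [h5, det_mul, abs_mul, mul_comm, mul_colCons, det_colCons (M⁻¹ * A * UT n s β)]
  · exact mul_le_mul_of_nonneg_left b2 (abs_nonneg _)
  · simpa [colCons] using congrFun (congrFun h3 0) 0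
  · intro i
    simpa [colCons, one_apply] using congrFun (congrFun h3 i.succ) 0

end Pool.Agent.MP_b86f6c_nt
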