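import Pool.Agent.MP_b86f6c_nt.SqB

set_option autoImplicit false

namespace Pool.Agent.MP_b86f6c_nt

open Polynomial Finset

theorem exists_xi3 (τ : ℝ) (hτ : 2 ≤ τ) (ω : ℕ → ℕ → ℝ)
    (hω : ∀ j m : ℕ, 2 ≤ m → 32 * ((m : ℝ) + 1) ^ 3 ≤ ω j m) (A : ℕ) (hA : τ ≤ A) (s : ℕ → ℝ) :
    ∃ ξ : ℝ, (∀ i, ξ ≠ s i) ∧
      (∀ E, 1 ≤ E → ∃ L0, ∀ L, L0 ≤ L → ∀ q p : ℤ, 1 ≤ q → q ≤ 2 ^ L →
        (∃ k, E * k ≤ (2 * E + 9) * L ∧ tw k ≤ |ξ - p / q|) ∨
          tw (A + 3) * (q : ℝ) ^ (-τ) ≤ |ξ - p / q|) ∧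
      (∀ n, 2 ≤ n → ∃ a0, ∀ a, a0 ≤ a → ∃ j, Good3 (ω j n) n a ξ) ∧
      (∀ m, 2 ≤ m → ∀ j, ∃ i, j ≤ i ∧ Close3 (ω i m) m j ξ) ∧ ∀ j, CloseQ τ j ξ := by
  let Inv : ℕ → ℝ × ℕ → Prop := fun j z => 0 ≤ z.1 ∧ z.1 + tw z.2 ≤ 1 ∧ 100 * (j + 2) ^ 2 ≤ z.2
  let J : ℕ → ℕ := fun j => 100 * (j + 3) ^ 2
  have hJ' : ∀ j, j + 1 ≤ J j := fun j => by
    have h : j + 3 ≤ (j + 3) ^ 2 := Nat.le_self_pow (by norm_num) _
    simp only [J]
    omega
  have hJ : ∀ j, j ≤ J j := fun j => (Nat.le_succ j).trans (hJ' j)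
  let Z : ℕ → ℝ → Prop := fun j x => ((Nat.unpair j).1 = 0 → CloseQ τ (J j) x) ∧
    ((Nat.unpair j).1 ≠ 0 → Close3 (ω j ((Nat.unpair j).1 + 1)) ((Nat.unpair j).1 + 1) (J j) x ∧
      x ≠ s (Nat.unpair j).2)
  have hst : ∀ j z, Inv j z → Stage3 τ (ω j) A (j + 1) (J j) (Z j) z.1 z.2 := by
    rintro j z ⟨h1, h2, h3⟩
    have h4 : 20 * (j + 1) + 22 ≤ z.2 := by nlinarith
    by_cases h : (Nat.unpair j).1 = 0
    · obtain ⟨x1, ρ1, a1, a2, a3, a4⟩ := step_rat3 τ hτ (ω j) A hA (j + 1) (J j) z.1 z.2 h1 h2 h4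
      exact ⟨x1, ρ1, a1, a2, a3, fun x b1 b2 => ⟨(a4 x b1 b2).1, (a4 x b1 b2).2.1,
        fun _ => (a4 x b1 b2).2.2, fun h' => absurd h h'⟩⟩
    · obtain ⟨x1, ρ1, a1, a2, a3, a4⟩ := step_alg3 τ (ω j) A (j + 1) (by omega)
        ((Nat.unpair j).1 + 1) (by omega) (hω _ _ (by omega)) (J j)
        ((Nat.succ_le_succ (Nat.unpair_left_le j)).trans (hJ' j)) (s (Nat.unpair j).2) z.1 z.2 h1 h2 h4
      exact ⟨x1, ρ1, a1, a2, a3, fun x b1 b2 => ⟨(a4 x b1 b2).1, (a4 x b1 b2).2.1,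
        fun h' => absurd h' h, fun _ => (a4 x b1 b2).2.2⟩⟩
  choose! X R hF using hst
  let z : ℕ → ℝ × ℕ := fun j => Nat.rec ((0 : ℝ), 400) (fun j z => (X j z, R j z)) j
  have hz : ∀ j, z (j + 1) = (X j (z j), R j (z j)) := fun j => rfl
  have hI : ∀ j, Inv j (z j) := by
    intro j
    induction j with
    | zero => exact ⟨le_rfl, by simpa [z] using tw_le_one _, by simp [z]⟩
    | succ j ih =>
      obtain ⟨a1, a2, a3, -⟩ := hF j (z j) ih
      refine ⟨ih.1.trans a2, a3.trans ih.2.1, ?_⟩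
      simp only [J] at a1
      rw [hz, show j + 1 + 2 = j + 3 by ring]
      simp only
      omega
  let x : ℕ → ℝ := fun j => (z j).1
  let ρ : ℕ → ℕ := fun j => (z j).2
  have hx : Monotone x := monotone_nat_of_le_succ fun j => (hF j (z j) (hI j)).2.1
  have hx' : Antitone fun j => x j + tw (ρ j) :=
    antitone_nat_of_succ_le fun j => (hF j (z j) (hI j)).2.2.1
  have hb : ∀ j i, x i ≤ x j + tw (ρ j) := by
    intro j i
    have h1 := hx (le_max_left i j)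
    have h2 := hx' (le_max_right i j)
    have h3 := tw_pos (ρ (max i j))
    simp only at h2
    linarith
  have hbdd : BddAbove (Set.range x) := ⟨_, by rintro _ ⟨i, rfl⟩; exact hb 0 i⟩
  have h1 : ∀ j, x j ≤ ⨆ i, x i := fun j => le_ciSup hbdd j
  have h2 : ∀ j, (⨆ i, x i) ≤ x j + tw (ρ j) := fun j => ciSup_le (hb j)
  have hρ0 : ∀ j, 100 * (j + 2) ^ 2 ≤ ρ j := fun j => (hI j).2.2
  have hρ2 : ∀ j, 2 * ρ j + J j ≤ ρ (j + 1) := fun j => (hF j (z j) (hI j)).1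
  have hρ : ∀ j, ρ j + 1 ≤ ρ (j + 1) := fun j => by
    have := hρ0 j
    have := hρ2 j
    have : 0 < (j + 2) ^ 2 := by positivity
    omega
  have key := fun j => (hF j (z j) (hI j)).2.2.2 (⨆ i, x i) (h1 (j + 1)) (h2 (j + 1))
  refine ⟨⨆ i, x i, fun i => ?_, fun E hE => ⟨ρ E, fun L hL q p hq1 hq2 => ?_⟩,
    fun n hn => ⟨ρ n + 1, fun a ha => ?_⟩, fun m hm j => ?_, fun j => ?_⟩
  · have := ((key (Nat.pair 1 i)).2.2.2 (by simp)).2
    rwa [Nat.unpair_pair] at this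
  · have hpos : 0 < ρ E := lt_of_lt_of_le (by positivity) (hρ0 E)
    obtain ⟨j, a0, a1, a2⟩ := exists_cross (fun j => (2 * j + 4) * L ≤ j * ρ j) E (6 * L)
      (by
        have := Nat.mul_le_mul_left E hL
        simp only [not_le]
        nlinarith)
      (by
        have b1 : 6 * L ≤ ρ (E + 6 * L) := le_trans (by nlinarith) (hρ0 _)
        have b2 := Nat.mul_le_mul_left (E + 6 * L) b1
        have b3 : (2 * (E + 6 * L) + 4) * L ≤ (6 * (E + 6 * L)) * L :=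
          Nat.mul_le_mul_right _ (by omega)
        nlinarith)
    obtain ⟨l, c1, c2, c3, c4⟩ := exists_lev j (ρ j) (ρ (j + 1)) L (by omega) (hρ0 j)
      (by have := hρ2 j; omega) (not_le.1 a1) a2
    rcases (key j).1 l c1 c2 q p hq1 (hq2.trans (pow_le_pow_right₀ (by norm_num) c3)) with h | h
    · refine Or.inl ⟨_, ?_, h⟩
      have d1 := Nat.mul_le_mul_left E c4
      have d2 : E * L ≤ j * L := Nat.mul_le_mul_right _ a0
      have d3 : j * (E * ((2 * (j + 1) + 3) * l)) ≤ j * ((2 * E + 9) * L) := by nlinarith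
      exact Nat.le_of_mul_le_mul_left d3 (by omega)
    · exact Or.inr h
  · obtain ⟨j, a0, a1, a2⟩ := exists_level ρ hρ n (UV n * a) (by unfold UV; nlinarith)
    exact ⟨j, (key j).2.1 n (a0.trans (hJ j)) hn a a1 a2⟩
  · obtain ⟨P, a1, a2, a3⟩ := ((key (Nat.pair (m - 1) j)).2.2.2 (by simp; omega)).1
    rw [Nat.unpair_pair] at a1 a3
    simp only [Nat.sub_add_cancel (by omega : 1 ≤ m)] at a1 a3
    exact ⟨_, Nat.right_le_pair _ _, P, a1,
      lt_of_le_of_lt ((Nat.right_le_pair _ _).trans (hJ _)) a2, a3⟩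
  · obtain ⟨g, c, a1, a2⟩ := (key (Nat.pair 0 j)).2.2.1 (by simp)
    exact ⟨g, c, lt_of_le_of_lt ((Nat.right_le_pair _ _).trans (hJ _)) a1, a2⟩

lemma lower_one (ξ τ v : ℝ) (K : ℕ) (hτ : 2 ≤ τ) (hv : τ < v + 1)
    (h : ∀ E, 1 ≤ E → ∃ L0, ∀ L, L0 ≤ L → ∀ q p : ℤ, 1 ≤ q → q ≤ 2 ^ L →
        (∃ k, E * k ≤ (2 * E + 9) * L ∧ tw k ≤ |ξ - p / q|) ∨
          tw K * (q : ℝ) ^ (-τ) ≤ |ξ - p / q|) :
    ∃ c : ℝ, 0 < c ∧ ∀ P : ℤ[X], P.natDegree = 1 → c * (ht P : ℝ) ^ (-v) ≤ |aeval ξ P| := by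
  obtain ⟨L1, hL1⟩ := far ξ τ (v + 1) K hτ hv h
  obtain ⟨L0, hL0⟩ := h 1 le_rfl
  set L := L0 + L1 with hL
  have hp := tw_pos K
  refine ⟨min (tw (11 * L)) (tw K * ((2 : ℝ) ^ L) ^ (-τ)), lt_min (tw_pos _) (by positivity),
    fun P hP => ?_⟩
  have hP0 : P ≠ 0 := by rintro rfl; simp at hP
  have hev : aeval ξ P = P.coeff 1 * ξ + P.coeff 0 := by
    rw [aeval_eq_sum_range' (n := 2) (by omega)]
    simp [Finset.sum_range_succ, add_comm]
  obtain ⟨q, p, hq, hqp⟩ : ∃ q p : ℤ, q = |P.coeff 1| ∧ |aeval ξ P| = |q * ξ - p| := by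
    rcases le_total 0 (P.coeff 1) with h | h
    · exact ⟨P.coeff 1, -P.coeff 0, (abs_of_nonneg h).symm, by rw [hev]; push_cast; ring_nf⟩
    · refine ⟨-P.coeff 1, P.coeff 0, (abs_of_nonpos h).symm, ?_⟩
      rw [hev, ← abs_neg]; push_cast; ring_nf
  have hq1 : 1 ≤ q := by
    rw [hq, ← hP]
    exact Int.one_le_abs (leadingCoeff_ne_zero.2 hP0)
  have hq1' : (1 : ℝ) ≤ q := by exact_mod_cast hq1
  have hq0 : (0 : ℝ) < q := by linarith
  have c6 : |(q : ℝ) * ξ - p| = q * |ξ - p / q| := by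
    have d1 : (q : ℝ) * ξ - p = q * (ξ - p / q) := by field_simp
    rw [d1, abs_mul, abs_of_pos hq0]
  have c7 : (ht P : ℝ) ^ (-v) ≤ (q : ℝ) ^ (-v) := by
    refine Real.rpow_le_rpow_of_nonpos hq0 ?_ (by linarith)
    rw [hq]; push_cast; exact coeff_le_ht P 1
  have c8 : (0 : ℝ) ≤ (ht P : ℝ) ^ (-v) := by positivity
  rw [hqp, c6]
  by_cases hc : 2 ^ L1 < q
  · have c4 := mul_lt_mul_of_pos_left (hL1 q p hc) hq0
    have c5 : (q : ℝ) * (q : ℝ) ^ (-(v + 1)) = (q : ℝ) ^ (-v) := by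
      rw [show -v = 1 + -(v + 1) by ring, Real.rpow_add hq0, Real.rpow_one]
    have := mul_le_of_le_one_left c8 ((min_le_left (tw (11 * L))
      (tw K * ((2 : ℝ) ^ L) ^ (-τ))).trans (tw_le_one _))
    linarith
  · have c1 : q ≤ 2 ^ L := (not_lt.1 hc).trans (pow_le_pow_right₀ (by norm_num) (by omega))
    have c2 : (ht P : ℝ) ^ (-v) ≤ 1 :=
      Real.rpow_le_one_of_one_le_of_nonpos (one_le_ht hP0) (by linarith)
    refine (mul_le_of_le_one_right (le_min (tw_pos _).le (by positivity)) c2).trans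
      (le_trans ?_ (le_mul_of_one_le_left (abs_nonneg _) hq1'))
    rcases hL0 L (by omega) q p hq1 c1 with ⟨k, d1, d2⟩ | d1
    · exact (min_le_left _ _).trans ((tw_anti (by omega)).trans d2)
    · refine (min_le_right _ _).trans (le_trans ?_ d1)
      exact mul_le_mul_of_nonneg_left (Real.rpow_le_rpow_of_nonpos hq0 (by exact_mod_cast c1)
        (by linarith)) hp.le

lemma lower_irr (ξ w : ℝ) (d a0 : ℕ) (hd : 2 ≤ d) (hw : 32 * ((d : ℝ) + 1) ^ 3 ≤ w)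
    (h : ∀ a, a0 ≤ a → Good3 w d a ξ) :
    ∃ c : ℝ, 0 < c ∧ ∀ P : ℤ[X], Irreducible P → P.natDegree = d →
      c * (ht P : ℝ) ^ (-w) ≤ |aeval ξ P| := by
  have hG : (GG d : ℝ) ≤ w := by
    refine le_trans ?_ hw
    have : GG d ≤ 32 * (d + 1) ^ 3 := by
      unfold GG VV UV UU
      nlinarith [Nat.zero_le (d ^ 3), Nat.mul_le_mul hd hd]
    exact_mod_cast this
  have hw0 : 0 ≤ w := le_trans (by positivity) hG
  refine ⟨tw (GG d * (a0 + 1) + (12 * d ^ 2 + 1) + 6), tw_pos _, fun P hP hPd => ?_⟩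
  classical
  have hex : ∃ a, ht P ≤ 2 ^ (a0 + a + 1) :=
    ⟨ht P, (Nat.lt_two_pow_self).le.trans (Nat.pow_le_pow_right (by norm_num) (by omega))⟩
  have c1 := Nat.find_spec hex
  have c0 := one_le_ht hP.ne_zero
  have c2 : (ht P : ℝ) ^ (-w) ≤ tw (GG d * Nat.find hex) := by
    refine rpow_neg_le_tw (b := Nat.find hex) ?_ hw0 ?_
    · rcases Nat.eq_zero_or_pos (Nat.find hex) with h0 | h0
      · rw [h0, pow_zero]; exact c0
      · have c3 := not_le.1 (Nat.find_min hex (Nat.sub_lt h0 one_pos))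
        exact_mod_cast (Nat.pow_le_pow_right (by norm_num) (by omega)).trans c3.le
    · push_cast
      rw [mul_comm]
      exact mul_le_mul_of_nonneg_left hG (by positivity)
  rcases h (a0 + Nat.find hex + 1) (by omega) P hP hPd (Bd_of_ht hPd.le c1) with h1 | h1
  · refine le_trans ?_ h1
    refine (mul_le_mul_of_nonneg_left c2 (tw_pos _).le).trans ?_
    rw [← tw_add]
    exact tw_anti (by nlinarith)
  · exact (mul_le_mul_of_nonneg_right (tw_anti (by omega)) (by positivity)).trans h1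

lemma close_one (ξ w : ℝ) (B : ℕ) (h : CloseQ (w + 1) B ξ) : Close3 w 1 B ξ := by
  obtain ⟨g, c, c1, c2, c3, c4⟩ := h
  have hg0 : (0 : ℝ) < g := by exact_mod_cast (by omega : 0 < g)
  let P : ℤ[X] := monomial 1 (g : ℤ) - monomial 0 c
  have hco : ∀ e, P.coeff e = (if 1 = e then (g : ℤ) else 0) - (if 0 = e then c else 0) := by
    intro e
    simp only [P, coeff_sub, coeff_monomial]
  have hc1 : P.coeff 1 = g := by rw [hco]; simp
  have hdeg : P.natDegree ≤ 1 := natDegree_le_iff_coeff_eq_zero.2 fun e he => by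
    rw [hco, if_neg (by omega), if_neg (by omega)]; simp
  have hle : ht P ≤ g := Finset.sup_le fun e _ => by
    show (P.coeff e).natAbs ≤ g
    rw [hco]
    split_ifs <;> omega
  have hge : g ≤ ht P := by
    have := coeff_le_ht P 1
    rw [hc1, Int.cast_natCast, Nat.abs_cast] at this
    exact_mod_cast this
  have hev : aeval ξ P = g * (ξ - c / g) := by
    simp only [P, map_sub, aeval_monomial, algebraMap_int_eq, eq_intCast]
    push_cast
    field_simp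
  refine ⟨P, hdeg, by omega, ?_⟩
  rw [hev, le_antisymm hle hge, abs_mul, abs_of_pos hg0,
    show -w = 1 + -(w + 1) by ring, Real.rpow_add hg0, Real.rpow_one]
  exact mul_le_mul_of_nonneg_left c4 hg0.le

theorem prescribed (w : ℕ → EReal) (h1 : 1 ≤ w 1) (h1' : w 1 ≠ ⊤)
    (hm : ∀ n, 1 ≤ n → w n ≤ w (n + 1))
    (hb : ∀ n : ℕ, 2 ≤ n → ((32 * ((n : ℝ) + 1) ^ 3 : ℝ) : EReal) ≤ w n) (s : ℕ → ℝ) :
    ∃ ξ : ℝ, (∀ i, ξ ≠ s i) ∧ Transcendental ℤ ξ ∧ ∀ n : ℕ, 1 ≤ n → ∀ v : ℝ,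
      ((v : EReal) ≤ w n → {P : Polynomial ℤ | P.natDegree ≤ n ∧ Polynomial.aeval ξ P ≠ 0 ∧
          |Polynomial.aeval ξ P| ≤ (ht P : ℝ) ^ (-v)}.Infinite) ∧
      (w n < (v : EReal) → {P : Polynomial ℤ | P.natDegree ≤ n ∧ Polynomial.aeval ξ P ≠ 0 ∧
          |Polynomial.aeval ξ P| ≤ (ht P : ℝ) ^ (-v)}.Finite) := by
  classical
  have hmono : ∀ d n, 1 ≤ d → d ≤ n → w d ≤ w n := by
    intro d n hd hn
    induction n, hn using Nat.le_induction with
    | base => exact le_rfl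
    | succ n hn ih => exact ih.trans (hm n (by omega))
  have hre : ∀ n, 1 ≤ n → w n ≠ ⊤ → (((w n).toReal : ℝ) : EReal) = w n := fun n hn h =>
    EReal.coe_toReal h (ne_bot_of_le_ne_bot (EReal.coe_ne_bot 1) (h1.trans (hmono 1 n le_rfl hn)))
  set r := (w 1).toReal with hr
  have hr1 : (r : EReal) = w 1 := hre 1 le_rfl h1'
  have hr2 : 1 ≤ r := by
    rw [← hr1] at h1
    exact_mod_cast h1
  let ω : ℕ → ℕ → ℝ := fun j m => if w m = ⊤ then 32 * ((m : ℝ) + 1) ^ 3 + j else (w m).toReal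
  have hω : ∀ j m : ℕ, 2 ≤ m → 32 * ((m : ℝ) + 1) ^ 3 ≤ ω j m := by
    intro j m h
    simp only [ω]
    split_ifs with h'
    · exact le_add_of_nonneg_right (by positivity)
    · have := hb m h
      rw [← hre m (by omega) h'] at this
      exact EReal.coe_le_coe_iff.1 this
  obtain ⟨A, hA⟩ := exists_nat_ge (r + 1)
  obtain ⟨ξ, h0, h2, h3, h4, h5⟩ := exists_xi3 (r + 1) (by linarith) ω hω A hA s
  have hlow : ∀ n (v : ℝ), 1 ≤ n → w n < v → ∃ c : ℝ, 0 < c ∧ ∀ P : ℤ[X], P ≠ 0 →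
      P.natDegree ≤ n → c * (ht P : ℝ) ^ (-v) ≤ |aeval ξ P| := by
    intro n v hn hv
    have hv1 : r < v := EReal.coe_lt_coe_iff.1 (hr1 ▸ (hmono 1 n le_rfl hn).trans_lt hv)
    have : ∀ k, k ≤ n → ∃ c : ℝ, 0 < c ∧ ∀ P : ℤ[X], Irreducible P → P.natDegree ≠ 0 →
        P.natDegree ≤ k → c * (ht P : ℝ) ^ (-v) ≤ |aeval ξ P| := by
      intro k
      induction k with
      | zero => exact fun _ => ⟨1, one_pos, fun P _ a1 a2 => by omega⟩
      | succ k ih =>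
        intro hk
        obtain ⟨c, hc, hc'⟩ := ih (by omega)
        obtain ⟨e, he, he'⟩ : ∃ e : ℝ, 0 < e ∧ ∀ P : ℤ[X], Irreducible P → P.natDegree = k + 1 →
            e * (ht P : ℝ) ^ (-v) ≤ |aeval ξ P| := by
          rcases Nat.eq_zero_or_pos k with rfl | hk0
          · obtain ⟨e, he, he'⟩ := lower_one ξ (r + 1) v (A + 3) (by linarith) (by linarith) h2
            exact ⟨e, he, fun P _ hP => he' P hP⟩
          · obtain ⟨a0, ha0⟩ := h3 (k + 1) (by omega)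
            have b1 := (hmono (k + 1) n (by omega) hk).trans_lt hv
            have b2 := b1.ne_top
            have b3 : ∀ j, ω j (k + 1) = (w (k + 1)).toReal := fun j => if_neg b2
            rw [← hre (k + 1) (by omega) b2] at b1
            obtain ⟨e, he, he'⟩ := lower_irr ξ (w (k + 1)).toReal (k + 1) a0 (by omega)
              (b3 0 ▸ hω 0 _ (by omega)) (fun a ha => by
                obtain ⟨j, hj⟩ := ha0 a ha
                exact b3 j ▸ hj)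
            refine ⟨e, he, fun P hP hPd => le_trans ?_ (he' P hP hPd)⟩
            exact mul_le_mul_of_nonneg_left (Real.rpow_le_rpow_of_exponent_le
              (one_le_ht hP.ne_zero) (by linarith [EReal.coe_lt_coe_iff.1 b1])) he.le
        refine ⟨min c e, lt_min hc he, fun P hP a1 a2 => ?_⟩
        rcases a2.eq_or_lt with a3 | a3
        · exact (mul_le_mul_of_nonneg_right (min_le_right _ _) (by positivity)).trans (he' P hP a3)
        · exact (mul_le_mul_of_nonneg_right (min_le_left _ _) (by positivity)).trans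
            (hc' P hP a1 (by omega))
    obtain ⟨c, hc, hc'⟩ := this n le_rfl
    exact lower_of_irr ξ v c n (by linarith) hc hc'
  have htr : ∀ P : ℤ[X], P ≠ 0 → aeval ξ P ≠ 0 := by
    intro P hP h
    obtain ⟨Q, q1, -, q2⟩ := exists_irr_root ξ P hP h
    have q3 : (0 : ℝ) < ht Q := lt_of_lt_of_le one_pos (one_le_ht q1.ne_zero)
    by_cases hd : Q.natDegree ≤ 1
    · obtain ⟨c, hc, hc'⟩ := hlow 1 (r + 1) le_rfl (hr1 ▸ EReal.coe_lt_coe_iff.2 (lt_add_one r))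
      have h6 := hc' Q q1.ne_zero hd
      rw [q2, abs_zero] at h6
      exact absurd (mul_pos hc (Real.rpow_pos_of_pos q3 _)) (not_lt.2 h6)
    · obtain ⟨a0, ha0⟩ := h3 Q.natDegree (by omega)
      obtain ⟨j, hj⟩ := ha0 (a0 + ht Q) (by omega)
      have h6 := hj Q q1 rfl (Bd_of_ht le_rfl
        ((Nat.lt_two_pow_self).le.trans (Nat.pow_le_pow_right (by norm_num) (by omega))))
      rw [q2, abs_zero] at h6
      rcases h6 with h6 | h6
      · exact absurd (tw_pos _) (not_lt.2 h6)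
      · exact absurd (mul_pos (tw_pos _) (Real.rpow_pos_of_pos q3 _)) (not_lt.2 h6)
  refine ⟨ξ, h0, fun ⟨P, hP, h⟩ => htr P hP h, fun n hn v => ⟨fun hv hfin => ?_, fun hv => ?_⟩⟩
  · obtain ⟨B, hB⟩ := (hfin.image ht).bddAbove
    obtain ⟨v', hv', P, c1, c2, c3⟩ : ∃ v', v ≤ v' ∧ Close3 v' n B ξ := by
      rcases hn.eq_or_lt with rfl | hn2
      · exact ⟨r, EReal.coe_le_coe_iff.1 (hr1 ▸ hv), close_one ξ r B (h5 B)⟩
      · obtain ⟨i, hi, P, c1, c2, c3⟩ := h4 n hn2 (B + ⌈v⌉₊)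
        refine ⟨ω i n, ?_, P, c1, by omega, c3⟩
        simp only [ω]
        split_ifs with h'
        · have b1 : ((⌈v⌉₊ : ℕ) : ℝ) ≤ i := by exact_mod_cast (by omega : ⌈v⌉₊ ≤ i)
          have b2 : (0 : ℝ) ≤ 32 * ((n : ℝ) + 1) ^ 3 := by positivity
          linarith [Nat.le_ceil v]
        · rw [← hre n hn h'] at hv
          exact EReal.coe_le_coe_iff.1 hv
    have hP0 : P ≠ 0 := by
      rintro rfl
      simp [ht] at c2
    have c5 : ht P ≤ B := hB ⟨P, ⟨c1, htr P hP0, c3.trans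
      (Real.rpow_le_rpow_of_exponent_le (one_le_ht hP0) (by linarith))⟩, rfl⟩
    omega
  · obtain ⟨v', hv1, hv2⟩ := EReal.lt_iff_exists_real_btwn.1 hv
    rw [EReal.coe_lt_coe_iff] at hv2
    obtain ⟨c, hc, hc'⟩ := hlow n v' hn hv1
    obtain ⟨k, hk⟩ := exists_pow_lt_of_lt_one hc (by norm_num : (1 / 2 : ℝ) < 1)
    obtain ⟨b, hb⟩ := exists_nat_gt ((k : ℝ) / (v - v'))
    rw [div_lt_iff₀ (by linarith)] at hb
    refine (finite_Bd n b).subset ?_
    rintro P ⟨b1, b2, b3⟩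
    have hP0 : P ≠ 0 := by rintro rfl; simp at b2
    refine Bd_of_ht b1 ?_
    by_contra hH
    have hH0 : (0 : ℝ) < ht P := lt_of_lt_of_le one_pos (one_le_ht hP0)
    have d1 := (hc' P hP0 b1).trans b3
    rw [show -v = -(v - v') + -v' by ring, Real.rpow_add hH0] at d1
    have d2 := le_of_mul_le_mul_right d1 (Real.rpow_pos_of_pos hH0 _)
    have d3 : (ht P : ℝ) ^ (-(v - v')) ≤ tw k :=
      rpow_neg_le_tw (b := b) (by exact_mod_cast (not_le.1 hH).le) (by linarith) hb.le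
    unfold tw at d3
    linarith

end Pool.Agent.MP_b86f6c_nt
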