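import Pool.Agent.MP_b86f6c_nt.KmC
import Pool.Agent.MP_b86f6c_nt.SqC

set_option autoImplicit false

namespace Pool.Agent.MP_b86f6c_nt

open Polynomial Finset Matrix

/-- Lower bound for all nonzero polynomials of degree at most `n` and level `L`. -/
def Low (n L k : ℕ) (x : ℝ) : Prop := ∀ P : ℤ[X], P ≠ 0 → Bd n L P → tw k ≤ |aeval x P|

lemma Low.mono {n L L' k k' : ℕ} {x : ℝ} (h : Low n L k x) (hL : L' ≤ L) (hk : k ≤ k') :
    Low n L' k' x := fun P hP hB => (tw_anti hk).trans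
  (h P hP ⟨hB.1, fun e => (hB.2 e).trans (pow_le_pow_right₀ (by norm_num) hL)⟩)

lemma aeval_toP {n : ℕ} (v : Fin (n + 1) → ℤ) (x : ℝ) :
    aeval x (toP v) = ∑ l, (v l : ℝ) * x ^ (l : ℕ) := by
  simp [toP, aeval_monomial]

/-- Coefficients and value of a polynomial, with weights. -/
def Hm (n : ℕ) (x α ω : ℝ) : Matrix (Fin (n + 1)) (Option (Fin (n + 1))) ℝ :=
  Matrix.of fun l c => c.elim (ω * x ^ (l : ℕ)) fun i => if l = i then α else 0

lemma Hm_none {n : ℕ} (x α ω : ℝ) (v : Fin (n + 1) → ℝ) :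
    (v ᵥ* Hm n x α ω) none = ω * ∑ l, v l * x ^ (l : ℕ) := by
  simp only [Hm, vecMul, dotProduct, of_apply, Option.elim, mul_sum]
  exact sum_congr rfl fun _ _ => by ring

lemma Hm_some {n : ℕ} (x α ω : ℝ) (v : Fin (n + 1) → ℝ) (i : Fin (n + 1)) :
    (v ᵥ* Hm n x α ω) (some i) = α * v i := by
  simp [Hm, vecMul, dotProduct, mul_comm]

lemma inj_of_det {ι : Type} {R : Type} [CommRing R] {r : ℕ} {A : Matrix (Fin r) ι R} {S : Fin r → ι}
    (h : (A.submatrix id S).det ≠ 0) : Function.Injective S := fun i j hij => by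
  by_contra hne
  exact h (det_zero_of_column_eq hne fun k => by simp [hij])

lemma mink_H (n p L k q l : ℕ) (x : ℝ)
    (h : p ≤ n + l + L → ∃ k0, Low n (n + l + L - p) k0 x ∧ q + k0 + n + l ≤ k) {r : ℕ} (b : Matrix (Fin r) (Fin (n + 1)) ℤ)
    (S : Fin r → Fin (n + 1)) (hS : (b.submatrix id S).det ≠ 0) :
    ∃ S' : Fin r → Option (Fin (n + 1)), ((2 : ℝ) ^ l) ^ r ≤ |((b.map (Int.cast : ℤ → ℝ) *
      Hm n x (2 ^ p * tw L) (2 ^ k * tw q)).submatrix id S').det| := by
  have hα : (0 : ℝ) < 2 ^ p * tw L := mul_pos (by positivity) (tw_pos _)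
  have hω : (0 : ℝ) < 2 ^ k * tw q := mul_pos (by positivity) (tw_pos _)
  refine mink _ (some ∘ S) ?_ _ (by positivity) fun z hz => ?_
  · have h1 : (b.map (Int.cast : ℤ → ℝ) * Hm n x (2 ^ p * tw L) (2 ^ k * tw q)).submatrix id
        (some ∘ S) = (2 ^ p * tw L) • (b.submatrix id S).map (Int.cast : ℤ → ℝ) := by
      ext i j
      exact Hm_some x _ _ _ _
    rw [h1, det_smul, ← Int.cast_det]
    exact mul_ne_zero (by positivity) (by exact_mod_cast hS)
  have hr : (r : ℝ) * 2 ^ l ≤ 2 ^ (n + l) := by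
    have h1 : r ≤ n + 1 := by simpa using Fintype.card_le_of_injective S (inj_of_det hS)
    rw [pow_add]
    exact mul_le_mul_of_nonneg_right ((by exact_mod_cast h1 : (r : ℝ) ≤ n + 1).trans
      (nat_succ_le_two_pow n)) (by positivity)
  have h1 : (fun i => (z i : ℝ)) ᵥ* b.map (Int.cast : ℤ → ℝ) = fun i => ((z ᵥ* b) i : ℝ) := by
    funext i
    simp [vecMul, dotProduct]
  rw [← vecMul_vecMul, h1]
  set v := z ᵥ* b with hv
  have hv0 : v ≠ 0 := fun h0 =>
    hS (exists_vecMul_eq_zero_iff.1 ⟨z, hz, funext fun i => congrFun h0 (S i)⟩)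
  by_contra hc
  push Not at hc
  have h2 : ∀ i, 2 ^ p * |(v i : ℝ)| < 2 ^ (n + l + L) := fun i => by
    have h3 := (hc (some i)).trans_le hr
    rw [Hm_some, abs_mul, abs_of_pos hα] at h3
    have h4 := mul_lt_mul_of_pos_left h3 (by positivity : (0 : ℝ) < 2 ^ L)
    rw [mul_comm (2 ^ p), mul_assoc, ← mul_assoc, two_pow_mul_tw, one_mul, ← pow_add] at h4
    rwa [add_comm]
  obtain ⟨i0, hi0⟩ := Function.ne_iff.1 hv0
  have h3 : p ≤ n + l + L := by
    have h4 : (1 : ℝ) ≤ |(v i0 : ℝ)| := by exact_mod_cast Int.one_le_abs hi0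
    have h5 := (le_mul_of_one_le_right (by positivity) h4).trans_lt (h2 i0)
    exact ((pow_lt_pow_iff_right₀ (by norm_num)).1 h5).le
  obtain ⟨k0, hlow, hk⟩ := h h3
  have h4 := hlow (toP v) (fun h0 => hi0 (by rw [← toP_coeff v i0, h0]; rfl))
    ⟨toP_natDegree v, fun e => by
      by_cases he : e < n + 1
      · have h5 := h2 ⟨e, he⟩
        rw [← toP_coeff v, ← Nat.add_sub_cancel' h3, pow_add] at h5
        exact (lt_of_mul_lt_mul_left h5 (by positivity)).le
      · rw [coeff_eq_zero_of_natDegree_lt (by have := toP_natDegree v; omega)]; simp⟩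
  have h5 := (hc none).trans_le hr
  rw [Hm_none, ← aeval_toP, abs_mul, abs_of_pos hω] at h5
  have h6 : (2 : ℝ) ^ (n + l) ≤ 2 ^ k * tw q * tw k0 := by
    rw [mul_assoc, ← tw_add, ← mul_one ((2 : ℝ) ^ (n + l)), ← two_pow_mul_tw (q + k0), ← mul_assoc,
      ← pow_add]
    exact mul_le_mul_of_nonneg_right (pow_le_pow_right₀ (by norm_num) (by omega)) (tw_pos _).le
  linarith [mul_le_mul_of_nonneg_left h4 hω.le]

lemma aeval_lip (n a : ℕ) (P : ℤ[X]) (hB : Bd n a P) (x y : ℝ) (hx : |x| ≤ 2) (hy : |y| ≤ 1) :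
    |aeval (x + y) P - aeval x P| ≤ 2 ^ (4 * n + a) * |y| := by
  have h1 := taylor_tail (P.map (algebraMap ℤ ℝ)) n (2 ^ a) x y (natDegree_map_le.trans hB.1)
    (fun e => by simpa using hB.2 e) hx hy 1
  rw [Finset.sum_range_one, taylor_coeff_zero, eval_map_algebraMap, eval_map_algebraMap,
    ← pow_add] at h1
  simpa using h1

lemma det_smul_sub {ι : Type} {N r : ℕ} (b : Matrix (Fin r) (Fin N) ℝ) (h : Matrix (Fin N) ι ℝ)
    (c : ℝ) (S : Fin r → ι) :
    ((b * (c • h)).submatrix id S).det = c ^ r * ((b * h).submatrix id S).det := by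
  rw [Matrix.mul_smul, submatrix_smul, Pi.smul_apply, Pi.smul_apply, det_smul, Fintype.card_fin]

open Classical in
/-- Small heights: few cells next to a good point contain a bad point. -/
lemma app1 (n : ℕ) : ∃ c : ℕ, ∀ (y0 σ : ℝ) (L k k0 u Lc : ℕ), 0 < σ → σ ≤ tw (k + L) →
    Low n (L + ((n + 1) * n + 1) * u + c) k0 y0 → k0 + ((n + 1) * n + 1) * u + c ≤ k →
    (((range (2 ^ Lc)).filter fun j => ∃ y ∈ cell y0 σ j, |y| ≤ 2 ∧ ¬ Low n L k y).card : ℝ)
      ≤ (n + 1) * tw u * 2 ^ Lc := by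
  refine ⟨EE (n + 1) n + 5 * n + 1, fun y0 σ L k k0 u Lc hσ hσ2 hlow hk => ?_⟩
  set l := u * ((n + 1) * n + 1) + EE (n + 1) n + (4 * n + 1) with hl
  have key := km (n + 1) n (fun y => tw l • Hm n y (2 ^ 0 * tw L) (2 ^ k * tw 0))
    (by
      rintro i (_ | j)
      · exact ⟨C (tw l * (2 ^ k * tw 0)) * X ^ (i : ℕ), (natDegree_C_mul_X_pow_le _ _).trans
          (Nat.lt_succ_iff.1 i.2), fun y => by simp [Hm, mul_assoc]⟩
      · exact ⟨C ((tw l • Hm n 0 (2 ^ 0 * tw L) (2 ^ k * tw 0)) i (some j)),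
          (natDegree_C _).trans_le (Nat.zero_le _),
          fun y => by rw [eval_C]; rfl⟩) y0 σ hσ Lc u
    (by
      rintro r b ⟨S, hS⟩
      obtain ⟨S', h⟩ := mink_H n 0 L k 0 l y0 (fun _ => ⟨k0,
        hlow.mono (by rw [hl, Nat.sub_zero]; nlinarith) le_rfl, by rw [hl]; nlinarith⟩) b S hS
      refine ⟨y0, ⟨by simp, by simp; positivity⟩, S', ?_⟩
      have := tw_pos l
      rw [det_smul_sub, abs_mul, abs_of_pos (by positivity)]
      refine le_trans (le_of_eq ?_) (mul_le_mul_of_nonneg_left h (by positivity))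
      rw [← mul_pow, mul_comm, two_pow_mul_tw, one_pow])
  push_cast at key
  refine le_trans (Nat.cast_le.2 (card_le_card fun j hj => ?_)) key
  obtain ⟨a1, y, a2, a3, a4⟩ := mem_filter.1 hj
  unfold Low at a4
  push Not at a4
  obtain ⟨P, hP0, hP, a5⟩ := a4
  refine mem_filter.2 ⟨a1, fun i => P.coeff i, fun h0 => hP0 (by rw [← toP_of P hP.1, h0]; simp [toP]),
    fun z hz c => ?_⟩
  have b0 := tw_pos l
  rw [vecMul_smul, Pi.smul_apply, smul_eq_mul, abs_mul, abs_of_pos b0]
  refine le_trans (mul_le_mul_of_nonneg_left (c := 2 ^ (4 * n + 1)) ?_ b0.le)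
    (by rw [mul_comm (tw l)]; exact two_pow_mul_tw_le (by omega))
  have b1 := tw_pos L
  have b2 : (1 : ℝ) ≤ 2 ^ (4 * n) := one_le_pow₀ (by norm_num)
  rcases c with _ | i
  · have b3 : |z - y| ≤ σ := by
      rw [abs_le]; constructor <;> linarith [hz.1, hz.2, a2.1, a2.2]
    have b4 := aeval_lip n L P hP y (z - y) a3 (b3.trans (hσ2.trans (tw_le_one _)))
    have b5 : (2 : ℝ) ^ (4 * n + L) * |z - y| ≤ 2 ^ (4 * n) * tw k := by
      rw [← two_pow_mul_tw_add L k, ← mul_assoc, ← pow_add, add_comm L]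
      exact mul_le_mul_of_nonneg_left (b3.trans hσ2) (by positivity)
    rw [add_sub_cancel] at b4
    have b6 := abs_sub_abs_le_abs_sub (aeval z P) (aeval y P)
    have b7 : |aeval z P| ≤ 2 ^ (4 * n + 1) * tw k := by
      have := tw_pos k
      rw [pow_succ]; nlinarith
    rw [Hm_none, ← aeval_toP, toP_of P hP.1, tw_zero, mul_one, abs_mul, abs_of_pos (by positivity)]
    refine (mul_le_mul_of_nonneg_left b7 (by positivity)).trans (le_of_eq ?_)
    rw [mul_left_comm, two_pow_mul_tw, mul_one]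
  · rw [Hm_some, pow_zero, one_mul, abs_mul, abs_of_pos b1]
    refine (mul_le_mul_of_nonneg_left (hP.2 i) b1.le).trans ?_
    rw [mul_comm, two_pow_mul_tw]
    exact one_le_pow₀ (by norm_num)

lemma prod_w (n r t L : ℕ) (h : r ≤ n) :
    ((2 : ℝ) ^ t * tw L) ^ r ≤ ∏ i : Fin r, (2 ^ (n * t) * tw (2 * t * i + L)) := by
  have h1 : ∀ r : ℕ, ∏ i ∈ range r, tw (2 * t * i + L) = tw (t * (r * (r - 1))) * tw L ^ r := by
    intro r
    rw [← sum_range_id_mul_two]
    induction r with
    | zero => simp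
    | succ r ih =>
      rw [prod_range_succ, ih, sum_range_succ, tw_add, mul_mul_mul_comm, ← tw_add, ← pow_succ]
      congr 2; ring
  rw [prod_mul_distrib, prod_const, card_univ, Fintype.card_fin,
    Fin.prod_univ_eq_prod_range (fun i => tw (2 * t * i + L)), h1, mul_pow, ← mul_assoc]
  refine mul_le_mul_of_nonneg_right ?_ (pow_nonneg (tw_pos _).le _)
  rw [← mul_one (((2 : ℝ) ^ t) ^ r), ← two_pow_mul_tw (t * (r * (r - 1))), ← mul_assoc, ← pow_mul,
    ← pow_mul, ← pow_add]
  refine mul_le_mul_of_nonneg_right (pow_le_pow_right₀ (by norm_num) ?_) (tw_pos _).le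
  rcases r with _ | r
  · simp
  · have := Nat.mul_le_mul_left (t * (r + 1)) h
    simp only [Nat.add_sub_cancel]
    nlinarith

lemma det_colCons_pow (s : ℕ) (γ : ℝ) : (colCons (fun l : Fin (s + 1) => γ ^ (l : ℕ))
    ((1 : Matrix (Fin (s + 1)) (Fin (s + 1)) ℝ).submatrix id Fin.succ)).det = 1 := by
  rw [det_succ_row_zero, Fin.sum_univ_succ, sum_eq_zero fun j _ => by
    simp [colCons, one_apply, (Fin.succ_ne_zero j).symm]]
  have : (colCons (fun l : Fin (s + 1) => γ ^ (l : ℕ)) ((1 : Matrix (Fin (s + 1))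
      (Fin (s + 1)) ℝ).submatrix id Fin.succ)).submatrix Fin.succ Fin.succ = 1 := by
    ext i j
    simp [colCons, one_apply]
  rw [Fin.succAbove_zero, this]
  simp [colCons]

/-- Taylor coefficients at `β` and value at `γ`, with weights. -/
noncomputable def H2 (n t L : ℕ) (γ ω β : ℝ) : Matrix (Fin (n + 1)) (Option (Fin n)) ℝ :=
  Matrix.of fun l c => c.elim (ω * γ ^ (l : ℕ))
    fun i => 2 ^ (n * t) * tw (2 * t * i + L) * UT n n β l i

open Classical in
/-- Large heights: few cells of the dual parameter are bad. -/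
lemma app2 (n : ℕ) : ∃ c : ℕ, ∀ (γ : ℝ) (t L k u : ℕ),
    (t ≤ L + ((n + 1) * n + 1) * u + c → ∃ k0, Low n (L + ((n + 1) * n + 1) * u + c - t) k0 γ ∧
      n * t + k0 + ((n + 1) * n + 1) * u + c ≤ k) →
    n * L + (n + 1) * (((n + 1) * n + 1) * u + c) ≤ k →
    (((range (2 ^ (2 * t))).filter fun j => ∃ Q : ℤ[X], Q ≠ 0 ∧ Q.natDegree ≤ n ∧
      |aeval γ Q| ≤ 2 ^ (n * t + 4 * n) * tw k ∧ ∀ z ∈ cell (-1) (tw (2 * t)) j, ∀ i,
        2 ^ (n * t) * |aeval z (hasseDeriv i Q)| ≤ 2 ^ (4 * n + (2 * t * i + L))).card : ℝ)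
      ≤ (n + 1) * tw u * 2 ^ (2 * t) := by
  obtain ⟨cw, hw1, hw2⟩ := wr_low' n
  refine ⟨EE (n + 1) n + 5 * n + cw, fun γ t L k u hlow hk2 => ?_⟩
  set l0 := u * ((n + 1) * n + 1) + EE (n + 1) n + 4 * n with hl0
  have hl : n + (l0 + cw) + L = L + ((n + 1) * n + 1) * u + (EE (n + 1) n + 5 * n + cw) := by
    rw [hl0]; ring
  set ω : ℝ := 2 ^ k * tw (n * t) with hω
  have hω0 : 0 < ω := mul_pos (by positivity) (tw_pos _)
  have hα : (0 : ℝ) < 2 ^ t * tw L := mul_pos (by positivity) (tw_pos _)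
  have p0 := tw_pos l0
  have pw := tw_pos cw
  have hblk : blk (-1) (tw (2 * t)) 0 (2 * t) = Set.Icc (-1) 0 := by
    simp [blk, two_pow_mul_tw]
  have fin : ∀ (s : ℕ) (D X : ℝ), ((2 : ℝ) ^ (l0 + cw)) ^ (s + 1) ≤ D → tw cw * D ≤ X →
      1 ≤ tw l0 ^ (s + 1) * X := by
    intro s D X h1 h2
    have h3 : (2 : ℝ) ^ cw ≤ (2 ^ cw) ^ (s + 1) :=
      le_self_pow₀ (one_le_pow₀ (by norm_num)) (by omega)
    calc (1 : ℝ) = (2 ^ l0 * tw l0) ^ (s + 1) * (2 ^ cw * tw cw) := by
          rw [two_pow_mul_tw, two_pow_mul_tw]; simp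
      _ ≤ (2 ^ l0 * tw l0) ^ (s + 1) * ((2 ^ cw) ^ (s + 1) * tw cw) := by gcongr
      _ = tw l0 ^ (s + 1) * (tw cw * (2 ^ (l0 + cw)) ^ (s + 1)) := by
          rw [pow_add, mul_pow, mul_pow]; ring
      _ ≤ _ := by gcongr; exact (mul_le_mul_of_nonneg_left h1 pw.le).trans h2
  have key := km (n + 1) n (fun β => tw l0 • H2 n t L γ ω β)
    (by
      rintro i (_ | j)
      · exact ⟨C ((tw l0 • H2 n t L γ ω 0) i none), (natDegree_C _).trans_le (Nat.zero_le _),
          fun y => by rw [eval_C]; rfl⟩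
      · exact ⟨C (tw l0 * (2 ^ (n * t) * tw (2 * t * j + L) * ((i : ℕ).choose j : ℝ)))
          * X ^ ((i : ℕ) - j), (natDegree_C_mul_X_pow_le _ _).trans
          (by have := i.2; omega), fun y => by simp [H2, UT, mul_assoc]⟩)
    (-1) (tw (2 * t)) (tw_pos _) (2 * t) u
    (by
      rintro r b ⟨S, hS⟩
      rw [hblk]
      rcases r with _ | s
      · exact ⟨0, by norm_num, Fin.elim0, by simp⟩
      have hs : s ≤ n := by simpa using Fintype.card_le_of_injective S (inj_of_det hS)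
      set A := b.map (Int.cast : ℤ → ℝ) with hA
      have two : ∀ S1 : Fin s → Fin (n + 1), ((2 : ℝ) ^ (l0 + cw)) ^ (s + 1) ≤ ω *
          (2 ^ t * tw L) ^ s * |(colCons (A *ᵥ fun l : Fin (_ + 1) => γ ^ (l : ℕ)) (A.submatrix id S1)).det| →
          ∃ y ∈ Set.Icc (-1 : ℝ) 0, ∃ S : Fin (s + 1) → Option (Fin n),
            1 ≤ |((A * (tw l0 • H2 n t L γ ω y)).submatrix id S).det| := by
        intro S1 h1
        obtain ⟨β, b1, b2⟩ := hw2 s (by omega) A S1 fun l : Fin (_ + 1) => γ ^ (l : ℕ)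
        refine ⟨β, b1, Fin.cons none fun i => some (Fin.castLE hs i), ?_⟩
        have h2 : (A * H2 n t L γ ω β).submatrix id (Fin.cons none fun i => some (Fin.castLE hs i))
            = Matrix.of fun i j => (Fin.cons ω fun i : Fin s => 2 ^ (n * t) * tw (2 * t * i + L) :
              Fin (s + 1) → ℝ) j * (A * colCons (fun l : Fin (_ + 1) => γ ^ (l : ℕ)) (UT n s β)) i j := by
          ext i j
          refine Fin.cases ?_ (fun j => ?_) j <;>
            simp [H2, colCons, UT, Matrix.mul_apply, mul_sum, mul_left_comm, mul_assoc]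
        rw [det_smul_sub, abs_mul, abs_of_pos (by positivity), h2, det_mul_row, Fin.prod_cons,
          abs_mul]
        refine fin s _ _ h1 ?_
        rw [mul_left_comm]
        exact mul_le_mul ((mul_le_mul_of_nonneg_left (prod_w n s t L hs) hω0.le).trans
          (le_abs_self _)) b2 (by positivity) (abs_nonneg _)
      rcases hs.eq_or_lt with rfl | hs'
      · refine two Fin.succ ?_
        have h1 : colCons (A *ᵥ fun l : Fin (_ + 1) => γ ^ (l : ℕ)) (A.submatrix id Fin.succ) = A * colCons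
            (fun l : Fin (_ + 1) => γ ^ (l : ℕ)) ((1 : Matrix (Fin (s + 1)) (Fin (s + 1)) ℝ).submatrix id Fin.succ) := by
          rw [mul_colCons]
          congr 1
          ext i j
          simp [Matrix.mul_apply, one_apply]
        have h3 : (1 : ℝ) ≤ |A.det| := by
          have h4 := abs_det_submatrix_equiv_equiv (Equiv.refl _)
            (Equiv.ofBijective S (inj_of_det hS).bijective_of_finite) b
          rw [hA, ← Int.cast_det, ← Int.cast_abs, ← h4]
          exact_mod_cast Int.one_le_abs hS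
        rw [h1, det_mul, det_colCons_pow, mul_one]
        refine le_trans ?_ (le_mul_of_one_le_right (by positivity) h3)
        rw [hω, mul_pow, ← pow_mul, ← pow_mul, ← tw_mul, mul_assoc, ← mul_assoc (tw _),
          mul_comm (tw _), mul_comm t, two_pow_mul_tw, one_mul,
          ← mul_one ((2 : ℝ) ^ ((l0 + cw) * (s + 1))), ← two_pow_mul_tw (L * s), ← mul_assoc,
          ← pow_add]
        refine mul_le_mul_of_nonneg_right (pow_le_pow_right₀ (by norm_num) ?_) (tw_pos _).le
        rw [hl0]; nlinarith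
      obtain ⟨S', h⟩ := mink_H n t L k (n * t) (l0 + cw) γ (by
        rw [hl]
        exact fun h => (hlow h).imp fun k0 h' => ⟨h'.1, by have := h'.2; omega⟩) b S hS
      rw [← hA, ← hω] at h
      by_cases hn : ∃ j0, S' j0 = none
      · obtain ⟨j0, hj0⟩ := hn
        have h1 := inj_of_det (abs_pos.1 (lt_of_lt_of_le (by positivity) h))
        have h2 : ∀ i : Fin s, ∃ a, S' (Equiv.swap 0 j0 i.succ) = some a := fun i =>
          Option.ne_none_iff_exists'.1 fun h3 => Fin.succ_ne_zero i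
            ((Equiv.swap 0 j0).injective (h1 (by rw [h3, Equiv.swap_apply_left, hj0])))
        choose S1 hS1 using h2
        refine two S1 (h.trans (le_of_eq ?_))
        have h3 : ((A * Hm n γ (2 ^ t * tw L) ω).submatrix id S').submatrix (Equiv.refl _)
            (Equiv.swap 0 j0) = Matrix.of fun i j => (Fin.cons ω fun _ : Fin s => 2 ^ t * tw L :
              Fin (s + 1) → ℝ) j *
              colCons (A *ᵥ fun l : Fin (_ + 1) => γ ^ (l : ℕ)) (A.submatrix id S1) i j := by
          ext i j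
          refine Fin.cases ?_ (fun j => ?_) j
          · simp only [submatrix_apply, Equiv.swap_apply_left, hj0]
            exact Hm_none γ _ _ _
          · simp only [submatrix_apply, hS1]
            exact Hm_some γ _ _ _ _
        rw [← abs_det_submatrix_equiv_equiv (Equiv.refl _) (Equiv.swap 0 j0), h3, det_mul_row,
          Fin.prod_cons, abs_mul, prod_const, card_univ, Fintype.card_fin,
          abs_of_pos (by positivity)]
      · push Not at hn
        choose S1 hS1 using fun j => Option.ne_none_iff_exists'.1 (hn j)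
        obtain ⟨β, b1, b2⟩ := hw1 (s + 1) (by omega) A S1
        refine ⟨β, b1, fun i => some (Fin.castLE hs' i), ?_⟩
        have h2 : (A * H2 n t L γ ω β).submatrix id (fun i : Fin (s + 1) => some (Fin.castLE hs' i))
            = Matrix.of fun i (j : Fin (s + 1)) =>
              2 ^ (n * t) * tw (2 * t * j + L) * (A * UT n (s + 1) β) i j := by
          ext i j
          simp [H2, UT, Matrix.mul_apply, mul_sum, mul_left_comm, mul_assoc]
        have h3 : (A * Hm n γ (2 ^ t * tw L) ω).submatrix id S'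
            = (2 ^ t * tw L) • A.submatrix id S1 := by
          ext i j
          simp only [submatrix_apply, hS1]
          exact Hm_some γ _ _ _ _
        rw [h3, det_smul, Fintype.card_fin, abs_mul, abs_of_pos (by positivity)] at h
        rw [det_smul_sub, abs_mul, abs_of_pos (by positivity), h2, det_mul_row, abs_mul]
        refine fin s _ _ h ?_
        rw [mul_left_comm]
        exact mul_le_mul ((prod_w n (s + 1) t L hs').trans (le_abs_self _)) b2 (by positivity)
          (abs_nonneg _))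
  push_cast at key
  refine le_trans (Nat.cast_le.2 (card_le_card fun j hj => ?_)) key
  obtain ⟨a1, P, hP0, hP, a4, a5⟩ := mem_filter.1 hj
  refine mem_filter.2 ⟨a1, fun i => P.coeff i, fun h0 => hP0 (by rw [← toP_of P hP, h0]; simp [toP]),
    fun z hz c => ?_⟩
  rw [vecMul_smul, Pi.smul_apply, smul_eq_mul, abs_mul, abs_of_pos p0]
  refine le_trans (mul_le_mul_of_nonneg_left (c := 2 ^ (4 * n)) ?_ p0.le)
    (by rw [mul_comm (tw l0)]; exact two_pow_mul_tw_le (by omega))
  rcases c with _ | i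
  · have b1 : ((fun i : Fin (n + 1) => (P.coeff i : ℝ)) ᵥ* H2 n t L γ ω z) none
        = ω * aeval γ P := by
      conv_rhs => rw [← toP_of P hP, aeval_toP, ← Hm_none γ 0]
      rfl
    rw [b1, abs_mul, abs_of_pos hω0]
    refine (mul_le_mul_of_nonneg_left a4 hω0.le).trans (le_of_eq ?_)
    calc ω * (2 ^ (n * t + 4 * n) * tw k)
        = (2 ^ k * tw k) * (2 ^ (n * t) * tw (n * t)) * 2 ^ (4 * n) := by rw [hω]; ring
      _ = _ := by rw [two_pow_mul_tw, two_pow_mul_tw]; ring
  · have b1 : ((fun i : Fin (n + 1) => (P.coeff i : ℝ)) ᵥ* H2 n t L γ ω z) (some i)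
        = tw (2 * t * i + L) * (2 ^ (n * t) * aeval z (hasseDeriv i P)) := by
      have b2 : toP (fun i : Fin (n + 1) => (P.coeff i : ℝ)) = P.map (algebraMap ℤ ℝ) := by
        rw [← toP_of (P.map (algebraMap ℤ ℝ)) (natDegree_map_le.trans hP)]
        simp
      rw [← taylor_map_coeff, taylor_coeff, ← b2, toP_hasse]
      simp [H2, UT, vecMul, dotProduct, mul_sum, mul_left_comm, mul_assoc]
    have b3 := tw_pos (2 * t * i + L)
    rw [b1, abs_mul, abs_mul, abs_of_pos b3, abs_of_pos (by positivity)]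
    refine (mul_le_mul_of_nonneg_left (a5 z hz i) b3.le).trans (le_of_eq ?_)
    rw [pow_add, mul_left_comm, mul_comm (tw _), two_pow_mul_tw, mul_one]

end Pool.Agent.MP_b86f6c_nt
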