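import Pool.Agent.MP_b86f6c_nt.KmD

set_option autoImplicit false

namespace Pool.Agent.MP_b86f6c_nt

open Polynomial Finset

lemma exists_base2 (m D : ℕ) (hm : 2 ≤ m) (hD : 1 ≤ D) :
    ∃ N γ c0 cb c, Base m D N γ c0 cb ∧ ∀ n < m, ∀ a, Low n a (n * (a + a / D) + c) γ := by
  obtain ⟨N, γ, c, hN, hγ, hγ1, hγ2, H⟩ := exists_gamma m D hm hD
  have hsh : ∀ n < m, ∀ a, Low n a (n * (a + a / D) + c) γ := by
    intro n hn a P hP0 hP
    have h1 := H n hn a (fun j => P.coeff j) (by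
      intro h
      apply hP0
      ext e
      by_cases he : e ≤ n
      · exact congrFun h ⟨e, by omega⟩
      · exact coeff_eq_zero_of_natDegree_lt (by have := hP.1; omega)) (fun j => hP.2 j)
    rw [aeval_eq_sum_range' (n := n + 1) (by have := hP.1; omega), ← Fin.sum_univ_eq_sum_range
      (fun i => P.coeff i • γ ^ i)]
    simp only [zsmul_eq_mul]
    exact h1
  have hlow : ∀ n < m, ∀ a (P : ℤ[X]), Bd n a P → P ≠ 0 → tw (2 * n * a + c) ≤ |aeval γ P| := by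
    intro n hn a P hP hP0
    refine (tw_anti ?_).trans (hsh n hn a P hP0 hP)
    have : a / D ≤ a := Nat.div_le_self _ _
    nlinarith
  have hpol : ∀ n, ∃ c' : ℕ, ∀ a (P : ℤ[X]), Bd n a P → aeval γ P ≠ 0 →
      tw (2 * n * a + c') ≤ |aeval γ P| := by
    intro n
    induction n with
    | zero => exact ⟨c, fun a P hP h => hlow 0 (by omega) a P hP (by rintro rfl; simp at h)⟩
    | succ n ih =>
      by_cases hn : n + 1 < m
      · exact ⟨c, fun a P hP h => hlow _ hn a P hP (by rintro rfl; simp at h)⟩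
      obtain ⟨c', hc'⟩ := ih
      obtain ⟨t, ht⟩ : ∃ t, n + 1 = t + m := ⟨n + 1 - m, by omega⟩
      refine ⟨2 * n * (N + 2) + c' + N, fun a P hP h => ?_⟩
      have hNr : (0 : ℝ) < N := by exact_mod_cast hN
      let P' : ℤ[X] := C (N : ℤ) * P - monomial (n + 1) (P.coeff (n + 1) * N)
        + monomial t (P.coeff (n + 1) * (N + 1))
      have hev : aeval γ P' = N * aeval γ P := by
        simp only [P', map_add, map_sub, map_mul, aeval_C, aeval_monomial, ht, pow_add,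
          algebraMap_int_eq, eq_intCast, Int.cast_natCast, map_one, map_natCast]
        linear_combination (-(P.coeff (t + m) : ℝ) * γ ^ t) * hγ
      have hco : ∀ e, P'.coeff e = N * P.coeff e
          - (if n + 1 = e then P.coeff (n + 1) * N else 0)
          + (if t = e then P.coeff (n + 1) * (N + 1) else 0) := by
        intro e; simp only [P', coeff_add, coeff_sub, coeff_C_mul, coeff_monomial]
      have hB : Bd n (a + (N + 2)) P' := by
        constructor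
        · refine natDegree_le_iff_coeff_eq_zero.2 fun e he => ?_
          rw [hco, if_neg (by omega : ¬ t = e)]
          split_ifs with h1
          · subst h1; ring
          · rw [coeff_eq_zero_of_natDegree_lt (by have := hP.1; omega)]; simp
        · intro e
          have a1 := hP.2 e
          have a2 := hP.2 (n + 1)
          have a3 := nat_succ_le_two_pow N
          have a4 : |(N : ℝ) * P.coeff e| ≤ 2 ^ N * 2 ^ a := by
            rw [abs_mul, abs_of_pos hNr]; gcongr; linarith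
          have a5 : |(P.coeff (n + 1) : ℝ) * N| ≤ 2 ^ N * 2 ^ a := by
            rw [abs_mul, abs_of_pos hNr, mul_comm]; gcongr; linarith
          have a6 : |(P.coeff (n + 1) : ℝ) * (N + 1)| ≤ 2 ^ N * 2 ^ a := by
            rw [abs_mul, abs_of_pos (by positivity : (0 : ℝ) < N + 1), mul_comm]; gcongr
          have a7 : (2 : ℝ) ^ (a + (N + 2)) = 4 * (2 ^ N * 2 ^ a) := by ring
          have a8 : (0 : ℝ) < 2 ^ N * 2 ^ a := by positivity
          rw [hco, a7]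
          rw [abs_le] at a4 a5 a6 ⊢
          split_ifs <;> push_cast <;> constructor <;>
            linarith [a4.1, a4.2, a5.1, a5.2, a6.1, a6.2]
      have h1 := hc' _ P' hB (by rw [hev]; exact mul_ne_zero hNr.ne' h)
      rw [hev, abs_mul, abs_of_pos hNr] at h1
      have h2 : (N : ℝ) ≤ 2 ^ N := nat_le_two_pow N
      have h3 : (2 : ℝ) ^ N * tw (2 * (n + 1) * a + (2 * n * (N + 2) + c' + N))
          ≤ tw (2 * n * (a + (N + 2)) + c') := two_pow_mul_tw_le (by nlinarith)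
      have h4 : (2 : ℝ) ^ N * tw (2 * (n + 1) * a + (2 * n * (N + 2) + c' + N))
          ≤ 2 ^ N * |aeval γ P| :=
        h3.trans (h1.trans (mul_le_mul_of_nonneg_right h2 (abs_nonneg _)))
      exact le_of_mul_le_mul_left h4 (by positivity)
  choose cb hcb using hpol
  refine ⟨N, γ, c + 4, cb, c, ⟨hN, hγ, hγ1, hγ2, ?_, hcb, ?_⟩, hsh⟩
  · intro l q r hq1 hq2
    by_cases h : 1 ≤ |q * γ - r|
    · exact (tw_le_one _).trans h
    push Not at h
    have a1 : (1 : ℝ) ≤ q := by exact_mod_cast hq1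
    have a2 : (q : ℝ) ≤ 2 ^ (D * l) := by exact_mod_cast hq2
    have a3 : (2 : ℝ) ^ (D * l + 2) = 4 * 2 ^ (D * l) := by ring
    have h1 := H 1 (by omega) (D * l + 2) ![-r, q] (by
      intro h0
      have := congrFun h0 1
      simp at this
      omega) (by
      intro j
      rw [a3]
      fin_cases j
      · simp only [Fin.zero_eta, Matrix.cons_val_zero, Int.cast_neg, abs_neg]
        rw [abs_lt] at h
        rw [abs_le]
        constructor <;> nlinarith [h.1, h.2]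
      · simp only [Fin.mk_one, Matrix.cons_val_one, Matrix.cons_val_fin_one]
        rw [abs_of_pos (by linarith)]; linarith)
    rw [Fin.sum_univ_two] at h1
    simp only [Matrix.cons_val_zero, Matrix.cons_val_one,
      Matrix.cons_val_fin_one, Fin.val_zero, Fin.val_one, pow_zero, pow_one, mul_one,
      Int.cast_neg] at h1
    rw [show (q : ℝ) * γ - r = -r + q * γ by ring]
    refine (tw_anti ?_).trans h1
    have : (D * l + 2) / D ≤ l + 2 := by
      rw [Nat.div_le_iff_le_mul_add_pred (by omega)]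
      nlinarith [Nat.zero_le (D - 1)]
    nlinarith
  · intro P hP0 hd h
    obtain ⟨a, ha⟩ : ∃ a : ℕ, ∀ e, |(P.coeff e : ℝ)| ≤ 2 ^ a := by
      refine ⟨∑ e ∈ P.support, (P.coeff e).natAbs, fun e => ?_⟩
      by_cases he : e ∈ P.support
      · have h1 : (P.coeff e).natAbs ≤ ∑ e ∈ P.support, (P.coeff e).natAbs :=
          Finset.single_le_sum (f := fun e => (P.coeff e).natAbs) (fun _ _ => Nat.zero_le _) he
        rw [← Int.cast_abs, Int.abs_eq_natAbs, Int.cast_natCast]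
        exact (Nat.cast_le.2 h1).trans (nat_le_two_pow _)
      · rw [notMem_support_iff.1 he]; simp
    have := hlow _ hd a P ⟨le_rfl, ha⟩ hP0
    rw [h, abs_zero] at this
    exact absurd (tw_pos _) (not_lt.2 this)

lemma exists_good_c1 (T : ℤ[X] → Finset ℝ) (hT : ∀ P, P ≠ 0 → (T P).card ≤ P.natDegree)
    (g w u ρ j : ℕ) (γ : ℝ) (hwu : w ≤ u) (hg1 : 2 ^ u ≤ g) (hg2 : g ≤ 2 ^ (u + 1))
    (hbig : ((j + 3 : ℕ) : ℝ) * (u + 1) * 2 ^ (w + (j + 5) + (ρ + 4)) ≤ 2 ^ u) (x0 : ℝ)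
    (Bad : ℤ → Prop) (hBad : ∀ S : Finset ℤ, (∀ c ∈ S, x0 ≤ (c + γ) / g ∧
      (c + γ) / g ≤ x0 + tw ρ / 2 ∧ Bad c) → (S.card : ℝ) ≤ tw ρ * g / 8) :
    ∃ c : ℤ, x0 ≤ (c + γ) / g ∧ (c + γ) / g ≤ x0 + tw ρ / 2 ∧ ¬ Bad c ∧
      (∀ n ≤ j, ∀ a, ρ < UV n * a → (n + 1) * (a + 2) ≤ w → ∀ P : ℤ[X], P ≠ 0 → Bd n a P →
        ∀ β ∈ T P, tw (VV n * a) + tw (u + 1) ≤ |(c + γ) / g - β|) := by
  classical
  have hgp : 0 < g := lt_of_lt_of_le (by positivity) hg1
  have hg0 : (0 : ℝ) < g := by exact_mod_cast hgp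
  have hgr : (2 : ℝ) ^ u ≤ g := by exact_mod_cast hg1
  have hr := tw_pos ρ
  let Cs : Finset ℤ := Finset.Icc ⌈g * x0 - γ⌉ ⌊g * (x0 + tw ρ / 2) - γ⌋
  have hCs : ∀ c ∈ Cs, x0 ≤ (c + γ) / g ∧ (c + γ) / g ≤ x0 + tw ρ / 2 := by
    intro c hc
    obtain ⟨h1, h2⟩ := Finset.mem_Icc.1 hc
    rw [Int.ceil_le] at h1
    rw [Int.le_floor] at h2
    rw [le_div_iff₀ hg0, div_le_iff₀ hg0]
    constructor <;> linarith
  have hCcard : g * tw ρ / 2 - 1 ≤ (Cs.card : ℝ) := by
    have h1 : ⌊g * (x0 + tw ρ / 2) - γ⌋ + 1 - ⌈g * x0 - γ⌉ ≤ (Cs.card : ℤ) := by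
      rw [Int.card_Icc]; exact Int.self_le_toNat _
    have h2 : ((⌊g * (x0 + tw ρ / 2) - γ⌋ : ℤ) : ℝ) + 1 - ((⌈g * x0 - γ⌉ : ℤ) : ℝ)
        ≤ (Cs.card : ℝ) := by exact_mod_cast h1
    have h3 := Int.lt_floor_add_one (g * (x0 + tw ρ / 2) - γ)
    have h4 := Int.ceil_lt_add_one (g * x0 - γ)
    linarith
  let Bad2 : ℕ × ℕ → ℤ → Prop := fun x c => ∃ P : ℤ[X], P ≠ 0 ∧ Bd x.1 x.2 P ∧ ∃ β ∈ T P,
      |(c + γ) / g - β| < tw (VV x.1 * x.2) + tw (u + 1)
  let L2 : Finset (ℕ × ℕ) := (range (j + 1) ×ˢ range (u + 1)).filter fun x =>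
    ρ < UV x.1 * x.2 ∧ (x.1 + 1) * (x.2 + 2) ≤ w
  let B1 : Finset ℤ := Cs.filter Bad
  let B2 : Finset ℤ := L2.biUnion fun x => Cs.filter (Bad2 x)
  set E : ℝ := 2 ^ (w + (j + 5)) with hE
  have hE0 : 0 < E := by positivity
  have hB1 : (B1.card : ℝ) ≤ tw ρ * g / 8 := hBad _ fun c hc =>
    ⟨(hCs c (mem_filter.1 hc).1).1, (hCs c (mem_filter.1 hc).1).2, (mem_filter.1 hc).2⟩
  have hB2 : (B2.card : ℝ) ≤ tw ρ * g / 16 + ((j + 1) * (u + 1)) * E := by
    have h1 : (B2.card : ℝ) ≤ ∑ x ∈ L2, ((Cs.filter (Bad2 x)).card : ℝ) := by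
      exact_mod_cast Finset.card_biUnion_le
    have h2 : ∑ x ∈ L2, ((Cs.filter (Bad2 x)).card : ℝ)
        ≤ ∑ x ∈ range (j + 1) ×ˢ range (u + 1), (tw ρ * g * tw 6 * (tw x.1 * tw x.2) + E) := by
      refine le_trans (Finset.sum_le_sum fun x hx => ?_)
        (Finset.sum_le_sum_of_subset_of_nonneg (Finset.filter_subset _ _) fun x _ _ => by
          have := tw_pos x.1
          have := tw_pos x.2
          have := tw_pos 6
          positivity)
      obtain ⟨h3, h4, h5⟩ := Finset.mem_filter.1 hx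
      have h6 := Finset.mem_range.1 (Finset.mem_product.1 h3).1
      have := bad2_card T hT γ g u w ρ x.1 x.2 hgp hg2 (Cs.filter (Bad2 x)) h4 h5
        (fun c hc => (Finset.mem_filter.1 hc).2)
      refine this.trans (add_le_add (le_of_eq ?_) ?_)
      · rw [tw_add, tw_add]; ring
      · exact pow_le_pow_right₀ (by norm_num) (by omega)
    rw [Finset.sum_add_distrib, ← Finset.mul_sum, Finset.sum_const, nsmul_eq_mul,
      Finset.sum_product' (f := fun a b => tw a * tw b), ← Finset.sum_mul_sum,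
      show tw 6 = 1 / 64 by unfold tw; norm_num] at h2
    have h3 := sum_tw_le (range (j + 1)) 0 (fun _ _ => Nat.zero_le _)
    have h4 := sum_tw_le (range (u + 1)) 0 (fun _ _ => Nat.zero_le _)
    rw [tw_zero] at h3 h4
    have h5 : (∑ a ∈ range (j + 1), tw a) * ∑ a ∈ range (u + 1), tw a ≤ (2 * 1) * (2 * 1) :=
      mul_le_mul h3 h4 (Finset.sum_nonneg fun _ _ => (tw_pos _).le) (by norm_num)
    simp only [Finset.card_product, Finset.card_range] at h2
    push_cast at h2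
    have h7 : 0 < tw ρ * g := by positivity
    nlinarith
  have hEsmall : ((j : ℝ) + 3) * (u + 1) * E ≤ tw ρ * g / 16 := by
    have h1 : (2 : ℝ) ^ (ρ + 4) * (((j : ℝ) + 3) * (u + 1) * E) ≤ g := by
      push_cast at hbig
      calc (2 : ℝ) ^ (ρ + 4) * (((j : ℝ) + 3) * (u + 1) * E)
          = ((j : ℝ) + 3) * (u + 1) * 2 ^ (w + (j + 5) + (ρ + 4)) := by
            rw [hE]; ring
        _ ≤ 2 ^ u := hbig
        _ ≤ g := hgr
    have h2 := two_pow_mul_tw ρ
    have h3 := mul_le_mul_of_nonneg_left h1 hr.le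
    have h4 : tw ρ * ((2 : ℝ) ^ (ρ + 4) * (((j : ℝ) + 3) * (u + 1) * E))
        = 16 * (2 ^ ρ * tw ρ) * (((j : ℝ) + 3) * (u + 1) * E) := by ring
    rw [h4, h2] at h3
    linarith
  have hE1 : 1 ≤ ((j : ℝ) + 3) * (u + 1) * E := by
    have h1 : (1 : ℝ) ≤ E := one_le_pow₀ (by norm_num)
    have h2 : (1 : ℝ) ≤ (j : ℝ) + 3 := by have : (0 : ℝ) ≤ j := by positivity
                                          linarith
    have h3 : (1 : ℝ) ≤ (u : ℝ) + 1 := by have : (0 : ℝ) ≤ u := by positivity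
                                          linarith
    exact one_le_mul_of_one_le_of_one_le (one_le_mul_of_one_le_of_one_le h2 h3) h1
  have hlt : (B1 ∪ B2).card < Cs.card := by
    have h1 : ((B1 ∪ B2).card : ℝ) ≤ B1.card + B2.card := by
      exact_mod_cast Finset.card_union_le _ _
    have h2 : ((B1 ∪ B2).card : ℝ) < Cs.card := by nlinarith
    exact_mod_cast h2
  obtain ⟨c, hc, hcB⟩ := Finset.exists_mem_notMem_of_card_lt_card hlt
  rw [Finset.mem_union, not_or] at hcB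
  refine ⟨c, (hCs c hc).1, (hCs c hc).2, ?_, ?_⟩
  · exact fun h => hcB.1 (mem_filter.2 ⟨hc, h⟩)
  · intro n hn a h1 h2 P hP0 hP β hβ
    by_contra h3
    push Not at h3
    exact hcB.2 (Finset.mem_biUnion.2 ⟨(n, a), Finset.mem_filter.2 ⟨Finset.mem_product.2
      ⟨Finset.mem_range.2 (by simp; omega), Finset.mem_range.2 (by simp; nlinarith)⟩, h1, h2⟩,
      Finset.mem_filter.2 ⟨hc, P, hP0, hP, β, hβ, h3⟩⟩)

lemma wb_pow (A ζ α β : ℝ) (hζ : 0 ≤ ζ) (hα : |α| ≤ A * ζ) (hβ : |β| ≤ A) (R : ℝ[X]) (B : ℝ)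
    (hR : ∀ j, |R.coeff j| ≤ B * ζ ^ j) (k : ℕ) :
    ∀ j, |(R * (C α * X + C β) ^ k).coeff j| ≤ B * (2 * A) ^ k * ζ ^ j := by
  have hA : 0 ≤ A := (abs_nonneg _).trans hβ
  have hB : 0 ≤ B := by simpa using (abs_nonneg _).trans (hR 0)
  induction k with
  | zero => simpa using hR
  | succ k ih =>
    intro j
    rw [pow_succ, ← mul_assoc, mul_add, coeff_add, coeff_mul_C, ← mul_assoc]
    refine (abs_add_le _ _).trans ?_
    have h1 : |(R * (C α * X + C β) ^ k).coeff j * β| ≤ B * (2 * A) ^ k * ζ ^ j * A := by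
      rw [abs_mul]
      exact mul_le_mul (ih j) hβ (abs_nonneg _) (by positivity)
    have h2 : |(R * (C α * X + C β) ^ k * C α * X).coeff j| ≤ B * (2 * A) ^ k * ζ ^ j * A := by
      rcases j with _ | j
      · rw [coeff_mul_X_zero, abs_zero]; positivity
      · rw [coeff_mul_X, coeff_mul_C, abs_mul]
        refine (mul_le_mul (ih j) hα (abs_nonneg _) (by positivity)).trans (le_of_eq (by ring))
    refine (add_le_add h2 h1).trans (le_of_eq (by ring))

/-- Transfer of a polynomial by an integer matrix of determinant one. -/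
lemma mob (n L : ℕ) (a b c d : ℤ) (hdet : a * d - b * c = 1) (hc : c ≠ 0) (P : ℤ[X])
    (hP : Bd n L P) : ∃ Q : ℤ[X], Q.natDegree ≤ n ∧ (P ≠ 0 → Q ≠ 0) ∧
      (∀ Y : ℝ, c * Y + d ≠ 0 →
        aeval Y Q = (c * Y + d) ^ n * aeval ((a * Y + b) / (c * Y + d)) P) ∧
      ∀ z A ζ : ℝ, 0 ≤ ζ → |(a : ℝ)| ≤ A * ζ → |(c : ℝ)| ≤ A * ζ → |a * z + b| ≤ A →
        |c * z + d| ≤ A → ∀ i, |aeval z (hasseDeriv i Q)| ≤ 2 ^ (n + L) * (2 * A) ^ n * ζ ^ i := by
  let Q : ℤ[X] := ∑ k ∈ range (n + 1),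
    C (P.coeff k) * (C a * X + C b) ^ k * (C c * X + C d) ^ (n - k)
  have hev0 : ∀ Y : ℝ, aeval Y Q
      = ∑ k ∈ range (n + 1), (P.coeff k : ℝ) * (a * Y + b) ^ k * (c * Y + d) ^ (n - k) := by
    intro Y
    simp [Q]
  have hev : ∀ Y : ℝ, c * Y + d ≠ 0 →
      aeval Y Q = (c * Y + d) ^ n * aeval ((a * Y + b) / (c * Y + d)) P := by
    intro Y hY
    rw [hev0, aeval_eq_sum_range' (n := n + 1) (p := P) (by have := hP.1; omega), mul_sum]
    refine sum_congr rfl fun k hk => ?_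
    obtain ⟨e, he⟩ := Nat.exists_eq_add_of_le (Nat.lt_succ_iff.1 (mem_range.1 hk))
    rw [zsmul_eq_mul, he, Nat.add_sub_cancel_left, pow_add, div_pow]
    have h7 := mul_div_cancel₀ ((a * Y + b) ^ k) (pow_ne_zero k hY)
    generalize (a * Y + b) ^ k / (c * Y + d) ^ k = r at h7 ⊢
    rw [← h7]; ring
  have hdr : (a : ℝ) * d - b * c = 1 := by exact_mod_cast hdet
  have hcr : (c : ℝ) ≠ 0 := by exact_mod_cast hc
  refine ⟨Q, natDegree_sum_le_of_forall_le _ _ fun k hk => ?_, fun hP0 hQ => hP0 ?_, hev, ?_⟩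
  · have h1 := Nat.lt_succ_iff.1 (mem_range.1 hk)
    have h2 : ∀ (x y : ℤ) (e : ℕ), ((C x * X + C y) ^ e).natDegree ≤ e := fun x y e =>
      natDegree_pow_le.trans ((Nat.mul_le_mul_left _ natDegree_linear_le).trans (by simp))
    refine natDegree_mul_le.trans ?_
    have h3 := (natDegree_C_mul_le (P.coeff k) _).trans (h2 a b k)
    have h4 := h2 c d (n - k)
    omega
  · refine (Polynomial.map_eq_zero_iff (algebraMap ℤ ℝ).injective_int).1
      (eq_zero_of_infinite_isRoot _ ((Set.finite_singleton ((a : ℝ) / c)).infinite_compl.mono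
        fun x hx => ?_))
    have h1 : (a : ℝ) - c * x ≠ 0 := fun h => hx (by
      rw [Set.mem_singleton_iff, eq_div_iff hcr]; linarith)
    have h2 : c * ((d * x - b) / (a - c * x)) + d = 1 / (a - c * x) := by
      field_simp; linarith
    have h3 : a * ((d * x - b) / (a - c * x)) + b = x / (a - c * x) := by
      rw [eq_div_iff h1, add_mul, mul_assoc, div_mul_cancel₀ _ h1]
      linear_combination x * hdr
    have h4 := hev ((d * x - b) / (a - c * x)) (by rw [h2]; exact one_div_ne_zero h1)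
    rw [hQ, map_zero, h2, h3, div_div_div_cancel_right₀ h1, div_one] at h4
    rw [Set.mem_ofPred_eq, IsRoot, eval_map_algebraMap]
    exact (mul_eq_zero.1 h4.symm).resolve_left (pow_ne_zero _ (one_div_ne_zero h1))
  · intro z A ζ hζ h1 h2 h3 h4 i
    have hA : 0 ≤ A := (abs_nonneg _).trans h3
    have h5 : taylor z (Q.map (algebraMap ℤ ℝ)) = ∑ k ∈ range (n + 1), C (P.coeff k : ℝ) *
        (C (a : ℝ) * X + C (a * z + b)) ^ k * (C (c : ℝ) * X + C (c * z + d)) ^ (n - k) := by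
      refine Polynomial.funext fun x => ?_
      rw [taylor_eval, eval_map_algebraMap, hev0, eval_finsetSum]
      refine sum_congr rfl fun k _ => ?_
      simp only [eval_mul, eval_pow, eval_add, eval_C, eval_X]
      congr 2 <;> ring
    rw [← taylor_map_coeff, h5, finsetSum_coeff]
    refine (abs_sum_le_sum_abs _ _).trans ((sum_le_card_nsmul _ _
      (2 ^ L * (2 * A) ^ n * ζ ^ i) fun k hk => ?_).trans ?_)
    · have h6 := wb_pow A ζ c (c * z + d) hζ h2 h4 _ _ (wb_pow A ζ a (a * z + b) hζ h1 h3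
        (C (P.coeff k : ℝ)) (2 ^ L) (fun j => by
          rw [coeff_C]
          split_ifs with h
          · subst h; simpa using hP.2 k
          · rw [abs_zero]; positivity) k) (n - k) i
      rwa [mul_assoc ((2 : ℝ) ^ L), ← pow_add,
        Nat.add_sub_cancel' (Nat.lt_succ_iff.1 (mem_range.1 hk))] at h6
    · rw [card_range, nsmul_eq_mul, pow_add, mul_assoc ((2 : ℝ) ^ n), mul_assoc ((2 : ℝ) ^ n)]
      push_cast
      exact mul_le_mul_of_nonneg_right (nat_succ_le_two_pow n) (by positivity)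

lemma many_primes (t0 : ℕ) : ∃ t, t0 ≤ t ∧
    2 ^ t ≤ 16 * (t + 3) ^ 2 * ((Ioc (2 ^ t) (2 ^ (t + 1))).filter Nat.Prime).card := by
  by_contra hc
  push Not at hc
  obtain ⟨s, hs0, hs⟩ : ∃ s, t0 ≤ s ∧ 8 * s + 4 ≤ 2 ^ s := by
    refine ⟨2 * (t0 + 4), by omega, ?_⟩
    have h1 : t0 + 4 < 2 ^ (t0 + 4) := Nat.lt_two_pow_self
    have h2 : 2 ^ 4 ≤ 2 ^ (t0 + 4) := Nat.pow_le_pow_right (by norm_num) (by omega)
    rw [two_mul, pow_add]
    nlinarith
  have h1 : 2 ^ (2 * s) ≤ 2 * s + 1 + 2 * s * Nat.primeCounting (2 ^ (2 * s)) := by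
    have h2 := (Chebyshev.psi_ge (2 ^ (2 * s))).trans
      (Chebyshev.psi_le_primeCounting_mul_log (2 ^ (2 * s)))
    have h3 : Real.log (((2 ^ (2 * s) : ℕ) : ℝ) + 1) ≤ ((2 * s + 1 : ℕ) : ℝ) * Real.log 2 := by
      rw [← Real.log_pow]
      refine Real.log_le_log (by positivity) ?_
      have : (1 : ℝ) ≤ 2 ^ (2 * s) := one_le_pow₀ (by norm_num)
      push_cast
      rw [pow_succ]; linarith
    have h4 : Real.log ((2 ^ (2 * s) : ℕ) : ℝ) = ((2 * s : ℕ) : ℝ) * Real.log 2 := by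
      rw [← Real.log_pow]; norm_num
    have h5 : 0 < Real.log 2 := Real.log_pos (by norm_num)
    rw [h4] at h2
    have h6 : ((2 ^ (2 * s) : ℕ) : ℝ) * Real.log 2 ≤ ((2 * s + 1 + 2 * s *
        Nat.primeCounting (2 ^ (2 * s)) : ℕ) : ℝ) * Real.log 2 := by
      rw [Nat.cast_add, Nat.cast_mul]; nlinarith
    exact_mod_cast le_of_mul_le_mul_right h6 h5
  have h2 : Nat.primesLE (2 ^ (2 * s)) ⊆ range (2 ^ s + 1) ∪
      (Ico s (2 * s)).biUnion fun t => (Ioc (2 ^ t) (2 ^ (t + 1))).filter Nat.Prime := by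
    intro p hp
    obtain ⟨p1, p2⟩ := Nat.mem_primesLE.1 hp
    by_cases h : p < 2 ^ s + 1
    · exact mem_union_left _ (mem_range.2 h)
    have h0 : p - 1 ≠ 0 := by have := p2.two_le; omega
    have h3 := Nat.pow_log_le_self 2 h0
    have h4 := Nat.lt_pow_succ_log_self (b := 2) (by norm_num) (p - 1)
    refine mem_union_right _ (mem_biUnion.2 ⟨Nat.log 2 (p - 1), mem_Ico.2
      ⟨Nat.le_log_of_pow_le (by norm_num) (by omega), Nat.log_lt_of_lt_pow h0 (by omega)⟩,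
      mem_filter.2 ⟨mem_Ioc.2 ⟨by omega, by rw [Nat.succ_eq_add_one] at h4; omega⟩, p2⟩⟩)
  have h3 := (card_le_card h2).trans ((card_union_le _ _).trans
    (Nat.add_le_add_left card_biUnion_le _))
  rw [Nat.primesLE_card_eq_primeCounting, card_range] at h3
  have h4 : 16 * (s + 3) ^ 2 * ∑ t ∈ Ico s (2 * s),
      ((Ioc (2 ^ t) (2 ^ (t + 1))).filter Nat.Prime).card ≤ s * 2 ^ (2 * s) := by
    rw [mul_sum]
    refine (sum_le_card_nsmul _ _ (2 ^ (2 * s)) fun t ht => ?_).trans (by simp [two_mul])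
    obtain ⟨t1, t2⟩ := mem_Ico.1 ht
    refine le_trans (Nat.mul_le_mul_right _ (by gcongr)) ((hc t (by omega)).le.trans
      (Nat.pow_le_pow_right (by norm_num) t2.le))
  set X := ∑ t ∈ Ico s (2 * s), ((Ioc (2 ^ t) (2 ^ (t + 1))).filter Nat.Prime).card
  have h5 : 2 ^ (2 * s) = 2 ^ s * 2 ^ s := by rw [two_mul, pow_add]
  have h6 : 16 * (s + 3) * ((s + 3) * X) ≤ (s + 3) * 2 ^ (2 * s) := by nlinarith
  have h7 : 16 * ((s + 3) * X) ≤ 2 ^ (2 * s) :=
    Nat.le_of_mul_le_mul_left (c := s + 3) (by nlinarith) (by omega)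
  have h8 := Nat.mul_le_mul_left (2 * s) h3
  have h9 := Nat.mul_le_mul_right (2 ^ s) hs
  nlinarith

lemma growth3 (A K : ℕ) (hK : 1 ≤ K) : ∃ t0, ∀ t, t0 ≤ t → A * (t + 3) ^ 3 ≤ 2 ^ (t / K) := by
  refine ⟨4 * K * (A * (4 * K + 3) ^ 3), fun t ht => ?_⟩
  set w := t / (4 * K) with hw
  have h1 : A * (4 * K + 3) ^ 3 ≤ w := (Nat.le_div_iff_mul_le (by omega)).2 (by rwa [mul_comm])
  have h2 : t < 4 * K * (w + 1) := Nat.lt_mul_div_succ _ (by omega)
  have h3 : 4 * w ≤ t / K := (Nat.le_div_iff_mul_le (by omega)).2 (by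
    have := Nat.mul_div_le t (4 * K); nlinarith)
  have h4 : w + 1 ≤ 2 ^ w := Nat.lt_two_pow_self
  have h5 : t + 3 ≤ (4 * K + 3) * 2 ^ w := by nlinarith
  calc A * (t + 3) ^ 3 ≤ A * ((4 * K + 3) * 2 ^ w) ^ 3 := by gcongr
    _ = A * (4 * K + 3) ^ 3 * 2 ^ (3 * w) := by ring
    _ ≤ 2 ^ w * 2 ^ (3 * w) := by gcongr; omega
    _ = 2 ^ (4 * w) := by ring
    _ ≤ _ := Nat.pow_le_pow_right (by norm_num) h3

lemma cell_index {x σ y : ℝ} (hσ : 0 < σ) {L : ℕ} (h1 : x ≤ y) (h2 : y < x + 2 ^ L * σ) :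
    ∃ j < 2 ^ L, y ∈ cell x σ j := by
  have h3 : 0 ≤ (y - x) / σ := div_nonneg (by linarith) hσ.le
  have h4 := Nat.floor_le h3
  have h5 := Nat.lt_floor_add_one ((y - x) / σ)
  rw [le_div_iff₀ hσ] at h4
  rw [div_lt_iff₀ hσ] at h5
  refine ⟨⌊(y - x) / σ⌋₊, (Nat.floor_lt h3).2 ?_, by linarith, by linarith⟩
  rw [div_lt_iff₀ hσ]
  push_cast
  linarith

lemma sum_tw_div (s : Finset ℕ) (E u : ℕ) (hE : 1 ≤ E) (h : ∀ L ∈ s, u ≤ L / E) :
    ∑ L ∈ s, tw (L / E) ≤ E * (2 * tw u) := by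
  rw [sum_comp tw fun L => L / E]
  refine le_trans (sum_le_sum fun v _ => ?_) ((mul_sum _ _ _).symm.le.trans
    (mul_le_mul_of_nonneg_left (sum_tw_le _ u fun v hv => ?_) (by positivity)))
  · rw [nsmul_eq_mul]
    refine mul_le_mul_of_nonneg_right (Nat.cast_le.2 ?_) (tw_pos _).le
    refine (card_le_card (t := Ico (E * v) (E * v + E)) fun L hL => ?_).trans (by simp)
    rw [← (mem_filter.1 hL).2]
    exact mem_Ico.2 ⟨Nat.mul_div_le _ _, Nat.lt_mul_div_succ _ hE⟩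
  · obtain ⟨L, hL, rfl⟩ := mem_image.1 hv
    exact h L hL

lemma card_le_cells {ι : Type} (S : Finset ι) (J : Finset ℕ) (R : ι → ℕ → Prop) (b : ℝ)
    (h1 : ∀ i ∈ S, ∃ j ∈ J, R i j)
    (h2 : ∀ j, ∀ S' ⊆ S, (∀ i ∈ S', R i j) → (S'.card : ℝ) ≤ b) : (S.card : ℝ) ≤ J.card * b := by
  choose! φ hφ1 hφ2 using h1
  exact card_le_of_fibers S φ J hφ1 b fun j _ => h2 j _ (filter_subset _ _) fun i hi =>
    (mem_filter.1 hi).2 ▸ hφ2 i (mem_filter.1 hi).1

end Pool.Agent.MP_b86f6c_nt
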