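import Pool.Agent.MP_b86f6c_nt.KmE

set_option autoImplicit false

namespace Pool.Agent.MP_b86f6c_nt

open Polynomial Finset

/-- Entries of an integer matrix of determinant one and size `2 ^ t`. -/
def Tri (t : ℕ) (g a b d : ℤ) : Prop :=
  2 ^ t ≤ g ∧ g ≤ 2 ^ (t + 1) ∧ a * d - b * g = 1 ∧ 0 < a ∧ a < g ∧ 0 < d ∧ d < g ∧ 0 ≤ b ∧ b < g

/-- The image of `γ` under the matrix. -/
noncomputable def mb (γ : ℝ) (g a b d : ℤ) : ℝ := (a * γ + b) / (g * γ + d)

lemma exists_tri (t g : ℕ) (hg : g.Prime) (h1 : 2 ^ t ≤ g) (h2 : g ≤ 2 ^ (t + 1)) (a : ℤ)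
    (h3 : 0 < a) (h4 : a < g) : ∃ b d, Tri t g a b d := by
  have hg2 : (2 : ℤ) ≤ g := by exact_mod_cast hg.two_le
  have hc : IsCoprime (g : ℤ) a := (Nat.prime_iff_prime_int.1 hg).irreducible.coprime_iff_not_dvd.2
    fun h => by have := Int.le_of_dvd h3 h; omega
  obtain ⟨x, y, hxy⟩ := hc
  have h5 := Int.emod_nonneg y (by omega : (g : ℤ) ≠ 0)
  have h6 := Int.emod_lt_of_pos y (by omega : (0 : ℤ) < g)
  have h7 := Int.emod_add_mul_ediv y g
  have h8 : a * (y % g) - (-x - a * (y / g)) * g = 1 := by linear_combination hxy + a * h7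
  have h9 : y % g ≠ 0 := fun h => by
    rw [h] at h8
    have := Int.le_of_dvd (a := g) one_pos ⟨x + a * (y / g), by linear_combination -h8⟩
    omega
  refine ⟨-x - a * (y / g), y % g, by exact_mod_cast h1, by exact_mod_cast h2, h8, h3, h4,
    by omega, h6, ?_, ?_⟩
  · by_contra h
    nlinarith [mul_pos h3 (by omega : 0 < y % g)]
  · by_contra h
    nlinarith [mul_pos (sub_pos.2 h4) (sub_pos.2 h6)]

lemma Tri.real {t : ℕ} {g a b d : ℤ} (h : Tri t g a b d) : (2 : ℝ) ^ t ≤ g ∧ (g : ℝ) ≤ 2 ^ (t + 1) ∧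
    (a : ℝ) * d - b * g = 1 ∧ (0 : ℝ) < a ∧ (a : ℝ) < g ∧ (0 : ℝ) < d ∧ (d : ℝ) < g ∧ (0 : ℝ) ≤ b ∧
    (b : ℝ) < g := by
  unfold Tri at h
  exact_mod_cast h

lemma Tri.near {t : ℕ} {g a b d : ℤ} (h : Tri t g a b d) {γ : ℝ} (h1 : 1 ≤ γ) :
    mb γ g a b d ≤ a / g ∧ a / g ≤ mb γ g a b d + tw (2 * t) := by
  obtain ⟨a1, a2, a3, a4, a5, a6, a7, a8, a9⟩ := h.real
  have b0 : (0 : ℝ) < g := by linarith
  have b1 : (g : ℝ) ≤ g * γ + d := by nlinarith
  have b2 : (0 : ℝ) < g * γ + d := by linarith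
  have b3 : (a : ℝ) / g - mb γ g a b d = 1 / (g * (g * γ + d)) := by
    rw [mb, div_sub_div _ _ b0.ne' b2.ne']
    congr 1
    linear_combination a3
  have b4 : 1 / (g * (g * γ + d)) ≤ tw (2 * t) := by
    rw [tw_eq_inv, one_div, two_mul, pow_add]
    exact inv_anti₀ (by positivity) (mul_le_mul a1 (a1.trans b1) (by positivity) b0.le)
  have b5 : 0 < 1 / (g * (g * γ + d)) := by positivity
  constructor <;> linarith

lemma Tri.mob {t : ℕ} {g a b d : ℤ} (h : Tri t g a b d) {γ : ℝ} (h1 : 1 ≤ γ) (h2 : γ ≤ 2)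
    (n L : ℕ) (P : ℤ[X]) (hP : Bd n L P) : ∃ Q : ℤ[X], Bd n (L + n * (t + 3)) Q ∧ (P ≠ 0 → Q ≠ 0) ∧
      (aeval γ Q = 0 ↔ aeval (mb γ g a b d) P = 0) ∧
      |aeval γ Q| ≤ 2 ^ (n * (t + 3)) * |aeval (mb γ g a b d) P| ∧
      ∀ z : ℝ, |z + d / g| ≤ tw (2 * t) → ∀ i,
        2 ^ (n * t) * |aeval z (hasseDeriv i Q)| ≤ 2 ^ (4 * n + (2 * t * i + L)) := by
  obtain ⟨a1, a2, a3, a4, a5, a6, a7, a8, a9⟩ := h.real
  have b0 : (0 : ℝ) < g := by linarith
  have b2 : (0 : ℝ) < g * γ + d := by positivity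
  obtain ⟨Q, q1, q2, q3, q4⟩ := Pool.Agent.MP_b86f6c_nt.mob n L a b g d h.2.2.1
    (by exact_mod_cast b0.ne') P hP
  have q5 := q3 γ b2.ne'
  refine ⟨Q, ⟨q1, fun e => ?_⟩, q2, ?_, ?_, fun z hz i => ?_⟩
  · have := q4 0 (2 ^ (t + 1)) 1 zero_le_one (by rw [abs_of_pos a4]; linarith)
      (by rw [abs_of_pos b0]; linarith) (by rw [mul_zero, zero_add, abs_of_nonneg a8]; linarith)
      (by rw [mul_zero, zero_add, abs_of_pos a6]; linarith) e
    rw [← coeff_zero_eq_aeval_zero', hasseDeriv_coeff] at this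
    simp only [zero_add, Nat.choose_self, Nat.cast_one, one_mul, algebraMap_int_eq,
      eq_intCast] at this
    refine this.trans (le_of_eq ?_)
    rw [one_pow, mul_one, ← pow_succ', ← pow_mul, ← pow_add]
    congr 1; ring
  · rw [q5, mul_eq_zero_iff_left (pow_ne_zero _ b2.ne'), mb]
  · rw [q5, abs_mul, abs_of_pos (pow_pos b2 _), mul_comm n, pow_mul]
    refine mul_le_mul_of_nonneg_right (pow_le_pow_left₀ b2.le ?_ _) (abs_nonneg _)
    have : (2 : ℝ) ^ (t + 3) = 4 * 2 ^ (t + 1) := by ring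
    nlinarith
  · have c0 := tw_pos t
    have c1 := two_pow_mul_tw t
    have c2 : 4 * tw t * 2 ^ (2 * t) = 2 * 2 ^ (t + 1) := by
      linear_combination 4 * 2 ^ t * c1
    have c3 : |g * z + d| ≤ 2 * tw t := by
      rw [show g * z + d = g * (z + d / g) by field_simp, abs_mul, abs_of_pos b0]
      refine (mul_le_mul a2 hz (abs_nonneg _) (by positivity)).trans (le_of_eq ?_)
      rw [two_mul t, tw_add]
      linear_combination 2 * tw t * c1
    have c4 : |a * z + b| ≤ 4 * tw t := by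
      have d1 : g * (a * z + b) = a * (g * z + d) - 1 := by linear_combination -a3
      have d2 : |a * (g * z + d) - 1| ≤ a * (2 * tw t) + 1 := by
        refine (abs_sub _ _).trans ?_
        rw [abs_mul, abs_of_pos a4, abs_one]
        gcongr
      rw [← d1, abs_mul, abs_of_pos b0] at d2
      refine le_of_mul_le_mul_left (d2.trans ?_) b0
      nlinarith
    have := q4 z (4 * tw t) (2 ^ (2 * t)) (by positivity) (by rw [abs_of_pos a4]; linarith)
      (by rw [abs_of_pos b0]; linarith) c4 (by linarith) i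
    refine (mul_le_mul_of_nonneg_left this (by positivity)).trans (le_of_eq ?_)
    calc (2 : ℝ) ^ (n * t) * (2 ^ (n + L) * (2 * (4 * tw t)) ^ n * (2 ^ (2 * t)) ^ i)
        = (2 ^ t * tw t) ^ n * ((2 ^ 3) ^ n * 2 ^ (n + L) * (2 ^ (2 * t)) ^ i) := by
          rw [show (2 : ℝ) * (4 * tw t) = 2 ^ 3 * tw t by ring, mul_pow, mul_pow, ← pow_mul,
            mul_comm n t]
          ring
      _ = _ := by
          rw [c1, one_pow, one_mul, ← pow_mul, ← pow_mul, ← pow_add, ← pow_add]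
          congr 1; ring

lemma Tri.sep {t : ℕ} {g a b d g' a' b' d' : ℤ} (h : Tri t g a b d) (h' : Tri t g' a' b' d')
    (hne : (g, a) ≠ (g', a')) : tw (2 * t + 2) ≤ |(d : ℝ) / g - d' / g'| := by
  obtain ⟨a1, a2, -, a4, a5, -⟩ := h.real
  obtain ⟨b1, b2, -, b4, b5, -⟩ := h'.real
  obtain ⟨-, -, c3, c4, c5, -⟩ := h
  obtain ⟨-, -, d3, d4, d5, -⟩ := h'
  have e1 : d * g' ≠ g * d' := fun e => by
    have e2 : g = g' := le_antisymm
      (Int.le_of_dvd (by omega) ⟨a * d' - b * g', by linear_combination a * e - g' * c3⟩)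
      (Int.le_of_dvd (by omega) ⟨a' * d - b' * g, by linear_combination -a' * e - g * d3⟩)
    subst e2
    have e3 : d = d' := mul_left_cancel₀ (by omega : g ≠ 0) (by linarith)
    subst e3
    have e4 := Int.eq_zero_of_abs_lt_dvd (m := g) (x := a - a')
      ⟨a' * b - a * b', by linear_combination a' * c3 - a * d3⟩ (by rw [abs_lt]; omega)
    exact hne (by rw [sub_eq_zero.1 e4])
  have e2 := one_le_abs_sub_int e1
  have g0 : (0 : ℝ) < g := by linarith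
  have g1 : (0 : ℝ) < g' := by linarith
  push_cast at e2
  rw [div_sub_div _ _ g0.ne' g1.ne', abs_div, abs_of_pos (mul_pos g0 g1), le_div_iff₀ (mul_pos g0 g1)]
  refine le_trans ?_ e2
  have := tw_pos (2 * t + 2)
  calc tw (2 * t + 2) * (g * g') ≤ tw (2 * t + 2) * (2 ^ (t + 1) * 2 ^ (t + 1)) := by gcongr
    _ = 2 ^ (2 * t + 2) * tw (2 * t + 2) := by ring
    _ = 1 := two_pow_mul_tw _

lemma div_add_le {L x E u : ℕ} (hE : 1 ≤ E) (hu : L / E = u) (h : x ≤ L + E * u) : x / E ≤ 2 * u := by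
  refine (Nat.div_le_div_right h).trans ?_
  rw [Nat.add_mul_div_left _ _ hE]
  omega

/-- Large heights: few matrices are bad at a given level. -/
lemma big_one (n : ℕ) : ∃ c : ℕ, ∀ (γ : ℝ) (t L E e cγ f : ℕ), 1 ≤ γ → γ ≤ 2 →
    (∀ a, Low n a (n * (a + a / E) + cγ) γ) → (n + 1) * n + 2 ≤ f → f ≤ E →
    (n + 1) * f + 2 * n + 1 ≤ e → c + cγ ≤ L / E → ∀ S : Finset (ℤ × ℤ),
    (∀ p ∈ S, ∃ b d, Tri t p.1 p.2 b d ∧ ¬ Low n L (n * L + e * (L / E)) (mb γ p.1 p.2 b d)) →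
    (S.card : ℝ) ≤ (n + 1) * tw (L / E) * 2 ^ (2 * t) * 5 := by
  classical
  obtain ⟨c, hc⟩ := app2 n
  refine ⟨c, fun γ t L E e cγ f h1 h2 hγ hf hE he hu S hS => ?_⟩
  set u := L / E with hu'
  have b1 : ((n + 1) * n + 1) * u + c ≤ f * u := by nlinarith [Nat.mul_le_mul_right u hf]
  have b2 := Nat.mul_le_mul_right u hE
  have b3 := Nat.mul_le_mul_right u he
  have key := hc γ t L (n * L + e * u) u (fun ht => ⟨_, hγ _, by
    obtain ⟨a, ha⟩ := Nat.exists_eq_add_of_le ht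
    rw [ha, Nat.add_sub_cancel_left]
    have b4 : a / E ≤ 2 * u := div_add_le (by omega) hu'.symm (by omega)
    have b5 := Nat.mul_le_mul_left n b4
    have b6 : n * (t + a) ≤ n * (L + f * u) := Nat.mul_le_mul_left n (by omega)
    nlinarith⟩) (by nlinarith [Nat.mul_le_mul_left (n + 1) b1])
  choose! b d hT hB using hS
  refine le_trans (card_le_cells S _ (fun p j => -(d p : ℝ) / p.1 ∈ cell (-1) (tw (2 * t)) j) 5
    (fun p hp => ?_) fun j S' hS' h => ?_) (mul_le_mul_of_nonneg_right key (by norm_num))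
  · obtain ⟨a1, a2, a3, a4, a5, a6, a7, a8, a9⟩ := (hT p hp).real
    have b0 : (0 : ℝ) < p.1 := by linarith
    obtain ⟨j, j1, j2⟩ := cell_index (x := -1) (y := -(d p : ℝ) / p.1) (tw_pos (2 * t)) (L := 2 * t)
      (by rw [le_div_iff₀ b0]; linarith)
      (by rw [two_pow_mul_tw, neg_add_cancel]; exact div_neg_of_neg_of_pos (by linarith) b0)
    have hB' := hB p hp
    unfold Low at hB'
    push Not at hB'
    obtain ⟨P, p1, p2, p3⟩ := hB'
    obtain ⟨Q, q1, q2, -, q4, q5⟩ := (hT p hp).mob h1 h2 n L P p2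
    refine ⟨j, mem_filter.2 ⟨mem_range.2 j1, Q, q2 p1, q1.1, q4.trans
      (mul_le_mul (pow_le_pow_right₀ (by norm_num) (by nlinarith)) p3.le (abs_nonneg _)
        (by positivity)), fun z hz => q5 z ?_⟩, j2⟩
    rw [neg_div] at j2
    rw [abs_le]
    constructor <;> linarith [hz.1, hz.2, j2.1, j2.2]
  · have := card_le_of_separated S' (fun p => -(d p : ℝ) / p.1) (-1 + j * tw (2 * t)) (tw (2 * t))
      (tw (2 * t + 2)) (tw_pos _) (tw_pos _).le
      (fun p hp => ⟨(h p hp).1, by linarith [(h p hp).2]⟩) fun p hp q hq hne => by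
        rw [neg_div, neg_div, neg_sub_neg, abs_sub_comm]
        exact (hT p (hS' hp)).sep (hT q (hS' hq)) hne
    refine this.trans (le_of_eq ?_)
    have h3 := tw_pos (2 * t)
    rw [tw_add, show tw 2 = 1 / 4 by unfold tw; norm_num]
    field_simp
    norm_num

/-- Small heights: few matrices with a given denominator are bad at a given level. -/
lemma small_one (n : ℕ) : ∃ c : ℕ, ∀ (γ y0 : ℝ) (ρ t L E e f : ℕ) (g : ℤ), 1 ≤ γ →
    (∀ L', L ≤ L' → Low n L' (n * L' + e * (L' / E)) y0) → (n + 1) * n + 2 ≤ f → f ≤ E →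
    (n + 1) * f ≤ e → c ≤ L / E → ρ ≤ n * L + 3 * e * (L / E) + L →
    n * L + 3 * e * (L / E) + L ≤ t → ∀ S : Finset ℤ,
    (∀ a ∈ S, ∃ b d, Tri t g a b d ∧ y0 ≤ mb γ g a b d ∧ mb γ g a b d < y0 + 2 * tw ρ ∧
      |mb γ g a b d| ≤ 2 ∧ ¬ Low n L (n * L + 3 * e * (L / E)) (mb γ g a b d)) →
    (S.card : ℝ) ≤ (n + 1) * tw (L / E) * (6 * tw ρ * |(g : ℝ)|) := by
  classical
  obtain ⟨c, hc⟩ := app1 n
  refine ⟨c, fun γ y0 ρ t L E e f g h1 hy hf hE he hu hρ ht S hS => ?_⟩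
  set u := L / E with hu'
  set k := n * L + 3 * e * u with hk
  have b1 : ((n + 1) * n + 1) * u + c ≤ f * u := by nlinarith [Nat.mul_le_mul_right u hf]
  have b2 := Nat.mul_le_mul_right u hE
  have b3 := Nat.mul_le_mul_right u he
  obtain ⟨Lc, hLc⟩ : ∃ Lc, Lc + ρ = k + L + 1 := ⟨k + L + 1 - ρ, by omega⟩
  have hσ := tw_pos (k + L)
  have b7 : 2 ^ Lc * tw (k + L) = 2 * tw ρ := by
    rw [← tw_succ, ← hLc, mul_left_comm, two_pow_mul_tw_add]
  have key := hc y0 (tw (k + L)) L k _ u Lc hσ le_rfl (hy _ (by omega)) (by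
    have b4 : (L + ((n + 1) * n + 1) * u + c) / E ≤ 2 * u :=
      div_add_le (by omega) hu'.symm (by omega)
    have b5 := Nat.mul_le_mul_left e b4
    have b6 : n * (L + ((n + 1) * n + 1) * u + c) ≤ n * (L + f * u) :=
      Nat.mul_le_mul_left n (by omega)
    nlinarith)
  choose! b d hT hB using hS
  have b8 : (0 : ℝ) ≤ 3 * tw (k + L) * |(g : ℝ)| := by positivity
  refine le_trans (card_le_cells S _ (fun a j => mb γ g a (b a) (d a) ∈ cell y0 (tw (k + L)) j)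
    (3 * tw (k + L) * |(g : ℝ)|) (fun a ha => ?_) fun j S' hS' h => ?_)
    ((mul_le_mul_of_nonneg_right key b8).trans (le_of_eq ?_))
  · obtain ⟨a1, a2, a3, a4⟩ := hB a ha
    obtain ⟨j, j1, j2⟩ := cell_index hσ (L := Lc) a1 (by rwa [b7])
    exact ⟨j, mem_filter.2 ⟨mem_range.2 j1, _, j2, a3, a4⟩, j2⟩
  · rcases S'.eq_empty_or_nonempty with rfl | ⟨a0, ha0⟩
    · simpa using b8
    obtain ⟨a1, a2, -⟩ := (hT a0 (hS' ha0)).real
    have g0 : (0 : ℝ) < g := lt_of_lt_of_le (by positivity) a1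
    have c0 := tw_pos (2 * t)
    have := card_le_of_separated S' (fun a => (a : ℝ) / g) (y0 + j * tw (k + L))
      (tw (k + L) + tw (2 * t)) (1 / g) (by positivity) (by positivity)
      (fun a ha => by
        obtain ⟨c1, c2⟩ := (hT a (hS' ha)).near h1
        constructor <;> linarith [(h a ha).1, (h a ha).2]) fun a _ a' _ hne => by
        rw [← sub_div, abs_div, abs_of_pos g0]
        exact div_le_div_of_nonneg_right (one_le_abs_sub_int hne) g0.le
    refine this.trans ?_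
    have c1 : tw (2 * t) ≤ tw (k + L) := tw_anti (by omega)
    have c2 : 1 ≤ tw (k + L) * g := by
      rw [← two_pow_mul_tw t, mul_comm]
      exact mul_le_mul (tw_anti ht) a1 (by positivity) hσ.le
    rw [div_div_eq_mul_div, div_one, abs_of_pos g0]
    nlinarith
  · linear_combination (n + 1) * tw u * 3 * |(g : ℝ)| * b7

lemma card_levels {ι : Type} (S : Finset ι) (n0 E u : ℕ) (hE : 1 ≤ E) (B : ℕ → ℕ → ι → Prop) (K : ℝ)
    (hK : 0 ≤ K) (h1 : ∀ i ∈ S, ∃ n ≤ n0, ∃ L, u ≤ L / E ∧ B n L i)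
    (h2 : ∀ n ≤ n0, ∀ L, u ≤ L / E → ∀ S' : Finset ι, (∀ i ∈ S', B n L i) →
      (S'.card : ℝ) ≤ (n + 1) * tw (L / E) * K) :
    (S.card : ℝ) ≤ (n0 + 1) * (E * (2 * tw u) * ((n0 + 1) * K)) := by
  classical
  choose! n hn L hL hB using h1
  refine (card_le_of_fibers S n (range (n0 + 1)) (fun i hi => mem_range.2 (Nat.lt_succ_of_le
    (hn i hi))) (E * (2 * tw u) * ((n0 + 1) * K)) fun k hk => ?_).trans (by simp)
  have hk' := Nat.le_of_lt_succ (mem_range.1 hk)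
  rw [card_eq_sum_card_image L]
  push_cast
  refine le_trans (sum_le_sum fun l hl => ?_) ((sum_mul _ _ _).symm.le.trans
    (mul_le_mul_of_nonneg_right (sum_tw_div _ E u hE fun l hl => ?_) (by positivity)))
  · obtain ⟨i, hi, rfl⟩ := mem_image.1 hl
    refine (h2 k hk' (L i) (hL i (mem_filter.1 hi).1) _ fun i' hi' => ?_).trans ?_
    · obtain ⟨a1, a2⟩ := mem_filter.1 hi'
      obtain ⟨a3, a4⟩ := mem_filter.1 a1
      exact a2 ▸ a4 ▸ hB i' a3
    · have := tw_pos (L i / E)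
      have h3 : (k : ℝ) ≤ n0 := by exact_mod_cast hk'
      rw [mul_comm ((k : ℝ) + 1), mul_assoc]
      gcongr
  · obtain ⟨i, hi, rfl⟩ := mem_image.1 hl
    exact hL i (mem_filter.1 hi).1

lemma pigeon (G : Finset ℕ) (hG : G.Nonempty) (B : ℤ × ℤ → Prop) (X : ℝ)
    (h : ∀ S : Finset (ℤ × ℤ), (∀ p ∈ S, B p) → (S.card : ℝ) ≤ G.card * X) :
    ∃ g ∈ G, ∀ S : Finset ℤ, (∀ a ∈ S, B (g, a)) → (S.card : ℝ) ≤ X := by
  by_contra hc
  push Not at hc
  choose! S h1 h2 using hc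
  have h3 := h ((G.sigma S).map ⟨fun p => ((p.1 : ℤ), p.2), by
    rintro ⟨a, b⟩ ⟨c, d⟩ h
    simp only [Prod.mk.injEq, Nat.cast_inj] at h
    rw [h.1, h.2]⟩) fun p hp => by
      obtain ⟨q, hq, rfl⟩ := mem_map.1 hp
      exact h1 _ (mem_sigma.1 hq).1 _ (mem_sigma.1 hq).2
  rw [card_map, card_sigma, ← nsmul_eq_mul, ← sum_const] at h3
  push_cast at h3
  exact absurd (sum_lt_sum_of_nonempty hG h2) (not_lt.2 h3)

lemma mul_tw_le {X : ℝ} {a b : ℕ} (h : X * 2 ^ a ≤ 2 ^ b) : X * tw b ≤ tw a := by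
  have h1 := mul_le_mul_of_nonneg_right h (mul_pos (tw_pos a) (tw_pos b)).le
  have h2 := two_pow_mul_tw a
  have h3 := two_pow_mul_tw b
  calc X * tw b = X * 2 ^ a * (tw a * tw b) := by linear_combination -X * tw b * h2
    _ ≤ 2 ^ b * (tw a * tw b) := h1
    _ = tw a := by linear_combination tw a * h3

/-- Sharp lower bounds in degrees up to `n0` at all large levels. -/
def Anchor (n0 e E ρ : ℕ) (y : ℝ) : Prop :=
  ∀ n ≤ n0, ∀ L, ρ ≤ (n0 + 2) * L → Low n L (n * L + e * (L / E)) y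

lemma exists_centre (n0 : ℕ) : ∃ c0 : ℕ, ∀ (e E E' j ρ t0 cγ : ℕ) (γ y0 : ℝ), 1 ≤ γ → γ ≤ 2 →
    (∀ n ≤ n0, ∀ a, Low n a (n * (a + a / E) + cγ) γ) →
    (n0 + 1) * ((n0 + 1) * n0 + 2) + 2 * n0 + 1 ≤ e → 3 * e ≤ E' → E' ≤ E →
    (n0 + 2) * (E' * (c0 + E')) ≤ ρ → 0 ≤ y0 → y0 + 2 * tw ρ ≤ 1 →
    ∃ (t : ℕ) (g a b d : ℤ), t0 ≤ t ∧ Tri t g a b d ∧ y0 + tw ρ ≤ mb γ g a b d ∧
      mb γ g a b d ≤ y0 + 7 / 4 * tw ρ ∧
      (∀ n ≤ n0, ∀ L, t < 2 * (n0 + 2) * L → Low n L (n * L + e * (L / E)) (mb γ g a b d)) ∧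
      (Anchor n0 e E' ρ y0 → ∀ n ≤ n0, ∀ L, ρ ≤ n * L + 3 * e * (L / E') + L →
        2 * (n0 + 2) * L ≤ t → Low n L (n * L + 3 * e * (L / E')) (mb γ g a b d)) ∧
      ∀ n ≤ j, ∀ l, ρ < UV n * l → (n + 1) * (l + 2) ≤ t / 2 + 1 → ∀ P : ℤ[X], P ≠ 0 → Bd n l P →
        ∀ β ∈ rts P, tw (VV n * l) + tw (t + 1 + 1) ≤ |mb γ g a b d - β| := by
  classical
  choose c1 hc1 using small_one
  choose c2 hc2 using big_one
  refine ⟨(range (n0 + 1)).sup c1 + (2 * n0 + 8),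
    fun e E E' j ρ t0 cγ γ y0 h1 h2 hγ he hE' hE hρ hy0 hy1 => ?_⟩
  set u0 := (range (n0 + 1)).sup c1 + (2 * n0 + 8) + E' with hu0
  set f := (n0 + 1) * n0 + 2 with hf
  set K := 2 * (n0 + 2) * E with hK
  have hf1 : f ≤ e := by nlinarith
  have hf2 : ∀ n ≤ n0, (n + 1) * n + 2 ≤ f := fun n hn => by nlinarith
  have hf3 : ∀ n ≤ n0, (n + 1) * f + 2 * n + 1 ≤ e := fun n hn => by nlinarith
  have hK1 : 1 ≤ K := Nat.mul_pos (by omega) (by omega)
  obtain ⟨t1, ht1⟩ := growth3 (2560 * (n0 + 1) ^ 2 * E * 2 ^ ρ) K hK1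
  obtain ⟨t2, ht2⟩ := growth3 ((j + 3) * 2 ^ (j + ρ + 10)) 4 (by norm_num)
  obtain ⟨t, ht, hπ⟩ := many_primes (t0 + t1 + t2 + ((range (n0 + 1)).sup c2 + cγ) * K + (ρ + 2))
  set G := (Ioc (2 ^ t) (2 ^ (t + 1))).filter Nat.Prime with hG
  have r0 := tw_pos ρ
  obtain ⟨g, hg, hg3⟩ := pigeon G (card_pos.1 (Nat.pos_of_mul_pos_left
    (lt_of_lt_of_le (by positivity) hπ))) (fun p => ∃ n ≤ n0, ∃ L, t / K ≤ L / E ∧ ∃ b d,
      Tri t p.1 p.2 b d ∧ ¬ Low n L (n * L + e * (L / E)) (mb γ p.1 p.2 b d))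
    (tw ρ * 2 ^ t / 16) fun S hS => by
      refine (card_levels S n0 E (t / K) (by omega) _ (2 ^ (2 * t) * 5) (by positivity) hS
        fun n hn L hL S' hS' => ?_).trans ?_
      · rw [← mul_assoc]
        refine hc2 n γ t L E e cγ f h1 h2 (hγ n hn) (hf2 n hn) (by omega) (hf3 n hn)
          (le_trans ?_ hL) S' hS'
        have := le_sup (f := c2) (mem_range.2 (by omega : n < n0 + 1))
        exact (Nat.le_div_iff_mul_le hK1).2 ((Nat.mul_le_mul_right K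
          (Nat.add_le_add_right this _)).trans (by omega))
      · have b1 : (2560 * (n0 + 1) ^ 2 * E * (t + 3) ^ 2 : ℝ) * tw (t / K) ≤ tw ρ := by
          refine mul_tw_le (le_trans ?_ (by exact_mod_cast ht1 t (by omega) :
            (2560 * (n0 + 1) ^ 2 * E * 2 ^ ρ * (t + 3) ^ 3 : ℝ) ≤ 2 ^ (t / K)))
          rw [mul_right_comm]
          gcongr
          · linarith [Nat.cast_nonneg (α := ℝ) t]
          · norm_num
        have b2 : (2 : ℝ) ^ t ≤ 16 * (t + 3) ^ 2 * G.card := by exact_mod_cast hπ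
        have b3 := tw_pos (t / K)
        calc ((n0 : ℝ) + 1) * (E * (2 * tw (t / K)) * ((n0 + 1) * (2 ^ (2 * t) * 5)))
            = 10 * (n0 + 1) ^ 2 * E * tw (t / K) * 2 ^ t * 2 ^ t := by ring
          _ ≤ 10 * (n0 + 1) ^ 2 * E * tw (t / K) * 2 ^ t * (16 * (t + 3) ^ 2 * G.card) := by gcongr
          _ = G.card * ((2560 * (n0 + 1) ^ 2 * E * (t + 3) ^ 2) * tw (t / K) * 2 ^ t / 16) := by
            ring
          _ ≤ _ := by gcongr
  obtain ⟨hg1, hgp⟩ := mem_filter.1 hg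
  obtain ⟨hg1, hg2⟩ := mem_Ioc.1 hg1
  have g1 : (2 : ℝ) ^ t ≤ g := by exact_mod_cast hg1.le
  have g0 : (0 : ℝ) < g := lt_of_lt_of_le (by positivity) g1
  have r1 : tw (2 * t) ≤ tw ρ / 4 := by
    have := two_pow_mul_tw_le (a := 2) (b := 2 * t) (c := ρ) (by omega)
    linarith
  have hlev : ∀ n ≤ n0, ∀ L, n * L + 3 * e * (L / E') + L ≤ (n0 + 2) * L := fun n hn L => by
    have b1 := Nat.mul_le_mul_right (L / E') hE'
    have b2 := Nat.mul_div_le L E'
    have b3 := Nat.mul_le_mul_right L hn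
    linarith
  obtain ⟨a, a1, a2, a3, a4⟩ := exists_good_c1 rts (fun P _ => card_rts P) g (t / 2 + 1) t ρ j 0
    (by omega) hg1.le hg2 (by
      have b1 : ((j + 3) * 2 ^ (j + ρ + 10) * (t + 3) ^ 3 : ℝ) ≤ 2 ^ (t / 4) := by
        exact_mod_cast ht2 t (by omega)
      have b2 : (t : ℝ) + 1 ≤ (t + 3) ^ 3 := le_trans (by linarith) (le_self_pow₀
        (by linarith [Nat.cast_nonneg (α := ℝ) t]) (by norm_num))
      calc ((j + 3 : ℕ) : ℝ) * (t + 1) * 2 ^ (t / 2 + 1 + (j + 5) + (ρ + 4))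
          = (j + 3) * 2 ^ (j + ρ + 10) * (t + 1) * 2 ^ (t / 2) := by push_cast; ring
        _ ≤ (j + 3) * 2 ^ (j + ρ + 10) * (t + 3) ^ 3 * 2 ^ (t / 2) := by gcongr
        _ ≤ 2 ^ (t / 4) * 2 ^ (t / 2) := by gcongr
        _ ≤ 2 ^ t := by rw [← pow_add]; exact pow_le_pow_right₀ (by norm_num) (by omega))
    (y0 + tw ρ + tw ρ / 4) (fun a => (Anchor n0 e E' ρ y0 ∧ ∃ n ≤ n0, ∃ L, u0 ≤ L / E' ∧
      ρ ≤ n * L + 3 * e * (L / E') + L ∧ 2 * (n0 + 2) * L ≤ t ∧ ∃ b d, Tri t g a b d ∧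
      y0 ≤ mb γ g a b d ∧ mb γ g a b d < y0 + 2 * tw ρ ∧ |mb γ g a b d| ≤ 2 ∧
      ¬ Low n L (n * L + 3 * e * (L / E')) (mb γ g a b d)) ∨ ∃ n ≤ n0, ∃ L, t / K ≤ L / E ∧ ∃ b d,
      Tri t g a b d ∧ ¬ Low n L (n * L + e * (L / E)) (mb γ g a b d)) fun S hS => by
      have b1 := hg3 _ fun a (ha : a ∈ S.filter fun a => ∃ n ≤ n0, ∃ L, t / K ≤ L / E ∧ ∃ b d,
        Tri t g a b d ∧ ¬ Low n L (n * L + e * (L / E)) (mb γ g a b d)) => (mem_filter.1 ha).2
      have b2 := card_filter_add_card_filter_not (s := S) fun a => ∃ n ≤ n0, ∃ L, t / K ≤ L / E ∧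
        ∃ b d, Tri t g a b d ∧ ¬ Low n L (n * L + e * (L / E)) (mb γ g a b d)
      rw [← b2]
      push_cast
      refine (add_le_add b1 (show _ ≤ tw ρ * g / 16 from ?_)).trans
        (by linarith [mul_le_mul_of_nonneg_left g1 r0.le])
      rcases (S.filter fun a => ¬ ∃ n ≤ n0, ∃ L, t / K ≤ L / E ∧ ∃ b d, Tri t g a b d ∧
        ¬ Low n L (n * L + e * (L / E)) (mb γ g a b d)).eq_empty_or_nonempty with h | ⟨a0, h⟩
      · rw [h, card_empty, Nat.cast_zero]; positivity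
      have hA := (((hS a0 (mem_filter.1 h).1).2.2).resolve_right (mem_filter.1 h).2).1
      refine (card_levels _ n0 E' u0 (by omega) _ (6 * tw ρ * g) (by positivity) (fun a ha =>
        (((hS a (mem_filter.1 ha).1).2.2).resolve_right (mem_filter.1 ha).2).2)
        fun n hn L hL S' hS' => ?_).trans ?_
      · rcases S'.eq_empty_or_nonempty with rfl | ⟨a1, h'⟩
        · have := tw_pos (L / E')
          rw [card_empty, Nat.cast_zero]; positivity
        have b3 := hlev n hn L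
        have b4 := le_sup (f := c1) (mem_range.2 (by omega : n < n0 + 1))
        have := hc1 n γ y0 ρ t L E' e f g h1 (fun L' hL' => hA n hn L' (((hS' a1 h').1.trans
          b3).trans (Nat.mul_le_mul_left _ hL'))) (hf2 n hn) (by omega)
          (by have := hf3 n hn; omega) (by omega) (hS' a1 h').1
          (by have := (hS' a1 h').2.1; linarith [Nat.zero_le ((n0 + 2) * L)]) S'
          fun a ha => (hS' a ha).2.2
        rwa [Int.cast_natCast, abs_of_pos g0] at this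
      · have b3 : (192 * (n0 + 1) ^ 2 * E' : ℝ) * tw u0 ≤ tw 0 := by
          refine mul_tw_le ?_
          have c1 := nat_succ_le_two_pow n0
          have c2 := nat_le_two_pow E'
          calc (192 * (n0 + 1) ^ 2 * E' : ℝ) * 2 ^ 0 ≤ 2 ^ 8 * (2 ^ n0) ^ 2 * 2 ^ E' * 2 ^ 0 := by
                gcongr; norm_num
            _ = 2 ^ (2 * n0 + 8 + E') := by ring
            _ ≤ _ := pow_le_pow_right₀ (by norm_num) (by omega)
        calc ((n0 : ℝ) + 1) * (E' * (2 * tw u0) * ((n0 + 1) * (6 * tw ρ * g)))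
            = (192 * (n0 + 1) ^ 2 * E') * tw u0 * (tw ρ * g / 16) := by ring
          _ ≤ tw 0 * (tw ρ * g / 16) := by gcongr
          _ = _ := by rw [tw_zero, one_mul]
  simp only [add_zero] at a1 a2 a4
  obtain ⟨b, d, hT⟩ := exists_tri t g hgp hg1.le hg2 a
    (by
      have : (0 : ℝ) < a := by
        rw [le_div_iff₀ g0] at a1
        exact lt_of_lt_of_le (by positivity) a1
      exact_mod_cast this)
    (by
      have : (a : ℝ) < g := by
        rw [← div_lt_one g0]; linarith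
      exact_mod_cast this)
  obtain ⟨n1, n2⟩ := hT.near h1
  rw [Int.cast_natCast] at n1 n2
  push Not at a3
  refine ⟨t, g, a, b, d, by omega, hT, by linarith, by linarith, fun n hn L hL => a3.2 n hn L ?_ b d hT,
    fun hA n hn L hL1 hL2 => a3.1 hA n hn L ?_ hL1 hL2 b d hT (by linarith) (by linarith)
      (by rw [abs_le]; constructor <;> linarith), fun n hn l l1 l2 P p1 p2 β hβ => ?_⟩
  · rw [hK, ← Nat.div_div_eq_div_mul]
    exact Nat.div_le_div_right (Nat.div_le_of_le_mul hL.le)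
  · refine (Nat.le_div_iff_mul_le (by omega)).2 (Nat.le_of_mul_le_mul_left (c := n0 + 2) ?_
      (by omega))
    rw [mul_comm u0]
    exact hρ.trans (hL1.trans (hlev n hn L))
  · have b1 := a4 n hn l l1 l2 P p1 p2 β hβ
    have b2 := abs_sub_le ((a : ℝ) / g) (mb γ g a b d) β
    have b3 := tw_succ (t + 1)
    have b4 : tw (2 * t) ≤ tw (t + 1 + 1) := tw_anti (by omega)
    rw [abs_of_nonneg (sub_nonneg.2 n1)] at b2
    linarith

end Pool.Agent.MP_b86f6c_nt
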