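import Pool.Agent.MP_b86f6c_nt.KmF

set_option autoImplicit false

namespace Pool.Agent.MP_b86f6c_nt

open Polynomial Finset

lemma Low.move {n L k ρ : ℕ} {y s : ℝ} (h : Low n L k y) (hy : |y| ≤ 2) (h0 : 0 ≤ s)
    (hs : s ≤ 2 * tw ρ) (hρ : 4 * n + L + k + 2 ≤ ρ) : Low n L (k + 1) (y + s) := by
  intro P p1 p2
  have b0 : 2 * tw ρ ≤ 1 := by
    have := two_pow_mul_tw_le (a := 1) (b := ρ) (c := 0) (by omega)
    simpa using this
  have b1 := aeval_lip n L P p2 y s hy (by rw [abs_of_nonneg h0]; linarith)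
  have b2 : (2 : ℝ) ^ (4 * n + L) * |s| ≤ tw (k + 1) := by
    rw [abs_of_nonneg h0]
    calc (2 : ℝ) ^ (4 * n + L) * s ≤ 2 ^ (4 * n + L) * (2 * tw ρ) := by gcongr
      _ = 2 ^ (4 * n + L + 1) * tw ρ := by ring
      _ ≤ _ := two_pow_mul_tw_le (by omega)
  have b3 := abs_sub_abs_le_abs_sub (aeval y P) (aeval (y + s) P)
  rw [abs_sub_comm] at b3
  linarith [h P p1 p2, tw_succ k]

lemma Tri.point_lower {m D N : ℕ} {γ : ℝ} {c0 : ℕ} {cb : ℕ → ℕ} (hB : Base m D N γ c0 cb)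
    {t : ℕ} {g a b d : ℤ} (h : Tri t g a b d) (n l : ℕ) (P : ℤ[X]) (hP : Bd n l P)
    (hl : 1 ≤ l) (hu : t + 1 ≤ 6 * (n + 1) * l) (hcb : cb n ≤ t)
    (h0 : aeval (mb γ g a b d) P ≠ 0) : tw (UU n * l) ≤ |aeval (mb γ g a b d) P| := by
  obtain ⟨Q, q1, -, q3, q4, -⟩ := h.mob hB.h1 hB.h2 n l P hP
  have h1 := (hB.pol n _ Q q1 fun h => h0 (q3.1 h)).trans q4
  refine le_of_mul_le_mul_left ((two_pow_mul_tw_le ?_).trans h1) (by positivity)
  have b1 : (2 * n ^ 2 + n + 1) * (t + 1) ≤ (2 * n ^ 2 + n + 1) * (6 * (n + 1) * l) :=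
    Nat.mul_le_mul_left _ hu
  have b2 : 4 * n ^ 2 + 2 * n ≤ (4 * n ^ 2 + 2 * n) * l := Nat.le_mul_of_pos_right _ hl
  have b3 : (2 * n ^ 2 + n + 1) * (6 * (n + 1)) + (4 * n ^ 2 + 2 * n) + 2 * n ≤ UU n := by
    unfold UU; nlinarith [Nat.zero_le (n ^ 3), Nat.zero_le (n ^ 2)]
  have b4 := Nat.mul_le_mul_right l b3
  nlinarith

/-- One stage of the nested interval construction. -/
def Stage4 (n0 e E E' : ℕ) (ω : ℕ → ℝ) (m j : ℕ) (s y0 : ℝ) (ρ : ℕ) (y1 : ℝ) (ρ1 : ℕ) : Prop :=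
  2 * ρ + j ≤ ρ1 ∧ y0 + tw ρ ≤ y1 ∧ y1 + 2 * tw ρ1 ≤ y0 + 2 * tw ρ ∧ Anchor n0 e E ρ1 y1 ∧
    ∀ x, y1 + tw ρ1 ≤ x → x ≤ y1 + 2 * tw ρ1 →
      (Anchor n0 e E' ρ y0 → ∀ n ≤ n0, ∀ L, ρ ≤ n * L + 3 * e * (L / E') + L →
        n * L + 3 * e * (L / E) + L < ρ1 → Low n L (n * L + 3 * e * (L / E') + 1) x) ∧
      (∀ d ≤ j, 2 ≤ d → ∀ a, ρ < UV d * a → UV d * a ≤ ρ1 → Good3 (ω d) d a x) ∧
      Close3 (ω m) m j x ∧ x ≠ s

lemma step4 (n0 : ℕ) : ∃ c : ℕ, ∀ (e E E' : ℕ) (ω : ℕ → ℝ) (m j : ℕ) (s y0 : ℝ) (ρ : ℕ),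
    (n0 + 1) * ((n0 + 1) * n0 + 2) + 2 * n0 + 1 ≤ e → 3 * e ≤ E' → E' ≤ E → n0 < m → 2 ≤ m →
    m ≤ j → 32 * ((m : ℝ) + 1) ^ 3 ≤ ω m → (n0 + 2) * (E' * (c + E')) ≤ ρ → 0 ≤ y0 →
    y0 + 2 * tw ρ ≤ 1 → ∃ y1 ρ1, Stage4 n0 e E E' ω m j s y0 ρ y1 ρ1 := by
  obtain ⟨c, hc⟩ := exists_centre n0
  refine ⟨c, fun e E E' ω m j s y0 ρ he hE' hE hm0 hm hmj hω hρ hx0 hx1 => ?_⟩
  obtain ⟨N, γ, c0, cb, cγ, hB, hγ⟩ := exists_base2 m E hm (by omega)
  obtain ⟨t, g, a, b, d, htt, hT, hc1, hc2, hbig, hsm, hc4⟩ := hc e E E' j ρ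
    (2 * ρ + j + 2 * ((m + 1) * (ρ + j + 3)) + 2 * (n0 + 2) * E + ∑ n ∈ range (j + 1), cb n) cγ γ y0
    hB.h1 hB.h2 (fun n hn => hγ n (by omega)) he hE' hE hρ hx0 hx1
  obtain ⟨a1, a2, a3, a4, a5, a6, a7, a8, a9⟩ := hT.real
  have hr := tw_pos ρ
  have hdeg : ∀ P : ℤ[X], P ≠ 0 → aeval (mb γ g a b d) P = 0 → m ≤ P.natDegree := by
    intro P hP0 h
    by_contra h8
    obtain ⟨Q, q1, q2, q3, -⟩ := hT.mob hB.h1 hB.h2 P.natDegree (ht P) P
      (Bd_of_ht le_rfl (Nat.lt_two_pow_self).le)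
    exact hB.ne Q (q2 hP0) (q1.1.trans_lt (not_le.1 h8)) (q3.2 h)
  obtain ⟨P0, hP1, hP2, hP3⟩ : ∃ P0 : ℤ[X], Irreducible P0 ∧ P0.natDegree = m ∧
      aeval (mb γ g a b d) P0 = 0 := by
    let Q : ℤ[X] := C (N : ℤ) * (C d * X - C b) ^ m - C ((N : ℤ) + 1) * (C a - C g * X) ^ m
    have hev : ∀ x : ℝ, aeval x Q = N * (d * x - b) ^ m - (N + 1) * (a - g * x) ^ m := by
      intro x
      simp [Q]
    have g0 : (0 : ℝ) < g := by linarith
    have g1 : (0 : ℝ) < g * γ + d := by have := hB.h1; positivity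
    have hQ0 : Q ≠ 0 := by
      intro h
      have h1 := hev (a / g)
      have h2 : (d : ℝ) * (a / g) - b = 1 / g := by
        rw [eq_div_iff g0.ne', sub_mul, mul_assoc, div_mul_cancel₀ _ g0.ne']
        linear_combination a3
      rw [h, map_zero, mul_div_cancel₀ _ g0.ne', sub_self, zero_pow (by omega), h2, mul_zero,
        sub_zero] at h1
      have h3 : (0 : ℝ) < N := by exact_mod_cast hB.hN
      exact absurd h1 (ne_of_lt (by positivity))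
    have hQd : Q.natDegree ≤ m := by
      simp only [Q]
      compute_degree!
    obtain ⟨P0, h1, h2, h3⟩ := exists_irr_root (mb γ g a b d) Q hQ0 (by
      have h4 : mb γ g a b d * (g * γ + d) = a * γ + b := div_mul_cancel₀ _ g1.ne'
      have h5 : d * mb γ g a b d - b = γ * (a - g * mb γ g a b d) := by
        linear_combination h4
      rw [hev, h5, mul_pow, ← mul_assoc, hB.eq, sub_self])
    exact ⟨P0, h1, le_antisymm ((natDegree_le_of_dvd h2 hQ0).trans hQd)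
      (hdeg P0 h1.ne_zero h3), h3⟩
  have hpl := hT.point_lower hB
  generalize mb γ g a b d = y at *
  have hy0 : 0 ≤ y := by linarith
  have hy1 : y ≤ 1 := by linarith
  have hy : |y| ≤ 2 := by rw [abs_of_nonneg hy0]; linarith
  obtain ⟨r, hb1, hb2, hb3⟩ : ∃ b, ht P0 ≤ 2 ^ (b + 1) ∧ 2 ^ b < ht P0 ∧
      t / 2 + 1 < (m + 1) * (b + 3) := by
    classical
    have hex : ∃ a, ht P0 ≤ 2 ^ a := ⟨ht P0, (Nat.lt_two_pow_self).le⟩
    have c1 := Nat.find_spec hex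
    have c5 : (m + 1) * (ρ + 1 + 2) ≤ (m + 1) * (ρ + j + 3) := Nat.mul_le_mul_left _ (by omega)
    have c2 : t / 2 + 1 < (m + 1) * (Nat.find hex + 2) := by
      by_contra hc
      have c3 := hc4 m hmj (max (Nat.find hex) (ρ + 1))
        (lt_of_lt_of_le (lt_of_lt_of_le (Nat.lt_succ_self ρ) (le_max_right _ _))
          (Nat.le_mul_of_pos_left _ (by unfold UV; omega)))
        (by rcases max_choice (Nat.find hex) (ρ + 1) with h | h <;> rw [h] <;> omega)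
        P0 hP1.ne_zero (Bd_of_ht hP2.le
          (c1.trans (Nat.pow_le_pow_right (by norm_num) (le_max_left _ _))))
        _ (mem_rts hP1.ne_zero hP3)
      rw [sub_self, abs_zero] at c3
      linarith [tw_pos (VV m * max (Nat.find hex) (ρ + 1)), tw_pos (t + 1 + 1)]
    have c3 : ρ + 1 + 2 < Nat.find hex + 2 := Nat.lt_of_mul_lt_mul_left (a := m + 1) (by omega)
    obtain ⟨b, hb⟩ : ∃ b, Nat.find hex = b + 1 := ⟨Nat.find hex - 1, by omega⟩
    have c4 : ¬ ht P0 ≤ 2 ^ b := Nat.find_min hex (by omega)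
    rw [hb] at c1 c2
    exact ⟨b, c1, not_le.1 c4, c2⟩
  have hb4 : ρ + j + 3 < r + 3 := Nat.lt_of_mul_lt_mul_left (a := m + 1) (by omega)
  obtain ⟨k, hk, hE0⟩ := exact_dist m r (t + 1) (ω m) y hω hy P0 hP1 (by omega)
    (Bd_of_ht hP2.le hb1) hb2.le (by omega) (by omega) hP3
  obtain ⟨ρ1, hR1, hR2, hR3⟩ := exists_avoid y s k
  have hr2 : 8 * tw ρ1 ≤ tw ρ := by
    have := two_pow_mul_tw_le (a := 3) (b := ρ1) (c := ρ) (by omega)
    linarith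
  refine ⟨y, ρ1, by omega, hc1, by linarith, fun n hn L hL => hbig n hn L (by linarith), ?_⟩
  intro x hx2 hx3
  obtain ⟨z, rfl⟩ : ∃ z, x = y + z := ⟨x - y, by ring⟩
  have ht1 : tw ρ1 ≤ z := by linarith
  have ht2 : z ≤ 2 * tw ρ1 := by linarith
  have ht0 : 0 ≤ z := (tw_pos _).le.trans ht1
  obtain ⟨hE1, hE2⟩ := hE0 ρ1 hR1 hR2 z ht1 ht2
  refine ⟨fun hA n hn L l1 l2 => ?_, ?_, ⟨P0, hP2.le, ?_, hE1⟩, fun h => hR3 ⟨by linarith, by linarith⟩⟩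
  · by_cases hL : t < 2 * (n0 + 2) * L
    · have b1 : 1 ≤ L / E := (Nat.le_div_iff_mul_le (by omega)).2
        (Nat.le_of_mul_le_mul_left (c := 2 * (n0 + 2)) (by rw [one_mul]; omega) (by omega))
      have b2 := Nat.mul_le_mul_left e b1
      have b3 := Nat.mul_le_mul_left e (Nat.div_le_div_left (a := L) hE (by omega))
      exact ((hbig n hn L hL).move hy ht0 ht2 (by linarith [Nat.zero_le ((n0 + 1) *
        ((n0 + 1) * n0 + 2))])).mono le_rfl (by linarith [Nat.zero_le (e * (L / E'))])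
    · have b1 := Nat.mul_le_mul_right (L / E') hE'
      have b2 := Nat.mul_div_le L E'
      have b3 := Nat.mul_le_mul_right L hn
      have b4 : E' ≤ (n0 + 2) * (E' * (c + E')) := (Nat.le_mul_of_pos_right _ (by omega)).trans
        (Nat.le_mul_of_pos_left _ (by omega))
      exact (hsm hA n hn L l1 (not_lt.1 hL)).move hy ht0 ht2 (by
        linarith [not_lt.1 hL, Nat.zero_le ((n0 + 1) * ((n0 + 1) * n0 + 2))])
  · intro n hn hn2 l ha1 ha2 P hP hPd hPB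
    have ha : 1 ≤ l := by
      rcases Nat.eq_zero_or_pos l with rfl | h
      · simp at ha1
      · exact h
    by_cases h0 : aeval y P = 0
    · right
      rcases eq_or_neg_of_root hP hP1 (by omega) h0 hP3 with rfl | rfl
      · rw [← hPd, hP2]; exact hE2
      · rw [natDegree_neg] at hPd
        rw [← hPd, hP2, ht_neg, map_neg, abs_neg]; exact hE2
    · left
      have hcb : cb n ≤ ∑ n ∈ range (j + 1), cb n :=
        single_le_sum (f := cb) (fun _ _ => Nat.zero_le _) (mem_range.2 (by omega))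
      exact gen_lower _ z hy0 hy1 n l (t + 1) (t / 2 + 1) ρ1 ht0 ht2 (by omega) (by omega) P hP
        (by omega) hPB ha ha2 (fun hreg => hc4 n hn l ha1 hreg P hP.ne_zero hPB)
        fun hua => hpl n l P hPB ha hua (by omega) h0
  · have : r < 2 ^ r := Nat.lt_two_pow_self
    omega

end Pool.Agent.MP_b86f6c_nt
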