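import Pool.Agent.MP_b86f6c_nt.KmH

set_option autoImplicit false

namespace Pool.Agent.MP_b86f6c_nt

open Polynomial Finset Matrix

lemma UT_row {n s : ℕ} (v : Fin (n + 1) → ℝ) (x : ℝ) (i : Fin s) :
    (v ᵥ* UT n s x) i = (taylor x (toP v)).coeff i := by
  rw [taylor_coeff, toP_hasse]
  simp [UT, vecMul, dotProduct]

lemma UT_val {n : ℕ} (v : Fin (n + 1) → ℝ) (x z : ℝ) :
    ∑ l, v l * (x + z) ^ (l : ℕ) = ∑ i : Fin (n + 1), (v ᵥ* UT n (n + 1) x) i * z ^ (i : ℕ) := by
  have h1 : ∑ l, v l * (x + z) ^ (l : ℕ) = (taylor x (toP v)).eval z := by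
    rw [taylor_eval, add_comm z]
    simp [toP, eval_finsetSum]
  rw [h1, eval_eq_sum_range' (n := n + 1) (by
    rw [natDegree_taylor]; exact Nat.lt_succ_of_le (toP_natDegree v)),
    ← Fin.sum_univ_eq_sum_range (fun i => (taylor x (toP v)).coeff i * z ^ i)]
  exact sum_congr rfl fun i _ => by rw [UT_row]

lemma UT_inj {n : ℕ} (v : Fin (n + 1) → ℝ) (x : ℝ) (h : ∀ i, (v ᵥ* UT n (n + 1) x) i = 0) :
    v = 0 := by
  have h1 : taylor x (toP v) = 0 := by
    ext e
    by_cases he : e < n + 1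
    · exact (UT_row v x ⟨e, he⟩).symm.trans (h _)
    · exact coeff_eq_zero_of_natDegree_lt (by
        rw [natDegree_taylor]; have := toP_natDegree v; omega)
  funext i
  rw [← toP_coeff v i, (taylor_eq_zero _ _).1 h1]
  rfl

lemma UT_int {n s : ℕ} (v : Fin (n + 1) → ℤ) (x : ℝ) (i : Fin s) :
    ((fun l => (v l : ℝ)) ᵥ* UT n s x) i = aeval x (hasseDeriv i (toP v)) := by
  have b2 : toP (fun l : Fin (n + 1) => (v l : ℝ)) = (toP v).map (algebraMap ℤ ℝ) := by
    rw [← toP_of ((toP v).map (algebraMap ℤ ℝ)) (natDegree_map_le.trans (toP_natDegree v))]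
    simp [toP_coeff]
  rw [UT_row, b2, taylor_map_coeff]

lemma sum_tele (F : ℕ → ℕ) (hF : ∀ l, F (l + 1) ≤ F l) (a m : ℕ) :
    ∑ l ∈ Ico a (a + m), (F l - F (l + 1)) + F (a + m) = F a := by
  induction m with
  | zero => simp
  | succ m ih =>
    rw [← add_assoc a, sum_Ico_succ_top (by omega)]
    have := hF (a + m)
    omega

lemma sum_tele_le (F : ℕ → ℕ) (hF : ∀ l, F (l + 1) ≤ F l) {r n : ℕ} (S : Fin r → Fin (n + 1))
    (hS : Function.Injective S) (a : ℕ) (ha : ∀ j, a ≤ S j) :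
    ∑ j, (F (S j) - F (S j + 1)) ≤ F a := by
  rw [← sum_image (s := univ) (g := fun j => (S j : ℕ)) (f := fun l => F l - F (l + 1))
    fun i _ j _ h => hS (Fin.ext h), ← sum_tele F hF a (n + 1)]
  refine (sum_le_sum_of_subset fun l hl => ?_).trans (Nat.le_add_right _ _)
  obtain ⟨j, -, rfl⟩ := mem_image.1 hl
  exact mem_Ico.2 ⟨ha j, by have := (S j).2; omega⟩

/-- Taylor coefficients at `x` and value at `y`, with weights. -/
noncomputable def H3 (n : ℕ) (x α ω y : ℝ) : Matrix (Fin (n + 1)) (Option (Fin (n + 1))) ℝ :=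
  Matrix.of fun l c => c.elim (ω * y ^ (l : ℕ)) fun i => α * UT n (n + 1) x l i

lemma H3_none {n : ℕ} (x α ω y : ℝ) (v : Fin (n + 1) → ℝ) :
    (v ᵥ* H3 n x α ω y) none = ω * ∑ l, v l * y ^ (l : ℕ) := by
  simp only [H3, vecMul, dotProduct, of_apply, Option.elim, mul_sum]
  exact sum_congr rfl fun _ _ => by ring

lemma H3_some {n : ℕ} (x α ω y : ℝ) (v : Fin (n + 1) → ℝ) (i : Fin (n + 1)) :
    (v ᵥ* H3 n x α ω y) (some i) = α * (v ᵥ* UT n (n + 1) x) i := by
  simp only [H3, vecMul, dotProduct, of_apply, Option.elim, mul_sum]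
  exact sum_congr rfl fun _ _ => by ring

/-- A large minor of the Taylor matrix. -/
lemma mink_T (n : ℕ) (x : ℝ) (F : ℕ → ℕ) (X : ℕ) (hF : ∀ l, F (l + 1) ≤ F l)
    (hP : ∀ P : ℤ[X], P ≠ 0 → P.natDegree ≤ n → ∃ l ≤ n,
      (2 : ℝ) ^ (X + n) ≤ 2 ^ (F l - F (l + 1)) * |aeval x (hasseDeriv l P)|)
    {s : ℕ} (b : Matrix (Fin (s + 1)) (Fin (n + 1)) ℤ) (S : Fin (s + 1) → Fin (n + 1))
    (hS : (b.submatrix id S).det ≠ 0) : ∃ (S' : Fin (s + 1) → Fin (n + 1)) (j0 : Fin (s + 1)),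
      ((2 : ℝ) ^ X) ^ (s + 1) ≤ 2 ^ F (S' j0) *
        |((b.map (Int.cast : ℤ → ℝ) * UT n (n + 1) x).submatrix id S').det| := by
  set A := b.map (Int.cast : ℤ → ℝ) with hA
  let G : Matrix (Fin (s + 1)) (Fin (n + 1)) ℝ :=
    Matrix.of fun i j => (2 : ℝ) ^ (F j - F (j + 1)) * (A * UT n (n + 1) x) i j
  have hG : ∀ z j, (z ᵥ* G) j = 2 ^ (F j - F (j + 1)) * ((z ᵥ* A) ᵥ* UT n (n + 1) x) j := by
    intro z j
    rw [vecMul_vecMul]
    simp only [G, vecMul, dotProduct, of_apply, mul_sum]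
    exact sum_congr rfl fun _ _ => by ring
  have hdet : (A.submatrix id S).det ≠ 0 := by
    have h1 : A.submatrix id S = (b.submatrix id S).map (Int.cast : ℤ → ℝ) := rfl
    rw [h1, ← Int.cast_det]
    exact_mod_cast hS
  obtain ⟨S0, hS0⟩ := exists_minor G (Fintype.linearIndependent_iff.2 fun z hz => by
    have h1 : z ᵥ* A = 0 := UT_inj _ x fun j => by
      have h2 : (z ᵥ* G) j = 0 := by simpa [vecMul, dotProduct] using congrFun hz j
      rw [hG] at h2
      exact (mul_eq_zero.1 h2).resolve_left (by positivity)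
    by_contra h2
    exact hdet (exists_vecMul_eq_zero_iff.1 ⟨z, fun h => h2 (congrFun h),
      funext fun i => congrFun h1 (S i)⟩))
  obtain ⟨S', h⟩ := mink G S0 hS0 (2 ^ X) (by positivity) fun z hz => by
    have h1 : (fun i => (z i : ℝ)) ᵥ* A = fun i => ((z ᵥ* b) i : ℝ) := by
      funext i
      simp [hA, vecMul, dotProduct]
    have hv0 : z ᵥ* b ≠ 0 := fun h0 =>
      hS (exists_vecMul_eq_zero_iff.1 ⟨z, hz, funext fun i => congrFun h0 (S i)⟩)
    obtain ⟨l, hl, h2⟩ := hP (toP (z ᵥ* b)) (fun h0 => hv0 (funext fun i => by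
      rw [← toP_coeff (z ᵥ* b) i, h0]; rfl)) (toP_natDegree _)
    refine ⟨⟨l, by omega⟩, ?_⟩
    rw [hG, h1, UT_int, abs_mul, abs_of_pos (by positivity)]
    refine le_trans ?_ h2
    have h3 : s + 1 ≤ n + 1 := by simpa using Fintype.card_le_of_injective S (inj_of_det hS)
    rw [pow_add, mul_comm]
    exact mul_le_mul_of_nonneg_left ((by exact_mod_cast h3 : ((s + 1 : ℕ) : ℝ) ≤ n + 1).trans
      (nat_succ_le_two_pow n)) (by positivity)
  obtain ⟨j0, -, hj0⟩ := exists_min_image univ (fun j => (S' j : ℕ)) univ_nonempty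
  refine ⟨S', j0, h.trans ?_⟩
  have h1 : G.submatrix id S' = Matrix.of fun i j => (2 : ℝ) ^ (F (S' j) - F (S' j + 1)) *
      ((A * UT n (n + 1) x).submatrix id S') i j := rfl
  have h2 := inj_of_det (abs_pos.1 (lt_of_lt_of_le (by positivity) h))
  rw [h1, det_mul_row, abs_mul, prod_pow_eq_pow_sum, abs_of_pos (by positivity)]
  exact mul_le_mul_of_nonneg_right (pow_le_pow_right₀ (by norm_num)
    (sum_tele_le F hF S' h2 _ fun j => hj0 j (mem_univ _))) (abs_nonneg _)

open Classical in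
/-- Few cells next to a point with weighted lower bounds contain a bad point. -/
lemma app3 (n : ℕ) : ∃ c : ℕ, ∀ (x σ : ℝ) (F : ℕ → ℕ) (ρ L k X u Lc : ℕ), |x| ≤ 2 → 0 < σ →
    σ ≤ tw (k + L) → 2 ^ Lc * σ = 2 * tw ρ → (∀ l, F (l + 1) ≤ F l) →
    (∀ P : ℤ[X], P ≠ 0 → P.natDegree ≤ n → ∃ l ≤ n,
      (2 : ℝ) ^ X ≤ 2 ^ (F l - F (l + 1)) * |aeval x (hasseDeriv l P)|) →
    L + ((n + 1) * n + 1) * u + c ≤ X → (∀ l ≤ n, F l = 0 ∨ F l + ρ * l + c ≤ k + L) →
    (((range (2 ^ Lc)).filter fun j => ∃ y ∈ cell x σ j, |y| ≤ 2 ∧ ¬ Low n L k y).card : ℝ)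
      ≤ (n + 1) * tw u * 2 ^ Lc := by
  obtain ⟨cw, hw1, -⟩ := wr_low' n
  refine ⟨EE (n + 1) n + 5 * n + 1 + cw, fun x σ F ρ L k X u Lc hx hσ hσ2 hb hF hP hX hk => ?_⟩
  set l := u * ((n + 1) * n + 1) + EE (n + 1) n + (4 * n + 1) with hl
  have b0 := tw_pos l
  have b1 := tw_pos L
  have r0 := tw_pos ρ
  have key := km (n + 1) n (fun y => tw l • H3 n x (tw L) (2 ^ k) y)
    (by
      rintro i (_ | j)
      · exact ⟨C (tw l * 2 ^ k) * Polynomial.X ^ (i : ℕ), (natDegree_C_mul_X_pow_le _ _).trans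
          (Nat.lt_succ_iff.1 i.2), fun y => by simp [H3, mul_assoc]⟩
      · exact ⟨C ((tw l • H3 n x (tw L) (2 ^ k) 0) i (some j)),
          (natDegree_C _).trans_le (Nat.zero_le _),
          fun y => by rw [eval_C]; rfl⟩) x σ hσ Lc u
    (by
      rintro r b ⟨S, hS⟩
      have hblk : blk x σ 0 Lc = Set.Icc x (x + 2 * tw ρ) := by simp [blk, hb]
      rw [hblk]
      rcases r with _ | s
      · exact ⟨x, ⟨le_rfl, by linarith⟩, Fin.elim0, by simp⟩
      obtain ⟨S', j0, h⟩ := mink_T n x F (L + l) hF (fun P p1 p2 => (hP P p1 p2).imp fun i hi =>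
        ⟨hi.1, le_trans (pow_le_pow_right₀ (by norm_num) (by rw [hl]; nlinarith)) hi.2⟩) b S hS
      set A := b.map (Int.cast : ℤ → ℝ) with hA
      set G := A * UT n (n + 1) x with hG
      set M := G.submatrix id S' with hM
      have fin : ∀ Y : ℝ, 2 ^ F (S' j0) * |M.det| ≤ Y → 1 ≤ tw l ^ (s + 1) * (tw L ^ (s + 1) * Y) := by
        intro Y hY
        calc (1 : ℝ) = (2 ^ (L + l) * tw (L + l)) ^ (s + 1) := by rw [two_pow_mul_tw, one_pow]
          _ = tw l ^ (s + 1) * (tw L ^ (s + 1) * (2 ^ (L + l)) ^ (s + 1)) := by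
            rw [tw_add, mul_pow, mul_pow]; ring
          _ ≤ _ := by gcongr; exact h.trans hY
      have hsm : ∀ y i j, (A * H3 n x (tw L) (2 ^ k) y) i (some j) = tw L * G i j :=
        fun y i j => H3_some x _ _ y (A i) j
      rcases hk (S' j0) (Nat.lt_succ_iff.1 (S' j0).2) with h0 | h0
      · refine ⟨x, ⟨le_rfl, by linarith⟩, some ∘ S', ?_⟩
        have h1 : (A * H3 n x (tw L) (2 ^ k) x).submatrix id (some ∘ S') = tw L • M := by
          ext i j
          exact hsm x i (S' j)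
        rw [det_smul_sub, h1, det_smul, Fintype.card_fin, abs_mul, abs_mul,
          abs_of_pos (by positivity), abs_of_pos (by positivity)]
        exact fin _ (by rw [h0, pow_zero, one_mul])
      obtain ⟨β, c1, c2⟩ := hw1 1 (by omega) (Matrix.of fun _ i =>
        cramer M (G.col i) j0 * (-(2 * tw ρ)) ^ (i : ℕ)) fun _ => S' j0
      refine ⟨x + -(2 * tw ρ) * β, ⟨by nlinarith [c1.2], by nlinarith [c1.1]⟩,
        Function.update (some ∘ S') j0 none, ?_⟩
      have h1 : (A * H3 n x (tw L) (2 ^ k) (x + -(2 * tw ρ) * β)).submatrix id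
          (Function.update (some ∘ S') j0 none) = tw L • M.updateCol j0 ((2 : ℝ) ^ (k + L) •
            ∑ i : Fin (n + 1), (-(2 * tw ρ) * β) ^ (i : ℕ) • G.col i) := by
        ext i j
        by_cases hj : j = j0
        · subst hj
          have h2 := H3_none x (tw L) (2 ^ k) (x + -(2 * tw ρ) * β) (A i)
          rw [UT_val] at h2
          simp only [submatrix_apply, Function.update_self, id, Matrix.smul_apply, updateCol_self,
            Pi.smul_apply, smul_eq_mul, Finset.sum_apply]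
          refine h2.trans ?_
          rw [← mul_assoc, pow_add, mul_left_comm, mul_comm (tw L), two_pow_mul_tw, mul_one]
          congr 1
          exact sum_congr rfl fun _ _ => mul_comm _ _
        · simp only [submatrix_apply, Function.update_of_ne hj, id, Matrix.smul_apply,
            updateCol_ne hj, smul_eq_mul]
          exact hsm _ i (S' j)
      have h2 : cramer M (G.col (S' j0)) j0 = M.det := by
        rw [cramer_apply]
        congr 1
        exact updateCol_eq_self M j0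
      rw [det_unique, det_unique] at c2
      simp only [submatrix_apply, of_apply, h2, Matrix.mul_apply, UT, Fin.default_eq_zero,
        Fin.val_zero, Nat.choose_zero_right, Nat.cast_one, one_mul, Nat.sub_zero] at c2
      rw [det_smul_sub, h1, det_smul, Fintype.card_fin, ← cramer_apply, map_smul, map_sum,
        abs_mul, abs_mul, abs_of_pos (by positivity), abs_of_pos (by positivity)]
      refine fin _ ?_
      simp only [map_smul, Pi.smul_apply, Finset.sum_apply, smul_eq_mul]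
      rw [abs_mul, abs_of_pos (by positivity : (0 : ℝ) < 2 ^ (k + L)),
        sum_congr rfl fun (i : Fin (n + 1)) _ => show (-(2 * tw ρ) * β) ^ (i : ℕ) *
          cramer M (G.col i) j0 = cramer M (G.col i) j0 * (-(2 * tw ρ)) ^ (i : ℕ) * β ^ (i : ℕ) by
            rw [mul_pow]; ring]
      refine le_trans ?_ (mul_le_mul_of_nonneg_left c2 (by positivity))
      rw [abs_mul, abs_pow, abs_neg, abs_of_pos (by positivity : 0 < 2 * tw ρ)]
      have h3 : tw (ρ * S' j0) ≤ (2 * tw ρ) ^ (S' j0 : ℕ) := by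
        rw [tw_mul]; exact pow_le_pow_left₀ r0.le (by linarith) _
      have h4 : (2 : ℝ) ^ F (S' j0) ≤ 2 ^ (k + L) * (tw cw * tw (ρ * S' j0)) := by
        rw [← tw_add, ← mul_one ((2 : ℝ) ^ F (S' j0)), ← two_pow_mul_tw (cw + ρ * S' j0),
          ← mul_assoc, ← pow_add]
        exact mul_le_mul_of_nonneg_right (pow_le_pow_right₀ (by norm_num) (by omega)) (tw_pos _).le
      have h5 := tw_pos cw
      calc (2 : ℝ) ^ F (S' j0) * |M.det| ≤ 2 ^ (k + L) * (tw cw * tw (ρ * S' j0)) * |M.det| := by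
            gcongr
        _ ≤ 2 ^ (k + L) * (tw cw * (2 * tw ρ) ^ (S' j0 : ℕ)) * |M.det| := by gcongr
        _ = _ := by ring)
  push_cast at key
  refine le_trans (Nat.cast_le.2 (card_le_card fun j hj => ?_)) key
  obtain ⟨a1, y, a2, a3, a4⟩ := mem_filter.1 hj
  unfold Low at a4
  push Not at a4
  obtain ⟨P, hP0, hP, a5⟩ := a4
  refine mem_filter.2 ⟨a1, fun i => P.coeff i, fun h0 => hP0 (by rw [← toP_of P hP.1, h0]; simp [toP]),
    fun z hz c => ?_⟩
  rw [vecMul_smul, Pi.smul_apply, smul_eq_mul, abs_mul, abs_of_pos b0]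
  refine le_trans (mul_le_mul_of_nonneg_left (c := 2 ^ (4 * n + 1)) ?_ b0.le)
    (by rw [mul_comm (tw l)]; exact two_pow_mul_tw_le (by omega))
  have b2 : (1 : ℝ) ≤ 2 ^ (4 * n) := one_le_pow₀ (by norm_num)
  rcases c with _ | i
  · have b3 : |z - y| ≤ σ := by
      rw [abs_le]; constructor <;> linarith [hz.1, hz.2, a2.1, a2.2]
    have b4 := aeval_lip n L P hP y (z - y) a3 (b3.trans (hσ2.trans (tw_le_one _)))
    have b5 : (2 : ℝ) ^ (4 * n + L) * |z - y| ≤ 2 ^ (4 * n) * tw k := by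
      rw [← two_pow_mul_tw_add L k, ← mul_assoc, ← pow_add, add_comm L]
      exact mul_le_mul_of_nonneg_left (b3.trans hσ2) (by positivity)
    rw [add_sub_cancel] at b4
    have b6 := abs_sub_abs_le_abs_sub (aeval z P) (aeval y P)
    have b7 : |aeval z P| ≤ 2 ^ (4 * n + 1) * tw k := by
      have := tw_pos k
      rw [pow_succ]; nlinarith
    rw [H3_none, ← aeval_toP, toP_of P hP.1, abs_mul, abs_of_pos (by positivity)]
    refine (mul_le_mul_of_nonneg_left b7 (by positivity)).trans (le_of_eq ?_)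
    rw [mul_left_comm, two_pow_mul_tw, mul_one]
  · rw [H3_some, UT_int, toP_of P hP.1, ← taylor_map_coeff, abs_mul, abs_of_pos b1]
    refine (mul_le_mul_of_nonneg_left (taylor_coeff_bound _ n (2 ^ L) x
      (natDegree_map_le.trans hP.1) (fun e => by simpa using hP.2 e) hx i) b1.le).trans ?_
    rw [mul_left_comm, mul_comm (tw L), two_pow_mul_tw, mul_one]
    exact pow_le_pow_right₀ (by norm_num) (by omega)

end Pool.Agent.MP_b86f6c_nt
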