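import Pool.Agent.MP_b86f6c_nt.KnA

set_option autoImplicit false

namespace Pool.Agent.MP_b86f6c_nt

open Polynomial Finset

lemma prod_tw (b : ℕ → ℕ) (r : ℕ) : ∏ i ∈ range r, tw (b i) = tw (∑ i ∈ range r, b i) := by
  induction r with
  | zero => simp
  | succ r ih => rw [prod_range_succ, sum_range_succ, ih, tw_add]

open Classical Matrix in
/-- Few cells of the dual parameter have a short weighted Taylor vector. -/
lemma app4 (n : ℕ) : ∃ c : ℕ, ∀ (cF : ℕ → ℕ) (t L X u : ℕ),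
    (∀ r ≤ n + 1, ∑ i ∈ range r, (2 * t * i + L) ≤ ∑ i ∈ range r, (cF i + n * t)) →
    X + ((n + 1) * n + 1) * u + c ≤ L →
    (((range (2 ^ (2 * t))).filter fun j => ∃ Q : ℤ[X], Q ≠ 0 ∧ Q.natDegree ≤ n ∧
      ∀ z ∈ cell (-1) (tw (2 * t)) j, ∀ i ≤ n, 2 ^ (cF i + n * t) * |aeval z (hasseDeriv i Q)| ≤
        2 ^ (3 * n + (2 * t * i + X))).card : ℝ) ≤ (n + 1) * tw u * 2 ^ (2 * t) := by
  obtain ⟨cw, hw1, -⟩ := wr_low' n
  refine ⟨EE (n + 1) n + 3 * n + cw, fun cF t L X u hs hX => ?_⟩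
  let W : ℕ → ℝ := fun i => 2 ^ (cF i + n * t) * tw (2 * t * i + L)
  have hW : ∀ i, 0 < W i := fun i => mul_pos (by positivity) (tw_pos _)
  have key := km (n + 1) n (fun β => (2 : ℝ) ^ cw •
      Matrix.of fun l (i : Fin (n + 1)) => W i * UT n (n + 1) β l i)
    (fun l i => ⟨C (2 ^ cw * (W i * ((l : ℕ).choose i : ℝ))) * Polynomial.X ^ ((l : ℕ) - i),
      (natDegree_C_mul_X_pow_le _ _).trans (by have := l.2; omega),
      fun y => by simp [UT, mul_assoc]⟩) (-1) (tw (2 * t)) (tw_pos _) (2 * t) u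
    (by
      rintro r b ⟨S, hS⟩
      have hblk : blk (-1) (tw (2 * t)) 0 (2 * t) = Set.Icc (-1) 0 := by
        simp [blk, two_pow_mul_tw]
      rw [hblk]
      rcases r with _ | s
      · exact ⟨0, by norm_num, Fin.elim0, by simp⟩
      have hs' : s + 1 ≤ n + 1 := by simpa using Fintype.card_le_of_injective S (inj_of_det hS)
      set A := b.map (Int.cast : ℤ → ℝ) with hA
      obtain ⟨β, b1, b2⟩ := hw1 (s + 1) hs' A S
      refine ⟨β, b1, Fin.castLE hs', ?_⟩
      have h2 : (A * Matrix.of fun l (i : Fin (n + 1)) => W i * UT n (n + 1) β l i).submatrix id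
          (Fin.castLE hs') = Matrix.of fun i (j : Fin (s + 1)) => W j * (A * UT n (s + 1) β) i j := by
        ext i j
        simp [UT, Matrix.mul_apply, mul_sum, mul_left_comm]
      have h3 : (1 : ℝ) ≤ |(A.submatrix id S).det| := by
        have h1 : A.submatrix id S = (b.submatrix id S).map (Int.cast : ℤ → ℝ) := rfl
        rw [h1, ← Int.cast_det, ← Int.cast_abs]
        exact_mod_cast Int.one_le_abs hS
      have h4 : (1 : ℝ) ≤ ∏ j : Fin (s + 1), W j := by
        rw [Fin.prod_univ_eq_prod_range W, prod_mul_distrib, prod_pow_eq_pow_sum, prod_tw,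
          ← two_pow_mul_tw (∑ i ∈ range (s + 1), (2 * t * i + L))]
        exact mul_le_mul_of_nonneg_right (pow_le_pow_right₀ (by norm_num) (hs _ hs')) (tw_pos _).le
      have h5 : (2 : ℝ) ^ cw ≤ (2 ^ cw) ^ (s + 1) :=
        le_self_pow₀ (one_le_pow₀ (by norm_num)) (by omega)
      have h6 := tw_pos cw
      rw [det_smul_sub, abs_mul, abs_of_pos (by positivity), h2, det_mul_row, abs_mul,
        abs_of_pos (by linarith)]
      calc (1 : ℝ) = 2 ^ cw * (1 * (tw cw * 1)) := by rw [one_mul, mul_one, two_pow_mul_tw]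
        _ ≤ _ := by gcongr; exact (mul_le_mul_of_nonneg_left h3 h6.le).trans' (by simp) |>.trans b2)
  push_cast at key
  refine le_trans (Nat.cast_le.2 (card_le_card fun j hj => ?_)) key
  obtain ⟨a1, P, hP0, hP, a5⟩ := mem_filter.1 hj
  refine mem_filter.2 ⟨a1, fun i => P.coeff i, fun h0 => hP0 (by rw [← toP_of P hP, h0]; simp [toP]),
    fun z hz i => ?_⟩
  have b1 : ((fun l : Fin (n + 1) => (P.coeff l : ℝ)) ᵥ*
      Matrix.of fun l (i : Fin (n + 1)) => W i * UT n (n + 1) z l i) i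
      = tw (2 * t * i + L) * (2 ^ (cF i + n * t) * aeval z (hasseDeriv i P)) := by
    conv_rhs => rw [← toP_of P hP, ← UT_int]
    simp only [W, vecMul, dotProduct, of_apply, mul_sum]
    exact sum_congr rfl fun _ _ => by ring
  have b3 := tw_pos (2 * t * i + L)
  rw [vecMul_smul, Pi.smul_apply, smul_eq_mul, b1, abs_mul, abs_mul, abs_mul,
    abs_of_pos b3, abs_of_pos (by positivity), abs_of_pos (by positivity)]
  refine (mul_le_mul_of_nonneg_left (mul_le_mul_of_nonneg_left (a5 z hz i (Nat.lt_succ_iff.1 i.2))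
    b3.le) (by positivity)).trans ?_
  rw [mul_comm (tw _), ← mul_assoc, ← pow_add]
  exact two_pow_mul_tw_le (by nlinarith)

lemma Tri.rat {t : ℕ} {g a b d : ℤ} (h : Tri t g a b d) (n X : ℕ) (c : ℕ → ℕ) (hc : Antitone c)
    (P : ℤ[X]) (hP0 : P ≠ 0) (hP : P.natDegree ≤ n)
    (hs : ∀ l ≤ n, 2 ^ c l * |aeval ((a : ℝ) / g) (hasseDeriv l P)| ≤ 2 ^ X) :
    ∃ Q : ℤ[X], Q ≠ 0 ∧ Q.natDegree ≤ n ∧ ∀ z : ℝ, |z + d / g| ≤ tw (2 * t) → ∀ i ≤ n,
      2 ^ (c (n - i) + n * t) * |aeval z (hasseDeriv i Q)| ≤ 2 ^ (3 * n + (2 * t * i + X)) := by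
  obtain ⟨a1, a2, a3, a4, a5, a6, a7, a8, a9⟩ := h.real
  have b0 : (0 : ℝ) < g := by linarith
  obtain ⟨Q, q1, q2, q3, -⟩ := Pool.Agent.MP_b86f6c_nt.mob n (ht P) a b g d h.2.2.1
    (by exact_mod_cast b0.ne') P (Bd_of_ht hP (Nat.lt_two_pow_self).le)
  refine ⟨Q, q2 hP0, q1, fun z hz i hi => ?_⟩
  have c0 := tw_pos t
  have c1 := two_pow_mul_tw t
  have c3 : |g * z + d| ≤ 2 * tw t := by
    rw [show g * z + d = g * (z + d / g) by field_simp, abs_mul, abs_of_pos b0]
    refine (mul_le_mul a2 hz (abs_nonneg _) (by positivity)).trans (le_of_eq ?_)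
    rw [two_mul t, tw_add]
    linear_combination 2 * tw t * c1
  have c2 : |(g : ℝ)| ≤ 2 * tw t * 2 ^ (2 * t) := by
    rw [abs_of_pos b0]
    exact a2.trans (le_of_eq (by linear_combination -2 * 2 ^ t * c1))
  have h5 : taylor z (Q.map (algebraMap ℤ ℝ)) = ∑ l ∈ range (n + 1),
      C (aeval ((a : ℝ) / g) (hasseDeriv l P) * (-1 / g) ^ l) *
        (C (g : ℝ) * Polynomial.X + C (g * z + d)) ^ (n - l) := by
    refine eq_of_infinite_eval_eq _ _ ((Set.finite_singleton (-(d / g + z))).infinite_compl.mono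
      fun s hs => ?_)
    have e1 : g * (s + z) + d ≠ 0 := fun e => hs (by
      rw [Set.mem_singleton_iff, eq_neg_iff_add_eq_zero, ← mul_eq_zero_iff_left b0.ne', ← e]
      field_simp
      ring)
    have e2 : (a * (s + z) + b) / (g * (s + z) + d) = -1 / g / (g * (s + z) + d) + a / g := by
      rw [div_add' _ _ _ e1]
      congr 1
      field_simp
      linear_combination -a3
    rw [Set.mem_ofPred_eq, taylor_eval, eval_map_algebraMap, q3 _ e1, e2, ← eval_map_algebraMap,
      ← taylor_eval, eval_eq_sum_range' (n := n + 1) (by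
        rw [natDegree_taylor]; exact Nat.lt_succ_of_le (natDegree_map_le.trans hP)),
      eval_finsetSum, mul_sum]
    refine sum_congr rfl fun l hl => ?_
    obtain ⟨e, he⟩ := Nat.exists_eq_add_of_le (Nat.lt_succ_iff.1 (mem_range.1 hl))
    simp only [eval_mul, eval_pow, eval_add, eval_C, eval_X, taylor_map_coeff]
    rw [he, Nat.add_sub_cancel_left, pow_add, div_pow _ (g * (s + z) + d),
      show g * s + (g * z + d) = g * (s + z) + d by ring]
    have h7 := mul_div_cancel₀ ((-1 / g : ℝ) ^ l) (pow_ne_zero l e1)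
    generalize (-1 / g : ℝ) ^ l / (g * (s + z) + d) ^ l = r at h7 ⊢
    rw [← h7]; ring
  rw [← taylor_map_coeff, h5, finsetSum_coeff]
  refine (mul_le_mul_of_nonneg_left (abs_sum_le_sum_abs _ _) (by positivity)).trans ?_
  rw [mul_sum]
  refine (sum_le_card_nsmul _ _ (2 ^ (2 * n + (2 * t * i + X))) fun l hl => ?_).trans ?_
  · have hl' := Nat.lt_succ_iff.1 (mem_range.1 hl)
    by_cases hil : n - l < i
    · rw [coeff_eq_zero_of_natDegree_lt (lt_of_le_of_lt ((natDegree_C_mul_le _ _).trans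
        (natDegree_pow_le.trans ((Nat.mul_le_mul_left _ natDegree_linear_le).trans (by simp)))) hil)]
      simp
    have h6 := wb_pow (2 * tw t) (2 ^ (2 * t)) g (g * z + d) (by positivity) c2 c3
      (C (aeval ((a : ℝ) / g) (hasseDeriv l P) * (-1 / g) ^ l))
      (|aeval ((a : ℝ) / g) (hasseDeriv l P)| * tw t ^ l) (fun j => by
        rw [coeff_C]
        split_ifs with h
        · subst h
          rw [pow_zero, mul_one, abs_mul, abs_pow, abs_div, abs_neg, abs_one, abs_of_pos b0]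
          gcongr
          rw [div_le_iff₀ b0]
          nlinarith
        · rw [abs_zero]; positivity) (n - l) i
    have h7 : (2 : ℝ) ^ c (n - i) ≤ 2 ^ c l := pow_le_pow_right₀ (by norm_num) (hc (by omega))
    obtain ⟨e, he⟩ := Nat.exists_eq_add_of_le hl'
    have h8 : (2 : ℝ) ^ (2 * e) ≤ 2 ^ (2 * n) := pow_le_pow_right₀ (by norm_num) (by omega)
    refine (mul_le_mul_of_nonneg_left h6 (by positivity)).trans ?_
    calc (2 : ℝ) ^ (c (n - i) + n * t) * (|aeval ((a : ℝ) / g) (hasseDeriv l P)| * tw t ^ l *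
          (2 * (2 * tw t)) ^ (n - l) * (2 ^ (2 * t)) ^ i)
        = (2 ^ t * tw t) ^ n * (2 ^ (2 * e) * (2 ^ (2 * t * i) *
          (2 ^ c (n - i) * |aeval ((a : ℝ) / g) (hasseDeriv l P)|))) := by
          rw [show n - l = e by omega]
          generalize c (n - i) = y
          rw [he, pow_mul 2 2 e, mul_pow, mul_pow, show (2 : ℝ) ^ 2 = 2 * 2 by norm_num, mul_pow,
            mul_pow]
          ring
      _ ≤ 1 * (2 ^ (2 * n) * (2 ^ (2 * t * i) * 2 ^ X)) := by
          rw [c1, one_pow]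
          gcongr
          exact (mul_le_mul_of_nonneg_right h7 (abs_nonneg _)).trans (hs l hl')
      _ = _ := by ring
  · rw [card_range, nsmul_eq_mul, show 3 * n + (2 * t * i + X) = n + (2 * n + (2 * t * i + X)) by ring,
      pow_add (2 : ℝ) n]
    push_cast
    exact mul_le_mul_of_nonneg_right (nat_succ_le_two_pow n) (by positivity)

/-- The weights at a rational centre. -/
def FF (n t L l : ℕ) : ℕ := (n + 1 - l) * (L - l * t)

lemma FF_anti (n t L l : ℕ) : FF n t L (l + 1) ≤ FF n t L l :=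
  Nat.mul_le_mul (by omega) (Nat.sub_le_sub_left (Nat.mul_le_mul_right _ (by omega)) _)

lemma FF_conv (n t L : ℕ) : Antitone fun l => FF n t L l - FF n t L (l + 1) := by
  refine antitone_nat_of_succ_le fun l => ?_
  have h1 := FF_anti n t L l
  have h2 := FF_anti n t L (l + 1)
  by_cases h : n ≤ l
  · have : FF n t L (l + 1) = 0 := by rw [FF, show n + 1 - (l + 1) = 0 by omega, zero_mul]
    omega
  obtain ⟨e, rfl⟩ : ∃ e, n = l + 1 + e := ⟨n - (l + 1), by omega⟩
  have h3 : 2 * FF (l + 1 + e) t L (l + 1) ≤ FF (l + 1 + e) t L l + FF (l + 1 + e) t L (l + 1 + 1) := by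
    unfold FF
    rw [show l + 1 + e + 1 - (l + 1) = e + 1 by omega, show l + 1 + e + 1 - l = e + 2 by omega,
      show l + 1 + e + 1 - (l + 1 + 1) = e by omega, add_mul (l + 1), add_mul l, one_mul]
    generalize l * t = s
    have b1 : 2 * (L - (s + t)) ≤ L - s + (L - (s + t + t)) := by omega
    have b2 : L - (s + t) ≤ L - s := by omega
    nlinarith [Nat.mul_le_mul_left e b1]
  omega

lemma FF_sum (n t L r : ℕ) (hr : r ≤ n + 1) : ∑ i ∈ range r, (2 * t * i + L) ≤
    ∑ i ∈ range r, (FF n t L (n - i) - FF n t L (n - i + 1) + n * t) := by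
  have h1 : ∑ i ∈ range r, (FF n t L (n - i) - FF n t L (n - i + 1)) = FF n t L (n + 1 - r) := by
    induction r with
    | zero => simp [FF]
    | succ r ih =>
      rw [sum_range_succ, ih (by omega), show n + 1 - (r + 1) = n - r by omega,
        show n + 1 - r = n - r + 1 by omega]
      have := FF_anti n t L (n - r)
      omega
  rw [sum_add_distrib, sum_add_distrib, h1, ← mul_sum, sum_const, sum_const, card_range, smul_eq_mul,
    smul_eq_mul, mul_comm 2 t, mul_assoc, mul_comm 2, sum_range_id_mul_two, FF,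
    show n + 1 - (n + 1 - r) = r by omega]
  rcases r with _ | r
  · simp
  obtain ⟨e, rfl⟩ := Nat.exists_eq_add_of_le (Nat.le_of_succ_le_succ hr)
  rw [show r + e + 1 - (r + 1) = e by omega, Nat.add_sub_cancel]
  have b1 : L ≤ L - e * t + e * t := by omega
  nlinarith [Nat.mul_le_mul_left (r + 1) b1]

/-- A short weighted Taylor vector at a rational point. -/
def BadR (t n L X : ℕ) (g a : ℤ) : Prop := ∃ P : ℤ[X], P ≠ 0 ∧ P.natDegree ≤ n ∧ ∀ l ≤ n,
  2 ^ (FF n t L l - FF n t L (l + 1)) * |aeval ((a : ℝ) / g) (hasseDeriv l P)| < 2 ^ X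

lemma big_rat (n : ℕ) : ∃ c : ℕ, ∀ t L X u : ℕ, X + ((n + 1) * n + 1) * u + c ≤ L →
    ∀ S : Finset (ℤ × ℤ), (∀ p ∈ S, ∃ b d, Tri t p.1 p.2 b d ∧ BadR t n L X p.1 p.2) →
    (S.card : ℝ) ≤ (n + 1) * tw u * 2 ^ (2 * t) * 5 := by
  classical
  obtain ⟨c, hc⟩ := app4 n
  refine ⟨c, fun t L X u hL S hS => ?_⟩
  have key := hc (fun i => FF n t L (n - i) - FF n t L (n - i + 1)) t L X u (FF_sum n t L) hL
  choose! b d hT hB using hS
  refine le_trans (card_le_cells S _ (fun p j => -(d p : ℝ) / p.1 ∈ cell (-1) (tw (2 * t)) j) 5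
    (fun p hp => ?_) fun j S' hS' h => ?_) (mul_le_mul_of_nonneg_right key (by norm_num))
  · obtain ⟨a1, a2, a3, a4, a5, a6, a7, a8, a9⟩ := (hT p hp).real
    have b0 : (0 : ℝ) < p.1 := by linarith
    obtain ⟨j, j1, j2⟩ := cell_index (x := -1) (y := -(d p : ℝ) / p.1) (tw_pos (2 * t)) (L := 2 * t)
      (by rw [le_div_iff₀ b0]; linarith)
      (by rw [two_pow_mul_tw, neg_add_cancel]; exact div_neg_of_neg_of_pos (by linarith) b0)
    obtain ⟨P, p1, p2, p3⟩ := hB p hp
    obtain ⟨Q, q1, q2, q5⟩ := (hT p hp).rat n X _ (FF_conv n t L) P p1 p2 fun l hl => (p3 l hl).le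
    refine ⟨j, mem_filter.2 ⟨mem_range.2 j1, Q, q1, q2, fun z hz => q5 z ?_⟩, j2⟩
    rw [neg_div] at j2
    rw [abs_le]
    constructor <;> linarith [hz.1, hz.2, j2.1, j2.2]
  · have := card_le_of_separated S' (fun p => -(d p : ℝ) / p.1) (-1 + j * tw (2 * t)) (tw (2 * t))
      (tw (2 * t + 2)) (tw_pos _) (tw_pos _).le
      (fun p hp => ⟨(h p hp).1, by linarith [(h p hp).2]⟩) fun p hp q hq hne => by
        rw [neg_div, neg_div, neg_sub_neg, abs_sub_comm]
        exact (hT p (hS' hp)).sep (hT q (hS' hq)) hne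
    refine this.trans (le_of_eq ?_)
    have h3 := tw_pos (2 * t)
    rw [tw_add, show tw 2 = 1 / 4 by unfold tw; norm_num]
    field_simp
    norm_num

end Pool.Agent.MP_b86f6c_nt
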