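import Pool.Agent.MP_b86f6c_nt.KnB

set_option autoImplicit false

namespace Pool.Agent.MP_b86f6c_nt

open Polynomial Finset

open Classical in
/-- The number of cells which contain a bad point. -/
noncomputable def nbad (n L k Lc : ℕ) (y σ : ℝ) : ℝ :=
  ((range (2 ^ Lc)).filter fun j => ∃ z ∈ cell y σ j, |z| ≤ 2 ∧ ¬ Low n L k z).card

/-- Few cells of the interval contain a bad point. -/
def Few (n0 : ℕ) (K : ℕ → ℕ → ℕ) (c0 E ρ : ℕ) (y : ℝ) : Prop :=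
  ∀ n ≤ n0, ∀ L Lc, c0 ≤ L / E → Lc + ρ = K n L + L + 1 →
    nbad n L (K n L) Lc y (tw (K n L + L)) ≤ (n + 1) * tw (L / E) * 2 ^ Lc

lemma blk_len {Lc ρ k : ℕ} (h : Lc + ρ = k + 1) : 2 ^ Lc * tw k = 2 * tw ρ := by
  rw [← tw_succ, ← h, mul_left_comm, two_pow_mul_tw_add]

lemma small_two (n L k ρ t Lc : ℕ) (g : ℤ) (y0 Y : ℝ) (pt : ℤ → ℝ) (hLc : Lc + ρ = k + L + 1)
    (ht : k + L ≤ t) (a1 : (2 : ℝ) ^ t ≤ g) (key : nbad n L k Lc y0 (tw (k + L)) ≤ Y * 2 ^ Lc)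
    (S : Finset ℤ) (hS : ∀ a ∈ S, (pt a ≤ a / g ∧ a / g ≤ pt a + tw (2 * t)) ∧ y0 ≤ pt a ∧
      pt a < y0 + 2 * tw ρ ∧ |pt a| ≤ 2 ∧ ¬ Low n L k (pt a)) :
    (S.card : ℝ) ≤ Y * (6 * tw ρ * g) := by
  classical
  have hσ := tw_pos (k + L)
  have b7 := blk_len hLc
  have g0 : (0 : ℝ) < g := lt_of_lt_of_le (by positivity) a1
  have b8 : (0 : ℝ) ≤ 3 * tw (k + L) * g := by positivity
  refine le_trans (card_le_cells S _ (fun a j => pt a ∈ cell y0 (tw (k + L)) j)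
    (3 * tw (k + L) * g) (fun a ha => ?_) fun j S' hS' h => ?_)
    ((mul_le_mul_of_nonneg_right key b8).trans (le_of_eq ?_))
  · obtain ⟨-, a1, a2, a3, a4⟩ := hS a ha
    obtain ⟨j, j1, j2⟩ := cell_index hσ (L := Lc) a1 (by rwa [b7])
    exact ⟨j, mem_filter.2 ⟨mem_range.2 j1, _, j2, a3, a4⟩, j2⟩
  · have c0 := tw_pos (2 * t)
    have := card_le_of_separated S' (fun a => (a : ℝ) / g) (y0 + j * tw (k + L))
      (tw (k + L) + tw (2 * t)) (1 / g) (by positivity) (by positivity)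
      (fun a ha => by
        obtain ⟨c1, c2⟩ := (hS a (hS' ha)).1
        constructor <;> linarith [(h a ha).1, (h a ha).2]) fun a _ a' _ hne => by
        rw [← sub_div, abs_div, abs_of_pos g0]
        exact div_le_div_of_nonneg_right (one_le_abs_sub_int hne) g0.le
    refine this.trans ?_
    have c1 : tw (2 * t) ≤ tw (k + L) := tw_anti (by omega)
    have c2 : 1 ≤ tw (k + L) * g := by
      rw [← two_pow_mul_tw t, mul_comm]
      exact mul_le_mul (tw_anti ht) a1 (by positivity) hσ.le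
    rw [div_div_eq_mul_div, div_one]
    nlinarith
  · linear_combination Y * 3 * (g : ℝ) * b7

lemma centre_gen (n0 A c0 E E' j ρ t0 c2 : ℕ) (K : ℕ → ℕ → ℕ) (y0 : ℝ) (pt : ℤ → ℤ → ℤ → ℤ → ℝ)
    (B : ℕ → ℕ → ℕ → ℤ → ℤ → ℤ → ℤ → Prop) (hlev : ∀ n ≤ n0, ∀ L, K n L + L ≤ (A + 2) * L)
    (hpt : ∀ t g a b d, Tri t g a b d → pt g a b d ≤ a / g ∧ a / g ≤ pt g a b d + tw (2 * t))
    (hc2 : ∀ t, ∀ n ≤ n0, ∀ L, c2 ≤ L / E → ∀ S : Finset (ℤ × ℤ), (∀ p ∈ S, ∃ b d,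
      Tri t p.1 p.2 b d ∧ B t n L p.1 p.2 b d) → (S.card : ℝ) ≤ (n + 1) * tw (L / E) * 2 ^ (2 * t) * 5)
    (hE' : 1 ≤ E') (hE : 1 ≤ E) (hρ : (A + 2) * (E' * (c0 + (2 * n0 + 8) + E')) ≤ ρ) (hy0 : 0 ≤ y0)
    (hy1 : y0 + 2 * tw ρ ≤ 1) :
    ∃ (t g : ℕ) (a b d : ℤ), t0 ≤ t ∧ Tri t g a b d ∧ y0 + tw ρ ≤ pt g a b d ∧
      pt g a b d ≤ y0 + 7 / 4 * tw ρ ∧ (∀ n ≤ n0, ∀ L, t < 2 * (A + 2) * L → ¬ B t n L g a b d) ∧
      (Few n0 K c0 E' ρ y0 → ∀ n ≤ n0, ∀ L, ρ ≤ K n L + L → 2 * (A + 2) * L ≤ t →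
        Low n L (K n L) (pt g a b d)) ∧
      ∀ n ≤ j, ∀ l, ρ < UV n * l → (n + 1) * (l + 2) ≤ t / 2 + 1 → ∀ P : ℤ[X], P ≠ 0 → Bd n l P →
        ∀ β ∈ rts P, tw (VV n * l) + tw (t + 1 + 1) ≤ |pt g a b d - β| := by
  classical
  set u0 := c0 + (2 * n0 + 8) + E' with hu0
  set J := 2 * (A + 2) * E with hJ
  have hK1 : 1 ≤ J := Nat.mul_pos (by omega) (by omega)
  obtain ⟨t1, ht1⟩ := growth3 (2560 * (n0 + 1) ^ 2 * E * 2 ^ ρ) J hK1
  obtain ⟨t2, ht2⟩ := growth3 ((j + 3) * 2 ^ (j + ρ + 10)) 4 (by norm_num)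
  obtain ⟨t, ht, hπ⟩ := many_primes (t0 + t1 + t2 + c2 * J + (ρ + 2))
  set G := (Ioc (2 ^ t) (2 ^ (t + 1))).filter Nat.Prime with hG
  have r0 := tw_pos ρ
  obtain ⟨g, hg, hg3⟩ := pigeon G (card_pos.1 (Nat.pos_of_mul_pos_left
    (lt_of_lt_of_le (by positivity) hπ))) (fun p => ∃ n ≤ n0, ∃ L, t / J ≤ L / E ∧ ∃ b d,
      Tri t p.1 p.2 b d ∧ B t n L p.1 p.2 b d)
    (tw ρ * 2 ^ t / 16) fun S hS => by
      refine (card_levels S n0 E (t / J) (by omega) _ (2 ^ (2 * t) * 5) (by positivity) hS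
        fun n hn L hL S' hS' => ?_).trans ?_
      · rw [← mul_assoc]
        exact hc2 t n hn L (le_trans ((Nat.le_div_iff_mul_le hK1).2 (by omega)) hL) S' hS'
      · have b1 : (2560 * (n0 + 1) ^ 2 * E * (t + 3) ^ 2 : ℝ) * tw (t / J) ≤ tw ρ := by
          refine mul_tw_le (le_trans ?_ (by exact_mod_cast ht1 t (by omega) :
            (2560 * (n0 + 1) ^ 2 * E * 2 ^ ρ * (t + 3) ^ 3 : ℝ) ≤ 2 ^ (t / J)))
          rw [mul_right_comm]
          gcongr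
          · linarith [Nat.cast_nonneg (α := ℝ) t]
          · norm_num
        have b2 : (2 : ℝ) ^ t ≤ 16 * (t + 3) ^ 2 * G.card := by exact_mod_cast hπ
        have b3 := tw_pos (t / J)
        calc ((n0 : ℝ) + 1) * (E * (2 * tw (t / J)) * ((n0 + 1) * (2 ^ (2 * t) * 5)))
            = 10 * (n0 + 1) ^ 2 * E * tw (t / J) * 2 ^ t * 2 ^ t := by ring
          _ ≤ 10 * (n0 + 1) ^ 2 * E * tw (t / J) * 2 ^ t * (16 * (t + 3) ^ 2 * G.card) := by gcongr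
          _ = G.card * ((2560 * (n0 + 1) ^ 2 * E * (t + 3) ^ 2) * tw (t / J) * 2 ^ t / 16) := by
            ring
          _ ≤ _ := by gcongr
  obtain ⟨hg1, hgp⟩ := mem_filter.1 hg
  obtain ⟨hg1, hg2⟩ := mem_Ioc.1 hg1
  have g1 : (2 : ℝ) ^ t ≤ g := by exact_mod_cast hg1.le
  have g0 : (0 : ℝ) < g := lt_of_lt_of_le (by positivity) g1
  have r1 : tw (2 * t) ≤ tw ρ / 4 := by
    have := two_pow_mul_tw_le (a := 2) (b := 2 * t) (c := ρ) (by omega)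
    linarith
  obtain ⟨a, a1, a2, a3, a4⟩ := exists_good_c1 rts (fun P _ => card_rts P) g (t / 2 + 1) t ρ j 0
    (by omega) hg1.le hg2 (by
      have b1 : ((j + 3) * 2 ^ (j + ρ + 10) * (t + 3) ^ 3 : ℝ) ≤ 2 ^ (t / 4) := by
        exact_mod_cast ht2 t (by omega)
      have b2 : (t : ℝ) + 1 ≤ (t + 3) ^ 3 := le_trans (by linarith) (le_self_pow₀
        (by linarith [Nat.cast_nonneg (α := ℝ) t]) (by norm_num))
      calc ((j + 3 : ℕ) : ℝ) * (t + 1) * 2 ^ (t / 2 + 1 + (j + 5) + (ρ + 4))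
          = (j + 3) * 2 ^ (j + ρ + 10) * (t + 1) * 2 ^ (t / 2) := by push_cast; ring
        _ ≤ (j + 3) * 2 ^ (j + ρ + 10) * (t + 3) ^ 3 * 2 ^ (t / 2) := by gcongr
        _ ≤ 2 ^ (t / 4) * 2 ^ (t / 2) := by gcongr
        _ ≤ 2 ^ t := by rw [← pow_add]; exact pow_le_pow_right₀ (by norm_num) (by omega))
    (y0 + tw ρ + tw ρ / 4) (fun a => (Few n0 K c0 E' ρ y0 ∧ ∃ n ≤ n0, ∃ L, u0 ≤ L / E' ∧
      ρ ≤ K n L + L ∧ 2 * (A + 2) * L ≤ t ∧ ∃ b d, Tri t g a b d ∧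
      y0 ≤ pt g a b d ∧ pt g a b d < y0 + 2 * tw ρ ∧ |pt g a b d| ≤ 2 ∧
      ¬ Low n L (K n L) (pt g a b d)) ∨ ∃ n ≤ n0, ∃ L, t / J ≤ L / E ∧ ∃ b d,
      Tri t g a b d ∧ B t n L g a b d) fun S hS => by
      have b1 := hg3 _ fun a (ha : a ∈ S.filter fun a => ∃ n ≤ n0, ∃ L, t / J ≤ L / E ∧ ∃ b d,
        Tri t g a b d ∧ B t n L g a b d) => (mem_filter.1 ha).2
      have b2 := card_filter_add_card_filter_not (s := S) fun a => ∃ n ≤ n0, ∃ L, t / J ≤ L / E ∧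
        ∃ b d, Tri t g a b d ∧ B t n L g a b d
      rw [← b2]
      push_cast
      refine (add_le_add b1 (show _ ≤ tw ρ * g / 16 from ?_)).trans
        (by linarith [mul_le_mul_of_nonneg_left g1 r0.le])
      rcases (S.filter fun a => ¬ ∃ n ≤ n0, ∃ L, t / J ≤ L / E ∧ ∃ b d, Tri t g a b d ∧
        B t n L g a b d).eq_empty_or_nonempty with h | ⟨a0, h⟩
      · rw [h, card_empty, Nat.cast_zero]; positivity
      have hA := (((hS a0 (mem_filter.1 h).1).2.2).resolve_right (mem_filter.1 h).2).1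
      refine (card_levels _ n0 E' u0 (by omega) _ (6 * tw ρ * g) (by positivity) (fun a ha =>
        (((hS a (mem_filter.1 ha).1).2.2).resolve_right (mem_filter.1 ha).2).2)
        fun n hn L hL S' hS' => ?_).trans ?_
      · rcases S'.eq_empty_or_nonempty with rfl | ⟨a1, h'⟩
        · have := tw_pos (L / E')
          rw [card_empty, Nat.cast_zero]; positivity
        have b3 := hlev n hn L
        obtain ⟨b4, b5, -⟩ := hS' a1 h'
        choose! b d hT hB using fun a ha => (hS' a ha).2.2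
        exact small_two n L (K n L) ρ t (K n L + L + 1 - ρ) g y0 _ (fun a => pt g a (b a) (d a))
          (by omega) (by linarith [Nat.zero_le ((A + 2) * L)]) g1
          (hA n hn L _ (by omega) (by omega)) S' fun a ha => ⟨hpt t g a _ _ (hT a ha), hB a ha⟩
      · have b3 : (192 * (n0 + 1) ^ 2 * E' : ℝ) * tw u0 ≤ tw 0 := by
          refine mul_tw_le ?_
          have c1 := nat_succ_le_two_pow n0
          have c2 := nat_le_two_pow E'
          calc (192 * (n0 + 1) ^ 2 * E' : ℝ) * 2 ^ 0 ≤ 2 ^ 8 * (2 ^ n0) ^ 2 * 2 ^ E' * 2 ^ 0 := by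
                gcongr; norm_num
            _ = 2 ^ (2 * n0 + 8 + E') := by ring
            _ ≤ _ := pow_le_pow_right₀ (by norm_num) (by omega)
        calc ((n0 : ℝ) + 1) * (E' * (2 * tw u0) * ((n0 + 1) * (6 * tw ρ * g)))
            = (192 * (n0 + 1) ^ 2 * E') * tw u0 * (tw ρ * g / 16) := by ring
          _ ≤ tw 0 * (tw ρ * g / 16) := by gcongr
          _ = _ := by rw [tw_zero, one_mul]
  simp only [add_zero] at a1 a2 a4
  obtain ⟨b, d, hT⟩ := exists_tri t g hgp hg1.le hg2 a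
    (by
      have : (0 : ℝ) < a := by
        rw [le_div_iff₀ g0] at a1
        exact lt_of_lt_of_le (by positivity) a1
      exact_mod_cast this)
    (by
      have : (a : ℝ) < g := by
        rw [← div_lt_one g0]; linarith
      exact_mod_cast this)
  obtain ⟨n1, n2⟩ := hpt t g a b d hT
  rw [Int.cast_natCast] at n1 n2
  push Not at a3
  refine ⟨t, g, a, b, d, by omega, hT, by linarith, by linarith, fun n hn L hL => a3.2 n hn L ?_ b d hT,
    fun hA n hn L hL1 hL2 => a3.1 hA n hn L ?_ hL1 hL2 b d hT (by linarith) (by linarith)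
      (by rw [abs_le]; constructor <;> linarith), fun n hn l l1 l2 P p1 p2 β hβ => ?_⟩
  · rw [hJ, ← Nat.div_div_eq_div_mul]
    exact Nat.div_le_div_right (Nat.div_le_of_le_mul hL.le)
  · refine (Nat.le_div_iff_mul_le (by omega)).2 (Nat.le_of_mul_le_mul_left (c := A + 2) ?_
      (by omega))
    rw [mul_comm u0]
    exact hρ.trans (hL1.trans (hlev n hn L))
  · have b1 := a4 n hn l l1 l2 P p1 p2 β hβ
    have b2 := abs_sub_le ((a : ℝ) / g) (pt g a b d) β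
    have b3 := tw_succ (t + 1)
    have b4 : tw (2 * t) ≤ tw (t + 1 + 1) := tw_anti (by omega)
    rw [abs_of_nonneg (sub_nonneg.2 n1)] at b2
    linarith

lemma few_alg (n : ℕ) : ∃ c : ℕ, ∀ (y : ℝ) (L E e f k Lc : ℕ),
    (∀ L', L ≤ L' → Low n L' (n * L' + e * (L' / E)) y) → (n + 1) * n + 2 ≤ f → f ≤ E →
    (n + 1) * f ≤ e → c ≤ L / E → n * L + 3 * e * (L / E) ≤ k →
    nbad n L k Lc y (tw (k + L)) ≤ (n + 1) * tw (L / E) * 2 ^ Lc := by
  obtain ⟨c, hc⟩ := app1 n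
  refine ⟨c, fun y L E e f k Lc hy hf hE he hu hk => ?_⟩
  set u := L / E with hu'
  have b1 : ((n + 1) * n + 1) * u + c ≤ f * u := by nlinarith [Nat.mul_le_mul_right u hf]
  have b2 := Nat.mul_le_mul_right u hE
  have b3 := Nat.mul_le_mul_right u he
  exact hc y (tw (k + L)) L k _ u Lc (tw_pos _) le_rfl (hy _ (by omega)) (by
    have b4 : (L + ((n + 1) * n + 1) * u + c) / E ≤ 2 * u :=
      div_add_le (by omega) hu'.symm (by omega)
    have b5 := Nat.mul_le_mul_left e b4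
    have b6 : n * (L + ((n + 1) * n + 1) * u + c) ≤ n * (L + f * u) :=
      Nat.mul_le_mul_left n (by omega)
    nlinarith)

lemma few_rat (n : ℕ) : ∃ c : ℕ, ∀ (w σ : ℝ) (A t L k u f ρ Lc κ e : ℕ) (g a : ℤ),
    |(a : ℝ) / g| ≤ 2 → ¬ BadR t n (L + 2 * (f * u)) (L + f * u) g a → (n + 1) * n + 2 ≤ f →
    c + (A + 3) * n ≤ u → (A + 1) * f ≤ e → n ≤ A → w ≤ A → n * L ≤ κ → w * L ≤ κ →
    (ρ : ℝ) ≤ (w + 1) * t + (A + 3) → κ + 3 * e * u ≤ k → 0 < σ → σ ≤ tw (k + L) →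
    2 ^ Lc * σ = 2 * tw ρ → nbad n L k Lc (a / g) σ ≤ (n + 1) * tw u * 2 ^ Lc := by
  obtain ⟨c, hc⟩ := app3 n
  refine ⟨c, fun w σ A t L k u f ρ Lc κ e g a hx hb hf hu he hn hw k1 k2 hρ hk s0 s1 s2 => ?_⟩
  unfold BadR at hb
  push Not at hb
  refine hc _ σ (FF n t (L + 2 * (f * u))) ρ L k (L + f * u) u Lc hx s0 s1 s2 (FF_anti _ _ _) hb
    (by nlinarith [Nat.mul_le_mul_right u hf]) fun l hl => ?_
  by_cases h : L + 2 * (f * u) ≤ l * t
  · exact Or.inl (by rw [FF, Nat.sub_eq_zero_of_le h, mul_zero])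
  right
  have b1 : (A + 1) * f * u ≤ e * u := Nat.mul_le_mul_right u he
  have b2 : u ≤ e * u := Nat.le_mul_of_pos_left _ (by nlinarith)
  suffices h1 : FF n t (L + 2 * (f * u)) l + ρ * l ≤ κ + L + (A + 1) * (2 * (f * u)) + (A + 3) * n by
    nlinarith
  obtain ⟨s, hs⟩ := Nat.exists_eq_add_of_le (not_le.1 h).le
  rw [FF, hs, Nat.add_sub_cancel_left, ← Nat.cast_le (α := ℝ)]
  generalize 2 * (f * u) = x at hs
  have c1 : (L : ℝ) + x = l * t + s := by exact_mod_cast hs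
  have c2 : ((n + 1 - l : ℕ) : ℝ) ≤ max (n : ℝ) w + 1 :=
    le_trans (b := (n : ℝ) + 1) (by exact_mod_cast (by omega : n + 1 - l ≤ n + 1))
      (by linarith [le_max_left (n : ℝ) w])
  have c3 : max (n : ℝ) w * L ≤ κ := by
    rcases max_choice (n : ℝ) w with h | h <;> rw [h]
    · exact_mod_cast k1
    · exact k2
  have c4 : max (n : ℝ) w ≤ A := max_le (by exact_mod_cast hn) hw
  have c5 := le_max_right (n : ℝ) w
  have c6 : (l : ℝ) ≤ n := by exact_mod_cast hl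
  generalize max (n : ℝ) w = W at *
  have d1 := mul_le_mul_of_nonneg_right c2 (Nat.cast_nonneg (α := ℝ) s)
  have d2 := mul_le_mul_of_nonneg_right hρ (Nat.cast_nonneg (α := ℝ) l)
  have d3 := mul_le_mul_of_nonneg_right c5 (by positivity : (0 : ℝ) ≤ l * t)
  have d4 := mul_le_mul_of_nonneg_right c4 (Nat.cast_nonneg (α := ℝ) x)
  have d5 := mul_le_mul_of_nonneg_left c6 (by positivity : (0 : ℝ) ≤ A + 3)
  have d6 : (W + 1) * (L + x) = (W + 1) * (l * t + s) := by rw [c1]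
  push_cast
  nlinarith

end Pool.Agent.MP_b86f6c_nt
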