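import Pool.Agent.MP_b86f6c_nt.KnC

set_option autoImplicit false

namespace Pool.Agent.MP_b86f6c_nt

open Polynomial Finset

/-- The exponent used at level `L`. -/
def KK (κ : ℕ → ℕ → ℕ) (e E n L : ℕ) : ℕ := κ n L + 3 * e * (L / E)

/-- One stage of the nested interval construction. -/
def Stage5 (n0 c0 e E E' : ℕ) (κ : ℕ → ℕ → ℕ) (ω : ℕ → ℝ) (j : ℕ) (Z : ℝ → Prop) (y0 : ℝ) (ρ : ℕ)
    (y1 : ℝ) (ρ1 : ℕ) : Prop :=
  2 * ρ + j ≤ ρ1 ∧ y0 + tw ρ ≤ y1 ∧ y1 + 2 * tw ρ1 ≤ y0 + 2 * tw ρ ∧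
    Few n0 (KK κ e E) c0 E ρ1 y1 ∧ ∀ x, y1 + tw ρ1 ≤ x → x ≤ y1 + 2 * tw ρ1 →
      (Few n0 (KK κ e E') c0 E' ρ y0 → ∀ n ≤ n0, ∀ L, ρ ≤ KK κ e E' n L + L →
        KK κ e E n L + L < ρ1 → Low n L (KK κ e E' n L + 1) x) ∧
      (∀ d ≤ j, 2 ≤ d → ∀ a, ρ < UV d * a → UV d * a ≤ ρ1 → Good3 (ω d) d a x) ∧ Z x

lemma KK_le {κ : ℕ → ℕ → ℕ} {A e E n L : ℕ} (h : κ n L ≤ A * L) (hE : 3 * e ≤ E) :
    KK κ e E n L + L ≤ (A + 2) * L := by
  have b1 := Nat.mul_le_mul_right (L / E) hE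
  have b2 := Nat.mul_div_le L E
  unfold KK
  linarith

lemma KK_mono (κ : ℕ → ℕ → ℕ) {e E E' : ℕ} (n L : ℕ) (h1 : 1 ≤ E') (h : E' ≤ E) :
    KK κ e E n L ≤ KK κ e E' n L :=
  Nat.add_le_add_left (Nat.mul_le_mul_left _ (Nat.div_le_div_left h h1)) _

lemma step5a (n0 : ℕ) : ∃ c : ℕ, ∀ (A c0 e E E' : ℕ) (κ : ℕ → ℕ → ℕ) (ω : ℕ → ℝ) (m j : ℕ)
    (s y0 : ℝ) (ρ : ℕ), c ≤ c0 → (∀ n ≤ n0, ∀ L, n * L ≤ κ n L ∧ κ n L ≤ A * L) →
    (n0 + 1) * ((n0 + 1) * n0 + 2) + 2 * n0 + 1 ≤ e → 3 * e ≤ E' → E' ≤ E → n0 < m → 2 ≤ m →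
    m ≤ j → 32 * ((m : ℝ) + 1) ^ 3 ≤ ω m → (A + 2) * (E' * (c0 + (2 * n0 + 8) + E')) ≤ ρ → 0 ≤ y0 →
    y0 + 2 * tw ρ ≤ 1 → ∃ y1 ρ1, Stage5 n0 c0 e E E' κ ω j
      (fun x => Close3 (ω m) m j x ∧ x ≠ s) y0 ρ y1 ρ1 := by
  choose c1 hf1 using few_alg
  choose c2 hf2 using big_one
  refine ⟨(range (n0 + 1)).sup c1,
    fun A c0 e E E' κ ω m j s y0 ρ hc0 hκ he hE' hE hm0 hm hmj hω hρ hx0 hx1 => ?_⟩
  obtain ⟨N, γ, c0', cb, cγ, hB, hγ⟩ := exists_base2 m E hm (by omega)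
  set f := (n0 + 1) * n0 + 2 with hf
  have hg1 : f ≤ e := by nlinarith
  have hg2 : ∀ n ≤ n0, (n + 1) * n + 2 ≤ f := fun n hn => by nlinarith
  have hg3 : ∀ n ≤ n0, (n + 1) * f + 2 * n + 1 ≤ e := fun n hn => by nlinarith
  obtain ⟨t, g, a, b, d, htt, hT, hc1, hc2, hbig, hsm, hc4⟩ := centre_gen n0 A c0 E E' j ρ
    (2 * ρ + j + 2 * ((m + 1) * (ρ + j + 3)) + 2 * (A + 2) * E + 8 * n0 +
      ∑ n ∈ range (j + 1), cb n) ((range (n0 + 1)).sup c2 + cγ) (KK κ e E') y0 (mb γ)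
    (fun _ n L g a b d => ¬ Low n L (n * L + e * (L / E)) (mb γ g a b d))
    (fun n hn L => KK_le (hκ n hn L).2 hE') (fun t g a b d h => h.near hB.h1)
    (fun t n hn L hL => hf2 n γ t L E e cγ f hB.h1 hB.h2 (hγ n (by omega)) (hg2 n hn) (by omega)
      (hg3 n hn) (by have := le_sup (f := c2) (mem_range.2 (by omega : n < n0 + 1)); omega))
    (by omega) (by omega) hρ hx0 hx1
  simp only [not_not] at hbig
  generalize (g : ℤ) = g at *
  obtain ⟨a1, a2, a3, a4, a5, a6, a7, a8, a9⟩ := hT.real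
  have hr := tw_pos ρ
  have hdeg : ∀ P : ℤ[X], P ≠ 0 → aeval (mb γ g a b d) P = 0 → m ≤ P.natDegree := by
    intro P hP0 h
    by_contra h8
    obtain ⟨Q, q1, q2, q3, -⟩ := hT.mob hB.h1 hB.h2 P.natDegree (ht P) P
      (Bd_of_ht le_rfl (Nat.lt_two_pow_self).le)
    exact hB.ne Q (q2 hP0) (q1.1.trans_lt (not_le.1 h8)) (q3.2 h)
  obtain ⟨P0, hP1, hP2, hP3⟩ : ∃ P0 : ℤ[X], Irreducible P0 ∧ P0.natDegree = m ∧
      aeval (mb γ g a b d) P0 = 0 := by
    let Q : ℤ[X] := C (N : ℤ) * (C d * X - C b) ^ m - C ((N : ℤ) + 1) * (C a - C g * X) ^ m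
    have hev : ∀ x : ℝ, aeval x Q = N * (d * x - b) ^ m - (N + 1) * (a - g * x) ^ m := by
      intro x
      simp [Q]
    have g0 : (0 : ℝ) < g := by linarith
    have g1 : (0 : ℝ) < g * γ + d := by have := hB.h1; positivity
    have hQ0 : Q ≠ 0 := by
      intro h
      have h1 := hev (a / g)
      have h2 : (d : ℝ) * (a / g) - b = 1 / g := by
        rw [eq_div_iff g0.ne', sub_mul, mul_assoc, div_mul_cancel₀ _ g0.ne']
        linear_combination a3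
      rw [h, map_zero, mul_div_cancel₀ _ g0.ne', sub_self, zero_pow (by omega), h2, mul_zero,
        sub_zero] at h1
      have h3 : (0 : ℝ) < N := by exact_mod_cast hB.hN
      exact absurd h1 (ne_of_lt (by positivity))
    have hQd : Q.natDegree ≤ m := by
      simp only [Q]
      compute_degree!
    obtain ⟨P0, h1, h2, h3⟩ := exists_irr_root (mb γ g a b d) Q hQ0 (by
      have h4 : mb γ g a b d * (g * γ + d) = a * γ + b := div_mul_cancel₀ _ g1.ne'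
      have h5 : d * mb γ g a b d - b = γ * (a - g * mb γ g a b d) := by
        linear_combination h4
      rw [hev, h5, mul_pow, ← mul_assoc, hB.eq, sub_self])
    exact ⟨P0, h1, le_antisymm ((natDegree_le_of_dvd h2 hQ0).trans hQd)
      (hdeg P0 h1.ne_zero h3), h3⟩
  have hpl := hT.point_lower hB
  generalize mb γ g a b d = y at *
  have hy0 : 0 ≤ y := by linarith
  have hy1 : y ≤ 1 := by linarith
  have hy : |y| ≤ 2 := by rw [abs_of_nonneg hy0]; linarith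
  obtain ⟨r, hb1, hb2, hb3⟩ : ∃ b, ht P0 ≤ 2 ^ (b + 1) ∧ 2 ^ b < ht P0 ∧
      t / 2 + 1 < (m + 1) * (b + 3) := by
    classical
    have hex : ∃ a, ht P0 ≤ 2 ^ a := ⟨ht P0, (Nat.lt_two_pow_self).le⟩
    have c1 := Nat.find_spec hex
    have c5 : (m + 1) * (ρ + 1 + 2) ≤ (m + 1) * (ρ + j + 3) := Nat.mul_le_mul_left _ (by omega)
    have c2 : t / 2 + 1 < (m + 1) * (Nat.find hex + 2) := by
      by_contra hc
      have c3 := hc4 m hmj (max (Nat.find hex) (ρ + 1))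
        (lt_of_lt_of_le (lt_of_lt_of_le (Nat.lt_succ_self ρ) (le_max_right _ _))
          (Nat.le_mul_of_pos_left _ (by unfold UV; omega)))
        (by rcases max_choice (Nat.find hex) (ρ + 1) with h | h <;> rw [h] <;> omega)
        P0 hP1.ne_zero (Bd_of_ht hP2.le
          (c1.trans (Nat.pow_le_pow_right (by norm_num) (le_max_left _ _))))
        _ (mem_rts hP1.ne_zero hP3)
      rw [sub_self, abs_zero] at c3
      linarith [tw_pos (VV m * max (Nat.find hex) (ρ + 1)), tw_pos (t + 1 + 1)]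
    have c3 : ρ + 1 + 2 < Nat.find hex + 2 := Nat.lt_of_mul_lt_mul_left (a := m + 1) (by omega)
    obtain ⟨b, hb⟩ : ∃ b, Nat.find hex = b + 1 := ⟨Nat.find hex - 1, by omega⟩
    have c4 : ¬ ht P0 ≤ 2 ^ b := Nat.find_min hex (by omega)
    rw [hb] at c1 c2
    exact ⟨b, c1, not_le.1 c4, c2⟩
  have hb4 : ρ + j + 3 < r + 3 := Nat.lt_of_mul_lt_mul_left (a := m + 1) (by omega)
  obtain ⟨k, hk, hE0⟩ := exact_dist m r (t + 1) (ω m) y hω hy P0 hP1 (by omega)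
    (Bd_of_ht hP2.le hb1) hb2.le (by omega) (by omega) hP3
  obtain ⟨ρ1, hR1, hR2, hR3⟩ := exists_avoid y s k
  have hr2 : 8 * tw ρ1 ≤ tw ρ := by
    have := two_pow_mul_tw_le (a := 3) (b := ρ1) (c := ρ) (by omega)
    linarith
  refine ⟨y, ρ1, by omega, hc1, by linarith, fun n hn L Lc hL1 hL => ?_, ?_⟩
  · have b1 := KK_le (hκ n hn L).2 (hE'.trans hE)
    exact hf1 n y L E e f _ Lc (fun L' hL' => hbig n hn L' (by
      have := Nat.mul_le_mul_left (A + 2) hL'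
      linarith [Nat.zero_le ((A + 2) * L')])) (hg2 n hn) (by omega) (by have := hg3 n hn; omega)
      (by have := le_sup (f := c1) (mem_range.2 (by omega : n < n0 + 1)); omega)
      (Nat.add_le_add_right (hκ n hn L).1 _)
  intro x hx2 hx3
  obtain ⟨z, rfl⟩ : ∃ z, x = y + z := ⟨x - y, by ring⟩
  have ht1 : tw ρ1 ≤ z := by linarith
  have ht2 : z ≤ 2 * tw ρ1 := by linarith
  have ht0 : 0 ≤ z := (tw_pos _).le.trans ht1
  obtain ⟨hE1, hE2⟩ := hE0 ρ1 hR1 hR2 z ht1 ht2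
  refine ⟨fun hA n hn L l1 l2 => ?_, ?_, ⟨P0, hP2.le, ?_, hE1⟩, fun h => hR3 ⟨by linarith, by linarith⟩⟩
  · by_cases hL : t < 2 * (A + 2) * L
    · have b1 : 1 ≤ L / E := (Nat.le_div_iff_mul_le (by omega)).2
        (Nat.le_of_mul_le_mul_left (c := 2 * (A + 2)) (by rw [one_mul]; omega) (by omega))
      have b2 := Nat.mul_le_mul_left e b1
      have b3 := KK_mono κ (e := e) n L (by omega) hE
      have b4 := (hκ n hn L).1
      unfold KK at l2 b3 ⊢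
      exact ((hbig n hn L hL).move hy ht0 ht2 (by linarith [Nat.zero_le ((n0 + 1) * f)])).mono
        le_rfl (by linarith [Nat.zero_le (e * (L / E))])
    · have b1 := KK_le (hκ n hn L).2 hE'
      exact (hsm hA n hn L l1 (not_lt.1 hL)).move hy ht0 ht2 (by
        have := not_lt.1 hL
        rw [mul_assoc] at this
        omega)
  · intro n hn hn2 l ha1 ha2 P hP hPd hPB
    have ha : 1 ≤ l := by
      rcases Nat.eq_zero_or_pos l with rfl | h
      · simp at ha1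
      · exact h
    by_cases h0 : aeval y P = 0
    · right
      rcases eq_or_neg_of_root hP hP1 (by omega) h0 hP3 with rfl | rfl
      · rw [← hPd, hP2]; exact hE2
      · rw [natDegree_neg] at hPd
        rw [← hPd, hP2, ht_neg, map_neg, abs_neg]; exact hE2
    · left
      have hcb : cb n ≤ ∑ n ∈ range (j + 1), cb n :=
        single_le_sum (f := cb) (fun _ _ => Nat.zero_le _) (mem_range.2 (by omega))
      exact gen_lower _ z hy0 hy1 n l (t + 1) (t / 2 + 1) ρ1 ht0 ht2 (by omega) (by omega) P hP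
        (by omega) hPB ha ha2 (fun hreg => hc4 n hn l ha1 hreg P hP.ne_zero hPB)
        fun hua => hpl n l P hPB ha hua (by omega) h0
  · have : r < 2 ^ r := Nat.lt_two_pow_self
    omega

lemma step5r (n0 A : ℕ) : ∃ c : ℕ, ∀ (w : ℝ) (c0 e E E' : ℕ) (κ : ℕ → ℕ → ℕ) (ω : ℕ → ℝ) (j : ℕ)
    (y0 : ℝ) (ρ : ℕ), c ≤ c0 → 1 ≤ w → w ≤ A → n0 ≤ A →
    (∀ n ≤ n0, ∀ L, n * L ≤ κ n L ∧ w * L ≤ κ n L ∧ κ n L ≤ A * L) →
    (A + 1) * ((n0 + 1) * n0 + 2) ≤ e → 3 * e ≤ E' → E' ≤ E →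
    (A + 2) * (E' * (c0 + (2 * n0 + 8) + E')) ≤ ρ → 0 ≤ y0 → y0 + 2 * tw ρ ≤ 1 →
    ∃ y1 ρ1, Stage5 n0 c0 e E E' κ ω j (CloseQ (w + 1) j) y0 ρ y1 ρ1 := by
  choose c1 hf1 using few_rat
  choose c2 hf2 using big_rat
  refine ⟨(range (n0 + 1)).sup c1 + (A + 3) * n0,
    fun w c0 e E E' κ ω j y0 ρ hc0 hw hwA hA hκ he hE' hE hρ hx0 hx1 => ?_⟩
  set f := (n0 + 1) * n0 + 2 with hf
  have he1 : 1 ≤ e := le_trans (Nat.mul_pos (by omega) (by omega)) he
  have hg2 : ∀ n ≤ n0, (n + 1) * n + 2 ≤ f := fun n hn => by nlinarith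
  obtain ⟨t, g, a, b, d, htt, hT, hc1, hc2, hbig, hsm, hc4⟩ := centre_gen n0 A c0 E E' j ρ
    (ρ + j + 2 * (A + 2) * (E * (c0 + n0 + 1)) + 8 * n0 + 2) ((range (n0 + 1)).sup c2)
    (KK κ e E') y0 (fun g a _ _ => (a : ℝ) / g)
    (fun t n L g a _ _ => BadR t n (L + 2 * (f * (L / E))) (L + f * (L / E)) g a)
    (fun n hn L => KK_le (hκ n hn L).2.2 hE')
    (fun t g a b d _ => ⟨le_rfl, le_add_of_nonneg_right (tw_pos _).le⟩)
    (fun t n hn L hL => hf2 n t _ _ _ (by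
      have b1 := le_sup (f := c2) (mem_range.2 (by omega : n < n0 + 1))
      nlinarith [Nat.mul_le_mul_right (L / E) (hg2 n hn)]))
    (by omega) (by omega) hρ hx0 hx1
  obtain ⟨a1, a2, -, a4, a5, -⟩ := hT.real
  simp only [Int.cast_natCast] at a1 a2 a5 hc1 hc2 hsm hc4
  have hg0 : (0 : ℝ) < g := by linarith
  have hr := tw_pos ρ
  have hy0 : 0 ≤ (a : ℝ) / g := by positivity
  have hy1 : (a : ℝ) / g ≤ 1 := by linarith
  have hy : |(a : ℝ) / g| ≤ 2 := by rw [abs_of_nonneg hy0]; linarith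
  set k := ⌈((t + 1 : ℕ) : ℝ) * (w + 1)⌉₊ with hk
  have hk1 : ((t + 1 : ℕ) : ℝ) * (w + 1) ≤ k := Nat.le_ceil _
  have hk2 : (k : ℝ) < ((t + 1 : ℕ) : ℝ) * (w + 1) + 1 := Nat.ceil_lt_add_one (by positivity)
  have hk3 : 2 * t + 2 ≤ k := by
    have : ((2 * t + 2 : ℕ) : ℝ) ≤ k := le_trans (by
      push_cast; nlinarith [Nat.cast_nonneg (α := ℝ) t]) hk1
    exact_mod_cast this
  have few : ∀ n ≤ n0, ∀ L Lc σ, c0 ≤ L / E → t < 2 * (A + 2) * L → 0 < σ →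
      σ ≤ tw (KK κ e E n L + L) → 2 ^ Lc * σ = 2 * tw (k + 1) →
      nbad n L (KK κ e E n L) Lc (a / g) σ ≤ (n + 1) * tw (L / E) * 2 ^ Lc := by
    intro n hn L Lc σ l1 l2 s0 s1 s2
    have b1 := le_sup (f := c1) (mem_range.2 (by omega : n < n0 + 1))
    have b2 := Nat.mul_le_mul_left (A + 3) hn
    exact hf1 n w σ A t L _ _ f (k + 1) Lc (κ n L) e g a hy (hbig n hn L l2) (hg2 n hn) (by omega) he
      (by omega) hwA (hκ n hn L).1 (hκ n hn L).2.1 (by push_cast at hk2 ⊢; linarith) le_rfl s0 s1 s2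
  have hr2 : 8 * tw (k + 1) ≤ tw ρ := by
    have := two_pow_mul_tw_le (a := 3) (b := k + 1) (c := ρ) (by omega)
    linarith
  refine ⟨a / g, k + 1, by omega, hc1, by linarith, fun n hn L Lc hL1 hL => ?_, ?_⟩
  · have b1 := KK_le (hκ n hn L).2.2 (hE'.trans hE)
    exact few n hn L Lc _ hL1 (by rw [mul_assoc]; omega) (tw_pos _) le_rfl (blk_len hL)
  intro x hx2 hx3
  obtain ⟨z, rfl⟩ : ∃ z, x = a / g + z := ⟨x - a / g, by ring⟩
  have ht1 : tw (k + 1) ≤ z := by linarith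
  have ht2 : z ≤ 2 * tw (k + 1) := by linarith
  have ht0 : 0 ≤ z := (tw_pos _).le.trans ht1
  have hg2' : g ≤ 2 ^ (t + 1) := by exact_mod_cast a2
  refine ⟨fun hA n hn L l1 l2 => ?_, ?_, g, a, ?_, by exact_mod_cast a4.le,
    by exact_mod_cast a5.le, ?_⟩
  · by_cases hL : t < 2 * (A + 2) * L
    · have b1 : c0 + n0 + 1 ≤ L / E := (Nat.le_div_iff_mul_le (by omega)).2
        (Nat.le_of_mul_le_mul_left (c := 2 * (A + 2)) (by rw [mul_comm _ E]; omega) (by omega))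
      have b2 := few n hn L 0 (2 * tw (k + 1)) (by omega) hL (by linarith [tw_pos (k + 1)])
        (by rw [tw_succ]; exact tw_anti (by omega)) (by simp)
      refine Low.mono ?_ le_rfl (Nat.le_succ_of_le (KK_mono κ n L (by omega) hE))
      by_contra hb
      have b3 : (1 : ℝ) ≤ nbad n L (KK κ e E n L) 0 (a / g) (2 * tw (k + 1)) := by
        classical
        unfold nbad
        rw [Nat.one_le_cast, one_le_card]
        refine ⟨0, mem_filter.2 ⟨by simp, _, ?_, ?_, hb⟩⟩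
        · constructor <;> simpa
        · rw [abs_of_nonneg (by linarith)]; linarith [tw_le_one ρ]
      have b4 := two_pow_mul_tw_le (a := n) (b := L / E) (c := 1) (by omega)
      have b5 := mul_le_mul_of_nonneg_right (nat_succ_le_two_pow n) (tw_pos (L / E)).le
      rw [tw_one] at b4
      linarith
    · have b1 := KK_le (hκ n hn L).2.2 hE'
      exact (hsm hA n hn L l1 (not_lt.1 hL)).move hy ht0 ht2 (by
        have := not_lt.1 hL
        rw [mul_assoc] at this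
        omega)
  · intro n hn hn2 l ha1 ha2 P hP hPd hPB
    have ha : 1 ≤ l := by
      rcases Nat.eq_zero_or_pos l with rfl | h
      · simp at ha1
      · exact h
    left
    refine gen_lower _ z hy0 hy1 n l (t + 1) (t / 2 + 1) (k + 1) ht0 ht2 (by omega)
      (by omega) P hP (by omega) hPB ha ha2
      (fun hreg => hc4 n hn l ha1 hreg P hP.ne_zero hPB) (fun hua => ?_)
    obtain ⟨Q, -, -, hev⟩ := exists_transfer n l t g a (by exact_mod_cast hg0) hg2' (by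
      rw [abs_of_pos a4]; linarith) P hPB
    have h1 := hev 0
    rw [add_zero, ← coeff_zero_eq_aeval_zero', algebraMap_int_eq, eq_intCast] at h1
    have h2 : Q.coeff 0 ≠ 0 := by
      intro h
      rw [h, Int.cast_zero] at h1
      exact mul_ne_zero (by positivity) (no_rat_root hP (by omega) a g) h1.symm
    have h3 : (1 : ℝ) ≤ |(Q.coeff 0 : ℝ)| := by exact_mod_cast Int.one_le_abs h2
    rw [h1, abs_mul, abs_of_pos (by positivity)] at h3
    have h4 : (g : ℝ) ^ n ≤ 2 ^ ((t + 1) * n) := by rw [pow_mul]; gcongr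
    have h5 : (2 : ℝ) ^ ((t + 1) * n) * tw (UU n * l) ≤ tw 0 := two_pow_mul_tw_le (by
      have b1 : (6 * (n + 1) * n) * l ≤ UU n * l := Nat.mul_le_mul_right _ (by
        unfold UU
        nlinarith [Nat.zero_le (n ^ 3), Nat.zero_le (n ^ 2)])
      have b2 := Nat.mul_le_mul_right n hua
      nlinarith)
    rw [tw_zero] at h5
    exact le_of_mul_le_mul_left (h5.trans (h3.trans
      (mul_le_mul_of_nonneg_right h4 (abs_nonneg _)))) (by positivity)
  · have b1 : t < 2 ^ t := Nat.lt_two_pow_self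
    have b2 : 2 ^ t ≤ g := by exact_mod_cast a1
    omega
  · rw [add_sub_cancel_left, abs_of_nonneg ht0]
    exact (ht2.trans (tw_succ k).le).trans (tw_le_rpow_neg (b := t + 1) hg0 a2 (by linarith) hk1)

end Pool.Agent.MP_b86f6c_nt
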