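import Pool.Agent.MP_b86f6c_nt.KnD

set_option autoImplicit false

namespace Pool.Agent.MP_b86f6c_nt

open Polynomial Finset

theorem exists_xi5 (n0 A : ℕ) (hn0 : 1 ≤ n0) (hA : n0 ≤ A) (w : ℝ) (hw : 1 ≤ w) (hwA : w ≤ A)
    (κ : ℕ → ℕ → ℕ) (hκ : ∀ n ≤ n0, ∀ L, n * L ≤ κ n L ∧ w * L ≤ κ n L ∧ κ n L ≤ A * L)
    (ω : ℕ → ℕ → ℝ) (hω : ∀ j m : ℕ, n0 < m → 32 * ((m : ℝ) + 1) ^ 3 ≤ ω j m) (s : ℕ → ℝ) :
    ∃ (ξ : ℝ) (e : ℕ), (∀ i, ξ ≠ s i) ∧ |ξ| ≤ 1 ∧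
      (∀ n ≤ n0, ∀ E, 1 ≤ E → ∃ L0, ∀ L, L0 ≤ L → Low n L (κ n L + e * (L / E) + 1) ξ) ∧
      (∀ n, 2 ≤ n → ∃ a0, ∀ a, a0 ≤ a → ∃ j, Good3 (ω j n) n a ξ) ∧
      (∀ m, n0 < m → ∀ j, ∃ i, j ≤ i ∧ Close3 (ω i m) m j ξ) ∧ ∀ j, CloseQ (w + 1) j ξ := by
  obtain ⟨ca, hca⟩ := step5a n0
  obtain ⟨cr, hcr⟩ := step5r n0 A
  set e := (A + 1) * ((n0 + 1) * n0 + 2) + 2 * n0 + 1 with he
  let B : ℕ → ℕ := fun j => (A + 2) * ((3 * e + j) * (ca + cr + (2 * n0 + 8) + (3 * e + j)))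
  have hB : ∀ j, j + 1 ≤ B j := fun j => le_trans (by omega : j + 1 ≤ 3 * e + j)
    ((Nat.le_mul_of_pos_right _ (by omega)).trans (Nat.le_mul_of_pos_left _ (by omega)))
  let Inv : ℕ → ℝ × ℕ → Prop := fun j z => 0 ≤ z.1 ∧ z.1 + 2 * tw z.2 ≤ 1 ∧ B j ≤ z.2
  let J : ℕ → ℕ := fun j => B (j + 1) + (j + n0 + 1)
  let Z : ℕ → ℝ → Prop := fun j x => ((Nat.unpair j).1 = 0 → CloseQ (w + 1) (J j) x) ∧
    ((Nat.unpair j).1 ≠ 0 → Close3 (ω j ((Nat.unpair j).1 + n0)) ((Nat.unpair j).1 + n0) (J j) x ∧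
      x ≠ s (Nat.unpair j).2)
  have hst : ∀ j z, Inv j z → ∃ y1 ρ1, Stage5 n0 (ca + cr) e (3 * e + (j + 1)) (3 * e + j) κ (ω j)
      (J j) (Z j) z.1 z.2 y1 ρ1 := by
    rintro j z ⟨h1, h2, h3⟩
    have := Nat.unpair_left_le j
    by_cases h : (Nat.unpair j).1 = 0
    · obtain ⟨x1, ρ1, a1, a2, a3, a4, a5⟩ := hcr w (ca + cr) e (3 * e + (j + 1)) (3 * e + j) κ (ω j)
        (J j) z.1 z.2 (by omega) hw hwA hA hκ (by omega) (by omega) (by omega) h3 h1 h2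
      exact ⟨x1, ρ1, a1, a2, a3, a4, fun x b1 b2 => ⟨(a5 x b1 b2).1, (a5 x b1 b2).2.1,
        fun _ => (a5 x b1 b2).2.2, fun h' => absurd h h'⟩⟩
    · obtain ⟨x1, ρ1, a1, a2, a3, a4, a5⟩ := hca A (ca + cr) e (3 * e + (j + 1)) (3 * e + j) κ (ω j)
        ((Nat.unpair j).1 + n0) (J j) (s (Nat.unpair j).2) z.1 z.2 (by omega)
        (fun n hn L => ⟨(hκ n hn L).1, (hκ n hn L).2.2⟩) (by
          have := Nat.mul_le_mul_right ((n0 + 1) * n0 + 2) (Nat.add_le_add_right hA 1)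
          omega) (by omega) (by omega) (by omega) (by omega)
        (by simp only [J]; omega) (hω _ _ (by omega)) h3 h1 h2
      exact ⟨x1, ρ1, a1, a2, a3, a4, fun x b1 b2 => ⟨(a5 x b1 b2).1, (a5 x b1 b2).2.1,
        fun h' => absurd h' h, fun _ => (a5 x b1 b2).2.2⟩⟩
  choose! X R hF using hst
  let z : ℕ → ℝ × ℕ := fun j => Nat.rec ((0 : ℝ), B 0) (fun j z => (X j z, R j z)) j
  have hz : ∀ j, z (j + 1) = (X j (z j), R j (z j)) := fun j => rfl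
  have hI : ∀ j, Inv j (z j) := by
    intro j
    induction j with
    | zero =>
      refine ⟨le_rfl, ?_, le_rfl⟩
      have := two_pow_mul_tw_le (a := 1) (b := B 0) (c := 0) (hB 0)
      simpa [z] using this
    | succ j ih =>
      obtain ⟨a1, a2, a3, -⟩ := hF j (z j) ih
      refine ⟨(add_nonneg ih.1 (tw_pos _).le).trans a2, a3.trans ih.2.1, ?_⟩
      simp only [J] at a1
      rw [hz]
      simp only
      omega
  let x : ℕ → ℝ := fun j => (z j).1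
  let ρ : ℕ → ℕ := fun j => (z j).2
  have hx0 : ∀ j, x j + tw (ρ j) ≤ x (j + 1) := fun j => (hF j (z j) (hI j)).2.1
  have hx : Monotone x := monotone_nat_of_le_succ fun j => by linarith [hx0 j, tw_pos (ρ j)]
  have hx' : Antitone fun j => x j + 2 * tw (ρ j) :=
    antitone_nat_of_succ_le fun j => (hF j (z j) (hI j)).2.2.1
  have hb : ∀ j i, x i ≤ x j + 2 * tw (ρ j) := by
    intro j i
    have h1 := hx (le_max_left i j)
    have h2 := hx' (le_max_right i j)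
    have h3 := tw_pos (ρ (max i j))
    simp only at h2
    linarith
  have hbdd : BddAbove (Set.range x) := ⟨_, by rintro _ ⟨i, rfl⟩; exact hb 0 i⟩
  have h1 : ∀ j, x j + tw (ρ j) ≤ ⨆ i, x i := fun j => (hx0 j).trans (le_ciSup hbdd (j + 1))
  have h2 : ∀ j, (⨆ i, x i) ≤ x j + 2 * tw (ρ j) := fun j => ciSup_le (hb j)
  have hρ0 : ∀ j, j + 1 ≤ ρ j := fun j => (hB j).trans (hI j).2.2
  have hρ2 : ∀ j, 2 * ρ j + J j ≤ ρ (j + 1) := fun j => (hF j (z j) (hI j)).1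
  have hρ : ∀ j, ρ j + 1 ≤ ρ (j + 1) := fun j => by
    have := hρ0 j
    have := hρ2 j
    omega
  have hJ : ∀ j, j ≤ J j := fun j => by simp only [J]; omega
  have key := fun j => (hF j (z j) (hI j)).2.2.2.2 (⨆ i, x i) (h1 (j + 1)) (h2 (j + 1))
  refine ⟨⨆ i, x i, 3 * e, fun i => ?_, ?_, fun n hn E hE => ⟨ρ (E + 1), fun L hL => ?_⟩,
    fun n hn => ⟨ρ n + 1, fun a ha => ?_⟩, fun m hm j => ?_, fun j => ?_⟩
  · have := ((key (Nat.pair 1 i)).2.2.2 (by simp)).2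
    rwa [Nat.unpair_pair] at this
  · rw [abs_le]
    constructor <;> linarith [h1 0, h2 0, (hI 0).1, (hI 0).2.1, tw_pos (ρ 0)]
  · obtain ⟨j, a0, a1, a2⟩ := exists_cross
      (fun j => KK κ e (3 * e + j) n L + L < ρ j) (E + 1) ((A + 2) * L)
      (by simp only [not_lt]; omega) (by
        have b1 := KK_le (e := e) (E := 3 * e + (E + 1 + (A + 2) * L)) (hκ n hn L).2.2 (by omega)
        have b2 := hρ0 (E + 1 + (A + 2) * L)
        omega)
    obtain ⟨i, rfl⟩ : ∃ i, j = i + 1 := ⟨j - 1, by omega⟩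
    refine ((key (i + 1)).1 (hF i (z i) (hI i)).2.2.2.1 n hn L (not_lt.1 a1) a2).mono le_rfl ?_
    exact Nat.succ_le_succ (KK_mono κ n L hE (by omega))
  · obtain ⟨j, a0, a1, a2⟩ := exists_level ρ hρ n (UV n * a) (by unfold UV; nlinarith)
    exact ⟨j, (key j).2.1 n (a0.trans (hJ j)) hn a a1 a2⟩
  · obtain ⟨P, a1, a2, a3⟩ := ((key (Nat.pair (m - n0) j)).2.2.2 (by simp; omega)).1
    rw [Nat.unpair_pair] at a1 a3
    simp only [(by omega : m - n0 + n0 = m)] at a1 a3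
    exact ⟨_, Nat.right_le_pair _ _, P, a1,
      lt_of_le_of_lt ((Nat.right_le_pair _ _).trans (hJ _)) a2, a3⟩
  · obtain ⟨g, c, a1, a2⟩ := (key (Nat.pair 0 j)).2.2.1 (by simp)
    exact ⟨g, c, lt_of_le_of_lt ((Nat.right_le_pair _ _).trans (hJ _)) a1, a2⟩

lemma lower_small2 (ξ v W : ℝ) (d e : ℕ) (κ : ℕ → ℕ) (hW : 0 ≤ W) (hv : W < v)
    (hκ : ∀ L, (κ L : ℝ) ≤ W * L + 1)
    (h : ∀ E, 1 ≤ E → ∃ L0, ∀ L, L0 ≤ L → Low d L (κ L + e * (L / E) + 1) ξ) :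
    ∃ c : ℝ, 0 < c ∧ ∀ P : ℤ[X], P ≠ 0 → P.natDegree ≤ d →
      c * (ht P : ℝ) ^ (-v) ≤ |aeval ξ P| := by
  classical
  obtain ⟨E, hE⟩ := exists_nat_gt ((e : ℝ) / (v - W))
  rw [div_lt_iff₀ (by linarith)] at hE
  obtain ⟨L0, hL⟩ := h (E + 1) (by omega)
  have hv0 : 0 ≤ v := hW.trans hv.le
  refine ⟨tw (⌈v⌉₊ * (L0 + 1) + 3), tw_pos _, fun P hP hPd => ?_⟩
  have hex : ∃ a, ht P ≤ 2 ^ (L0 + a + 1) :=
    ⟨ht P, (Nat.lt_two_pow_self).le.trans (Nat.pow_le_pow_right (by norm_num) (by omega))⟩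
  have c1 := Nat.find_spec hex
  have c2 : (ht P : ℝ) ^ (-v) ≤ tw ⌊(Nat.find hex : ℝ) * v⌋₊ := by
    refine rpow_neg_le_tw (b := Nat.find hex) ?_ hv0 (Nat.floor_le (by positivity))
    rcases Nat.eq_zero_or_pos (Nat.find hex) with h0 | h0
    · rw [h0, pow_zero]; exact one_le_ht hP
    · have c3 := not_le.1 (Nat.find_min hex (Nat.sub_lt h0 one_pos))
      exact_mod_cast (Nat.pow_le_pow_right (by norm_num) (by omega)).trans c3.le
  refine le_trans ?_ (hL _ (by omega) P hP (Bd_of_ht hPd c1))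
  refine (mul_le_mul_of_nonneg_left c2 (tw_pos _).le).trans ?_
  rw [← tw_add]
  refine tw_anti ((Nat.cast_le (α := ℝ)).1 ?_)
  generalize Nat.find hex = a
  have b1 := Nat.lt_floor_add_one ((a : ℝ) * v)
  have b2 : ((E + 1 : ℕ) : ℝ) * ((L0 + a + 1) / (E + 1) : ℕ) ≤ (L0 + a + 1 : ℕ) := by
    exact_mod_cast Nat.mul_div_le _ _
  have b3 := mul_le_mul_of_nonneg_right (Nat.le_ceil v) (by positivity : (0 : ℝ) ≤ L0 + 1)
  have b4 := mul_le_mul_of_nonneg_left b2 (sub_pos.2 hv).le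
  have b5 : (e : ℝ) * ((L0 + a + 1) / (E + 1) : ℕ) ≤
      (E + 1) * (v - W) * ((L0 + a + 1) / (E + 1) : ℕ) :=
    mul_le_mul_of_nonneg_right (by linarith) (by positivity)
  have b6 := hκ (L0 + a + 1)
  generalize (L0 + a + 1) / (E + 1) = q at *
  push_cast at b4 b6 ⊢
  linarith

theorem all_small (n0 : ℕ) (hn0 : 1 ≤ n0) (τ : ℝ) (hτ : 1 ≤ τ) (w : ℕ → EReal)
    (h1 : ∀ n : ℕ, 1 ≤ n → n ≤ n0 → w n = ((max (n : ℝ) τ : ℝ) : EReal))
    (hm : ∀ n, 1 ≤ n → w n ≤ w (n + 1))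
    (hb : ∀ n : ℕ, n0 < n → ((32 * ((n : ℝ) + 1) ^ 3 : ℝ) : EReal) ≤ w n) (s : ℕ → ℝ) :
    ∃ ξ : ℝ, (∀ i, ξ ≠ s i) ∧ Transcendental ℤ ξ ∧ ∀ n : ℕ, 1 ≤ n → ∀ v : ℝ,
      ((v : EReal) < w n → {P : Polynomial ℤ | P.natDegree ≤ n ∧ Polynomial.aeval ξ P ≠ 0 ∧
          |Polynomial.aeval ξ P| ≤ (ht P : ℝ) ^ (-v)}.Infinite) ∧
      (w n < (v : EReal) → {P : Polynomial ℤ | P.natDegree ≤ n ∧ Polynomial.aeval ξ P ≠ 0 ∧
          |Polynomial.aeval ξ P| ≤ (ht P : ℝ) ^ (-v)}.Finite) := by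
  classical
  have hmono : ∀ d n, 1 ≤ d → d ≤ n → w d ≤ w n := by
    intro d n hd hn
    induction n, hn using Nat.le_induction with
    | base => exact le_rfl
    | succ n hn ih => exact ih.trans (hm n (by omega))
  have hre : ∀ n, 1 ≤ n → w n ≠ ⊤ → (((w n).toReal : ℝ) : EReal) = w n := fun n hn h =>
    EReal.coe_toReal h (ne_bot_of_le_ne_bot (EReal.coe_ne_bot _)
      ((h1 1 le_rfl hn0).ge.trans (hmono 1 n le_rfl hn)))
  let ω : ℕ → ℕ → ℝ := fun j m => if w m = ⊤ then 32 * ((m : ℝ) + 1) ^ 3 + j else (w m).toReal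
  have hω : ∀ j m : ℕ, n0 < m → 32 * ((m : ℝ) + 1) ^ 3 ≤ ω j m := by
    intro j m h
    simp only [ω]
    split_ifs with h'
    · exact le_add_of_nonneg_right (by positivity)
    · have := hb m h
      rw [← hre m (by omega) h'] at this
      exact EReal.coe_le_coe_iff.1 this
  obtain ⟨ξ, e0, h0, hξ, h2, h3, h4, h5⟩ := exists_xi5 n0 (n0 + ⌈τ⌉₊) hn0 (by omega) τ hτ
    (by push_cast; linarith [Nat.le_ceil τ, Nat.cast_nonneg (α := ℝ) n0])
    (fun n L => max (n * L) ⌈τ * L⌉₊) (fun n hn L => ⟨le_max_left _ _,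
      (Nat.le_ceil _).trans (by exact_mod_cast le_max_right _ _),
      max_le (Nat.mul_le_mul_right _ (by omega)) (Nat.ceil_le.2 (by
        push_cast
        exact mul_le_mul_of_nonneg_right
          (by linarith [Nat.le_ceil τ, Nat.cast_nonneg (α := ℝ) n0]) (by positivity)))⟩) ω hω s
  have hls : ∀ n ≤ n0, ∀ v : ℝ, max (n : ℝ) τ < v → ∃ c : ℝ, 0 < c ∧ ∀ P : ℤ[X], P ≠ 0 →
      P.natDegree ≤ n → c * (ht P : ℝ) ^ (-v) ≤ |aeval ξ P| := fun n hn v hv =>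
    lower_small2 ξ v _ n e0 _ (le_max_of_le_left (by positivity)) hv (fun L => by
      have b1 := mul_le_mul_of_nonneg_right (le_max_left (n : ℝ) τ) (Nat.cast_nonneg (α := ℝ) L)
      have b2 := mul_le_mul_of_nonneg_right (le_max_right (n : ℝ) τ) (Nat.cast_nonneg (α := ℝ) L)
      have b3 := Nat.ceil_lt_add_one (by positivity : 0 ≤ τ * L)
      push_cast
      exact max_le (by linarith) (by linarith)) (h2 n hn)
  have hlow : ∀ n (v : ℝ), 1 ≤ n → w n < v → ∃ c : ℝ, 0 < c ∧ ∀ P : ℤ[X], P ≠ 0 →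
      P.natDegree ≤ n → c * (ht P : ℝ) ^ (-v) ≤ |aeval ξ P| := by
    intro n v hn hv
    have hv1 : ((1 : ℕ) : ℝ) < v := (le_max_left _ τ).trans_lt
      (EReal.coe_lt_coe_iff.1 (h1 1 le_rfl hn0 ▸ (hmono 1 n le_rfl hn).trans_lt hv))
    have : ∀ k, k ≤ n → ∃ c : ℝ, 0 < c ∧ ∀ P : ℤ[X], Irreducible P → P.natDegree ≠ 0 →
        P.natDegree ≤ k → c * (ht P : ℝ) ^ (-v) ≤ |aeval ξ P| := by
      intro k
      induction k with
      | zero => exact fun _ => ⟨1, one_pos, fun P _ a1 a2 => by omega⟩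
      | succ k ih =>
        intro hk
        obtain ⟨c, hc, hc'⟩ := ih (by omega)
        obtain ⟨e, he, he'⟩ : ∃ e : ℝ, 0 < e ∧ ∀ P : ℤ[X], Irreducible P → P.natDegree = k + 1 →
            e * (ht P : ℝ) ^ (-v) ≤ |aeval ξ P| := by
          rcases le_or_gt (k + 1) n0 with hk0 | hk0
          · obtain ⟨e, he, he'⟩ := hls (k + 1) hk0 v (EReal.coe_lt_coe_iff.1
              (h1 (k + 1) (by omega) hk0 ▸ (hmono (k + 1) n (by omega) hk).trans_lt hv))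
            exact ⟨e, he, fun P hP hd => he' P hP.ne_zero hd.le⟩
          · obtain ⟨a0, ha0⟩ := h3 (k + 1) (by omega)
            have b1 := (hmono (k + 1) n (by omega) hk).trans_lt hv
            have b2 := b1.ne_top
            have b3 : ∀ j, ω j (k + 1) = (w (k + 1)).toReal := fun j => if_neg b2
            rw [← hre (k + 1) (by omega) b2] at b1
            obtain ⟨e, he, he'⟩ := lower_irr ξ (w (k + 1)).toReal (k + 1) a0 (by omega)
              (b3 0 ▸ hω 0 _ (by omega)) (fun a ha => by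
                obtain ⟨j, hj⟩ := ha0 a ha
                exact b3 j ▸ hj)
            refine ⟨e, he, fun P hP hPd => le_trans ?_ (he' P hP hPd)⟩
            exact mul_le_mul_of_nonneg_left (Real.rpow_le_rpow_of_exponent_le
              (one_le_ht hP.ne_zero) (by linarith [EReal.coe_lt_coe_iff.1 b1])) he.le
        refine ⟨min c e, lt_min hc he, fun P hP a1 a2 => ?_⟩
        rcases a2.eq_or_lt with a3 | a3
        · exact (mul_le_mul_of_nonneg_right (min_le_right _ _) (by positivity)).trans (he' P hP a3)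
        · exact (mul_le_mul_of_nonneg_right (min_le_left _ _) (by positivity)).trans
            (hc' P hP a1 (by omega))
    obtain ⟨c, hc, hc'⟩ := this n le_rfl
    exact lower_of_irr ξ v c n (le_trans (by positivity) hv1.le) hc hc'
  have htr : ∀ P : ℤ[X], P ≠ 0 → aeval ξ P ≠ 0 := by
    intro P hP h
    obtain ⟨Q, q1, -, q2⟩ := exists_irr_root ξ P hP h
    have q3 : (0 : ℝ) < ht Q := lt_of_lt_of_le one_pos (one_le_ht q1.ne_zero)
    by_cases hd : Q.natDegree ≤ n0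
    · obtain ⟨c, hc, hc'⟩ := hls n0 le_rfl _ (lt_add_one _)
      have h6 := hc' Q q1.ne_zero hd
      rw [q2, abs_zero] at h6
      exact absurd (mul_pos hc (Real.rpow_pos_of_pos q3 _)) (not_lt.2 h6)
    · obtain ⟨a0, ha0⟩ := h3 Q.natDegree (by omega)
      obtain ⟨j, hj⟩ := ha0 (a0 + ht Q) (by omega)
      have h6 := hj Q q1 rfl (Bd_of_ht le_rfl
        ((Nat.lt_two_pow_self).le.trans (Nat.pow_le_pow_right (by norm_num) (by omega))))
      rw [q2, abs_zero] at h6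
      rcases h6 with h6 | h6
      · exact absurd (tw_pos _) (not_lt.2 h6)
      · exact absurd (mul_pos (tw_pos _) (Real.rpow_pos_of_pos q3 _)) (not_lt.2 h6)
  refine ⟨ξ, h0, fun ⟨P, hP, h⟩ => htr P hP h, fun n hn v => ⟨fun hv hfin => ?_, fun hv => ?_⟩⟩
  · obtain ⟨B, hB⟩ := (hfin.image ht).bddAbove
    by_cases hn2 : n ≤ n0 ∧ τ ≤ n
    · rw [h1 n hn hn2.1, EReal.coe_lt_coe_iff, max_eq_left hn2.2] at hv
      obtain ⟨c, hc, hc'⟩ := hls n hn2.1 (n + 1) (by rw [max_eq_left hn2.2]; exact lt_add_one _)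
      have hn' : (1 : ℝ) ≤ n := by exact_mod_cast hn
      have hv' : max v 0 < n := max_lt hv (by linarith)
      obtain ⟨k, hk⟩ := exists_pow_lt_of_lt_one (mul_pos hc (Real.rpow_pos_of_pos
        (by positivity : (0 : ℝ) < B + 1) (-(n + 1)))) (by norm_num : (1 / 2 : ℝ) < 1)
      obtain ⟨l, hl⟩ := exists_nat_gt ((((n : ℝ) + 1) * n + 1) / (n - max v 0))
      rw [div_lt_iff₀ (by linarith)] at hl
      obtain ⟨P, p1, p2, p3⟩ := dirichlet ξ hξ n (l + k + 1)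
      obtain ⟨q, hq⟩ : ∃ q, n * (l + k + 1) = q + 1 := ⟨n * (l + k + 1) - 1, by
        have := Nat.mul_pos hn (by omega : 0 < l + k + 1)
        omega⟩
      rw [hq, tw_succ] at p3
      have p4 := one_le_ht p1
      have c5 : ht P ≤ B := hB ⟨P, ⟨p2.1, htr P p1, p3.trans ((tw_le_rpow_neg (by linarith)
        p2.ht_le (le_max_right v 0) (by
          have d1 : (n : ℝ) * (l + k + 1) = q + 1 := by exact_mod_cast hq
          have d2 := mul_le_mul_of_nonneg_left hv'.le (by positivity : (0 : ℝ) ≤ n + 1 + (k + 1))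
          push_cast
          nlinarith)).trans
        (Real.rpow_le_rpow_of_exponent_le p4 (neg_le_neg (le_max_left v 0))))⟩, rfl⟩
      have c6 : ((B : ℝ) + 1) ^ (-((n : ℝ) + 1)) ≤ (ht P : ℝ) ^ (-((n : ℝ) + 1)) :=
        Real.rpow_le_rpow_of_nonpos (by linarith) (by exact_mod_cast Nat.le_succ_of_le c5)
          (by linarith)
      have c7 : tw q ≤ tw k := tw_anti (by nlinarith)
      have c8 := (mul_le_mul_of_nonneg_left c6 hc.le).trans ((hc' P p1 p2.1).trans (p3.trans c7))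
      exact absurd hk (not_lt.2 c8)
    obtain ⟨v', hv', P, c1, c2, c3⟩ : ∃ v', v ≤ v' ∧ Close3 v' n B ξ := by
      rcases le_or_gt n n0 with hn3 | hn3
      · obtain ⟨P, c1, c2⟩ := close_one ξ τ B (h5 B)
        rw [h1 n hn hn3, EReal.coe_lt_coe_iff,
          max_eq_right (not_le.1 fun h => hn2 ⟨hn3, h⟩).le] at hv
        exact ⟨τ, hv.le, P, c1.trans hn, c2⟩
      obtain ⟨i, hi, P, c1, c2, c3⟩ := h4 n hn3 (B + ⌈v⌉₊)
      refine ⟨ω i n, ?_, P, c1, by omega, c3⟩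
      simp only [ω]
      split_ifs with h'
      · have b1 : ((⌈v⌉₊ : ℕ) : ℝ) ≤ i := by exact_mod_cast (by omega : ⌈v⌉₊ ≤ i)
        have b2 : (0 : ℝ) ≤ 32 * ((n : ℝ) + 1) ^ 3 := by positivity
        linarith [Nat.le_ceil v]
      · rw [← hre n hn h'] at hv
        exact EReal.coe_le_coe_iff.1 hv.le
    have hP0 : P ≠ 0 := by
      rintro rfl
      simp [ht] at c2
    have c5 : ht P ≤ B := hB ⟨P, ⟨c1, htr P hP0, c3.trans
      (Real.rpow_le_rpow_of_exponent_le (one_le_ht hP0) (by linarith))⟩, rfl⟩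
    omega
  · obtain ⟨v', hv1, hv2⟩ := EReal.lt_iff_exists_real_btwn.1 hv
    rw [EReal.coe_lt_coe_iff] at hv2
    obtain ⟨c, hc, hc'⟩ := hlow n v' hn hv1
    obtain ⟨k, hk⟩ := exists_pow_lt_of_lt_one hc (by norm_num : (1 / 2 : ℝ) < 1)
    obtain ⟨b, hb⟩ := exists_nat_gt ((k : ℝ) / (v - v'))
    rw [div_lt_iff₀ (by linarith)] at hb
    refine (finite_Bd n b).subset ?_
    rintro P ⟨b1, b2, b3⟩
    have hP0 : P ≠ 0 := by rintro rfl; simp at b2
    refine Bd_of_ht b1 ?_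
    by_contra hH
    have hH0 : (0 : ℝ) < ht P := lt_of_lt_of_le one_pos (one_le_ht hP0)
    have d1 := (hc' P hP0 b1).trans b3
    rw [show -v = -(v - v') + -v' by ring, Real.rpow_add hH0] at d1
    have d2 := le_of_mul_le_mul_right d1 (Real.rpow_pos_of_pos hH0 _)
    have d3 : (ht P : ℝ) ^ (-(v - v')) ≤ tw k :=
      rpow_neg_le_tw (b := b) (by exact_mod_cast (not_le.1 hH).le) (by linarith) hb.le
    unfold tw at d3
    linarith

end Pool.Agent.MP_b86f6c_nt
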