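import Pool.Agent.MP_b86f6c_nt.Step

set_option autoImplicit false

namespace Pool.Agent.MP_b86f6c_nt

open Polynomial Finset

lemma close_of {m N : ℕ} {γ : ℝ} (hm : 2 ≤ m) (hN : 1 ≤ N) (heq : (N : ℝ) * γ ^ m = N + 1)
    (g u j ρ : ℕ) (c : ℤ) (hg1 : 2 ^ u ≤ g) (hg2 : g ≤ 2 ^ (u + 1))
    (hc : |(c : ℝ)| ≤ 2 ^ (u + 1)) (hy : |(c + γ) / g| ≤ 2) (hj : j ≤ u) (hNu : N ≤ u)
    (hu : 2 ≤ u) (hρ : 13 * m ^ 3 * u ≤ ρ) (t : ℝ) (ht0 : 0 ≤ t) (ht : t ≤ 2 * tw ρ) :
    Close m j ((c + γ) / g + t) := by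
  have hgr1 : (2 : ℝ) ^ u ≤ g := by exact_mod_cast hg1
  have hgr2 : (g : ℝ) ≤ 2 ^ (u + 1) := by exact_mod_cast hg2
  have hg0 : (0 : ℝ) < g := lt_of_lt_of_le (by positivity) hgr1
  have hNr : (1 : ℝ) ≤ N := by exact_mod_cast hN
  have hN2 : (N : ℝ) + 1 ≤ 2 ^ u :=
    (nat_succ_le_two_pow N).trans (pow_le_pow_right₀ (by norm_num) hNu)
  let P : ℤ[X] := (∑ i ∈ range (m + 1),
    monomial i ((N : ℤ) * ((g : ℤ) ^ i * (-c) ^ (m - i) * (m.choose i))))
      - monomial 0 ((N : ℤ) + 1)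
  have hco : ∀ e, P.coeff e = (if e ∈ range (m + 1) then
      (N : ℤ) * ((g : ℤ) ^ e * (-c) ^ (m - e) * (m.choose e)) else 0)
      - (if 0 = e then (N : ℤ) + 1 else 0) := by
    intro e
    simp only [P, coeff_sub, finsetSum_coeff, coeff_monomial, Finset.sum_ite_eq']
  have hev : ∀ x : ℝ, aeval x P = N * (g * x - c) ^ m - (N + 1) := by
    intro x
    rw [sub_eq_add_neg (g * x), add_pow, Finset.mul_sum]
    simp only [P, map_sub, map_sum, aeval_monomial, algebraMap_int_eq, eq_intCast]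
    push_cast
    congr 1
    · exact Finset.sum_congr rfl fun i _ => by rw [mul_pow]; ring
    · simp
  have hBd : Bd m (4 * m * u) P := by
    constructor
    · refine natDegree_le_iff_coeff_eq_zero.2 fun e he => ?_
      rw [hco, if_neg (by simp; omega), if_neg (by omega)]; simp
    · intro e
      have h1 : |((if e ∈ range (m + 1) then
          (N : ℤ) * ((g : ℤ) ^ e * (-c) ^ (m - e) * (m.choose e)) else 0 : ℤ) : ℝ)|
          ≤ 2 ^ (u + (u + 2) * m) := by
        split_ifs with he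
        · have he' : e ≤ m := by have := Finset.mem_range.1 he; omega
          push_cast
          rw [abs_mul, abs_mul, abs_mul, abs_pow, abs_pow, abs_neg, Nat.abs_cast, Nat.abs_cast,
            Nat.abs_cast]
          have b1 := choose_le_two_pow' m e
          have b2 : (N : ℝ) ≤ 2 ^ u := by linarith
          calc _ ≤ (2 : ℝ) ^ u * ((2 ^ (u + 1)) ^ e * (2 ^ (u + 1)) ^ (m - e) * 2 ^ m) := by gcongr
            _ = 2 ^ (u + (u + 2) * m) := by
                rw [← pow_add, Nat.add_sub_cancel' he', ← pow_mul, ← pow_add, ← pow_add]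
                congr 1; ring
        · simp
      have h2 : |((if 0 = e then (N : ℤ) + 1 else 0 : ℤ) : ℝ)| ≤ 2 ^ u := by
        split_ifs
        · push_cast; rw [abs_of_pos (by positivity)]; exact hN2
        · simp
      rw [hco, Int.cast_sub]
      refine (abs_sub _ _).trans ((add_le_add h1 h2).trans ?_)
      refine (two_pow_add_le le_rfl (by omega)).trans (pow_le_pow_right₀ (by norm_num) ?_)
      nlinarith
  refine ⟨P, u, hj, ?_, hBd, ?_⟩
  · rw [hco, if_pos (by simp), if_neg (by omega)]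
    simp only [Nat.sub_self, pow_zero, mul_one, Nat.choose_self, Nat.cast_one, sub_zero]
    push_cast
    rw [abs_of_pos (by positivity)]
    have h1 : (1 : ℝ) ≤ g := le_trans (one_le_pow₀ (by norm_num)) hgr1
    have h2 : (g : ℝ) ≤ g ^ m := le_self_pow₀ h1 (by omega)
    nlinarith
  · have hm3 : m ≤ m ^ 3 := Nat.le_self_pow (by omega) m
    have hρ1 : 1 ≤ ρ := by nlinarith
    have ht3 : t ≤ 1 := by
      have := tw_anti hρ1
      rw [tw_one] at this; linarith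
    have h1 := taylor_tail_zero (P.map (algebraMap ℤ ℝ)) m (2 ^ (4 * m * u)) ((c + γ) / g) t
      (natDegree_map_le.trans hBd.1) (fun e => by simpa using hBd.2 e) hy
      (by rw [abs_of_nonneg ht0]; exact ht3) 1 (by
        intro r hr
        obtain rfl : r = 0 := by omega
        rw [taylor_coeff_zero, eval_map_algebraMap, hev, mul_div_cancel₀ _ hg0.ne',
          add_sub_cancel_left, heq, sub_self])
    rw [eval_map_algebraMap, abs_of_nonneg ht0, pow_one] at h1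
    refine h1.trans ?_
    calc (2 : ℝ) ^ (4 * m) * 2 ^ (4 * m * u) * t
        ≤ 2 ^ (4 * m) * 2 ^ (4 * m * u) * (2 * tw ρ) := by gcongr
      _ = 2 ^ (4 * m + 4 * m * u + 1) * tw ρ := by ring
      _ ≤ _ := two_pow_mul_tw_le (by
          have := Nat.mul_le_mul_right u hm3
          nlinarith)

lemma RR_mono (D : ℕ) {m n : ℕ} (h : m ≤ n) : RR D m ≤ RR D n := by
  unfold RR
  have := Nat.pow_le_pow_left h 3
  omega

lemma step (D : ℕ) (hD : 1 ≤ D) (m : ℕ) (hm : 2 ≤ m) (j : ℕ) (x0 : ℝ) (ρ : ℕ) (hx0 : 0 ≤ x0)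
    (hx1 : x0 + tw ρ ≤ 1) (hρ : 20 * D + 22 ≤ ρ) :
    ∃ (x1 : ℝ) (ρ1 : ℕ), ρ + 1 ≤ ρ1 ∧ x0 ≤ x1 ∧ x1 + tw ρ1 ≤ x0 + tw ρ ∧
      ∀ x, x1 ≤ x → x ≤ x1 + tw ρ1 →
        (∀ l, ρ < (2 * D + 2) * l + 2 → (2 * D + 2) * l + 2 ≤ ρ1 → Good1 D l x) ∧
        (∀ n ≤ j, ∀ a, ρ < UV n * a → UV n * a ≤ ρ1 → Good2 D n a x) ∧ Close m j x := by
  obtain ⟨N, γ, c0, cb, hB⟩ := exists_base m D hm hD
  have hT0 : ∀ P : ℤ[X], ∃ T : Finset ℝ, P ≠ 0 → T.card ≤ P.natDegree ∧
      ∀ (n : ℕ) (x δ : ℝ), P.natDegree ≤ n → 0 ≤ δ → δ ≤ 1 →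
        (∀ β ∈ T, δ ≤ |x - β|) → δ ^ n ≤ |aeval x P| := by
    intro P
    by_cases h : P = 0
    · exact ⟨∅, fun h' => absurd h h'⟩
    · obtain ⟨T, hT⟩ := exists_root_shadow P h
      exact ⟨T, fun _ => hT⟩
  choose T hT using hT0
  obtain ⟨v, hv0, hv⟩ := growth ((j + 3) * (D ^ 2 + 4 * D + 3)) (c0 + D + j + 5 + ρ + 4)
    (j + N + ρ + 2 + c0 + ∑ n ∈ range (j + 1), cb n)
  set w := (D ^ 2 + 4 * D + 2) * v with hw
  set u := w + v with hu
  obtain ⟨g, hg, hg1, hg2⟩ := Nat.exists_prime_lt_and_le_two_mul (2 ^ u) (by positivity)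
  rw [← pow_succ'] at hg2
  obtain ⟨c, hc1, hc2, hc3, hc4⟩ := exists_good_c hB T (fun P hP => (hT P hP).1) g v w u ρ j hw hu
    hg hg1.le hg2 (by omega) hρ (by
      refine le_trans ?_ hv
      refine mul_le_mul_of_nonneg_right ?_ (by positivity)
      have : (j + 3) * (u + 1) ≤ (j + 3) * (D ^ 2 + 4 * D + 3) * (v + 1) := by
        rw [mul_assoc]
        refine Nat.mul_le_mul_left _ ?_
        rw [hu, hw]; nlinarith
      exact_mod_cast this) x0
  have hg0 : (0 : ℝ) < g := by exact_mod_cast hg.pos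
  have hgr2 : (g : ℝ) ≤ 2 ^ (u + 1) := by exact_mod_cast hg2
  have hr := tw_pos ρ
  have hy0 : 0 ≤ (c + γ) / g := hx0.trans hc1
  have hy1 : (c + γ) / g ≤ 1 := by linarith
  have hy : |(c + γ) / g| ≤ 2 := by rw [abs_of_nonneg hy0]; linarith
  have hcabs : |(c : ℝ)| ≤ 2 ^ (u + 1) := by
    rw [le_div_iff₀ hg0] at hy0
    rw [div_le_iff₀ hg0] at hy1
    have h2 : (2 : ℝ) ≤ 2 ^ (u + 1) := le_self_pow₀ (by norm_num) (by omega)
    rw [abs_le]; constructor <;> linarith [hB.h1, hB.h2]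
  set ρ1 := RR D m * u with hρ1
  have hvu : v ≤ u := by omega
  have hvw : v ≤ w := Nat.le_mul_of_pos_left _ (by omega)
  have hR : 4 * (D * u) + 7 * u + 13 * m ^ 3 * u = ρ1 := by rw [hρ1, RR]; ring
  have hρu : ρ + 2 ≤ u := by omega
  have hρρ : ρ + 2 ≤ ρ1 := by omega
  have hr1 := tw_pos ρ1
  have hr2 : 4 * tw ρ1 ≤ tw ρ := by
    have := two_pow_mul_tw_le (a := 2) (b := ρ1) (c := ρ) (by omega)
    norm_num at this
    exact this
  refine ⟨(c + γ) / g + tw ρ1, ρ1, by omega, by linarith, by linarith, ?_⟩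
  intro x hx2 hx3
  obtain ⟨t, rfl⟩ : ∃ t, x = (c + γ) / g + t := ⟨x - (c + γ) / g, by ring⟩
  have ht1 : tw ρ1 ≤ t := by linarith
  have ht2 : t ≤ 2 * tw ρ1 := by linarith
  have ht0 : 0 ≤ t := by linarith
  have htri : ∀ β : ℝ, |(c + γ) / g - β| - t ≤ |(c + γ) / g + t - β| := by
    intro β
    have := abs_sub_abs_le_abs_sub ((c + γ) / g - β) (-t)
    rw [abs_neg, abs_of_nonneg ht0] at this
    refine this.trans (le_of_eq ?_)
    congr 1; ring
  refine ⟨?_, ?_, ?_⟩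
  · intro l hl1 hl2 q p hq1 hq2
    refine le_trans ?_ (htri _)
    by_cases hl : l < c0 + u + 1
    · have h1 := hc3 l hl1 hl q p hq1 hq2
      have h2 : 2 * tw ρ1 ≤ tw ((2 * D + 3) * l) := by
        have := two_pow_mul_tw_le (a := 1) (b := ρ1) (c := (2 * D + 3) * l) (by
          have b1 : (2 * D + 3) * l ≤ (2 * D + 3) * (2 * u) := Nat.mul_le_mul_left _ (by omega)
          have b2 : (2 * D + 3) * (2 * u) = 4 * (D * u) + 6 * u := by ring
          omega)
        simpa using this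
      linarith
    · push Not at hl
      have a1 : (0 : ℝ) < q := by exact_mod_cast hq1
      have a2 : (q : ℝ) ≤ 2 ^ (D * l) := by exact_mod_cast hq2
      have h1 := hB.lin l q (g * p - c * q) hq1 hq2
      have a3 : (c + γ) / g - p / q = (q * γ - ((g * p - c * q : ℤ) : ℝ)) / (g * q) := by
        push_cast; field_simp; ring
      have h2 : tw ((2 * D + 2) * l) ≤ |(c + γ) / g - p / q| := by
        rw [a3, abs_div, abs_of_pos (by positivity : (0 : ℝ) < g * q),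
          le_div_iff₀ (by positivity)]
        refine le_trans ?_ h1
        have := tw_pos ((2 * D + 2) * l)
        calc tw ((2 * D + 2) * l) * (g * q)
            ≤ tw ((2 * D + 2) * l) * (2 ^ (u + 1) * 2 ^ (D * l)) := by gcongr
          _ = 2 ^ (u + 1 + D * l) * tw ((2 * D + 2) * l) := by ring
          _ ≤ _ := two_pow_mul_tw_le (by
              have b1 : (2 * D + 2) * l = D * l + (D + 1) * l + l := by ring
              omega)
      have h3 : tw ((2 * D + 3) * l) ≤ tw ((2 * D + 2) * l + 1) := tw_anti (by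
        have b1 : (2 * D + 3) * l = (2 * D + 2) * l + l := by ring
        omega)
      have h4 : tw ρ1 ≤ tw ((2 * D + 2) * l + 1 + 1) := tw_anti (by omega)
      have h5 := tw_succ ((2 * D + 2) * l)
      have h6 := tw_succ ((2 * D + 2) * l + 1)
      linarith
  · intro n hn a ha1 ha2 P hP0 hP
    have ha : 1 ≤ a := by
      rcases Nat.eq_zero_or_pos a with rfl | h
      · simp at ha1
      · exact h
    by_cases hreg : (n + 1) * (a + 2) ≤ w
    · have h1 := hc4 n hn a ha1 hreg P hP0 hP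
      have h2 : 2 * tw ρ1 ≤ tw (u + 1) := by
        have := two_pow_mul_tw_le (a := 1) (b := ρ1) (c := u + 1) (by omega)
        simpa using this
      have h3 := (hT P hP0).2 n ((c + γ) / g + t) (tw (VV n * a)) hP.1 (tw_pos _).le
        (tw_le_one _) (fun β hβ => by linarith [htri β, h1 β hβ])
      refine le_trans ?_ h3
      rw [← tw_mul]
      refine tw_anti ?_
      rw [mul_right_comm, mul_comm (VV n)]
      refine Nat.mul_le_mul_right _ ?_
      unfold WW; omega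
    · push Not at hreg
      have hua : u ≤ 6 * (n + 1) * a := by
        have b1 : (n + 1) * (a + 2) ≤ (n + 1) * (3 * a) := Nat.mul_le_mul_left _ (by omega)
        have b2 : 6 * (n + 1) * a = 2 * ((n + 1) * (3 * a)) := by ring
        omega
      have hcb : cb n ≤ u := by
        have : cb n ≤ ∑ n ∈ range (j + 1), cb n :=
          Finset.single_le_sum (f := cb) (fun _ _ => Nat.zero_le _)
            (Finset.mem_range.2 (by omega))
        omega
      refine hB.local_lower n a u g ρ1 c hg.pos hg2 hcabs hy P hP hP0 ha hua hcb ha2 t ht1 ht2 _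
        ?_ ?_
      · refine Nat.mul_le_mul_right _ ?_
        unfold WW; omega
      · intro hmn
        have h1 : ρ1 ≤ RR D n * (6 * (n + 1) * a) := Nat.mul_le_mul (RR_mono D hmn) hua
        have h2 := Nat.mul_le_mul_left n h1
        have h3 : WW D n * a
            = n * VV n * a + (UU n + 1) * a + n * (RR D n * (6 * (n + 1) * a)) := by
          unfold WW; ring
        omega
  · exact close_of hm hB.hN hB.eq g u j ρ1 c hg1.le hg2 hcabs hy (by omega) (by omega)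
      (by omega) (by omega) t ht0 ht2

lemma exists_level (ρ : ℕ → ℕ) (hρ : ∀ j, ρ j + 1 ≤ ρ (j + 1)) (n z : ℕ) (h : ρ n < z) :
    ∃ j, n ≤ j ∧ ρ j < z ∧ z ≤ ρ (j + 1) := by
  by_contra hc
  push Not at hc
  have h1 : ∀ i, ρ (n + i) < z := by
    intro i
    induction i with
    | zero => exact h
    | succ i ih => exact hc (n + i) (by omega) ih
  have h2 : ∀ i, i ≤ ρ i := by
    intro i
    induction i with
    | zero => omega
    | succ i ih => have := hρ i; omega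
  have := h1 z
  have := h2 (n + z)
  omega

theorem exists_xi (D : ℕ) (hD : 1 ≤ D) :
    ∃ ξ : ℝ, (∃ l0, ∀ l, l0 ≤ l → Good1 D l ξ) ∧ (∀ n, ∃ a0, ∀ a, a0 ≤ a → Good2 D n a ξ) ∧
      ∀ m, 2 ≤ m → ∀ j, Close m j ξ := by
  let St := {s : ℝ × ℕ // 0 ≤ s.1 ∧ s.1 + tw s.2 ≤ 1 ∧ 20 * D + 22 ≤ s.2}
  have hstep : ∀ (j : ℕ) (s : St), ∃ s' : St, s.1.2 + 1 ≤ s'.1.2 ∧ s.1.1 ≤ s'.1.1 ∧
      s'.1.1 + tw s'.1.2 ≤ s.1.1 + tw s.1.2 ∧ ∀ x, s'.1.1 ≤ x → x ≤ s'.1.1 + tw s'.1.2 →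
        (∀ l, s.1.2 < (2 * D + 2) * l + 2 → (2 * D + 2) * l + 2 ≤ s'.1.2 → Good1 D l x) ∧
        (∀ n ≤ j, ∀ a, s.1.2 < UV n * a → UV n * a ≤ s'.1.2 → Good2 D n a x) ∧
        Close ((Nat.unpair j).1 + 2) j x := by
    rintro j ⟨⟨x0, ρ⟩, h1, h2, h3⟩
    obtain ⟨x1, ρ1, a1, a2, a3, a4⟩ :=
      step D hD ((Nat.unpair j).1 + 2) (by omega) j x0 ρ h1 h2 h3
    exact ⟨⟨(x1, ρ1), h1.trans a2, a3.trans h2, by simp only at h3 ⊢; omega⟩, a1, a2, a3, a4⟩
  choose F hF using hstep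
  let s : ℕ → St := fun j => Nat.rec ⟨(0, 20 * D + 22), le_rfl, by simpa using tw_le_one _, le_rfl⟩
    (fun j s => F j s) j
  have hs : ∀ j, s (j + 1) = F j (s j) := fun j => rfl
  let x : ℕ → ℝ := fun j => (s j).1.1
  let ρ : ℕ → ℕ := fun j => (s j).1.2
  have hx : Monotone x := monotone_nat_of_le_succ fun j => (hF j (s j)).2.1
  have hx' : Antitone fun j => x j + tw (ρ j) :=
    antitone_nat_of_succ_le fun j => (hF j (s j)).2.2.1
  have hb : ∀ j i, x i ≤ x j + tw (ρ j) := by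
    intro j i
    have h1 := hx (le_max_left i j)
    have h2 := hx' (le_max_right i j)
    have h3 := tw_pos (ρ (max i j))
    simp only at h2
    linarith
  have hbdd : BddAbove (Set.range x) := ⟨_, by rintro _ ⟨i, rfl⟩; exact hb 0 i⟩
  have h1 : ∀ j, x j ≤ ⨆ i, x i := fun j => le_ciSup hbdd j
  have h2 : ∀ j, (⨆ i, x i) ≤ x j + tw (ρ j) := fun j => ciSup_le (hb j)
  have hρ : ∀ j, ρ j + 1 ≤ ρ (j + 1) := fun j => (hF j (s j)).1
  have key := fun j => (hF j (s j)).2.2.2 (⨆ i, x i) (h1 (j + 1)) (h2 (j + 1))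
  refine ⟨⨆ i, x i, ⟨ρ 0, fun l hl => ?_⟩, fun n => ⟨ρ n + 1, fun a ha => ?_⟩, fun m hm j => ?_⟩
  · obtain ⟨j, -, a1, a2⟩ := exists_level ρ hρ 0 ((2 * D + 2) * l + 2) (by nlinarith)
    exact (key j).1 l a1 a2
  · obtain ⟨j, a0, a1, a2⟩ := exists_level ρ hρ n (UV n * a) (by unfold UV; nlinarith)
    exact (key j).2.1 n a0 a a1 a2
  · obtain ⟨P, u, a1, a2⟩ := (key (Nat.pair (m - 2) j)).2.2
    rw [Nat.unpair_pair] at a2
    simp only [Nat.sub_add_cancel hm] at a2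
    exact ⟨P, u, (Nat.right_le_pair _ _).trans a1, a2⟩

end Pool.Agent.MP_b86f6c_nt
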