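import Pool.Agent.MP_b86f6c_nt.Basic

set_option autoImplicit false

namespace Pool.Agent.MP_b86f6c_nt

open Polynomial Finset

lemma pow_div_factorial_le (k : ℕ) : (k : ℝ) ^ k / k.factorial ≤ 4 ^ k := by
  calc (k : ℝ) ^ k / k.factorial ≤ Real.exp k := Real.pow_div_factorial_le_exp _ (by positivity) k
    _ = Real.exp 1 ^ k := by rw [← Real.exp_nat_mul, mul_one]
    _ ≤ 4 ^ k := pow_le_pow_left₀ (Real.exp_pos _).le
        (by linarith [Real.exp_one_lt_d9]) k

/-- Explicit Hermite-Pade approximants for the system of powers of `x^(1/m)`. -/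
lemma exists_approx (m k n i : ℕ) (hn : n < m) (hi : i ≤ n) (hk : 1 ≤ k) :
    ∃ (ρ : ℕ → ℤ) (R : ℝ[X]), (∀ e, R.coeff e = ρ e) ∧ (∀ e, m * k + n < e → ρ e = 0) ∧
      (∀ j h, n < j → j < m → h < k → ρ (j + m * h) = 0) ∧
      (∀ j ≤ n, j ≠ i → ρ (j + m * k) = 0) ∧ ρ (i + m * k) ≠ 0 ∧
      (X - 1) ^ ((n + 1) * k) ∣ R ∧ ∀ e, |(ρ e : ℝ)| ≤ 2 ^ (9 * m ^ 2 * k) := by
  classical
  set M := m * k + n with hM
  obtain ⟨d, hd⟩ : ∃ d, m = n + 1 + d := ⟨m - (n + 1), by omega⟩
  have hc1 : (Finset.Ioo n m).card = d := by rw [Nat.card_Ioo]; omega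
  have hc2 : ((range (n + 1)).erase i).card = n := by
    rw [Finset.card_erase_of_mem (Finset.mem_range.2 (by omega)), Finset.card_range]; omega
  obtain ⟨Q1, hQ1, hQ1c⟩ := exists_theta (Finset.Ioo n m ×ˢ range k)
    (fun x => (x.1 : ℝ) + m * x.2) ((X - 1) ^ M) ((n + 1) * k + n) (by
      rw [Finset.card_product, hc1, Finset.card_range]
      refine pow_dvd_pow _ (le_of_eq ?_)
      rw [hM, hd]; ring)
  obtain ⟨Q2, hQ2, hQ2c⟩ := exists_theta ((range (n + 1)).erase i)
    (fun j => (j : ℝ) + m * k) Q1 ((n + 1) * k) (by rw [hc2]; exact hQ1)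
  let z : ℕ → ℕ → ℤ := fun j e =>
    ((m : ℤ) ^ k * ∏ h ∈ range k, (((e : ℤ) - j) - m * h)) / k.factorial
  have hz : ∀ j e, (z j e : ℝ)
      = ((m : ℝ) ^ k / k.factorial) * ∏ h ∈ range k, ((e : ℝ) - (j + m * h)) := by
    intro j e
    simp only [z]
    rw [Int.cast_div (factorial_dvd_prod m k _) (by exact_mod_cast Nat.factorial_ne_zero k)]
    push_cast
    simp only [sub_sub]
    ring
  let ρ : ℕ → ℤ := fun e => (-1) ^ (M - e) * (M.choose e) * (∏ j ∈ Finset.Ioo n m, z j e) *
    ∏ j ∈ (range (n + 1)).erase i, ((e : ℤ) - (j + m * k))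
  have hP0 : ∀ e, ((X - 1 : ℝ[X]) ^ M).coeff e = (-1) ^ (M - e) * (M.choose e) := by
    intro e
    rw [← coeff_X_add_C_pow]; simp [sub_eq_add_neg]
  have hρ : ∀ e, (ρ e : ℝ) = (-1) ^ (M - e) * (M.choose e) *
      (∏ j ∈ Finset.Ioo n m, (z j e : ℝ)) *
      ∏ j ∈ (range (n + 1)).erase i, ((e : ℝ) - (j + m * k)) := by
    intro e; simp only [ρ]; push_cast; rfl
  have hmpos : (0 : ℝ) < m := by exact_mod_cast (by omega : 0 < m)
  have hfpos : (0 : ℝ) < k.factorial := by exact_mod_cast Nat.factorial_pos k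
  refine ⟨ρ, C (((m : ℝ) ^ k / k.factorial) ^ d) * Q2, ?_, ?_, ?_, ?_, ?_, ?_, ?_⟩
  · intro e
    rw [coeff_C_mul, hQ2c, hQ1c, hP0, hρ, Finset.prod_product]
    simp only [hz]
    rw [Finset.prod_mul_distrib, Finset.prod_const, hc1]
    ring
  · intro e he
    simp only [ρ]
    rw [Nat.choose_eq_zero_of_lt he]; simp
  · intro j h hj hjm hh
    have : z j (j + m * h) = 0 := by
      simp only [z]
      rw [Finset.prod_eq_zero (Finset.mem_range.2 hh) (by push_cast; ring)]; simp
    simp only [ρ]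
    rw [Finset.prod_eq_zero (Finset.mem_Ioo.2 ⟨hj, hjm⟩) this]; simp
  · intro j hj hji
    simp only [ρ]
    rw [Finset.prod_eq_zero (s := (range (n + 1)).erase i)
      (Finset.mem_erase.2 ⟨hji, Finset.mem_range.2 (by omega)⟩) (by push_cast; ring)]; simp
  · have : (ρ (i + m * k) : ℝ) ≠ 0 := by
      rw [hρ]
      refine mul_ne_zero (mul_ne_zero (mul_ne_zero (by positivity) ?_) ?_) ?_
      · exact_mod_cast (Nat.choose_pos (by omega)).ne'
      · refine Finset.prod_ne_zero_iff.2 fun j hj => ?_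
        rw [hz]
        refine mul_ne_zero (by positivity) (Finset.prod_ne_zero_iff.2 fun h hh => ?_)
        have h1 := (Finset.mem_Ioo.1 hj).2
        have h2 := Finset.mem_range.1 hh
        have h3 : j + m * h < i + m * k := by nlinarith
        have h4 : ((j + m * h : ℕ) : ℝ) < ((i + m * k : ℕ) : ℝ) := by exact_mod_cast h3
        push_cast at h4 ⊢
        linarith
      · refine Finset.prod_ne_zero_iff.2 fun j hj => ?_
        have h1 := (Finset.mem_erase.1 hj).1
        push_cast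
        intro h2
        apply h1
        have : (j : ℝ) = i := by linarith
        exact_mod_cast this
    exact_mod_cast this
  · exact Dvd.dvd.mul_left hQ2 _
  · intro e
    by_cases he : M < e
    · simp only [ρ]
      rw [Nat.choose_eq_zero_of_lt he]; simp
    push Not at he
    have hM2 : M ≤ 2 * m * k := by rw [hM]; nlinarith
    have hb1 : ((M.choose e : ℕ) : ℝ) ≤ 2 ^ (2 * m * k) :=
      (choose_le_two_pow' M e).trans (pow_le_pow_right₀ (by norm_num) hM2)
    have hdiff : ∀ t : ℕ, t ≤ M → |(e : ℝ) - t| ≤ 2 * m * k := by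
      intro t ht
      have h1 : (e : ℝ) ≤ 2 * m * k := by exact_mod_cast he.trans hM2
      have h2 : (t : ℝ) ≤ 2 * m * k := by exact_mod_cast ht.trans hM2
      have h3 : (0 : ℝ) ≤ e := by positivity
      have h4 : (0 : ℝ) ≤ t := by positivity
      rw [abs_le]; constructor <;> linarith
    have hb2 : ∀ j ∈ Finset.Ioo n m, |(z j e : ℝ)| ≤ 2 ^ ((3 + 2 * m) * k) := by
      intro j hj
      have h1 := (Finset.mem_Ioo.1 hj).2
      rw [hz, abs_mul, Finset.abs_prod, abs_of_pos (by positivity)]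
      have h2 : ∏ h ∈ range k, |(e : ℝ) - (j + m * h)| ≤ (2 * m * k : ℝ) ^ k := by
        have : ∏ h ∈ range k, |(e : ℝ) - (j + m * h)| ≤ ∏ h ∈ range k, (2 * m * k : ℝ) := by
          refine Finset.prod_le_prod (fun _ _ => abs_nonneg _) fun h hh => ?_
          have h2 := Finset.mem_range.1 hh
          have := hdiff (j + m * h) (by rw [hM]; nlinarith)
          push_cast at this
          exact this
        simpa using this
      have h3 : (m : ℝ) ≤ 2 ^ m := nat_le_two_pow m
      calc (m : ℝ) ^ k / k.factorial * ∏ h ∈ range k, |(e : ℝ) - (j + m * h)|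
          ≤ (m : ℝ) ^ k / k.factorial * (2 * m * k : ℝ) ^ k :=
            mul_le_mul_of_nonneg_left h2 (by positivity)
        _ = (m * (2 * m)) ^ k * ((k : ℝ) ^ k / k.factorial) := by
            rw [mul_pow, mul_pow (m : ℝ)]; ring
        _ ≤ (m * (2 * m)) ^ k * 4 ^ k :=
            mul_le_mul_of_nonneg_left (pow_div_factorial_le k) (by positivity)
        _ = (8 * (m * m)) ^ k := by rw [← mul_pow]; ring
        _ ≤ (2 ^ (3 + 2 * m)) ^ k := by
            refine pow_le_pow_left₀ (by positivity) ?_ k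
            calc (8 : ℝ) * (m * m) ≤ 8 * (2 ^ m * 2 ^ m) := by gcongr
              _ = 2 ^ (3 + 2 * m) := by ring
        _ = 2 ^ ((3 + 2 * m) * k) := by rw [← pow_mul]
    have hb3 : |∏ j ∈ Finset.Ioo n m, (z j e : ℝ)| ≤ 2 ^ ((3 + 2 * m) * k * m) := by
      rw [Finset.abs_prod]
      calc ∏ j ∈ Finset.Ioo n m, |(z j e : ℝ)|
          ≤ ∏ j ∈ Finset.Ioo n m, (2 : ℝ) ^ ((3 + 2 * m) * k) :=
            Finset.prod_le_prod (fun _ _ => abs_nonneg _) hb2
        _ = 2 ^ ((3 + 2 * m) * k * d) := by rw [Finset.prod_const, hc1, ← pow_mul]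
        _ ≤ 2 ^ ((3 + 2 * m) * k * m) :=
            pow_le_pow_right₀ (by norm_num) (Nat.mul_le_mul_left _ (by omega))
    have hb4 : |∏ j ∈ (range (n + 1)).erase i, ((e : ℝ) - (j + m * k))|
        ≤ 2 ^ (2 * m * k * m) := by
      rw [Finset.abs_prod]
      calc ∏ j ∈ (range (n + 1)).erase i, |(e : ℝ) - (j + m * k)|
          ≤ ∏ j ∈ (range (n + 1)).erase i, (2 : ℝ) ^ (2 * m * k) := by
            refine Finset.prod_le_prod (fun _ _ => abs_nonneg _) fun j hj => ?_
            have h1 := Finset.mem_range.1 (Finset.mem_erase.1 hj).2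
            have h2 := hdiff (j + m * k) (by omega)
            have h3 := nat_le_two_pow (2 * m * k)
            push_cast at h2 h3
            exact h2.trans h3
        _ = 2 ^ (2 * m * k * n) := by rw [Finset.prod_const, hc2, ← pow_mul]
        _ ≤ 2 ^ (2 * m * k * m) :=
            pow_le_pow_right₀ (by norm_num) (Nat.mul_le_mul_left _ (by omega))
    rw [hρ, abs_mul, abs_mul, abs_mul, abs_pow, abs_neg, abs_one, one_pow, one_mul, Nat.abs_cast]
    calc _ ≤ (2 : ℝ) ^ (2 * m * k) * 2 ^ ((3 + 2 * m) * k * m) * 2 ^ (2 * m * k * m) := by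
          gcongr
      _ = 2 ^ ((5 * m + 4 * m ^ 2) * k) := by rw [← pow_add, ← pow_add]; congr 1; ring
      _ ≤ 2 ^ (9 * m ^ 2 * k) :=
          pow_le_pow_right₀ (by norm_num) (Nat.mul_le_mul_right _ (by nlinarith))

lemma split_poly (R : ℝ[X]) (m k n : ℕ) (hn : n < m)
    (h1 : ∀ e, m * k + n < e → R.coeff e = 0)
    (h2 : ∀ j h, n < j → j < m → h < k → R.coeff (j + m * h) = 0) :
    R = ∑ j ∈ range (n + 1), ∑ h ∈ range (k + 1), monomial (j + m * h) (R.coeff (j + m * h)) := by
  ext e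
  have hm : 0 < m := by omega
  have huniq : ∀ j h, j < m → j + m * h = e → j = e % m ∧ h = e / m := by
    intro j h hj he
    subst he
    rw [Nat.add_mul_mod_self_left, Nat.add_mul_div_left _ _ hm, Nat.mod_eq_of_lt hj,
      Nat.div_eq_of_lt hj]
    simp
  simp only [finsetSum_coeff, coeff_monomial]
  rw [← Finset.sum_product']
  by_cases hc : e % m ≤ n ∧ e / m ≤ k
  · rw [Finset.sum_eq_single (e % m, e / m)]
    · simp [Nat.mod_add_div]
    · rintro ⟨j, h⟩ hjh hne
      have hj := Finset.mem_range.1 (Finset.mem_product.1 hjh).1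
      rw [if_neg]
      intro he
      obtain ⟨rfl, rfl⟩ := huniq j h (by simp at hj; omega) he
      exact hne rfl
    · intro hnot
      exact absurd (Finset.mem_product.2 ⟨Finset.mem_range.2 (by simp; omega),
        Finset.mem_range.2 (by simp; omega)⟩) hnot
  · rw [Finset.sum_eq_zero]
    · have hmd := Nat.mod_add_div e m
      have hlt := Nat.mod_lt e hm
      by_cases hk : e / m < k
      · rw [← hmd]; exact h2 _ _ (by omega) hlt hk
      · apply h1
        by_cases hk2 : e / m = k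
        · rw [← hmd, hk2]; omega
        · have : m * (k + 1) ≤ m * (e / m) := Nat.mul_le_mul_left _ (by omega)
          rw [mul_add, mul_one] at this
          omega
    · rintro ⟨j, h⟩ hjh
      have hj := Finset.mem_range.1 (Finset.mem_product.1 hjh).1
      have hh := Finset.mem_range.1 (Finset.mem_product.1 hjh).2
      rw [if_neg]
      intro he
      obtain ⟨h3, h4⟩ := huniq j h (by simp at hj; omega) he
      simp at hj hh
      omega

lemma eq_zero_of_sections (F : ℝ[X]) (m k n : ℕ) (hn : n < m) (x0 : ℝ) (hx0 : x0 ≠ 1)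
    (h1 : ∀ e, m * k + n < e → F.coeff e = 0)
    (h2 : ∀ j h, n < j → j < m → h < k → F.coeff (j + m * h) = 0)
    (h3 : ∀ j ≤ n, ∑ h ∈ range (k + 1), F.coeff (j + m * h) * x0 ^ h = 0)
    (h4 : (X - 1) ^ ((n + 1) * k) ∣ F) : F = 0 := by
  classical
  let B : ℕ → ℝ[X] := fun j => ∑ h ∈ range (k + 1), monomial h (F.coeff (j + m * h))
  have hB : ∀ j, j ≤ n → ∃ b : ℕ → ℝ, B j = (X - C x0) * ∑ h ∈ range k, monomial h (b h) := by
    intro j hj
    have hroot : (B j).IsRoot x0 := by
      simp only [B, IsRoot.def, eval_finsetSum, eval_monomial]; exact h3 j hj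
    obtain ⟨B', hB'⟩ := dvd_iff_isRoot.2 hroot
    by_cases h0 : B' = 0
    · exact ⟨fun _ => 0, by simp [hB', h0]⟩
    · have hdeg : (B j).natDegree ≤ k := by
        refine natDegree_sum_le_of_forall_le _ _ fun h hh => ?_
        exact (natDegree_monomial_le _).trans (by have := Finset.mem_range.1 hh; omega)
      rw [hB', natDegree_mul (X_sub_C_ne_zero _) h0, natDegree_X_sub_C] at hdeg
      exact ⟨fun h => B'.coeff h, by rw [hB', ← B'.as_sum_range' k (by omega)]⟩
  choose! b hb using hB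
  let G : ℝ[X] := ∑ j ∈ range (n + 1), ∑ h ∈ range k, monomial (j + m * h) (b j h)
  have hexp : ∀ (j L : ℕ) (c : ℕ → ℝ),
      X ^ j * expand ℝ m (∑ h ∈ range L, monomial h (c h))
        = ∑ h ∈ range L, monomial (j + m * h) (c h) := by
    intro j L c
    rw [map_sum, Finset.mul_sum]
    refine Finset.sum_congr rfl fun h _ => ?_
    rw [expand_monomial, X_pow_mul_monomial]
    congr 2; ring
  have hF : F = (X ^ m - C x0) * G := by
    rw [split_poly F m k n hn h1 h2, Finset.mul_sum]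
    refine Finset.sum_congr rfl fun j hj => ?_
    have hj' : j ≤ n := by have := Finset.mem_range.1 hj; omega
    rw [← hexp, ← hexp]
    change X ^ j * expand ℝ m (B j) = _
    rw [hb j hj', map_mul, map_sub, expand_X, expand_C]; ring
  have hcop : IsCoprime ((X - 1 : ℝ[X]) ^ ((n + 1) * k)) (X ^ m - C x0) := by
    refine IsCoprime.pow_left ?_
    rw [← C_1, (irreducible_X_sub_C (1 : ℝ)).coprime_iff_not_dvd, dvd_iff_isRoot]
    simp only [IsRoot.def, eval_sub, eval_pow, eval_X, one_pow, eval_C]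
    exact sub_ne_zero.2 hx0.symm
  have hG : (X - 1 : ℝ[X]) ^ ((n + 1) * k) ∣ G := hcop.dvd_of_dvd_mul_left (hF ▸ h4)
  have hsupp : G.support ⊆ (range (n + 1) ×ˢ range k).image fun x => x.1 + m * x.2 := by
    intro e he
    by_contra hne
    apply mem_support_iff.1 he
    simp only [G, finsetSum_coeff, coeff_monomial]
    refine Finset.sum_eq_zero fun j hj => Finset.sum_eq_zero fun h hh => if_neg fun h5 => ?_
    exact hne (Finset.mem_image.2 ⟨(j, h), Finset.mem_product.2 ⟨hj, hh⟩, h5⟩)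
  have hG0 : G = 0 := by
    refine eq_zero_of_sparse _ G ?_ hG
    calc G.support.card ≤ _ := Finset.card_le_card hsupp
      _ ≤ (range (n + 1) ×ˢ range k).card := Finset.card_image_le
      _ = (n + 1) * k := by simp
  rw [hF, hG0, mul_zero]

lemma exists_matrix (m k n N : ℕ) (hn : n < m) (hk : 1 ≤ k) (hN : 1 ≤ N) (γ : ℝ)
    (hγ : (N : ℝ) * γ ^ m = N + 1) (hγ1 : 1 ≤ γ) (hγ2 : γ ≤ 1 + 1 / N) :
    ∃ A : Matrix (Fin (n + 1)) (Fin (n + 1)) ℤ, A.det ≠ 0 ∧
      (∀ i j, |(A i j : ℝ)| ≤ 2 ^ (17 * m ^ 2 * k) * (N : ℝ) ^ k) ∧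
      ∀ i, |∑ j, (A i j : ℝ) * γ ^ (j : ℕ)| ≤ 2 ^ (17 * m ^ 2 * k) / (N : ℝ) ^ (n * k) := by
  classical
  choose ρ R hR h1 h2 h3 h4 h5 h6 using
    fun i : Fin (n + 1) => exists_approx m k n i hn (by omega) hk
  have hNpos : (0 : ℝ) < N := by exact_mod_cast hN
  have hN1 : (1 : ℝ) ≤ N := by exact_mod_cast hN
  let A : Matrix (Fin (n + 1)) (Fin (n + 1)) ℤ := fun i j =>
    ∑ h ∈ range (k + 1), ρ i (j + m * h) * ((N + 1) ^ h * N ^ (k - h))
  have hγm : γ ^ m = (N + 1) / N := by field_simp; linarith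
  have hA : ∀ i j, (A i j : ℝ)
      = N ^ k * ∑ h ∈ range (k + 1), (ρ i (j + m * h) : ℝ) * (γ ^ m) ^ h := by
    intro i j
    simp only [A]
    push_cast
    rw [Finset.mul_sum]
    refine Finset.sum_congr rfl fun h hh => ?_
    have hh' : h ≤ k := by have := Finset.mem_range.1 hh; omega
    obtain ⟨t, rfl⟩ := Nat.exists_eq_add_of_le hh'
    rw [hγm, Nat.add_sub_cancel_left, div_pow]
    field_simp
    ring
  refine ⟨A, ?_, ?_, ?_⟩
  · intro hdet
    obtain ⟨v, hv0, hv⟩ := Matrix.exists_vecMul_eq_zero_iff.2 hdet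
    let F : ℝ[X] := ∑ i, C (v i : ℝ) * R i
    have hFc : ∀ e, F.coeff e = ∑ i, (v i : ℝ) * ρ i e := by
      intro e; simp only [F, finsetSum_coeff, coeff_C_mul, hR]
    have hF : F = 0 := by
      refine eq_zero_of_sections F m k n hn (γ ^ m) ?_ ?_ ?_ ?_ ?_
      · rw [hγm]; intro h; field_simp at h; linarith
      · intro e he; rw [hFc]; simp [h1 _ e he]
      · intro j h a b c; rw [hFc]; simp [h2 _ j h a b c]
      · intro j hj
        have h7 := congrFun hv ⟨j, by omega⟩
        simp only [Matrix.vecMul, dotProduct, Pi.zero_apply] at h7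
        have h8 : ∑ i, (v i : ℝ) * (A i ⟨j, by omega⟩ : ℝ) = 0 := by exact_mod_cast h7
        simp only [hA] at h8
        have h9 : (N : ℝ) ^ k * ∑ h ∈ range (k + 1), F.coeff (j + m * h) * (γ ^ m) ^ h = 0 := by
          rw [← h8]
          simp only [hFc, Finset.mul_sum, Finset.sum_mul]
          rw [Finset.sum_comm]
          refine Finset.sum_congr rfl fun _ _ => Finset.sum_congr rfl fun _ _ => by ring
        exact (mul_eq_zero.1 h9).resolve_left (by positivity)
      · exact Finset.dvd_sum fun i _ => Dvd.dvd.mul_left (h5 i) _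
    apply hv0
    funext i
    have h7 := hFc (i + m * k)
    rw [hF, coeff_zero, Finset.sum_eq_single i] at h7
    · rcases mul_eq_zero.1 h7.symm with h8 | h8
      · exact_mod_cast h8
      · exact absurd (by exact_mod_cast h8) (h4 i)
    · intro i' _ hi'
      rw [h3 i' i (by omega) (fun h => hi' (Fin.ext h.symm))]; simp
    · simp
  · intro i j
    have hg2 : γ ^ m ≤ 2 := by rw [hγm, div_le_iff₀ hNpos]; linarith
    have hg0 : 0 ≤ γ ^ m := by positivity
    rw [hA, abs_mul, abs_of_pos (by positivity), mul_comm]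
    refine mul_le_mul_of_nonneg_right ?_ (by positivity)
    calc |∑ h ∈ range (k + 1), (ρ i (j + m * h) : ℝ) * (γ ^ m) ^ h|
        ≤ ∑ h ∈ range (k + 1), |(ρ i (j + m * h) : ℝ) * (γ ^ m) ^ h| :=
          Finset.abs_sum_le_sum_abs _ _
      _ ≤ ∑ h ∈ range (k + 1), (2 : ℝ) ^ (9 * m ^ 2 * k) * 2 ^ k := by
          refine Finset.sum_le_sum fun h hh => ?_
          have hh' : h ≤ k := by have := Finset.mem_range.1 hh; omega
          rw [abs_mul, abs_pow, abs_of_nonneg hg0]
          refine mul_le_mul (h6 _ _) ?_ (by positivity) (by positivity)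
          exact (pow_le_pow_left₀ hg0 hg2 h).trans (pow_le_pow_right₀ (by norm_num) hh')
      _ = ((k : ℝ) + 1) * (2 ^ (9 * m ^ 2 * k) * 2 ^ k) := by
          rw [Finset.sum_const, Finset.card_range, nsmul_eq_mul]; push_cast; ring
      _ ≤ 2 ^ k * (2 ^ (9 * m ^ 2 * k) * 2 ^ k) :=
          mul_le_mul_of_nonneg_right (nat_succ_le_two_pow k) (by positivity)
      _ = 2 ^ ((9 * m ^ 2 + 2) * k) := by rw [← pow_add, ← pow_add]; congr 1; ring
      _ ≤ 2 ^ (17 * m ^ 2 * k) :=
          pow_le_pow_right₀ (by norm_num) (Nat.mul_le_mul_right _ (by nlinarith))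
  · intro i
    have hsum : ∑ j, (A i j : ℝ) * γ ^ (j : ℕ) = N ^ k * (R i).eval (1 + (γ - 1)) := by
      rw [add_sub_cancel, split_poly (R i) m k n hn (fun e he => by rw [hR, h1 i e he]; simp)
        (fun j h a b c => by rw [hR, h2 i j h a b c]; simp)]
      simp only [eval_finsetSum, eval_monomial, hA, hR]
      rw [Finset.mul_sum, ← Fin.sum_univ_eq_sum_range
        (fun j => (N : ℝ) ^ k * ∑ h ∈ range (k + 1), (ρ i (j + m * h) : ℝ) * γ ^ (j + m * h))]
      refine Finset.sum_congr rfl fun j _ => ?_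
      rw [mul_assoc, Finset.sum_mul]
      congr 1
      refine Finset.sum_congr rfl fun h _ => ?_
      rw [pow_add, pow_mul]; ring
    have hdeg : (R i).natDegree ≤ 2 * m * k := by
      refine natDegree_le_iff_coeff_eq_zero.2 fun e he => ?_
      rw [hR, h1 i e (by nlinarith)]; simp
    have hy0 : 0 ≤ γ - 1 := by linarith
    have hy1 : γ - 1 ≤ 1 / N := by linarith
    have hy2 : (1 : ℝ) / N ≤ 1 := by rw [div_le_one hNpos]; exact hN1
    have hb := taylor_tail_zero (R i) (2 * m * k) (2 ^ (9 * m ^ 2 * k)) 1 (γ - 1) hdeg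
      (fun e => by rw [hR]; exact h6 i e) (by norm_num)
      (by rw [abs_of_nonneg hy0]; linarith) ((n + 1) * k) (by
        rw [← X_pow_dvd_iff]
        obtain ⟨S, hS⟩ := h5 i
        rw [hS, taylor_mul, taylor_pow]
        refine Dvd.dvd.mul_right (dvd_of_eq ?_) _
        congr 1
        simp [taylor_apply])
    rw [hsum, abs_mul, abs_of_pos (by positivity)]
    rw [abs_of_nonneg hy0] at hb
    calc (N : ℝ) ^ k * |(R i).eval (1 + (γ - 1))|
        ≤ N ^ k * (2 ^ (4 * (2 * m * k)) * 2 ^ (9 * m ^ 2 * k) * (1 / N) ^ ((n + 1) * k)) := by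
          refine mul_le_mul_of_nonneg_left (hb.trans ?_) (by positivity)
          gcongr
      _ = 2 ^ ((9 * m ^ 2 + 8 * m) * k) / (N : ℝ) ^ (n * k) := by
          rw [← pow_add, show (n + 1) * k = n * k + k by ring, pow_add (1 / (N : ℝ)),
            show 4 * (2 * m * k) + 9 * m ^ 2 * k = (9 * m ^ 2 + 8 * m) * k by ring,
            div_pow, div_pow, one_pow, one_pow]
          field_simp
      _ ≤ 2 ^ (17 * m ^ 2 * k) / (N : ℝ) ^ (n * k) := by
          refine div_le_div_of_nonneg_right ?_ (by positivity)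
          exact pow_le_pow_right₀ (by norm_num) (Nat.mul_le_mul_right _ (by nlinarith))

lemma linear_form_lower {n : ℕ} (A : Matrix (Fin (n + 1)) (Fin (n + 1)) ℤ) (hA : A.det ≠ 0)
    (v : Fin (n + 1) → ℝ) (hv : v 0 = 1) (a r H : ℝ) (ha : 0 < a) (hH : 0 < H)
    (h1 : ∀ i j, |(A i j : ℝ)| ≤ a) (h2 : ∀ i, |∑ j, (A i j : ℝ) * v j| ≤ r)
    (h : Fin (n + 1) → ℤ) (hh : h ≠ 0) (h3 : ∀ j, |(h j : ℝ)| ≤ H)
    (h4 : ((n + 1).factorial : ℝ) * H * a ^ n * r < a) :
    1 ≤ ((n + 1).factorial : ℝ) * a ^ n * |∑ j, (h j : ℝ) * v j| := by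
  classical
  obtain ⟨i, hi⟩ : ∃ i, (A.updateRow i h).det ≠ 0 := by
    by_contra hc
    push Not at hc
    have h5 : Matrix.cramer A.transpose h = 0 := by
      funext i; rw [Matrix.cramer_transpose_apply]; exact hc i
    have h6 := Matrix.mulVec_cramer A.transpose h
    rw [h5, Matrix.mulVec_zero, Matrix.det_transpose] at h6
    exact hh ((smul_eq_zero.1 h6.symm).resolve_left hA)
  set L := |∑ j, (h j : ℝ) * v j| with hL
  let B : Matrix (Fin (n + 1)) (Fin (n + 1)) ℝ := (A.updateRow i h).map (Int.cast : ℤ → ℝ)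
  have hBdet : 1 ≤ |B.det| := by
    have : B.det = ((A.updateRow i h).det : ℝ) := by
      simp only [B]; rw [Int.cast_det]
    rw [this, ← Int.cast_abs]
    exact_mod_cast Int.one_le_abs hi
  have hB : ∀ i' j, B i' j = if i' = i then (h j : ℝ) else (A i' j : ℝ) := by
    intro i' j
    simp only [B, Matrix.map_apply, Matrix.updateRow_apply]
    split_ifs <;> rfl
  have h5 := Matrix.det_updateCol_sum B 0 v
  rw [hv, one_smul] at h5
  set w0 := max (L / H) (r / a) with hw0
  have h6 := abs_det_le (B.updateCol 0 fun k => ∑ j, v j • B k j)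
    (Function.update (fun _ => a) i H) (Function.update (fun _ => 1) 0 w0) (by
      intro i' j
      rw [Matrix.updateCol_apply]
      by_cases hj : j = 0
      · subst hj
        simp only [if_true, Function.update_self, hB, smul_eq_mul]
        by_cases hi' : i' = i
        · subst hi'
          simp only [if_true, Function.update_self]
          have : L / H ≤ w0 := le_max_left _ _
          rw [div_le_iff₀ hH] at this
          simp only [mul_comm (v _)]
          linarith
        · simp only [if_neg hi', Function.update_of_ne hi']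
          have : r / a ≤ w0 := le_max_right _ _
          rw [div_le_iff₀ ha] at this
          simp only [mul_comm (v _)]
          linarith [h2 i']
      · rw [if_neg hj, Function.update_of_ne hj, hB, mul_one]
        by_cases hi' : i' = i
        · subst hi'; simpa using h3 j
        · simpa [hi'] using h1 i' j)
  rw [h5, Finset.prod_update_of_mem (Finset.mem_univ _),
    Finset.prod_update_of_mem (Finset.mem_univ _)] at h6
  simp only [Finset.prod_const, one_pow, mul_one, Finset.sdiff_singleton_eq_erase,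
    Finset.card_erase_of_mem (Finset.mem_univ _), Finset.card_univ, Fintype.card_fin,
    Nat.add_sub_cancel] at h6
  have h7 := hBdet.trans h6
  rcases le_total (L / H) (r / a) with h8 | h8
  · rw [hw0, max_eq_right h8] at h7
    have : ((n + 1).factorial : ℝ) * (H * a ^ n * (r / a)) < 1 := by
      rw [← mul_div_assoc, ← mul_div_assoc, div_lt_one ha]; linarith
    linarith
  · rw [hw0, max_eq_left h8] at h7
    refine h7.trans (le_of_eq ?_)
    field_simp

/-- The effective measure of linear independence. -/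
lemma exists_gamma (m D : ℕ) (hm : 2 ≤ m) (hD : 1 ≤ D) :
    ∃ (N : ℕ) (γ : ℝ) (c : ℕ), 1 ≤ N ∧ (N : ℝ) * γ ^ m = N + 1 ∧ 1 ≤ γ ∧ γ ≤ 2 ∧
      ∀ n < m, ∀ (a : ℕ) (h : Fin (n + 1) → ℤ), h ≠ 0 → (∀ j, |(h j : ℝ)| ≤ 2 ^ a) →
        tw (n * (a + a / D) + c) ≤ |∑ j, (h j : ℝ) * γ ^ (j : ℕ)| := by
  set B := 17 * m ^ 3 with hB
  have hB1 : 1 ≤ B := by rw [hB]; exact Nat.one_le_iff_ne_zero.2 (by positivity)
  set N := 2 ^ ((2 * D + 1) * B) with hN
  have hN1 : 1 ≤ N := Nat.one_le_two_pow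
  have hNpos : (0 : ℝ) < N := by exact_mod_cast hN1
  have hN1' : (1 : ℝ) ≤ N := by exact_mod_cast hN1
  obtain ⟨γ, hγ0, hγ⟩ : ∃ γ : ℝ, 0 ≤ γ ∧ γ ^ m = 1 + 1 / N :=
    ⟨(1 + 1 / N : ℝ) ^ ((m : ℝ)⁻¹), by positivity,
      Real.rpow_inv_natCast_pow (by positivity) (by omega)⟩
  have hinv : (0 : ℝ) < 1 / N := by positivity
  have hγ1 : 1 ≤ γ := by
    by_contra hc
    push Not at hc
    have := pow_lt_one₀ hγ0 hc (by omega : m ≠ 0)
    linarith
  have hγ2 : γ ≤ 1 + 1 / N := by
    rw [← hγ]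
    exact le_self_pow₀ hγ1 (by omega)
  have hinv1 : (1 : ℝ) / N ≤ 1 := by rw [div_le_one hNpos]; exact hN1'
  set c1 := m.factorial with hc1
  refine ⟨N, γ, c1 + m * (1 + 2 * c1 + (2 * D + 2) * B), hN1, by rw [hγ]; field_simp, hγ1,
    by linarith, ?_⟩
  intro n hn a h hh ha
  set k := (a + c1) / (2 * D * B) + 1 with hk
  have hDB : 0 < 2 * D * B := by positivity
  have hk1 : a + c1 < 2 * D * B * k := by
    rw [hk]; exact Nat.lt_mul_div_succ _ hDB
  have hk2 : 2 * D * B * k ≤ a + c1 + 2 * D * B := by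
    rw [hk, mul_add, mul_one]
    exact Nat.add_le_add_right (Nat.mul_div_le _ _) _
  obtain ⟨A, hA, hA1, hA2⟩ := exists_matrix m k n N hn (Nat.le_add_left _ _) hN1 γ
    (by rw [hγ]; field_simp) hγ1 hγ2
  have hfac : ((n + 1).factorial : ℝ) ≤ 2 ^ c1 := by
    have h1 : (n + 1).factorial ≤ c1 := Nat.factorial_le (by omega)
    exact (Nat.cast_le.2 h1).trans (nat_le_two_pow c1)
  have hNr : (N : ℝ) = 2 ^ ((2 * D + 1) * B) := by rw [hN]; push_cast; rfl
  have hb : n * (17 * m ^ 2) ≤ B := by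
    rw [hB]
    calc n * (17 * m ^ 2) ≤ m * (17 * m ^ 2) := Nat.mul_le_mul_right _ hn.le
      _ = 17 * m ^ 3 := by ring
  have key := linear_form_lower A hA (fun j => γ ^ (j : ℕ)) (by simp) _ _ (2 ^ a)
    (by positivity) (by positivity) hA1 hA2 h hh ha (by
      have e1 : ((n + 1).factorial : ℝ) * 2 ^ a * (2 ^ (17 * m ^ 2 * k) * (N : ℝ) ^ k) ^ n *
          (2 ^ (17 * m ^ 2 * k) / (N : ℝ) ^ (n * k))
          = 2 ^ (17 * m ^ 2 * k) * (((n + 1).factorial : ℝ) * 2 ^ (a + n * (17 * m ^ 2) * k)) := by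
        rw [mul_pow, ← pow_mul, ← pow_mul, mul_comm k n, pow_add,
          show 17 * m ^ 2 * k * n = n * (17 * m ^ 2) * k by ring]
        field_simp
      rw [e1]
      refine mul_lt_mul_of_pos_left ?_ (by positivity)
      calc ((n + 1).factorial : ℝ) * 2 ^ (a + n * (17 * m ^ 2) * k)
          ≤ 2 ^ c1 * 2 ^ (a + n * (17 * m ^ 2) * k) :=
            mul_le_mul_of_nonneg_right hfac (by positivity)
        _ = 2 ^ (c1 + (a + n * (17 * m ^ 2) * k)) := by rw [← pow_add]
        _ < 2 ^ ((2 * D + 1) * B * k) := by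
            refine pow_lt_pow_right₀ (by norm_num) ?_
            have := Nat.mul_le_mul_right k hb
            nlinarith
        _ = (N : ℝ) ^ k := by rw [hNr, ← pow_mul])
  have hpow : ((n + 1).factorial : ℝ) * (2 ^ (17 * m ^ 2 * k) * (N : ℝ) ^ k) ^ n
      ≤ 2 ^ (n * (a + a / D) + (c1 + m * (1 + 2 * c1 + (2 * D + 2) * B))) := by
    rw [hNr, ← pow_mul, ← pow_add, ← pow_mul]
    refine (mul_le_mul_of_nonneg_right hfac (by positivity)).trans ?_
    rw [← pow_add]
    refine pow_le_pow_right₀ (by norm_num) ?_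
    have h1 : 17 * m ^ 2 ≤ B := by
      rw [hB]; exact Nat.mul_le_mul_left _ (Nat.pow_le_pow_right (by omega) (by omega))
    have h2 : a < D * (a / D + 1) := Nat.lt_mul_div_succ _ hD
    have h3 : 2 * B * k ≤ a / D + 1 + c1 + 2 * B := by
      have : D * (2 * B * k) ≤ D * (a / D + 1 + c1 + 2 * B) := by nlinarith
      exact Nat.le_of_mul_le_mul_left this hD
    have h4 : 17 * m ^ 2 * k + (2 * D + 1) * B * k
        ≤ (a + a / D) + (1 + 2 * c1 + (2 * D + 2) * B) := by
      have := Nat.mul_le_mul_right k h1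
      nlinarith
    have h5 := Nat.mul_le_mul_right n h4
    have h6 := Nat.mul_le_mul_right (1 + 2 * c1 + (2 * D + 2) * B) hn.le
    nlinarith
  rw [tw_eq_inv, inv_le_iff_one_le_mul₀' (by positivity)]
  exact key.trans (mul_le_mul_of_nonneg_right hpow (abs_nonneg _))

end Pool.Agent.MP_b86f6c_nt
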