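import Pool.Agent.MP_b86f6c_nt.SqC

/-!
Real numbers with all exponents `wₙ` prescribed, the first one being any real number `≥ 1`.
-/

namespace Pool.Agent.MP_b86f6c_nt.PrescribedOld

theorem result (w : ℕ → EReal) (h1 : 1 ≤ w 1) (h1' : w 1 ≠ ⊤)
    (hm : ∀ n : ℕ, 1 ≤ n → w n ≤ w (n + 1))
    (hb : ∀ n : ℕ, 2 ≤ n → ((32 * ((n : ℝ) + 1) ^ 3 : ℝ) : EReal) ≤ w n) :
    ¬ Set.Countable {ξ : ℝ | Transcendental ℤ ξ ∧ ∀ n : ℕ, 1 ≤ n → ∀ v : ℝ,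
      ((v : EReal) ≤ w n →
        {P : Polynomial ℤ | P.natDegree ≤ n ∧ Polynomial.aeval ξ P ≠ 0 ∧
          |Polynomial.aeval ξ P| ≤
            ((P.support.sup (fun i => (P.coeff i).natAbs) : ℕ) : ℝ) ^ (-v)}.Infinite) ∧
      (w n < (v : EReal) →
        {P : Polynomial ℤ | P.natDegree ≤ n ∧ Polynomial.aeval ξ P ≠ 0 ∧
          |Polynomial.aeval ξ P| ≤
            ((P.support.sup (fun i => (P.coeff i).natAbs) : ℕ) : ℝ) ^ (-v)}.Finite)} := by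
  intro h
  obtain ⟨s, hs⟩ := Set.countable_iff_exists_subset_range.1 h
  obtain ⟨ξ, h0, h2⟩ := Pool.Agent.MP_b86f6c_nt.prescribed w h1 h1' hm hb s
  obtain ⟨i, hi⟩ := hs h2
  exact h0 i hi.symm

end Pool.Agent.MP_b86f6c_nt.PrescribedOld
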