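import Pool.Agent.MP_b86f6c_nt.SpA

set_option autoImplicit false

namespace Pool.Agent.MP_b86f6c_nt

open Polynomial Finset

/-- Every rational of level `l` is generically far, or far in the sense of the exponent `τ`. -/
def Good1x (τ : ℝ) (K D l : ℕ) (x : ℝ) : Prop :=
  ∀ q p : ℤ, 1 ≤ q → q ≤ 2 ^ (D * l) →
    tw ((2 * D + 3) * l) ≤ |x - p / q| ∨ tw K * (q : ℝ) ^ (-τ) ≤ |x - p / q|

/-- A rational approximation of exponent `τ` with denominator at least `j`. -/
def CloseQ (τ : ℝ) (j : ℕ) (x : ℝ) : Prop :=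
  ∃ (g : ℕ) (c : ℤ), j < g ∧ 0 ≤ c ∧ c ≤ g ∧ |x - c / g| ≤ (g : ℝ) ^ (-τ)

/-- One stage of the nested interval construction. -/
def Stage (τ : ℝ) (A D j : ℕ) (Z : ℝ → Prop) (x0 : ℝ) (ρ : ℕ) : Prop :=
  ∃ (x1 : ℝ) (ρ1 : ℕ), 2 * ρ + j ≤ ρ1 ∧ x0 ≤ x1 ∧ x1 + tw ρ1 ≤ x0 + tw ρ ∧
    ∀ x, x1 ≤ x → x ≤ x1 + tw ρ1 →
      (∀ l, ρ < (2 * D + 2) * l + 2 → (2 * D + 3) * l + 2 ≤ ρ1 → Good1x τ (A + 3) D l x) ∧
      (∀ n ≤ j, A ≤ n → ∀ a, ρ < UV n * a → UV n * a ≤ ρ1 → Good2 0 n a x) ∧ Z x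

lemma exists_shadow : ∃ T : ℤ[X] → Finset ℝ, ∀ P : ℤ[X], P ≠ 0 → (T P).card ≤ P.natDegree ∧
    ∀ (n : ℕ) (x δ : ℝ), P.natDegree ≤ n → 0 ≤ δ → δ ≤ 1 →
      (∀ β ∈ T P, δ ≤ |x - β|) → δ ^ n ≤ |aeval x P| := by
  have hT0 : ∀ P : ℤ[X], ∃ T : Finset ℝ, P ≠ 0 → T.card ≤ P.natDegree ∧
      ∀ (n : ℕ) (x δ : ℝ), P.natDegree ≤ n → 0 ≤ δ → δ ≤ 1 →
        (∀ β ∈ T, δ ≤ |x - β|) → δ ^ n ≤ |aeval x P| := by
    intro P
    by_cases h : P = 0
    · exact ⟨∅, fun h' => absurd h h'⟩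
    · obtain ⟨T, hT⟩ := exists_root_shadow P h
      exact ⟨T, fun _ => hT⟩
  choose T hT using hT0
  exact ⟨T, hT⟩

lemma exists_avoid (y s : ℝ) (R : ℕ) :
    ∃ ρ1, R ≤ ρ1 ∧ ρ1 ≤ R + 2 ∧ ¬ (y + tw ρ1 ≤ s ∧ s ≤ y + 2 * tw ρ1) := by
  by_cases h : y + tw R ≤ s
  · refine ⟨R + 2, by omega, le_rfl, fun h' => ?_⟩
    have h1 := tw_succ R
    have h2 := tw_succ (R + 1)
    have h3 := tw_pos (R + 2)
    linarith [h'.2]
  · exact ⟨R, le_rfl, by omega, fun h' => h h'.1⟩

lemma step_alg (τ : ℝ) (A D : ℕ) (hD : 1 ≤ D) (m : ℕ) (hm : 2 ≤ m) (j : ℕ) (s x0 : ℝ) (ρ : ℕ)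
    (hx0 : 0 ≤ x0) (hx1 : x0 + tw ρ ≤ 1) (hρ : 20 * D + 22 ≤ ρ) :
    Stage τ A D j (fun x => Close m j x ∧ x ≠ s) x0 ρ := by
  obtain ⟨N, γ, c0, cb, hB⟩ := exists_base m D hm hD
  obtain ⟨T, hT⟩ := exists_shadow
  obtain ⟨v, hv0, hv⟩ := growth ((j + 3) * (D ^ 2 + 4 * D + 3)) (c0 + D + j + 5 + ρ + 4)
    (j + N + ρ + 2 + c0 + ∑ n ∈ range (j + 1), cb n)
  set w := (D ^ 2 + 4 * D + 2) * v with hw
  set u := w + v with hu
  obtain ⟨g, hg, hg1, hg2⟩ := Nat.exists_prime_lt_and_le_two_mul (2 ^ u) (by positivity)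
  rw [← pow_succ'] at hg2
  obtain ⟨c, hc1, hc2, hc3, hc4⟩ := exists_good_c hB T (fun P hP => (hT P hP).1) g v w u ρ j hw hu
    hg hg1.le hg2 (by omega) hρ (by
      refine le_trans ?_ hv
      refine mul_le_mul_of_nonneg_right ?_ (by positivity)
      have : (j + 3) * (u + 1) ≤ (j + 3) * (D ^ 2 + 4 * D + 3) * (v + 1) := by
        rw [mul_assoc]
        refine Nat.mul_le_mul_left _ ?_
        rw [hu, hw]; nlinarith
      exact_mod_cast this) x0
  have hg0 : (0 : ℝ) < g := by exact_mod_cast hg.pos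
  have hgr2 : (g : ℝ) ≤ 2 ^ (u + 1) := by exact_mod_cast hg2
  have hr := tw_pos ρ
  have hy0 : 0 ≤ (c + γ) / g := hx0.trans hc1
  have hy1 : (c + γ) / g ≤ 1 := by linarith
  have hy : |(c + γ) / g| ≤ 2 := by rw [abs_of_nonneg hy0]; linarith
  have hcabs : |(c : ℝ)| ≤ 2 ^ (u + 1) := by
    rw [le_div_iff₀ hg0] at hy0
    rw [div_le_iff₀ hg0] at hy1
    have h2 : (2 : ℝ) ≤ 2 ^ (u + 1) := le_self_pow₀ (by norm_num) (by omega)
    rw [abs_le]; constructor <;> linarith [hB.h1, hB.h2]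
  obtain ⟨ρ1, hR1, hR2, hR3⟩ := exists_avoid ((c + γ) / g) s (13 * m ^ 3 * u + u + 2)
  have hvu : v ≤ u := by omega
  have hvw : v ≤ w := Nat.le_mul_of_pos_left _ (by omega)
  have hR : RR 0 m * u = 7 * u + 13 * m ^ 3 * u := by rw [RR]; ring
  have hR4 : u ≤ 13 * m ^ 3 * u := Nat.le_mul_of_pos_left _ (by positivity)
  have hρu : ρ + 2 ≤ u := by omega
  have hρρ : ρ + 2 ≤ ρ1 := by omega
  have hr1 := tw_pos ρ1
  have hr2 : 4 * tw ρ1 ≤ tw ρ := by
    have := two_pow_mul_tw_le (a := 2) (b := ρ1) (c := ρ) (by omega)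
    norm_num at this
    exact this
  refine ⟨(c + γ) / g + tw ρ1, ρ1, by omega, by linarith, by linarith, ?_⟩
  intro x hx2 hx3
  obtain ⟨t, rfl⟩ : ∃ t, x = (c + γ) / g + t := ⟨x - (c + γ) / g, by ring⟩
  have ht1 : tw ρ1 ≤ t := by linarith
  have ht2 : t ≤ 2 * tw ρ1 := by linarith
  have ht0 : 0 ≤ t := by linarith
  have htri : ∀ β : ℝ, |(c + γ) / g - β| - t ≤ |(c + γ) / g + t - β| := by
    intro β
    have := abs_sub_abs_le_abs_sub ((c + γ) / g - β) (-t)
    rw [abs_neg, abs_of_nonneg ht0] at this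
    refine this.trans (le_of_eq ?_)
    congr 1; ring
  refine ⟨?_, ?_, ?_, ?_⟩
  · intro l hl1 hl2 q p hq1 hq2
    left
    refine le_trans ?_ (htri _)
    by_cases hl : l < c0 + u + 1
    · have h1 := hc3 l hl1 hl q p hq1 hq2
      have h2 : 2 * tw ρ1 ≤ tw ((2 * D + 3) * l) := by
        have := two_pow_mul_tw_le (a := 1) (b := ρ1) (c := (2 * D + 3) * l) (by omega)
        simpa using this
      linarith
    · push Not at hl
      have a1 : (0 : ℝ) < q := by exact_mod_cast hq1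
      have a2 : (q : ℝ) ≤ 2 ^ (D * l) := by exact_mod_cast hq2
      have h1 := hB.lin l q (g * p - c * q) hq1 hq2
      have a3 : (c + γ) / g - p / q = (q * γ - ((g * p - c * q : ℤ) : ℝ)) / (g * q) := by
        push_cast; field_simp; ring
      have h2 : tw ((2 * D + 2) * l) ≤ |(c + γ) / g - p / q| := by
        rw [a3, abs_div, abs_of_pos (by positivity : (0 : ℝ) < g * q),
          le_div_iff₀ (by positivity)]
        refine le_trans ?_ h1
        have := tw_pos ((2 * D + 2) * l)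
        calc tw ((2 * D + 2) * l) * (g * q)
            ≤ tw ((2 * D + 2) * l) * (2 ^ (u + 1) * 2 ^ (D * l)) := by gcongr
          _ = 2 ^ (u + 1 + D * l) * tw ((2 * D + 2) * l) := by ring
          _ ≤ _ := two_pow_mul_tw_le (by
              have b1 : (2 * D + 2) * l = D * l + (D + 1) * l + l := by ring
              omega)
      have h3 : tw ((2 * D + 3) * l) ≤ tw ((2 * D + 2) * l + 1) := tw_anti (by
        have b1 : (2 * D + 3) * l = (2 * D + 2) * l + l := by ring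
        omega)
      have h4 : tw ρ1 ≤ tw ((2 * D + 2) * l + 1 + 1) := tw_anti (by
        have b1 : (2 * D + 3) * l = (2 * D + 2) * l + l := by ring
        omega)
      have h5 := tw_succ ((2 * D + 2) * l)
      have h6 := tw_succ ((2 * D + 2) * l + 1)
      linarith
  · intro n hn _ a ha1 ha2 P hP0 hP
    have ha : 1 ≤ a := by
      rcases Nat.eq_zero_or_pos a with rfl | h
      · simp at ha1
      · exact h
    by_cases hreg : (n + 1) * (a + 2) ≤ w
    · have h1 := hc4 n hn a ha1 hreg P hP0 hP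
      have h2 : 2 * tw ρ1 ≤ tw (u + 1) := by
        have := two_pow_mul_tw_le (a := 1) (b := ρ1) (c := u + 1) (by omega)
        simpa using this
      have h3 := (hT P hP0).2 n ((c + γ) / g + t) (tw (VV n * a)) hP.1 (tw_pos _).le
        (tw_le_one _) (fun β hβ => by linarith [htri β, h1 β hβ])
      refine le_trans ?_ h3
      rw [← tw_mul]
      refine tw_anti ?_
      rw [mul_right_comm, mul_comm (VV n)]
      refine Nat.mul_le_mul_right _ ?_
      unfold WW; omega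
    · push Not at hreg
      have hua : u ≤ 6 * (n + 1) * a := by
        have b1 : (n + 1) * (a + 2) ≤ (n + 1) * (3 * a) := Nat.mul_le_mul_left _ (by omega)
        have b2 : 6 * (n + 1) * a = 2 * ((n + 1) * (3 * a)) := by ring
        omega
      have hcb : cb n ≤ u := by
        have : cb n ≤ ∑ n ∈ range (j + 1), cb n :=
          Finset.single_le_sum (f := cb) (fun _ _ => Nat.zero_le _)
            (Finset.mem_range.2 (by omega))
        omega
      refine hB.local_lower n a u g ρ1 c hg.pos hg2 hcabs hy P hP hP0 ha hua hcb ha2 t ht1 ht2 _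
        ?_ ?_
      · refine Nat.mul_le_mul_right _ ?_
        unfold WW; omega
      · intro hmn
        have h1 : ρ1 ≤ RR 0 n * (6 * (n + 1) * a) :=
          le_trans (by omega) (Nat.mul_le_mul (RR_mono 0 hmn) hua)
        have h2 := Nat.mul_le_mul_left n h1
        have h3 : WW 0 n * a
            = n * VV n * a + (UU n + 1) * a + n * (RR 0 n * (6 * (n + 1) * a)) := by
          unfold WW; ring
        omega
  · exact close_of hm hB.hN hB.eq g u j ρ1 c hg1.le hg2 hcabs hy (by omega) (by omega)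
      (by omega) (by omega) t ht0 ht2
  · intro h
    exact hR3 ⟨by linarith, by linarith⟩

lemma step_rat (τ : ℝ) (hτ : 2 ≤ τ) (A : ℕ) (hA : τ ≤ A) (D j : ℕ) (x0 : ℝ) (ρ : ℕ)
    (hx0 : 0 ≤ x0) (hx1 : x0 + tw ρ ≤ 1) (hρ : 20 * D + 22 ≤ ρ) :
    Stage τ A D j (CloseQ τ j) x0 ρ := by
  obtain ⟨T, hT⟩ := exists_shadow
  obtain ⟨v, hv0, hv⟩ := growth ((j + 3) * (D ^ 2 + 4 * D + 3)) (D + j + 5 + ρ + 4) (j + ρ + 3)
  set w := (D ^ 2 + 4 * D + 2) * v with hw
  set u := w + v with hu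
  obtain ⟨g, hg, hg1, hg2⟩ := Nat.exists_prime_lt_and_le_two_mul (2 ^ u) (by positivity)
  rw [← pow_succ'] at hg2
  obtain ⟨c, hc1, hc2, hc3, hc4⟩ := exists_good_c0 D 0 T (fun P hP => (hT P hP).1) g v w u ρ j hw hu
    hg hg1 hg2 (by omega) hρ (by
      refine le_trans ?_ hv
      refine mul_le_mul_of_nonneg_right ?_ (by positivity)
      have : (j + 3) * (u + 1) ≤ (j + 3) * (D ^ 2 + 4 * D + 3) * (v + 1) := by
        rw [mul_assoc]
        refine Nat.mul_le_mul_left _ ?_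
        rw [hu, hw]; nlinarith
      exact_mod_cast this) x0
  simp only [add_zero] at hc1 hc2 hc3 hc4
  have hg0 : (0 : ℝ) < g := by exact_mod_cast hg.pos
  have hgr1 : (2 : ℝ) ^ u ≤ g := by exact_mod_cast hg1.le
  have hgr2 : (g : ℝ) ≤ 2 ^ (u + 1) := by exact_mod_cast hg2
  have hr := tw_pos ρ
  have hy0 : 0 ≤ (c : ℝ) / g := hx0.trans hc1
  have hy1 : (c : ℝ) / g < 1 := by linarith
  have hc0 : 0 ≤ c := by
    rw [le_div_iff₀ hg0, zero_mul] at hy0
    exact_mod_cast hy0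
  have hcg : c < g := by
    rw [div_lt_one hg0] at hy1
    exact_mod_cast hy1
  set k := ⌈((u + 1 : ℕ) : ℝ) * τ⌉₊ with hk
  have hk1 : ((u + 1 : ℕ) : ℝ) * τ ≤ k := Nat.le_ceil _
  have hk2 : (k : ℝ) < ((u + 1 : ℕ) : ℝ) * τ + 1 := Nat.ceil_lt_add_one (by positivity)
  have hk3 : 2 * (u + 1) ≤ k := by
    have : ((2 * (u + 1) : ℕ) : ℝ) ≤ k := by
      refine le_trans ?_ hk1
      push_cast
      nlinarith [(Nat.cast_nonneg u : (0 : ℝ) ≤ u)]
    exact_mod_cast this
  have hk4 : k ≤ (u + 1) * A := by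
    rw [hk, Nat.ceil_le]
    push_cast
    gcongr
  have hvw : v ≤ w := Nat.le_mul_of_pos_left _ (by omega)
  have hr1 := tw_pos (k + 1)
  have hr2 : 4 * tw (k + 1) ≤ tw ρ := by
    have := two_pow_mul_tw_le (a := 2) (b := k + 1) (c := ρ) (by omega)
    norm_num at this
    exact this
  refine ⟨c / g + tw (k + 1), k + 1, by omega, by linarith, by linarith, ?_⟩
  intro x hx2 hx3
  obtain ⟨t, rfl⟩ : ∃ t, x = c / g + t := ⟨x - c / g, by ring⟩
  have ht1 : tw (k + 1) ≤ t := by linarith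
  have ht2 : t ≤ tw k := by linarith [tw_succ k]
  have ht0 : 0 ≤ t := by linarith
  have htri : ∀ β : ℝ, |c / g - β| - t ≤ |c / g + t - β| := by
    intro β
    have := abs_sub_abs_le_abs_sub (c / g - β) (-t)
    rw [abs_neg, abs_of_nonneg ht0] at this
    refine this.trans (le_of_eq ?_)
    congr 1; ring
  refine ⟨?_, ?_, ?_⟩
  · intro l hl1 hl2 q p hq1 hq2
    have h2 : tw k ≤ tw ((2 * D + 3) * l) := tw_anti (by omega)
    by_cases hl : (D + 3) * l < u + 3
    · left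
      have h1 := hc3 l hl1 hl q p hq1 hq2
      linarith [htri (p / q)]
    push Not at hl
    have a1 : (0 : ℝ) < q := by exact_mod_cast hq1
    have a2 : (q : ℝ) ≤ 2 ^ (D * l) := by exact_mod_cast hq2
    by_cases he : c * q = g * p
    · right
      have hc5 : c ≠ 0 := by
        rintro rfl
        obtain ⟨l', hl'1, hl'2⟩ : ∃ l', ρ < (2 * D + 2) * l' + 2 ∧ (D + 3) * l' < u + 3 := by
          refine ⟨v, ?_, ?_⟩
          · nlinarith
          · rw [hu, hw]; nlinarith [Nat.zero_le (D * v), Nat.zero_le (D ^ 2 * v)]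
        have h3 := hc3 l' hl'1 hl'2 1 0 le_rfl (one_le_pow₀ (by norm_num))
        have h4 := tw_pos ((2 * D + 3) * l')
        simp at h3
        linarith
      have hgq : (g : ℤ) ∣ q := by
        rcases (Nat.prime_iff_prime_int.1 hg).dvd_or_dvd (Dvd.intro _ he.symm) with h | h
        · have := Int.le_of_dvd (by omega) h
          omega
        · exact h
      have hq3 : (g : ℝ) ≤ q := by exact_mod_cast Int.le_of_dvd (by omega) hgq
      have he' : (p : ℝ) / q = c / g := by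
        rw [div_eq_div_iff a1.ne' hg0.ne']
        have : ((c * q : ℤ) : ℝ) = ((g * p : ℤ) : ℝ) := by rw [he]
        push_cast at this
        linarith
      rw [he', add_sub_cancel_left, abs_of_nonneg ht0]
      refine le_trans ?_ ht1
      have b1 : (q : ℝ) ^ (-τ) ≤ tw ⌊(u : ℝ) * τ⌋₊ :=
        rpow_neg_le_tw (b := u) (hgr1.trans hq3) (by linarith) (Nat.floor_le (by positivity))
      have b2 : k + 1 ≤ A + 3 + ⌊(u : ℝ) * τ⌋₊ := by
        have b3 := Nat.lt_floor_add_one ((u : ℝ) * τ)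
        have : ((k + 1 : ℕ) : ℝ) ≤ ((A + 3 + ⌊(u : ℝ) * τ⌋₊ : ℕ) : ℝ) := by
          push_cast at hk2 ⊢
          linarith
        exact_mod_cast this
      calc tw (A + 3) * (q : ℝ) ^ (-τ) ≤ tw (A + 3) * tw ⌊(u : ℝ) * τ⌋₊ :=
            mul_le_mul_of_nonneg_left b1 (tw_pos _).le
        _ = tw (A + 3 + ⌊(u : ℝ) * τ⌋₊) := (tw_add _ _).symm
        _ ≤ tw (k + 1) := tw_anti b2
    · left
      have h1 := one_le_abs_sub_int he
      have a3 : (c : ℝ) / g - p / q = (((c * q : ℤ) : ℝ) - ((g * p : ℤ) : ℝ)) / (g * q) := by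
        push_cast; field_simp
      have h3 : 2 * tw ((2 * D + 3) * l) ≤ |(c : ℝ) / g - p / q| := by
        rw [a3, abs_div, abs_of_pos (by positivity : (0 : ℝ) < g * q),
          le_div_iff₀ (by positivity)]
        refine le_trans ?_ h1
        have := tw_pos ((2 * D + 3) * l)
        calc 2 * tw ((2 * D + 3) * l) * (g * q)
            ≤ 2 * tw ((2 * D + 3) * l) * (2 ^ (u + 1) * 2 ^ (D * l)) := by gcongr
          _ = 2 ^ (u + 2 + D * l) * tw ((2 * D + 3) * l) := by ring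
          _ ≤ tw 0 := two_pow_mul_tw_le (by
              have b1 : (2 * D + 3) * l = D * l + (D + 3) * l := by ring
              omega)
          _ = 1 := tw_zero
      linarith [htri (p / q)]
  · intro n hn hAn a ha1 ha2 P hP0 hP
    have ha : 1 ≤ a := by
      rcases Nat.eq_zero_or_pos a with rfl | h
      · simp at ha1
      · exact h
    have hreg : (n + 1) * (a + 2) ≤ w := by
      have b1 : (n + 1) * (30 * ((n + 1) * a)) ≤ UV n * a := by
        have b2 : (n + 1) * (30 * (n + 1)) ≤ UV n := by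
          unfold UV UU
          nlinarith [Nat.zero_le (n ^ 3), Nat.zero_le (n ^ 2)]
        calc (n + 1) * (30 * ((n + 1) * a)) = (n + 1) * (30 * (n + 1)) * a := by ring
          _ ≤ _ := Nat.mul_le_mul_right _ b2
      have b2 : (u + 1) * A ≤ (u + 1) * n := Nat.mul_le_mul_left _ hAn
      have b3 : (n + 1) * (30 * ((n + 1) * a)) ≤ (n + 1) * (u + 1) := by nlinarith
      have b4 := Nat.le_of_mul_le_mul_left b3 (by omega)
      have b5 : (n + 1) * (a + 2) ≤ (n + 1) * (3 * a) := Nat.mul_le_mul_left _ (by omega)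
      have b6 : (n + 1) * (3 * a) = 3 * ((n + 1) * a) := by ring
      omega
    have h1 := hc4 n hn a ha1 hreg P hP0 hP
    have h2 : tw k ≤ tw (u + 1) := tw_anti (by omega)
    have h3 := (hT P hP0).2 n (c / g + t) (tw (VV n * a)) hP.1 (tw_pos _).le
      (tw_le_one _) (fun β hβ => by linarith [htri β, h1 β hβ])
    refine le_trans ?_ h3
    rw [← tw_mul]
    refine tw_anti ?_
    rw [mul_right_comm, mul_comm (VV n)]
    refine Nat.mul_le_mul_right _ ?_
    unfold WW; omega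
  · refine ⟨g, c, ?_, hc0, hcg.le, ?_⟩
    · have : u < 2 ^ u := Nat.lt_two_pow_self
      omega
    · rw [add_sub_cancel_left, abs_of_nonneg ht0]
      exact ht2.trans (tw_le_rpow_neg (b := u + 1) hg0 hgr2 (by linarith) hk1)

end Pool.Agent.MP_b86f6c_nt
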