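import Pool.Agent.MP_b86f6c_nt.SpB

set_option autoImplicit false

namespace Pool.Agent.MP_b86f6c_nt

open Polynomial Finset

lemma exists_lev (j ρ ρ' L : ℕ) (hj : 1 ≤ j) (hρ : 100 * (j + 2) ^ 2 ≤ ρ) (hρ' : 2 * ρ ≤ ρ')
    (h1 : j * ρ < (2 * j + 4) * L) (h2 : (2 * (j + 1) + 4) * L ≤ (j + 1) * ρ') :
    ∃ l, ρ < (2 * (j + 1) + 2) * l + 2 ∧ (2 * (j + 1) + 3) * l + 2 ≤ ρ' ∧ L ≤ (j + 1) * l ∧
      j * ((2 * (j + 1) + 3) * l) ≤ (2 * j + 9) * L := by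
  have hL : ρ < 6 * L := by
    have b1 : (2 * j + 4) * L ≤ (6 * j) * L := Nat.mul_le_mul_right _ (by omega)
    have b2 : j * ρ < j * (6 * L) := by nlinarith
    exact Nat.lt_of_mul_lt_mul_left b2
  have hL2 : (j + 1) * (2 * j + 7) ≤ L := by nlinarith
  obtain ⟨a, a1, a2⟩ : ∃ a, (j + 1) * a ≤ L ∧ L < (j + 1) * (a + 1) :=
    ⟨L / (j + 1), Nat.mul_div_le _ _, Nat.lt_mul_div_succ _ (by omega)⟩
  obtain ⟨b, b1, b2⟩ : ∃ b, (2 * j + 4) * b ≤ ρ ∧ ρ < (2 * j + 4) * (b + 1) :=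
    ⟨ρ / (2 * j + 4), Nat.mul_div_le _ _, Nat.lt_mul_div_succ _ (by omega)⟩
  rcases le_total b a with h | h
  · refine ⟨a + 1, ?_, ?_, a2.le, ?_⟩
    · have : (2 * j + 4) * (b + 1) ≤ (2 * j + 4) * (a + 1) := Nat.mul_le_mul_left _ (by omega)
      have e : (2 * (j + 1) + 2) * (a + 1) = (2 * j + 4) * (a + 1) := by ring
      omega
    · have c1 : (2 * j + 5) * ((j + 1) * a) ≤ (2 * j + 5) * L := Nat.mul_le_mul_left _ a1
      have c2 : (j + 1) * ((2 * (j + 1) + 3) * (a + 1) + 2) ≤ (j + 1) * ρ' := by nlinarith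
      exact Nat.le_of_mul_le_mul_left c2 (by omega)
    · have c0 : j * a ≤ L := by nlinarith
      have c1 : (2 * j + 5) * (j * a) ≤ (2 * j + 5) * L := Nat.mul_le_mul_left _ c0
      nlinarith
  · refine ⟨b + 1, ?_, ?_, ?_, ?_⟩
    · have e : (2 * (j + 1) + 2) * (b + 1) = (2 * j + 4) * (b + 1) := by ring
      omega
    · have c1 : 6 * b ≤ (2 * j + 4) * b := Nat.mul_le_mul_right _ (by omega)
      have e : (2 * (j + 1) + 3) * (b + 1) = (2 * j + 4) * b + b + 2 * j + 5 := by ring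
      have c2 : 100 * (j + 2) ≤ ρ := by nlinarith
      omega
    · exact a2.le.trans (Nat.mul_le_mul_left _ (by omega))
    · have c0 : (2 * j + 4) * (j * b) < (2 * j + 4) * L := by
        have := Nat.mul_le_mul_left j b1
        nlinarith
      have c1 := (Nat.lt_of_mul_lt_mul_left c0).le
      have c2 : (2 * j + 5) * (j * b) ≤ (2 * j + 5) * L := Nat.mul_le_mul_left _ c1
      nlinarith

lemma exists_cross (f : ℕ → Prop) (j0 k : ℕ) (h0 : ¬ f j0) (hk : f (j0 + k)) :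
    ∃ j, j0 ≤ j ∧ ¬ f j ∧ f (j + 1) := by
  induction k with
  | zero => exact absurd hk h0
  | succ k ih =>
    by_cases h : f (j0 + k)
    · exact ih h
    · exact ⟨j0 + k, by omega, h, hk⟩

theorem exists_xi' (τ : ℝ) (hτ : 2 ≤ τ) (A : ℕ) (hA : τ ≤ A) (s : ℕ → ℝ) :
    ∃ ξ : ℝ, (∀ i, ξ ≠ s i) ∧
      (∀ E, 1 ≤ E → ∃ L0, ∀ L, L0 ≤ L → ∀ q p : ℤ, 1 ≤ q → q ≤ 2 ^ L →
        (∃ k, E * k ≤ (2 * E + 9) * L ∧ tw k ≤ |ξ - p / q|) ∨
          tw (A + 3) * (q : ℝ) ^ (-τ) ≤ |ξ - p / q|) ∧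
      (∀ n, A ≤ n → ∃ a0, ∀ a, a0 ≤ a → Good2 0 n a ξ) ∧
      (∀ m, 2 ≤ m → ∀ j, Close m j ξ) ∧ ∀ j, CloseQ τ j ξ := by
  let Inv : ℕ → ℝ × ℕ → Prop := fun j z => 0 ≤ z.1 ∧ z.1 + tw z.2 ≤ 1 ∧ 100 * (j + 2) ^ 2 ≤ z.2
  let J : ℕ → ℕ := fun j => 100 * (j + 3) ^ 2
  have hJ : ∀ j, j ≤ J j := fun j => by simp only [J]; nlinarith
  let Z : ℕ → ℝ → Prop := fun j x => ((Nat.unpair j).1 = 0 → CloseQ τ (J j) x) ∧
    ((Nat.unpair j).1 ≠ 0 → Close ((Nat.unpair j).1 + 1) (J j) x ∧ x ≠ s (Nat.unpair j).2)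
  have hst : ∀ j z, Inv j z → Stage τ A (j + 1) (J j) (Z j) z.1 z.2 := by
    rintro j z ⟨h1, h2, h3⟩
    have h4 : 20 * (j + 1) + 22 ≤ z.2 := by nlinarith
    by_cases h : (Nat.unpair j).1 = 0
    · obtain ⟨x1, ρ1, a1, a2, a3, a4⟩ := step_rat τ hτ A hA (j + 1) (J j) z.1 z.2 h1 h2 h4
      exact ⟨x1, ρ1, a1, a2, a3, fun x b1 b2 => ⟨(a4 x b1 b2).1, (a4 x b1 b2).2.1,
        fun _ => (a4 x b1 b2).2.2, fun h' => absurd h h'⟩⟩
    · obtain ⟨x1, ρ1, a1, a2, a3, a4⟩ := step_alg τ A (j + 1) (by omega) ((Nat.unpair j).1 + 1)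
        (by omega) (J j) (s (Nat.unpair j).2) z.1 z.2 h1 h2 h4
      exact ⟨x1, ρ1, a1, a2, a3, fun x b1 b2 => ⟨(a4 x b1 b2).1, (a4 x b1 b2).2.1,
        fun h' => absurd h' h, fun _ => (a4 x b1 b2).2.2⟩⟩
  choose! X R hF using hst
  let z : ℕ → ℝ × ℕ := fun j => Nat.rec ((0 : ℝ), 400) (fun j z => (X j z, R j z)) j
  have hz : ∀ j, z (j + 1) = (X j (z j), R j (z j)) := fun j => rfl
  have hI : ∀ j, Inv j (z j) := by
    intro j
    induction j with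
    | zero => exact ⟨le_rfl, by simpa [z] using tw_le_one _, by simp [z]⟩
    | succ j ih =>
      obtain ⟨a1, a2, a3, -⟩ := hF j (z j) ih
      refine ⟨ih.1.trans a2, a3.trans ih.2.1, ?_⟩
      simp only [J] at a1
      rw [hz, show j + 1 + 2 = j + 3 by ring]
      simp only
      omega
  let x : ℕ → ℝ := fun j => (z j).1
  let ρ : ℕ → ℕ := fun j => (z j).2
  have hx : Monotone x := monotone_nat_of_le_succ fun j => (hF j (z j) (hI j)).2.1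
  have hx' : Antitone fun j => x j + tw (ρ j) :=
    antitone_nat_of_succ_le fun j => (hF j (z j) (hI j)).2.2.1
  have hb : ∀ j i, x i ≤ x j + tw (ρ j) := by
    intro j i
    have h1 := hx (le_max_left i j)
    have h2 := hx' (le_max_right i j)
    have h3 := tw_pos (ρ (max i j))
    simp only at h2
    linarith
  have hbdd : BddAbove (Set.range x) := ⟨_, by rintro _ ⟨i, rfl⟩; exact hb 0 i⟩
  have h1 : ∀ j, x j ≤ ⨆ i, x i := fun j => le_ciSup hbdd j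
  have h2 : ∀ j, (⨆ i, x i) ≤ x j + tw (ρ j) := fun j => ciSup_le (hb j)
  have hρ0 : ∀ j, 100 * (j + 2) ^ 2 ≤ ρ j := fun j => (hI j).2.2
  have hρ2 : ∀ j, 2 * ρ j + J j ≤ ρ (j + 1) := fun j => (hF j (z j) (hI j)).1
  have hρ : ∀ j, ρ j + 1 ≤ ρ (j + 1) := fun j => by
    have := hρ0 j
    have := hρ2 j
    have : 0 < (j + 2) ^ 2 := by positivity
    omega
  have key := fun j => (hF j (z j) (hI j)).2.2.2 (⨆ i, x i) (h1 (j + 1)) (h2 (j + 1))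
  refine ⟨⨆ i, x i, fun i => ?_, fun E hE => ⟨ρ E, fun L hL q p hq1 hq2 => ?_⟩,
    fun n hn => ⟨ρ n + 1, fun a ha => ?_⟩, fun m hm j => ?_, fun j => ?_⟩
  · have := ((key (Nat.pair 1 i)).2.2.2 (by simp)).2
    rwa [Nat.unpair_pair] at this
  · have hpos : 0 < ρ E := lt_of_lt_of_le (by positivity) (hρ0 E)
    obtain ⟨j, a0, a1, a2⟩ := exists_cross (fun j => (2 * j + 4) * L ≤ j * ρ j) E (6 * L)
      (by
        have := Nat.mul_le_mul_left E hL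
        simp only [not_le]
        nlinarith)
      (by
        have b1 : 6 * L ≤ ρ (E + 6 * L) := le_trans (by nlinarith) (hρ0 _)
        have b2 := Nat.mul_le_mul_left (E + 6 * L) b1
        have b3 : (2 * (E + 6 * L) + 4) * L ≤ (6 * (E + 6 * L)) * L :=
          Nat.mul_le_mul_right _ (by omega)
        nlinarith)
    obtain ⟨l, c1, c2, c3, c4⟩ := exists_lev j (ρ j) (ρ (j + 1)) L (by omega) (hρ0 j)
      (by have := hρ2 j; omega) (not_le.1 a1) a2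
    rcases (key j).1 l c1 c2 q p hq1 (hq2.trans (pow_le_pow_right₀ (by norm_num) c3)) with h | h
    · refine Or.inl ⟨_, ?_, h⟩
      have d1 := Nat.mul_le_mul_left E c4
      have d2 : E * L ≤ j * L := Nat.mul_le_mul_right _ a0
      have d3 : j * (E * ((2 * (j + 1) + 3) * l)) ≤ j * ((2 * E + 9) * L) := by nlinarith
      exact Nat.le_of_mul_le_mul_left d3 (by omega)
    · exact Or.inr h
  · obtain ⟨j, a0, a1, a2⟩ := exists_level ρ hρ n (UV n * a) (by unfold UV; nlinarith)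
    exact (key j).2.1 n (a0.trans (hJ j)) hn a a1 a2
  · obtain ⟨P, u, a1, a2⟩ := ((key (Nat.pair (m - 1) j)).2.2.2 (by simp; omega)).1
    rw [Nat.unpair_pair] at a2
    simp only [Nat.sub_add_cancel (by omega : 1 ≤ m)] at a2
    exact ⟨P, u, ((Nat.right_le_pair _ _).trans (hJ _)).trans a1, a2⟩
  · obtain ⟨g, c, a1, a2⟩ := (key (Nat.pair 0 j)).2.2.1 (by simp)
    exact ⟨g, c, lt_of_le_of_lt ((Nat.right_le_pair _ _).trans (hJ _)) a1, a2⟩

lemma far (ξ τ τ' : ℝ) (K : ℕ) (hτ : 2 ≤ τ) (hτ' : τ < τ')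
    (h : ∀ E, 1 ≤ E → ∃ L0, ∀ L, L0 ≤ L → ∀ q p : ℤ, 1 ≤ q → q ≤ 2 ^ L →
        (∃ k, E * k ≤ (2 * E + 9) * L ∧ tw k ≤ |ξ - p / q|) ∨
          tw K * (q : ℝ) ^ (-τ) ≤ |ξ - p / q|) :
    ∃ L1 : ℕ, ∀ q p : ℤ, 2 ^ L1 < q → (q : ℝ) ^ (-τ') < |ξ - p / q| := by
  obtain ⟨E, hE⟩ := exists_nat_gt (18 / (τ' - 2))
  have hE0 : (0 : ℝ) < E := lt_trans (div_pos (by norm_num) (by linarith)) hE
  have hE1 : 1 ≤ E := by exact_mod_cast hE0
  rw [div_lt_iff₀ (by linarith)] at hE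
  obtain ⟨B, hB⟩ := exists_nat_gt (((K : ℝ) + 1) / (τ' - τ))
  rw [div_lt_iff₀ (by linarith)] at hB
  obtain ⟨L0, hL0⟩ := h E hE1
  refine ⟨L0 + E + B + 1, fun q p hc => ?_⟩
  have hq1 : 1 ≤ q := by
    have : (0 : ℤ) < 2 ^ (L0 + E + B + 1) := by positivity
    omega
  have hex : ∃ l : ℕ, q ≤ 2 ^ l := by
    refine ⟨q.toNat, ?_⟩
    have d2 : (q.toNat : ℤ) ≤ 2 ^ q.toNat := by exact_mod_cast (Nat.lt_two_pow_self).le
    rwa [Int.toNat_of_nonneg (by omega)] at d2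
  classical
  have c1 := Nat.find_spec hex
  have c2 : L0 + E + B + 1 < Nat.find hex := by
    by_contra h
    exact absurd (c1.trans (pow_le_pow_right₀ (by norm_num) (not_lt.1 h))) (not_le.2 hc)
  obtain ⟨l, hl⟩ : ∃ l, Nat.find hex = l + 1 := ⟨Nat.find hex - 1, by omega⟩
  have c3 : ¬ q ≤ 2 ^ l := Nat.find_min hex (by omega)
  rw [hl] at c1 c2
  have c5 : (2 : ℝ) ^ l ≤ q := by exact_mod_cast (not_le.1 c3).le
  have hq0 : (0 : ℝ) < q := by exact_mod_cast hq1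
  have hl0 : (0 : ℝ) ≤ l := by positivity
  rcases hL0 (l + 1) (by omega) q p hq1 c1 with ⟨k, d1, d2⟩ | d1
  · refine lt_of_le_of_lt (rpow_neg_le_tw (b := l) (k := k + 1) c5 (by linarith) ?_)
      ((tw_strictAnti (by omega)).trans_le d2)
    have e1 : E * (k + 1) ≤ (2 * E + 18) * l := by nlinarith
    have e2 : (E : ℝ) * ((k + 1 : ℕ) : ℝ) ≤ (2 * E + 18) * l := by exact_mod_cast e1
    have e3 : (2 * (E : ℝ) + 18) * l ≤ (E * τ') * l :=
      mul_le_mul_of_nonneg_right (by linarith) hl0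
    exact le_of_mul_le_mul_left (by linarith) hE0
  · refine lt_of_lt_of_le ?_ d1
    rw [show -τ' = -(τ' - τ) + -τ by ring, Real.rpow_add hq0]
    refine mul_lt_mul_of_pos_right ?_ (Real.rpow_pos_of_pos hq0 _)
    refine lt_of_le_of_lt (rpow_neg_le_tw (b := l) (k := K + 1) c5 (by linarith) ?_)
      (tw_strictAnti (by omega))
    have e1 : (B : ℝ) ≤ l := by exact_mod_cast (by omega : B ≤ l)
    have e2 := mul_le_mul_of_nonneg_right e1 (by linarith : 0 ≤ τ' - τ)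
    push_cast
    linarith

end Pool.Agent.MP_b86f6c_nt
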