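import Pool.Agent.MP_b86f6c_nt.SpC

set_option autoImplicit false

namespace Pool.Agent.MP_b86f6c_nt

open Polynomial Finset

theorem spectrum (w : ℝ) (hw : 1 ≤ w) (s : ℕ → ℝ) : ∃ ξ : ℝ, (∀ i, ξ ≠ s i) ∧
      Transcendental ℤ ξ ∧
      (∀ n : ℕ, ∃ W : ℝ,
        {P : Polynomial ℤ | P.natDegree ≤ n ∧ Polynomial.aeval ξ P ≠ 0 ∧
          |Polynomial.aeval ξ P| ≤ (ht P : ℝ) ^ (-W)}.Finite) ∧
      (∀ M : ℝ, ∃ n : ℕ, 1 ≤ n ∧ ∃ v : ℝ, M * (n : ℝ) < v ∧
        {P : Polynomial ℤ | P.natDegree ≤ n ∧ Polynomial.aeval ξ P ≠ 0 ∧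
          |Polynomial.aeval ξ P| ≤ (ht P : ℝ) ^ (-v)}.Infinite) ∧
      {P : Polynomial ℤ | P.natDegree ≤ 1 ∧ Polynomial.aeval ξ P ≠ 0 ∧
          |Polynomial.aeval ξ P| ≤ (ht P : ℝ) ^ (-w)}.Infinite ∧
      (∀ v : ℝ, w < v →
        {P : Polynomial ℤ | P.natDegree ≤ 1 ∧ Polynomial.aeval ξ P ≠ 0 ∧
          |Polynomial.aeval ξ P| ≤ (ht P : ℝ) ^ (-v)}.Finite) := by
  obtain ⟨A, hA⟩ := exists_nat_ge (w + 1)
  obtain ⟨ξ, h0, h1, h2', h3, h4⟩ := exists_xi' (w + 1) (by linarith) A hA s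
  have h2 : ∀ n, ∃ W a0, ∀ a, a0 ≤ a → ∀ P : ℤ[X], P ≠ 0 → Bd n a P →
      tw (W * a) ≤ |aeval ξ P| := by
    intro n
    obtain ⟨a0, ha0⟩ := h2' (n + A) (by omega)
    exact ⟨_, a0, fun a ha P hP0 hP => ha0 a ha P hP0 ⟨hP.1.trans (by omega), hP.2⟩⟩
  have htr : ∀ P : ℤ[X], P ≠ 0 → aeval ξ P ≠ 0 := by
    intro P hP h
    obtain ⟨W, a0, ha0⟩ := h2 P.natDegree
    have := ha0 (a0 + ht P) (by omega) P hP (Bd_of_ht le_rfl
      ((Nat.lt_two_pow_self).le.trans (Nat.pow_le_pow_right (by norm_num) (by omega))))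
    rw [h, abs_zero] at this
    exact absurd (tw_pos _) (not_lt.2 this)
  refine ⟨ξ, h0, ?_, ?_, ?_, ?_, ?_⟩
  · rintro ⟨P, hP, h⟩
    exact htr P hP h
  · intro n
    obtain ⟨W, a0, ha0⟩ := h2 n
    refine ⟨(W + 1 : ℕ), (finite_Bd n (a0 + W + 2)).subset ?_⟩
    rintro P ⟨b1, b2, b3⟩
    have hP0 : P ≠ 0 := by rintro rfl; simp at b2
    by_cases hc : ht P ≤ 2 ^ (a0 + W + 2)
    · exact Bd_of_ht b1 hc
    exfalso
    push Not at hc
    have hex : ∃ a, ht P ≤ 2 ^ a := ⟨ht P, (Nat.lt_two_pow_self).le⟩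
    classical
    have c1 := Nat.find_spec hex
    have c2 : a0 + W + 2 < Nat.find hex := by
      by_contra h
      exact absurd (c1.trans (Nat.pow_le_pow_right (by norm_num) (not_lt.1 h))) (not_le.2 hc)
    obtain ⟨a, ha⟩ : ∃ a, Nat.find hex = a + 1 := ⟨Nat.find hex - 1, by omega⟩
    have c3 : ¬ ht P ≤ 2 ^ a := Nat.find_min hex (by omega)
    rw [ha] at c1 c2
    have c4 := ha0 (a + 1) (by omega) P hP0 (Bd_of_ht b1 c1)
    have c5 : (ht P : ℝ) ^ (-((W + 1 : ℕ) : ℝ)) ≤ tw (a * (W + 1)) :=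
      rpow_neg_le_tw (b := a) (by exact_mod_cast (not_le.1 c3).le) (by positivity)
        (by push_cast; exact le_rfl)
    have c6 := tw_le_iff.1 (c4.trans (b3.trans c5))
    nlinarith
  · intro M
    obtain ⟨m0, hm0⟩ := exists_nat_gt M
    refine ⟨m0 + 2, by omega, ((m0 + 2 : ℕ) : ℝ) ^ 2, ?_, ?_⟩
    · rw [sq]
      refine mul_lt_mul_of_pos_right ?_ (by positivity)
      push_cast; linarith
    · intro hfin
      obtain ⟨B, hB⟩ := (hfin.image ht).bddAbove
      obtain ⟨P, u, c1, c2, c3, c4⟩ := h3 (m0 + 2) (by omega) B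
      have hP0 : P ≠ 0 := by
        rintro rfl
        simp only [coeff_zero, Int.cast_zero, abs_zero] at c2
        exact absurd c2 (not_le.2 (by positivity))
      have c5 : ht P ≤ B := hB ⟨P, ⟨c3.1, htr P hP0, c4.trans
        (tw_le_rpow_neg (lt_of_lt_of_le one_pos (one_le_ht hP0)) c3.ht_le (by positivity)
          (by push_cast; exact le_rfl))⟩, rfl⟩
      have c6 : 2 ^ u ≤ ht P := by exact_mod_cast c2.trans (coeff_le_ht P _)
      have c7 : 2 ^ B ≤ 2 ^ u := Nat.pow_le_pow_right (by norm_num) c1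
      have c8 : B < 2 ^ B := Nat.lt_two_pow_self
      omega
  · intro hfin
    obtain ⟨B, hB⟩ := (hfin.image ht).bddAbove
    obtain ⟨g, c, c1, c2, c3, c4⟩ := h4 B
    have hg0 : (0 : ℝ) < g := by exact_mod_cast (by omega : 0 < g)
    let P : ℤ[X] := monomial 1 (g : ℤ) - monomial 0 c
    have hco : ∀ e, P.coeff e = (if 1 = e then (g : ℤ) else 0) - (if 0 = e then c else 0) := by
      intro e
      simp only [P, coeff_sub, coeff_monomial]
    have hc1 : P.coeff 1 = g := by rw [hco]; simp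
    have hP0 : P ≠ 0 := by
      intro h
      rw [h, coeff_zero] at hc1
      omega
    have hdeg : P.natDegree ≤ 1 := natDegree_le_iff_coeff_eq_zero.2 fun e he => by
      rw [hco, if_neg (by omega), if_neg (by omega)]; simp
    have hle : ht P ≤ g := Finset.sup_le fun e _ => by
      show (P.coeff e).natAbs ≤ g
      rw [hco]
      split_ifs <;> omega
    have hge : g ≤ ht P := by
      have := coeff_le_ht P 1
      rw [hc1, Int.cast_natCast, Nat.abs_cast] at this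
      exact_mod_cast this
    have hev : aeval ξ P = g * (ξ - c / g) := by
      simp only [P, map_sub, aeval_monomial, algebraMap_int_eq, eq_intCast]
      push_cast
      field_simp
    have c5 : ht P ≤ B := hB ⟨P, ⟨hdeg, htr P hP0, by
      rw [hev, le_antisymm hle hge, abs_mul, abs_of_pos hg0,
        show -w = 1 + -(w + 1) by ring, Real.rpow_add hg0, Real.rpow_one]
      exact mul_le_mul_of_nonneg_left c4 hg0.le⟩, rfl⟩
    omega
  · intro v hv
    obtain ⟨L, hL⟩ := far ξ (w + 1) (v + 1) (A + 3) (by linarith) (by linarith) h1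
    obtain ⟨b, hb⟩ := exists_nat_ge |ξ|
    have hb2 : |ξ| ≤ 2 ^ b := hb.trans (nat_le_two_pow b)
    refine (finite_Bd 1 (L + b + 1)).subset ?_
    rintro P ⟨b1, b2, b3⟩
    have hP0 : P ≠ 0 := by rintro rfl; simp at b2
    have hev : aeval ξ P = P.coeff 1 * ξ + P.coeff 0 := by
      rw [aeval_eq_sum_range' (n := 2) (by omega)]
      simp [Finset.sum_range_succ, add_comm]
    have b4 : |aeval ξ P| ≤ 1 :=
      b3.trans (Real.rpow_le_one_of_one_le_of_nonpos (one_le_ht hP0) (by linarith))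
    by_cases hc : |P.coeff 1| ≤ 2 ^ L
    · have hc' : |(P.coeff 1 : ℝ)| ≤ 2 ^ L := by exact_mod_cast hc
      refine ⟨b1, fun e => ?_⟩
      rcases e with _ | _ | e
      · have d1 : (P.coeff 0 : ℝ) = aeval ξ P - P.coeff 1 * ξ := by rw [hev]; ring
        rw [d1]
        refine (abs_sub _ _).trans ?_
        have d2 : |(P.coeff 1 : ℝ) * ξ| ≤ 2 ^ (L + b) := by
          rw [abs_mul, pow_add]; gcongr
        have d3 : (2 : ℝ) ^ 0 + 2 ^ (L + b) ≤ 2 ^ (L + b + 1) :=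
          two_pow_add_le (by omega) le_rfl
        rw [pow_zero] at d3
        linarith
      · exact hc'.trans (pow_le_pow_right₀ (by norm_num) (by omega))
      · rw [coeff_eq_zero_of_natDegree_lt (by omega)]; simp
    exfalso
    push Not at hc
    obtain ⟨q, p, hq, hqp⟩ : ∃ q p : ℤ, q = |P.coeff 1| ∧ |aeval ξ P| = |q * ξ - p| := by
      rcases le_total 0 (P.coeff 1) with h | h
      · exact ⟨P.coeff 1, -P.coeff 0, (abs_of_nonneg h).symm, by rw [hev]; push_cast; ring_nf⟩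
      · refine ⟨-P.coeff 1, P.coeff 0, (abs_of_nonpos h).symm, ?_⟩
        rw [hev, ← abs_neg]; push_cast; ring_nf
    rw [← hq] at hc
    have hq0 : (0 : ℝ) < q := by
      have : (0 : ℤ) < 2 ^ L := by positivity
      exact_mod_cast this.trans hc
    have c4 := mul_lt_mul_of_pos_left (hL q p hc) hq0
    have c5 : (q : ℝ) * (q : ℝ) ^ (-(v + 1)) = (q : ℝ) ^ (-v) := by
      rw [show -v = 1 + -(v + 1) by ring, Real.rpow_add hq0, Real.rpow_one]
    have c6 : |(q : ℝ) * ξ - p| = q * |ξ - p / q| := by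
      have d1 : (q : ℝ) * ξ - p = q * (ξ - p / q) := by field_simp
      rw [d1, abs_mul, abs_of_pos hq0]
    have c7 : (ht P : ℝ) ^ (-v) ≤ (q : ℝ) ^ (-v) := by
      refine Real.rpow_le_rpow_of_nonpos hq0 ?_ (by linarith)
      rw [hq]; push_cast; exact coeff_le_ht P 1
    linarith

end Pool.Agent.MP_b86f6c_nt
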