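import Pool.Agent.MP_b86f6c_nt.SpC

set_option autoImplicit false

namespace Pool.Agent.MP_b86f6c_nt

open Polynomial Finset

lemma irr_map {P : ℤ[X]} (hP : Irreducible P) (hd : P.natDegree ≠ 0) :
    Irreducible (P.map (Int.castRingHom ℚ)) :=
  (IsPrimitive.Int.irreducible_iff_irreducible_map_cast (hP.isPrimitive hd)).1 hP

/-- An irreducible polynomial and its derivative are not both small. -/
lemma res_lower (n a : ℕ) (P : ℤ[X]) (hP : Irreducible P) (hd : P.natDegree ≠ 0) (hB : Bd n a P)
    (x : ℝ) (hx : |x| ≤ 2) :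
    tw (2 * n * a + 12 * n ^ 2) ≤ max |aeval x P| |aeval x (hasseDeriv 1 P)| := by
  set P' := hasseDeriv 1 P with hP'
  have hB' : Bd n (a + n) P' := hB.hasseDeriv 1
  set d := P.natDegree with hdd
  set e := P'.natDegree with he
  have hi : ∀ (K : Type) [Field K] [CharZero K], Function.Injective (Int.castRingHom K) :=
    fun K _ _ => (Int.castRingHom K).injective_int
  have h1 : resultant P P' d e ≠ 0 := by
    have h2 := resultant_ne_zero _ _ (irr_map hP hd).separable
    rw [derivative_map, natDegree_map_eq_of_injective (hi ℚ),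
      natDegree_map_eq_of_injective (hi ℚ), resultant_map_map, ← hasseDeriv_one'] at h2
    intro h
    exact h2 (by rw [← hP', ← hdd, ← he, h, map_zero])
  set f := P.map (Int.castRingHom ℝ) with hf
  set g := P'.map (Int.castRingHom ℝ) with hg
  have hfd : f.natDegree = d := natDegree_map_eq_of_injective (hi ℝ) _
  have hgd : g.natDegree = e := natDegree_map_eq_of_injective (hi ℝ) _
  have h2 : (1 : ℝ) ≤ |resultant (taylor x f) (taylor x g) d e| := by
    have h3 := resultant_taylor f g x
    rw [natDegree_taylor, natDegree_taylor, hfd, hgd] at h3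
    rw [h3, hf, hg, resultant_map_map]
    have := Int.one_le_abs h1
    simp only [eq_intCast]
    exact_mod_cast this
  set μ := max |aeval x P| |aeval x P'| with hμ
  have hμ0 : 0 ≤ μ := (abs_nonneg _).trans (le_max_left _ _)
  set B : ℝ := 2 ^ (4 * n + a) with hBdef
  have hB1 : (1 : ℝ) ≤ B := one_le_pow₀ (by norm_num)
  have c1 : ∀ r, |(taylor x f).coeff r| ≤ B := fun r =>
    (taylor_coeff_bound f n (2 ^ a) x (hfd ▸ hB.1) (fun e => by simpa [hf] using hB.2 e) hx r).trans
      (by rw [← pow_add]; exact pow_le_pow_right₀ (by norm_num) (by omega))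
  have c2 : ∀ r, |(taylor x g).coeff r| ≤ B := fun r =>
    (taylor_coeff_bound g n (2 ^ (a + n)) x (hgd ▸ hB'.1)
      (fun e => by simpa [hg] using hB'.2 e) hx r).trans
      (by rw [← pow_add]; exact pow_le_pow_right₀ (by norm_num) (by omega))
  have c3 : |(taylor x f).coeff 0| ≤ μ := by
    rw [taylor_coeff_zero, hf, eval_map]
    exact le_max_left _ _
  have c4 : |(taylor x g).coeff 0| ≤ μ := by
    rw [taylor_coeff_zero, hg, eval_map]
    exact le_max_right _ _
  have hpos : 0 < d + e := by omega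
  let z : Fin (d + e) := ⟨0, hpos⟩
  have h3 := abs_det_le (sylvester (taylor x f) (taylor x g) d e)
    (Function.update (fun _ => B) z μ) (fun _ => 1) (by
      intro i j
      rw [mul_one]
      by_cases hz : i = z
      · subst hz
        rw [Function.update_self]
        refine Fin.addCases (fun j => ?_) (fun j => ?_) j
        · simp only [sylvester, Matrix.of_apply, Fin.addCases_left, z, Nat.zero_sub]
          split_ifs
          · exact c4
          · simpa using hμ0
        · simp only [sylvester, Matrix.of_apply, Fin.addCases_right, z, Nat.zero_sub]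
          split_ifs
          · exact c3
          · simpa using hμ0
      · rw [Function.update_of_ne hz]
        refine Fin.addCases (fun j => ?_) (fun j => ?_) j
        · simp only [sylvester, Matrix.of_apply, Fin.addCases_left]
          split_ifs
          · exact c2 _
          · simpa using zero_le_one.trans hB1
        · simp only [sylvester, Matrix.of_apply, Fin.addCases_right]
          split_ifs
          · exact c1 _
          · simpa using zero_le_one.trans hB1)
  rw [Finset.prod_update_of_mem (Finset.mem_univ _), Finset.prod_const, Finset.prod_const, one_pow,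
    mul_one] at h3
  have hde : d + e ≤ 2 * n := by have := hB.1; have := hB'.1; omega
  have h4 : ((Finset.univ : Finset (Fin (d + e))) \ {z}).card ≤ 2 * n :=
    (Finset.card_le_univ _).trans (by simpa using hde)
  have h5 : ((d + e).factorial : ℝ) ≤ 2 ^ (4 * n ^ 2) := by
    have b1 : (d + e).factorial ≤ (d + e) ^ (d + e) := Nat.factorial_le_pow _
    have b2 : (d + e) ^ (d + e) ≤ (2 ^ (2 * n)) ^ (2 * n) :=
      (Nat.pow_le_pow_left (hde.trans (Nat.lt_two_pow_self).le) _).trans
        (Nat.pow_le_pow_right (by positivity) hde)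
    rw [← pow_mul, show 2 * n * (2 * n) = 4 * n ^ 2 by ring] at b2
    exact_mod_cast b1.trans b2
  have h6 : (1 : ℝ) ≤ 2 ^ (2 * n * a + 12 * n ^ 2) * μ := by
    calc (1 : ℝ) ≤ _ := h2.trans h3
      _ ≤ 2 ^ (4 * n ^ 2) * (μ * B ^ (2 * n)) := by
          gcongr
      _ = 2 ^ (2 * n * a + 12 * n ^ 2) * μ := by rw [hBdef]; ring
  have h7 := two_pow_mul_tw (2 * n * a + 12 * n ^ 2)
  exact le_of_mul_le_mul_left (h7.le.trans h6) (by positivity)

lemma taylor_two (n a : ℕ) (P : ℤ[X]) (hB : Bd n a P) (x y : ℝ) (hx : |x| ≤ 2) (hy : |y| ≤ 1) :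
    |aeval (x + y) P - (aeval x P + aeval x (hasseDeriv 1 P) * y)| ≤ 2 ^ (4 * n + a) * y ^ 2 := by
  have h1 := taylor_tail (P.map (algebraMap ℤ ℝ)) n (2 ^ a) x y (natDegree_map_le.trans hB.1)
    (fun e => by simpa using hB.2 e) hx hy 2
  rw [Finset.sum_range_succ, Finset.sum_range_one, taylor_map_coeff, taylor_map_coeff,
    hasseDeriv_zero', eval_map_algebraMap, sq_abs, ← pow_add] at h1
  simpa using h1

/-- The real roots. -/
noncomputable def rts (P : ℤ[X]) : Finset ℝ := (P.map (algebraMap ℤ ℝ)).roots.toFinset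

lemma card_rts (P : ℤ[X]) : (rts P).card ≤ P.natDegree :=
  (Multiset.toFinset_card_le _).trans ((card_roots' _).trans natDegree_map_le)

lemma mem_rts {P : ℤ[X]} (hP : P ≠ 0) {β : ℝ} (h : aeval β P = 0) : β ∈ rts P := by
  rw [rts, Multiset.mem_toFinset, mem_roots
    ((Polynomial.map_ne_zero_iff (algebraMap ℤ ℝ).injective_int).2 hP), IsRoot, eval_map_algebraMap]
  exact h

/-- Far from the real roots an irreducible polynomial is not small. -/
lemma newton_lower (n a k : ℕ) (P : ℤ[X]) (hP : Irreducible P) (hd : P.natDegree ≠ 0)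
    (hB : Bd n a P) (x : ℝ) (hx : |x| ≤ 2) (hk : 2 * n * a + 12 * n ^ 2 + 4 * n + a + 1 ≤ k)
    (h : ∀ β ∈ rts P, tw k ≤ |x - β|) :
    tw (k + (2 * n * a + 12 * n ^ 2) + 1) ≤ |aeval x P| := by
  by_contra hc
  push Not at hc
  set K := 2 * n * a + 12 * n ^ 2 with hK
  have h1 := res_lower n a P hP hd hB x hx
  rw [← hK] at h1
  have h2 : tw K ≤ |aeval x (hasseDeriv 1 P)| := by
    rcases le_max_iff.1 h1 with h2 | h2
    · exact absurd (hc.trans_le (tw_anti (by omega))) (not_lt.2 h2)
    · exact h2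
  have hδ := tw_pos k
  have hδ1 := tw_le_one k
  have hK0 := tw_pos K
  have e1 : 2 * tw (k + K + 1) = tw k * tw K := by rw [tw_succ, tw_add]
  have e2 : 2 * (2 ^ (4 * n + a) * tw k) ≤ tw K := by
    have := two_pow_mul_tw_le (a := 4 * n + a + 1) (b := k) (c := K) (by omega)
    rw [pow_succ] at this
    linarith
  have t1 := abs_le.1 (taylor_two n a P hB x (tw k) hx (by rw [abs_of_pos hδ]; exact hδ1))
  have t2 := abs_le.1
    (taylor_two n a P hB x (-tw k) hx (by rw [abs_neg, abs_of_pos hδ]; exact hδ1))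
  have e3 : 2 * (2 ^ (4 * n + a) * tw k ^ 2) ≤ tw k * tw K := by nlinarith
  rw [neg_sq] at t2
  have hc' := abs_lt.1 hc
  have hcont : ContinuousOn (fun z : ℝ => aeval z P) (Set.Icc (x + -tw k) (x + tw k)) :=
    (P.continuous_aeval).continuousOn
  have hroot : ∃ β ∈ Set.Ioo (x + -tw k) (x + tw k), aeval β P = 0 := by
    rcases le_abs'.1 h2 with h3 | h3
    · refine intermediate_value_Ioo' (by linarith) hcont ⟨?_, ?_⟩
      · nlinarith [t1.2, hc'.2]
      · nlinarith [t2.1, hc'.1]
    · refine intermediate_value_Ioo (by linarith) hcont ⟨?_, ?_⟩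
      · nlinarith [t2.2, hc'.2]
      · nlinarith [t1.1, hc'.1]
  obtain ⟨β, ⟨b1, b2⟩, b3⟩ := hroot
  have := h β (mem_rts hP.ne_zero b3)
  have h4 : |x - β| < tw k := by rw [abs_lt]; constructor <;> linarith
  linarith

lemma aeval_map_rat (P : ℤ[X]) (y : ℝ) : aeval y (P.map (Int.castRingHom ℚ)) = aeval y P :=
  aeval_map_algebraMap ℚ y P

/-- Two irreducible polynomials with a common root agree up to sign. -/
lemma eq_or_neg_of_root {P Q : ℤ[X]} (hP : Irreducible P) (hQ : Irreducible Q)
    (he : Q.natDegree ≠ 0) {y : ℝ} (h1 : aeval y P = 0)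
    (h2 : aeval y Q = 0) : P = Q ∨ P = -Q := by
  have h3 : Q.map (Int.castRingHom ℚ) ∣ P.map (Int.castRingHom ℚ) := by
    by_contra h
    have h4 := (irr_map hQ he).coprime_iff_not_dvd.2 h
    rcases aeval_ne_zero_of_isCoprime h4 y with h5 | h5
    · exact h5 ((aeval_map_rat Q y).trans h2)
    · exact h5 ((aeval_map_rat P y).trans h1)
  obtain ⟨R, hR⟩ := (IsPrimitive.Int.dvd_iff_map_cast_dvd_map_cast Q P (hQ.isPrimitive he)).2 h3
  obtain ⟨r, hr, rfl⟩ := Polynomial.isUnit_iff.1 ((hP.isUnit_or_isUnit hR).resolve_left hQ.not_isUnit)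
  rcases Int.isUnit_iff.1 hr with rfl | rfl
  · left; simpa using hR
  · right; simpa using hR

lemma exists_irr_root (y : ℝ) (P : ℤ[X]) (hP : P ≠ 0) (h : aeval y P = 0) :
    ∃ Q : ℤ[X], Irreducible Q ∧ Q ∣ P ∧ aeval y Q = 0 := by
  induction P using WfDvdMonoid.induction_on_irreducible with
  | zero => exact absurd rfl hP
  | unit u hu => exact absurd h (hu.map (aeval y)).ne_zero
  | mul a i ha hi ih =>
    rw [map_mul, mul_eq_zero] at h
    rcases h with h | h
    · exact ⟨i, hi, dvd_mul_right _ _, h⟩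
    · obtain ⟨Q, h1, h2, h3⟩ := ih ha h
      exact ⟨Q, h1, h2.mul_left _, h3⟩

lemma no_rat_root {P : ℤ[X]} (hP : Irreducible P) (hd : 2 ≤ P.natDegree) (c : ℤ) (g : ℕ) :
    aeval ((c : ℝ) / g) P ≠ 0 := by
  intro h
  have h1 : IsRoot (P.map (Int.castRingHom ℚ)) ((c : ℚ) / g) := by
    have h2 := aeval_algebraMap_apply ℝ ((c : ℚ) / g) P
    simp only [eq_ratCast, Rat.cast_div, Rat.cast_intCast, Rat.cast_natCast] at h2
    rw [h2] at h
    rw [IsRoot, eval_map]
    exact_mod_cast h
  have h2 := degree_eq_one_of_irreducible_of_root (irr_map hP (by omega)) h1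
  rw [degree_map_eq_of_injective (Int.castRingHom ℚ).injective_int] at h2
  have : P.natDegree = 1 := natDegree_eq_of_degree_eq_some h2
  omega

lemma ht_neg (P : ℤ[X]) : ht (-P) = ht P := by simp [ht]

/-- Passage from irreducible polynomials to all polynomials through the Mahler measure. -/
lemma lower_of_irr (ξ v c : ℝ) (n : ℕ) (hv : 0 ≤ v) (hc : 0 < c)
    (h : ∀ P : ℤ[X], Irreducible P → P.natDegree ≠ 0 → P.natDegree ≤ n →
      c * (ht P : ℝ) ^ (-v) ≤ |aeval ξ P|) :
    ∃ c' : ℝ, 0 < c' ∧ ∀ P : ℤ[X], P ≠ 0 → P.natDegree ≤ n →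
      c' * (ht P : ℝ) ^ (-v) ≤ |aeval ξ P| := by
  let M : ℤ[X] → ℝ := fun P => (P.map (Int.castRingHom ℂ)).mahlerMeasure
  have hM1 : ∀ P, P ≠ 0 → 1 ≤ M P := fun P hP => one_le_mahlerMeasure_of_ne_zero hP
  have hM2 : ∀ P Q, M (P * Q) = M P * M Q := fun P Q => by
    simp only [M, Polynomial.map_mul, mahlerMeasure_mul]
  have hM3 : ∀ P : ℤ[X], P.natDegree ≤ n → (ht P : ℝ) ≤ 2 ^ n * M P := by
    intro P hP
    by_cases h0 : P.support.Nonempty
    · obtain ⟨e, -, he⟩ := Finset.exists_mem_eq_sup _ h0 fun i => (P.coeff i).natAbs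
      have h1 := norm_coeff_le_choose_mul_mahlerMeasure e (P.map (Int.castRingHom ℂ))
      rw [coeff_map, eq_intCast, Complex.norm_intCast] at h1
      rw [ht, he, Nat.cast_natAbs, Int.cast_abs]
      refine h1.trans (mul_le_mul_of_nonneg_right ?_ (mahlerMeasure_nonneg _))
      exact (choose_le_two_pow' _ _).trans
        (pow_le_pow_right₀ (by norm_num) (natDegree_map_le.trans hP))
    · rw [ht, Finset.not_nonempty_iff_eq_empty.1 h0]
      simpa using mahlerMeasure_nonneg _
  have hM4 : ∀ P : ℤ[X], P.natDegree ≤ n → M P ≤ (n + 1) * ht P := by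
    intro P hP
    refine (mahlerMeasure_le_sum_norm_coeff _).trans ?_
    rw [Polynomial.sum_def]
    refine (Finset.sum_le_card_nsmul _ _ (ht P : ℝ) fun e _ => ?_).trans ?_
    · rw [coeff_map, eq_intCast, Complex.norm_intCast]
      exact coeff_le_ht P e
    · rw [nsmul_eq_mul]
      refine mul_le_mul_of_nonneg_right ?_ (by positivity)
      have := (card_supp_le_succ_natDegree (P.map (Int.castRingHom ℂ))).trans
        (Nat.succ_le_succ (natDegree_map_le.trans hP))
      exact_mod_cast this
  set b := min 1 (c * ((2 : ℝ) ^ n) ^ (-v)) with hb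
  have hb0 : 0 < b := lt_min one_pos (by positivity)
  have hb1 : b ≤ 1 := min_le_left _ _
  have hz : ∀ P : ℤ[X], P ≠ 0 → P.natDegree = 0 → M P ^ (-v) ≤ |aeval ξ P| := by
    intro P hP h0
    refine (Real.rpow_le_one_of_one_le_of_nonpos (hM1 P hP) (by linarith)).trans ?_
    rw [eq_C_of_natDegree_eq_zero h0] at hP ⊢
    have := Int.one_le_abs (C_ne_zero.1 hP)
    rw [aeval_C, algebraMap_int_eq, eq_intCast]
    exact_mod_cast this
  have key : ∀ P : ℤ[X], P ≠ 0 → P.natDegree ≤ n →
      b ^ P.natDegree * M P ^ (-v) ≤ |aeval ξ P| := by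
    intro P
    induction P using WfDvdMonoid.induction_on_irreducible with
    | zero => exact fun h => absurd rfl h
    | unit u hu =>
      intro h0 _
      have h1 := natDegree_eq_zero_of_isUnit hu
      rw [h1, pow_zero, one_mul]
      exact hz u h0 h1
    | mul a i ha hi ih =>
      intro _ hn
      rw [natDegree_mul hi.ne_zero ha] at hn ⊢
      have h1 := hM1 i hi.ne_zero
      have h2 := hM1 a ha
      have h3 : b ^ i.natDegree * M i ^ (-v) ≤ |aeval ξ i| := by
        by_cases h0 : i.natDegree = 0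
        · rw [h0, pow_zero, one_mul]
          exact hz i hi.ne_zero h0
        · refine le_trans ?_ (h i hi h0 (by omega))
          have h4 : (2 ^ n * M i) ^ (-v) ≤ (ht i : ℝ) ^ (-v) :=
            Real.rpow_le_rpow_of_nonpos (lt_of_lt_of_le one_pos (one_le_ht hi.ne_zero))
              (hM3 i (by omega)) (by linarith)
          rw [Real.mul_rpow (by positivity) (by linarith)] at h4
          have h5 : b ^ i.natDegree ≤ c * ((2 : ℝ) ^ n) ^ (-v) :=
            (pow_le_of_le_one hb0.le hb1 h0).trans (min_le_right _ _)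
          calc b ^ i.natDegree * M i ^ (-v) ≤ c * ((2 : ℝ) ^ n) ^ (-v) * M i ^ (-v) :=
                mul_le_mul_of_nonneg_right h5 (Real.rpow_nonneg (by linarith) _)
            _ = c * (((2 : ℝ) ^ n) ^ (-v) * M i ^ (-v)) := by ring
            _ ≤ _ := mul_le_mul_of_nonneg_left h4 hc.le
      rw [hM2, Real.mul_rpow (by linarith) (by linarith), pow_add, map_mul, abs_mul,
        mul_mul_mul_comm]
      exact mul_le_mul h3 (ih ha (by omega))
        (mul_nonneg (by positivity) (Real.rpow_nonneg (by linarith) _)) (abs_nonneg _)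
  refine ⟨b ^ n * ((n : ℝ) + 1) ^ (-v), by positivity, fun P hP hn => le_trans ?_ (key P hP hn)⟩
  have h1 := hM1 P hP
  rw [mul_assoc, ← Real.mul_rpow (by positivity) (by positivity)]
  exact mul_le_mul (pow_le_pow_of_le_one hb0.le hb1 hn)
    (Real.rpow_le_rpow_of_nonpos (by linarith) (hM4 P hn) (by linarith)) (by positivity)
    (by positivity)

end Pool.Agent.MP_b86f6c_nt
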