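import Pool.Agent.MP_b86f6c_nt.SqA

set_option autoImplicit false

namespace Pool.Agent.MP_b86f6c_nt

open Polynomial Finset

/-- The generic exponent for irreducible polynomials of degree `d`. -/
def GG (d : ℕ) : ℕ := VV d + 2 * d

/-- Lower bound for irreducible polynomials of degree `d` and level `a`. -/
def Good3 (w : ℝ) (d a : ℕ) (x : ℝ) : Prop :=
  ∀ P : ℤ[X], Irreducible P → P.natDegree = d → Bd d a P →
    tw (GG d * a + (12 * d ^ 2 + 1)) ≤ |aeval x P| ∨ tw 6 * (ht P : ℝ) ^ (-w) ≤ |aeval x P|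

/-- A polynomial of degree at most `m` and large height which is small at `x`. -/
def Close3 (w : ℝ) (m j : ℕ) (x : ℝ) : Prop :=
  ∃ P : ℤ[X], P.natDegree ≤ m ∧ j < ht P ∧ |aeval x P| ≤ (ht P : ℝ) ^ (-w)

/-- One stage of the nested interval construction. -/
def Stage3 (τ : ℝ) (ω : ℕ → ℝ) (A D j : ℕ) (Z : ℝ → Prop) (x0 : ℝ) (ρ : ℕ) : Prop :=
  ∃ (x1 : ℝ) (ρ1 : ℕ), 2 * ρ + j ≤ ρ1 ∧ x0 ≤ x1 ∧ x1 + tw ρ1 ≤ x0 + tw ρ ∧
    ∀ x, x1 ≤ x → x ≤ x1 + tw ρ1 →
      (∀ l, ρ < (2 * D + 2) * l + 2 → (2 * D + 3) * l + 2 ≤ ρ1 → Good1x τ (A + 3) D l x) ∧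
      (∀ d ≤ j, 2 ≤ d → ∀ a, ρ < UV d * a → UV d * a ≤ ρ1 → Good3 (ω d) d a x) ∧ Z x

lemma gen_lower (y t : ℝ) (hy0 : 0 ≤ y) (hy1 : y ≤ 1) (d a u w ρ1 : ℕ) (ht0 : 0 ≤ t)
    (ht2 : t ≤ 2 * tw ρ1) (hu : u + 2 ≤ ρ1) (hwu : u ≤ 2 * w) (P : ℤ[X]) (hP : Irreducible P)
    (hd : P.natDegree ≠ 0) (hB : Bd d a P) (ha : 1 ≤ a) (ha2 : UV d * a ≤ ρ1)
    (hc : (d + 1) * (a + 2) ≤ w → ∀ β ∈ rts P, tw (VV d * a) + tw (u + 1) ≤ |y - β|)
    (hl : u ≤ 6 * (d + 1) * a → tw (UU d * a) ≤ |aeval y P|) :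
    tw (GG d * a + (12 * d ^ 2 + 1)) ≤ |aeval (y + t) P| := by
  have h2 : 2 * tw ρ1 ≤ tw (u + 1) := by
    have := two_pow_mul_tw_le (a := 1) (b := ρ1) (c := u + 1) (by omega)
    simpa using this
  have ht1 : t ≤ 1 := by linarith [tw_le_one (u + 1)]
  by_cases hreg : (d + 1) * (a + 2) ≤ w
  · have h1 := newton_lower d a (VV d * a) P hP hd hB (y + t)
      (by rw [abs_of_nonneg (by linarith)]; linarith) (by
        have b1 : (2 * d + 12 * d ^ 2 + 4 * d + 2) * a ≤ VV d * a :=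
          Nat.mul_le_mul_right _ (by
            unfold VV UV UU
            nlinarith [Nat.zero_le (d ^ 3), Nat.zero_le (d ^ 2)])
        have b2 : 12 * d ^ 2 + 4 * d + 1 ≤ (12 * d ^ 2 + 4 * d + 1) * a :=
          Nat.le_mul_of_pos_right _ ha
        nlinarith) (fun β hβ => by
        have h3 := hc hreg β hβ
        have h4 := abs_sub_abs_le_abs_sub (y - β) (-t)
        rw [abs_neg, abs_of_nonneg ht0, show y - β - -t = y + t - β by ring] at h4
        linarith)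
    refine le_trans (le_of_eq ?_) h1
    congr 1
    unfold GG; ring
  · push Not at hreg
    have hua : u ≤ 6 * (d + 1) * a := by
      have b1 : (d + 1) * (a + 2) ≤ (d + 1) * (3 * a) := Nat.mul_le_mul_left _ (by omega)
      have b2 : 6 * (d + 1) * a = 2 * ((d + 1) * (3 * a)) := by ring
      omega
    have h1 := taylor_tail_lower (P.map (algebraMap ℤ ℝ)) d (2 ^ a) y t
      (natDegree_map_le.trans hB.1) (fun e => by simpa using hB.2 e)
      (by rw [abs_of_nonneg hy0]; linarith) (by rw [abs_of_nonneg ht0]; exact ht1) 0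
      (fun r hr => absurd hr (Nat.not_lt_zero r))
    rw [pow_zero, one_mul, taylor_coeff_zero, eval_map_algebraMap, eval_map_algebraMap,
      abs_of_nonneg ht0] at h1
    have h3 : (2 : ℝ) ^ (4 * d) * 2 ^ a * t ≤ tw (UU d * a + 1) := by
      calc (2 : ℝ) ^ (4 * d) * 2 ^ a * t ≤ 2 ^ (4 * d) * 2 ^ a * (2 * tw ρ1) := by gcongr
        _ = 2 ^ (4 * d + a + 1) * tw ρ1 := by ring
        _ ≤ tw (UU d * a + 1) := two_pow_mul_tw_le (by unfold UV at ha2; nlinarith)
    have h4 := tw_succ (UU d * a)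
    have h5 : tw (GG d * a + (12 * d ^ 2 + 1)) ≤ tw (UU d * a + 1) := tw_anti (by
      have : UU d * a ≤ GG d * a := Nat.mul_le_mul_right _ (by unfold GG VV UV; omega)
      omega)
    linarith [hl hua]

/-- Choice of the distance to a root of an irreducible polynomial. -/
lemma exact_dist (m b u : ℕ) (ω y : ℝ) (hω : 32 * ((m : ℝ) + 1) ^ 3 ≤ ω) (hy : |y| ≤ 2)
    (P : ℤ[X]) (hP : Irreducible P) (hd : P.natDegree ≠ 0) (hB : Bd m (b + 1) P)
    (hb : 2 ^ b ≤ ht P) (hb1 : 1 ≤ b) (hu : u ≤ 2 * ((m + 1) * (b + 3))) (h0 : aeval y P = 0) :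
    ∃ k, u + 2 ≤ k ∧ ∀ ρ1, k ≤ ρ1 → ρ1 ≤ k + 2 → ∀ t, tw ρ1 ≤ t → t ≤ 2 * tw ρ1 →
      |aeval (y + t) P| ≤ (ht P : ℝ) ^ (-ω) ∧ tw 6 * (ht P : ℝ) ^ (-ω) ≤ |aeval (y + t) P| := by
  classical
  set K := 2 * m * (b + 1) + 12 * m ^ 2 with hK
  set μ := |aeval y (hasseDeriv 1 P)| with hμ
  set ε := (ht P : ℝ) ^ (-ω) with hε
  have hK0 := tw_pos K
  have h1 : tw K ≤ μ := by
    have := res_lower m (b + 1) P hP hd hB y hy
    rw [h0, abs_zero] at this
    exact (le_max_iff.1 this).resolve_left (not_le.2 hK0)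
  have hμ0 : 0 < μ := hK0.trans_le h1
  have hε0 : 0 < ε := Real.rpow_pos_of_pos (lt_of_lt_of_le one_pos (one_le_ht hP.ne_zero)) _
  have h2 : ε ≤ tw (32 * (m + 1) ^ 3 * b) :=
    rpow_neg_le_tw (b := b) (by exact_mod_cast hb) (le_trans (by positivity) hω) (by
      push_cast
      rw [mul_comm]
      exact mul_le_mul_of_nonneg_left hω (by positivity))
  have hex : ∃ k, 4 * μ * tw k ≤ ε := by
    obtain ⟨k, hk⟩ := exists_pow_lt_of_lt_one (div_pos hε0 (by positivity : 0 < 4 * μ))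
      (by norm_num : (1 / 2 : ℝ) < 1)
    rw [lt_div_iff₀ (by positivity)] at hk
    exact ⟨k, by unfold tw; linarith⟩
  have c1 := Nat.find_spec hex
  have c2 : 32 * (m + 1) ^ 3 * b ≤ K + Nat.find hex := by
    rw [← tw_le_iff, tw_add]
    have := tw_pos (Nat.find hex)
    nlinarith
  have c3 : K + 4 * m + b + 3 + (u + 2) ≤ Nat.find hex := by
    have d1 : (24 * m ^ 2 + 20 * m + 14) * b ≤ 32 * (m + 1) ^ 3 * b :=
      Nat.mul_le_mul_right _ (by nlinarith [Nat.zero_le (m ^ 3), Nat.zero_le (m ^ 2)])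
    have d2 : 24 * m ^ 2 + 14 * m + 11 ≤ (24 * m ^ 2 + 14 * m + 11) * b :=
      Nat.le_mul_of_pos_right _ hb1
    nlinarith
  obtain ⟨k, hk⟩ : ∃ k, Nat.find hex = k + 1 := ⟨Nat.find hex - 1, by omega⟩
  have c4 : ε < 4 * μ * tw k := not_le.1 (Nat.find_min hex (by omega))
  rw [hk] at c1 c3
  refine ⟨k + 1, by omega, fun ρ1 r1 r2 t t1 t2 => ?_⟩
  have r3 := tw_anti r1
  have r4 := tw_anti r2
  have r5 := tw_pos ρ1
  have r6 : 8 * tw (k + 1 + 2) = tw k := by
    have := tw_succ k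
    have := tw_succ (k + 1)
    have := tw_succ (k + 1 + 1)
    linarith
  have t0 : 0 < t := r5.trans_le t1
  have t3 : t ≤ 1 := by linarith [tw_succ k, tw_le_one k]
  have h3 := taylor_two m (b + 1) P hB y t hy (by rw [abs_of_pos t0]; exact t3)
  rw [h0, zero_add] at h3
  have h4 : 2 * (2 ^ (4 * m + (b + 1)) * t) ≤ μ := by
    calc 2 * (2 ^ (4 * m + (b + 1)) * t) ≤ 2 * (2 ^ (4 * m + (b + 1)) * (2 * tw ρ1)) := by gcongr
      _ = 2 ^ (4 * m + b + 3) * tw ρ1 := by ring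
      _ ≤ tw K := two_pow_mul_tw_le (by omega)
      _ ≤ μ := h1
  have h5 : 2 * (2 ^ (4 * m + (b + 1)) * t ^ 2) ≤ μ * t := by nlinarith
  have h6 := abs_le.1 ((abs_abs_sub_abs_le_abs_sub _ _).trans h3)
  rw [abs_mul, abs_of_pos t0, ← hμ] at h6
  have h7 : μ * t ≤ μ * (2 * tw (k + 1)) := by gcongr; linarith
  have h8 : μ * tw (k + 1 + 2) ≤ μ * t := by gcongr; linarith
  rw [show tw 6 = 1 / 64 by unfold tw; norm_num]
  constructor
  · nlinarith [h6.2, mul_pos hμ0 t0]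
  · rw [← r6] at c4
    nlinarith [h6.1]

lemma step_alg3 (τ : ℝ) (ω : ℕ → ℝ) (A D : ℕ) (hD : 1 ≤ D) (m : ℕ) (hm : 2 ≤ m)
    (hω : 32 * ((m : ℝ) + 1) ^ 3 ≤ ω m) (j : ℕ) (hmj : m ≤ j) (s x0 : ℝ) (ρ : ℕ)
    (hx0 : 0 ≤ x0) (hx1 : x0 + tw ρ ≤ 1) (hρ : 20 * D + 22 ≤ ρ) :
    Stage3 τ ω A D j (fun x => Close3 (ω m) m j x ∧ x ≠ s) x0 ρ := by
  obtain ⟨N, γ, c0, cb, hB⟩ := exists_base m D hm hD
  obtain ⟨v, hv0, hv⟩ := growth ((j + 3) * (D ^ 2 + 4 * D + 3)) (c0 + D + j + 5 + ρ + 4)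
    (j + 2 * ρ + 2 + c0 + (m + 1) * (ρ + j + 3) + ∑ n ∈ range (j + 1), cb n)
  set w := (D ^ 2 + 4 * D + 2) * v with hw
  set u := w + v with hu
  obtain ⟨g, hg, hg1, hg2⟩ := Nat.exists_prime_lt_and_le_two_mul (2 ^ u) (by positivity)
  rw [← pow_succ'] at hg2
  obtain ⟨c, hc1, hc2, hc3, hc4⟩ := exists_good_c hB rts (fun P _ => card_rts P) g v w u ρ j hw hu
    hg hg1.le hg2 (by omega) hρ (by
      refine le_trans ?_ hv
      refine mul_le_mul_of_nonneg_right ?_ (by positivity)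
      have : (j + 3) * (u + 1) ≤ (j + 3) * (D ^ 2 + 4 * D + 3) * (v + 1) := by
        rw [mul_assoc]
        refine Nat.mul_le_mul_left _ ?_
        rw [hu, hw]; nlinarith
      exact_mod_cast this) x0
  have hg0 : (0 : ℝ) < g := by exact_mod_cast hg.pos
  have hgr2 : (g : ℝ) ≤ 2 ^ (u + 1) := by exact_mod_cast hg2
  have hr := tw_pos ρ
  have hy0 : 0 ≤ (c + γ) / g := hx0.trans hc1
  have hy1 : (c + γ) / g ≤ 1 := by linarith
  have hy : |(c + γ) / g| ≤ 2 := by rw [abs_of_nonneg hy0]; linarith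
  have hcabs : |(c : ℝ)| ≤ 2 ^ (u + 1) := by
    rw [le_div_iff₀ hg0] at hy0
    rw [div_le_iff₀ hg0] at hy1
    have h2 : (2 : ℝ) ≤ 2 ^ (u + 1) := le_self_pow₀ (by norm_num) (by omega)
    rw [abs_le]; constructor <;> linarith [hB.h1, hB.h2]
  have hvu : v ≤ u := by omega
  have hvw : v ≤ w := Nat.le_mul_of_pos_left _ (by omega)
  have hdeg : ∀ P : ℤ[X], P ≠ 0 → aeval ((c + γ) / g) P = 0 → m ≤ P.natDegree := by
    intro P hP0 h
    by_contra h8
    obtain ⟨Q, hQ, hQ0, hev⟩ := exists_transfer P.natDegree (ht P) u g c hg.pos hg2 hcabs P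
      (Bd_of_ht le_rfl (Nat.lt_two_pow_self).le)
    exact hB.ne Q (hQ0 hP0) (hQ.1.trans_lt (not_le.1 h8)) (by rw [hev, h, mul_zero])
  obtain ⟨P0, hP1, hP2, hP3⟩ : ∃ P0 : ℤ[X], Irreducible P0 ∧ P0.natDegree = m ∧
      aeval ((c + γ) / g) P0 = 0 := by
    let Q : ℤ[X] := C (N : ℤ) * (C (g : ℤ) * X - C c) ^ m - C ((N : ℤ) + 1)
    have hev : ∀ x : ℝ, aeval x Q = N * (g * x - c) ^ m - (N + 1) := by
      intro x
      simp [Q]
    have hQ0 : Q ≠ 0 := by
      intro h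
      have h1 := hev (c / g)
      rw [h, map_zero, mul_div_cancel₀ _ hg0.ne', sub_self, zero_pow (by omega)] at h1
      have : (0 : ℝ) ≤ N := by positivity
      linarith
    have hQd : Q.natDegree ≤ m := by
      simp only [Q]
      compute_degree!
    obtain ⟨P0, h1, h2, h3⟩ := exists_irr_root ((c + γ) / g) Q hQ0 (by
      rw [hev, mul_div_cancel₀ _ hg0.ne', add_sub_cancel_left, hB.eq, sub_self])
    exact ⟨P0, h1, le_antisymm ((natDegree_le_of_dvd h2 hQ0).trans hQd)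
      (hdeg P0 h1.ne_zero h3), h3⟩
  obtain ⟨b, hb1, hb2, hb3⟩ : ∃ b, ht P0 ≤ 2 ^ (b + 1) ∧ 2 ^ b < ht P0 ∧
      w < (m + 1) * (b + 3) := by
    classical
    have hex : ∃ a, ht P0 ≤ 2 ^ a := ⟨ht P0, (Nat.lt_two_pow_self).le⟩
    have c1 := Nat.find_spec hex
    have c0 : (m + 1) * (ρ + 1 + 2) ≤ (m + 1) * (ρ + j + 3) := Nat.mul_le_mul_left _ (by omega)
    have c2 : w < (m + 1) * (Nat.find hex + 2) := by
      by_contra hc
      have c3 := hc4 m hmj (max (Nat.find hex) (ρ + 1))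
        (lt_of_lt_of_le (lt_of_lt_of_le (Nat.lt_succ_self ρ) (le_max_right _ _))
          (Nat.le_mul_of_pos_left _ (by unfold UV; omega)))
        (by rcases max_choice (Nat.find hex) (ρ + 1) with h | h <;> rw [h] <;> omega)
        P0 hP1.ne_zero (Bd_of_ht hP2.le
          (c1.trans (Nat.pow_le_pow_right (by norm_num) (le_max_left _ _))))
        _ (mem_rts hP1.ne_zero hP3)
      rw [sub_self, abs_zero] at c3
      linarith [tw_pos (VV m * max (Nat.find hex) (ρ + 1)), tw_pos (u + 1)]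
    have c3 : ρ + 1 + 2 < Nat.find hex + 2 := Nat.lt_of_mul_lt_mul_left (a := m + 1) (by omega)
    obtain ⟨b, hb⟩ : ∃ b, Nat.find hex = b + 1 := ⟨Nat.find hex - 1, by omega⟩
    have c4 : ¬ ht P0 ≤ 2 ^ b := Nat.find_min hex (by omega)
    rw [hb] at c1 c2
    exact ⟨b, c1, not_le.1 c4, c2⟩
  have hb4 : ρ + j + 3 < b + 3 := Nat.lt_of_mul_lt_mul_left (a := m + 1) (by omega)
  obtain ⟨k, hk, hE⟩ := exact_dist m b u (ω m) ((c + γ) / g) hω hy P0 hP1 (by omega)
    (Bd_of_ht hP2.le hb1) hb2.le (by omega) (by omega) hP3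
  obtain ⟨ρ1, hR1, hR2, hR3⟩ := exists_avoid ((c + γ) / g) s k
  have hρu : ρ + 2 ≤ u := by omega
  have hρρ : ρ + 2 ≤ ρ1 := by omega
  have hr1 := tw_pos ρ1
  have hr2 : 4 * tw ρ1 ≤ tw ρ := by
    have := two_pow_mul_tw_le (a := 2) (b := ρ1) (c := ρ) (by omega)
    norm_num at this
    exact this
  refine ⟨(c + γ) / g + tw ρ1, ρ1, by omega, by linarith, by linarith, ?_⟩
  intro x hx2 hx3
  obtain ⟨t, rfl⟩ : ∃ t, x = (c + γ) / g + t := ⟨x - (c + γ) / g, by ring⟩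
  have ht1 : tw ρ1 ≤ t := by linarith
  have ht2 : t ≤ 2 * tw ρ1 := by linarith
  have ht0 : 0 ≤ t := by linarith
  have htri : ∀ β : ℝ, |(c + γ) / g - β| - t ≤ |(c + γ) / g + t - β| := by
    intro β
    have := abs_sub_abs_le_abs_sub ((c + γ) / g - β) (-t)
    rw [abs_neg, abs_of_nonneg ht0] at this
    refine this.trans (le_of_eq ?_)
    congr 1; ring
  obtain ⟨hE1, hE2⟩ := hE ρ1 hR1 hR2 t ht1 ht2
  refine ⟨?_, ?_, ?_, ?_⟩
  · intro l hl1 hl2 q p hq1 hq2
    left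
    refine le_trans ?_ (htri _)
    by_cases hl : l < c0 + u + 1
    · have h1 := hc3 l hl1 hl q p hq1 hq2
      have h2 : 2 * tw ρ1 ≤ tw ((2 * D + 3) * l) := by
        have := two_pow_mul_tw_le (a := 1) (b := ρ1) (c := (2 * D + 3) * l) (by omega)
        simpa using this
      linarith
    · push Not at hl
      have a1 : (0 : ℝ) < q := by exact_mod_cast hq1
      have a2 : (q : ℝ) ≤ 2 ^ (D * l) := by exact_mod_cast hq2
      have h1 := hB.lin l q (g * p - c * q) hq1 hq2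
      have a3 : (c + γ) / g - p / q = (q * γ - ((g * p - c * q : ℤ) : ℝ)) / (g * q) := by
        push_cast; field_simp; ring
      have h2 : tw ((2 * D + 2) * l) ≤ |(c + γ) / g - p / q| := by
        rw [a3, abs_div, abs_of_pos (by positivity : (0 : ℝ) < g * q),
          le_div_iff₀ (by positivity)]
        refine le_trans ?_ h1
        have := tw_pos ((2 * D + 2) * l)
        calc tw ((2 * D + 2) * l) * (g * q)
            ≤ tw ((2 * D + 2) * l) * (2 ^ (u + 1) * 2 ^ (D * l)) := by gcongr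
          _ = 2 ^ (u + 1 + D * l) * tw ((2 * D + 2) * l) := by ring
          _ ≤ _ := two_pow_mul_tw_le (by
              have b1 : (2 * D + 2) * l = D * l + (D + 1) * l + l := by ring
              omega)
      have h3 : tw ((2 * D + 3) * l) ≤ tw ((2 * D + 2) * l + 1) := tw_anti (by
        have b1 : (2 * D + 3) * l = (2 * D + 2) * l + l := by ring
        omega)
      have h4 : tw ρ1 ≤ tw ((2 * D + 2) * l + 1 + 1) := tw_anti (by
        have b1 : (2 * D + 3) * l = (2 * D + 2) * l + l := by ring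
        omega)
      have h5 := tw_succ ((2 * D + 2) * l)
      have h6 := tw_succ ((2 * D + 2) * l + 1)
      linarith
  · intro n hn hn2 a ha1 ha2 P hP hPd hPB
    have ha : 1 ≤ a := by
      rcases Nat.eq_zero_or_pos a with rfl | h
      · simp at ha1
      · exact h
    by_cases h0 : aeval ((c + γ) / g) P = 0
    · right
      rcases eq_or_neg_of_root hP hP1 (by omega) h0 hP3 with rfl | rfl
      · rw [← hPd, hP2]; exact hE2
      · rw [natDegree_neg] at hPd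
        rw [← hPd, hP2, ht_neg, map_neg, abs_neg]; exact hE2
    · left
      have hcb : cb n ≤ u := by
        have : cb n ≤ ∑ n ∈ range (j + 1), cb n :=
          Finset.single_le_sum (f := cb) (fun _ _ => Nat.zero_le _)
            (Finset.mem_range.2 (by omega))
        omega
      exact gen_lower _ t hy0 hy1 n a u w ρ1 ht0 ht2 (by omega) (by omega) P hP (by omega) hPB ha
        ha2 (fun hreg => hc4 n hn a ha1 hreg P hP.ne_zero hPB)
        (fun hua => hB.point_lower n a u g c hg.pos hg2 hcabs P ⟨hPB.1, fun e =>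
          (hPB.2 e).trans (pow_le_pow_right₀ (by norm_num) (by omega))⟩ ha hua hcb h0)
  · refine ⟨P0, hP2.le, ?_, hE1⟩
    have : b < 2 ^ b := Nat.lt_two_pow_self
    omega
  · intro h
    exact hR3 ⟨by linarith, by linarith⟩

lemma step_rat3 (τ : ℝ) (hτ : 2 ≤ τ) (ω : ℕ → ℝ) (A : ℕ) (hA : τ ≤ A) (D j : ℕ) (x0 : ℝ) (ρ : ℕ)
    (hx0 : 0 ≤ x0) (hx1 : x0 + tw ρ ≤ 1) (hρ : 20 * D + 22 ≤ ρ) :
    Stage3 τ ω A D j (CloseQ τ j) x0 ρ := by
  obtain ⟨v, hv0, hv⟩ := growth ((j + 3) * (D ^ 2 + 4 * D + 3)) (D + j + 5 + ρ + 4) (j + ρ + 3)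
  set w := (D ^ 2 + 4 * D + 2) * v with hw
  set u := w + v with hu
  obtain ⟨g, hg, hg1, hg2⟩ := Nat.exists_prime_lt_and_le_two_mul (2 ^ u) (by positivity)
  rw [← pow_succ'] at hg2
  obtain ⟨c, hc1, hc2, hc3, hc4⟩ := exists_good_c0 D 0 rts (fun P _ => card_rts P) g v w u ρ j hw hu
    hg hg1 hg2 (by omega) hρ (by
      refine le_trans ?_ hv
      refine mul_le_mul_of_nonneg_right ?_ (by positivity)
      have : (j + 3) * (u + 1) ≤ (j + 3) * (D ^ 2 + 4 * D + 3) * (v + 1) := by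
        rw [mul_assoc]
        refine Nat.mul_le_mul_left _ ?_
        rw [hu, hw]; nlinarith
      exact_mod_cast this) x0
  simp only [add_zero] at hc1 hc2 hc3 hc4
  have hg0 : (0 : ℝ) < g := by exact_mod_cast hg.pos
  have hgr1 : (2 : ℝ) ^ u ≤ g := by exact_mod_cast hg1.le
  have hgr2 : (g : ℝ) ≤ 2 ^ (u + 1) := by exact_mod_cast hg2
  have hr := tw_pos ρ
  have hy0 : 0 ≤ (c : ℝ) / g := hx0.trans hc1
  have hy1 : (c : ℝ) / g < 1 := by linarith
  have hc0 : 0 ≤ c := by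
    rw [le_div_iff₀ hg0, zero_mul] at hy0
    exact_mod_cast hy0
  have hcg : c < g := by
    rw [div_lt_one hg0] at hy1
    exact_mod_cast hy1
  set k := ⌈((u + 1 : ℕ) : ℝ) * τ⌉₊ with hk
  have hk1 : ((u + 1 : ℕ) : ℝ) * τ ≤ k := Nat.le_ceil _
  have hk2 : (k : ℝ) < ((u + 1 : ℕ) : ℝ) * τ + 1 := Nat.ceil_lt_add_one (by positivity)
  have hk3 : 2 * (u + 1) ≤ k := by
    have : ((2 * (u + 1) : ℕ) : ℝ) ≤ k := by
      refine le_trans ?_ hk1
      push_cast
      nlinarith [(Nat.cast_nonneg u : (0 : ℝ) ≤ u)]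
    exact_mod_cast this
  have hvw : v ≤ w := Nat.le_mul_of_pos_left _ (by omega)
  have hr1 := tw_pos (k + 1)
  have hr2 : 4 * tw (k + 1) ≤ tw ρ := by
    have := two_pow_mul_tw_le (a := 2) (b := k + 1) (c := ρ) (by omega)
    norm_num at this
    exact this
  refine ⟨c / g + tw (k + 1), k + 1, by omega, by linarith, by linarith, ?_⟩
  intro x hx2 hx3
  obtain ⟨t, rfl⟩ : ∃ t, x = c / g + t := ⟨x - c / g, by ring⟩
  have ht1 : tw (k + 1) ≤ t := by linarith
  have ht2 : t ≤ tw k := by linarith [tw_succ k]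
  have ht0 : 0 ≤ t := by linarith
  have htri : ∀ β : ℝ, |c / g - β| - t ≤ |c / g + t - β| := by
    intro β
    have := abs_sub_abs_le_abs_sub (c / g - β) (-t)
    rw [abs_neg, abs_of_nonneg ht0] at this
    refine this.trans (le_of_eq ?_)
    congr 1; ring
  refine ⟨?_, ?_, ?_⟩
  · intro l hl1 hl2 q p hq1 hq2
    have h2 : tw k ≤ tw ((2 * D + 3) * l) := tw_anti (by omega)
    by_cases hl : (D + 3) * l < u + 3
    · left
      have h1 := hc3 l hl1 hl q p hq1 hq2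
      linarith [htri (p / q)]
    push Not at hl
    have a1 : (0 : ℝ) < q := by exact_mod_cast hq1
    have a2 : (q : ℝ) ≤ 2 ^ (D * l) := by exact_mod_cast hq2
    by_cases he : c * q = g * p
    · right
      have hc5 : c ≠ 0 := by
        rintro rfl
        obtain ⟨l', hl'1, hl'2⟩ : ∃ l', ρ < (2 * D + 2) * l' + 2 ∧ (D + 3) * l' < u + 3 := by
          refine ⟨v, ?_, ?_⟩
          · nlinarith
          · rw [hu, hw]; nlinarith [Nat.zero_le (D * v), Nat.zero_le (D ^ 2 * v)]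
        have h3 := hc3 l' hl'1 hl'2 1 0 le_rfl (one_le_pow₀ (by norm_num))
        have h4 := tw_pos ((2 * D + 3) * l')
        simp at h3
        linarith
      have hgq : (g : ℤ) ∣ q := by
        rcases (Nat.prime_iff_prime_int.1 hg).dvd_or_dvd (Dvd.intro _ he.symm) with h | h
        · have := Int.le_of_dvd (by omega) h
          omega
        · exact h
      have hq3 : (g : ℝ) ≤ q := by exact_mod_cast Int.le_of_dvd (by omega) hgq
      have he' : (p : ℝ) / q = c / g := by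
        rw [div_eq_div_iff a1.ne' hg0.ne']
        have : ((c * q : ℤ) : ℝ) = ((g * p : ℤ) : ℝ) := by rw [he]
        push_cast at this
        linarith
      rw [he', add_sub_cancel_left, abs_of_nonneg ht0]
      refine le_trans ?_ ht1
      have b1 : (q : ℝ) ^ (-τ) ≤ tw ⌊(u : ℝ) * τ⌋₊ :=
        rpow_neg_le_tw (b := u) (hgr1.trans hq3) (by linarith) (Nat.floor_le (by positivity))
      have b2 : k + 1 ≤ A + 3 + ⌊(u : ℝ) * τ⌋₊ := by
        have b3 := Nat.lt_floor_add_one ((u : ℝ) * τ)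
        have : ((k + 1 : ℕ) : ℝ) ≤ ((A + 3 + ⌊(u : ℝ) * τ⌋₊ : ℕ) : ℝ) := by
          push_cast at hk2 ⊢
          linarith
        exact_mod_cast this
      calc tw (A + 3) * (q : ℝ) ^ (-τ) ≤ tw (A + 3) * tw ⌊(u : ℝ) * τ⌋₊ :=
            mul_le_mul_of_nonneg_left b1 (tw_pos _).le
        _ = tw (A + 3 + ⌊(u : ℝ) * τ⌋₊) := (tw_add _ _).symm
        _ ≤ tw (k + 1) := tw_anti b2
    · left
      have h1 := one_le_abs_sub_int he
      have a3 : (c : ℝ) / g - p / q = (((c * q : ℤ) : ℝ) - ((g * p : ℤ) : ℝ)) / (g * q) := by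
        push_cast; field_simp
      have h3 : 2 * tw ((2 * D + 3) * l) ≤ |(c : ℝ) / g - p / q| := by
        rw [a3, abs_div, abs_of_pos (by positivity : (0 : ℝ) < g * q),
          le_div_iff₀ (by positivity)]
        refine le_trans ?_ h1
        have := tw_pos ((2 * D + 3) * l)
        calc 2 * tw ((2 * D + 3) * l) * (g * q)
            ≤ 2 * tw ((2 * D + 3) * l) * (2 ^ (u + 1) * 2 ^ (D * l)) := by gcongr
          _ = 2 ^ (u + 2 + D * l) * tw ((2 * D + 3) * l) := by ring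
          _ ≤ tw 0 := two_pow_mul_tw_le (by
              have b1 : (2 * D + 3) * l = D * l + (D + 3) * l := by ring
              omega)
          _ = 1 := tw_zero
      linarith [htri (p / q)]
  · intro n hn hn2 a ha1 ha2 P hP hPd hPB
    have ha : 1 ≤ a := by
      rcases Nat.eq_zero_or_pos a with rfl | h
      · simp at ha1
      · exact h
    left
    refine gen_lower _ t hy0 hy1.le n a u w (k + 1) ht0 (by linarith [tw_succ k]) (by omega)
      (by omega) P hP (by omega) hPB ha ha2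
      (fun hreg => hc4 n hn a ha1 hreg P hP.ne_zero hPB) (fun hua => ?_)
    obtain ⟨Q, -, -, hev⟩ := exists_transfer n a u g c hg.pos hg2 (by
      have : (c : ℝ) < g := by exact_mod_cast hcg
      rw [abs_of_nonneg (by exact_mod_cast hc0)]
      linarith) P hPB
    have h1 := hev 0
    rw [add_zero, ← coeff_zero_eq_aeval_zero', algebraMap_int_eq, eq_intCast] at h1
    have h2 : Q.coeff 0 ≠ 0 := by
      intro h
      rw [h, Int.cast_zero] at h1
      exact mul_ne_zero (by positivity) (no_rat_root hP (by omega) c g) h1.symm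
    have h3 : (1 : ℝ) ≤ |(Q.coeff 0 : ℝ)| := by exact_mod_cast Int.one_le_abs h2
    rw [h1, abs_mul, abs_of_pos (by positivity)] at h3
    have h4 : (g : ℝ) ^ n ≤ 2 ^ ((u + 1) * n) := by rw [pow_mul]; gcongr
    have h5 : (2 : ℝ) ^ ((u + 1) * n) * tw (UU n * a) ≤ tw 0 := two_pow_mul_tw_le (by
      have b1 : (6 * (n + 1) * n + n) * a ≤ UU n * a := Nat.mul_le_mul_right _ (by
        unfold UU
        nlinarith [Nat.zero_le (n ^ 3), Nat.zero_le (n ^ 2)])
      have b2 := Nat.mul_le_mul_right n hua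
      have b3 : n ≤ n * a := Nat.le_mul_of_pos_right _ ha
      nlinarith)
    rw [tw_zero] at h5
    exact le_of_mul_le_mul_left (h5.trans (h3.trans
      (mul_le_mul_of_nonneg_right h4 (abs_nonneg _)))) (by positivity)
  · refine ⟨g, c, ?_, hc0, hcg.le, ?_⟩
    · have : u < 2 ^ u := Nat.lt_two_pow_self
      omega
    · rw [add_sub_cancel_left, abs_of_nonneg ht0]
      exact ht2.trans (tw_le_rpow_neg (b := u + 1) hg0 hgr2 (by linarith) hk1)

end Pool.Agent.MP_b86f6c_nt
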