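import Pool.Agent.MP_b86f6c_nt.Base
import Pool.Agent.MP_b86f6c_nt.Count

set_option autoImplicit false

namespace Pool.Agent.MP_b86f6c_nt

open Polynomial Finset

def UV (n : ℕ) : ℕ := UU n + 4 * n + 3
def VV (n : ℕ) : ℕ := UV n + 5 * n + 11
def RR (D m : ℕ) : ℕ := 13 * m ^ 3 + 4 * D + 7
def WW (D n : ℕ) : ℕ := n * VV n + (UU n + 1) + n * RR D n * (6 * (n + 1))

def Good1 (D l : ℕ) (x : ℝ) : Prop :=
  ∀ q p : ℤ, 1 ≤ q → q ≤ 2 ^ (D * l) → tw ((2 * D + 3) * l) ≤ |x - p / q|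

def Good2 (D n a : ℕ) (x : ℝ) : Prop :=
  ∀ P : ℤ[X], P ≠ 0 → Bd n a P → tw (WW D n * a) ≤ |aeval x P|

def Close (m j : ℕ) (x : ℝ) : Prop :=
  ∃ (P : ℤ[X]) (u : ℕ), j ≤ u ∧ (2 : ℝ) ^ u ≤ |(P.coeff m : ℝ)| ∧ Bd m (4 * m * u) P ∧
    |aeval x P| ≤ tw (4 * m * u * m ^ 2)

lemma growth (A c v0 : ℕ) : ∃ v, v0 ≤ v ∧ (A : ℝ) * (v + 1) * 2 ^ c ≤ 2 ^ v := by
  refine ⟨2 * (v0 + A + c + 1), by omega, ?_⟩
  set t := v0 + A + c + 1 with ht
  have h1 := nat_le_two_pow A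
  have h2 := nat_succ_le_two_pow t
  calc (A : ℝ) * (((2 * t : ℕ) : ℝ) + 1) * 2 ^ c ≤ 2 ^ A * (2 * 2 ^ t) * 2 ^ c := by
        gcongr; push_cast; linarith
    _ = 2 ^ (A + c + 1 + t) := by ring
    _ ≤ 2 ^ (2 * t) := pow_le_pow_right₀ (by norm_num) (by omega)

lemma two_pow_add_le {a b c : ℕ} (ha : a ≤ c) (hb : b ≤ c) :
    (2 : ℝ) ^ a + 2 ^ b ≤ 2 ^ (c + 1) := by
  have h1 : (2 : ℝ) ^ a ≤ 2 ^ c := pow_le_pow_right₀ (by norm_num) ha
  have h2 : (2 : ℝ) ^ b ≤ 2 ^ c := pow_le_pow_right₀ (by norm_num) hb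
  rw [pow_succ]; linarith

lemma bad1_card {m D N : ℕ} {γ : ℝ} {c0 : ℕ} {cb : ℕ → ℕ} (hB : Base m D N γ c0 cb)
    (g v ρ l : ℕ) (hg : g.Prime) (hg2 : g ≤ 2 ^ ((D ^ 2 + 4 * D + 2) * v + v + 1))
    (hv : c0 + 1 ≤ v) (x0 : ℝ) (S : Finset ℤ)
    (hS : ∀ c ∈ S, x0 ≤ (c + γ) / g ∧ (c + γ) / g ≤ x0 + tw ρ)
    (hS2 : ∀ c ∈ S, ∀ c' ∈ S, |c - c'| < g) (hl : ρ < (2 * D + 2) * l + 2) (hl2 : 2 ≤ l)
    (hbad : ∀ c ∈ S, ∃ q p : ℤ, 1 ≤ q ∧ q ≤ 2 ^ (D * l) ∧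
      |(c + γ) / g - p / q| < 2 * tw ((2 * D + 3) * l)) :
    (S.card : ℝ) ≤ 20 * tw ρ * g * tw l + 2 ^ ((D ^ 2 + 4 * D + 2) * v + (c0 + D + 5)) := by
  set w := (D ^ 2 + 4 * D + 2) * v with hw
  set δ := 2 * tw ((2 * D + 3) * l) with hδ
  have hδ0 : 0 < δ := by have := tw_pos ((2 * D + 3) * l); positivity
  have hg0 : (0 : ℝ) < g := by exact_mod_cast hg.pos
  have hgr : (g : ℝ) ≤ 2 ^ (w + v + 1) := by exact_mod_cast hg2
  have hr := tw_pos ρ
  have htl := tw_pos l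
  have hbad' : ∀ c ∈ S, ∃ q p : ℤ, 1 ≤ q ∧ q ≤ ((2 ^ (D * l) : ℕ) : ℤ) ∧
      |(c + γ) / g - p / q| < δ := by simpa using hbad
  by_cases h1 : l ≤ v
  · have h2 := count_small S γ x0 (tw ρ) δ g (2 ^ (D * l)) hg.pos Nat.one_le_two_pow hδ0.le hr.le
      hS hbad'
    push_cast at h2
    have a1 : δ ≤ 4 * tw ρ * tw l := by
      have b1 : tw ((2 * D + 2) * l + 1) ≤ tw ρ := tw_anti (by omega)
      have b2 := tw_succ ((2 * D + 2) * l)
      rw [hδ, show (2 * D + 3) * l = (2 * D + 2) * l + l by ring, tw_add]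
      nlinarith
    have a2 : tw l ≤ 1 / 4 := by
      have := tw_anti hl2
      rw [show tw 2 = 1 / 4 by unfold tw; norm_num] at this
      exact this
    have a3 : δ ≤ tw ρ := by nlinarith
    have a4 : ((2 : ℝ) ^ (D * l)) ^ 2 * δ ≤ 2 * tw l := by
      rw [hδ, ← pow_mul, mul_left_comm]
      exact mul_le_mul_of_nonneg_left (two_pow_mul_tw_le (by nlinarith)) (by norm_num)
    have a5 : (1 : ℝ) ≤ ((2 : ℝ) ^ (D * l)) ^ 2 := one_le_pow₀ (one_le_pow₀ (by norm_num))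
    have a6 : 4 * ((2 : ℝ) ^ (D * l)) ^ 2 ≤ 2 ^ (w + (c0 + D + 5)) := by
      rw [← pow_mul, show (4 : ℝ) = 2 ^ 2 by norm_num, ← pow_add]
      refine pow_le_pow_right₀ (by norm_num) ?_
      have : D * l ≤ D * v := Nat.mul_le_mul_left _ h1
      rw [hw]; nlinarith
    have a7 := tw_le_one ρ
    set Q2 := ((2 : ℝ) ^ (D * l)) ^ 2
    calc (S.card : ℝ) ≤ _ := h2
      _ ≤ (3 * tw ρ * Q2 + 1) * (2 * δ * g + 1) := by gcongr; linarith
      _ = 6 * tw ρ * g * (Q2 * δ) + 2 * δ * g + (3 * tw ρ * Q2 + 1) := by ring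
      _ ≤ 6 * tw ρ * g * (2 * tw l) + 2 * (4 * tw ρ * tw l) * g + (3 * 1 * Q2 + Q2) := by gcongr
      _ = 20 * tw ρ * g * tw l + 4 * Q2 := by ring
      _ ≤ _ := by linarith
  push Not at h1
  have hδQ : δ * 2 ^ (D * l) = 2 * tw ((D + 3) * l) := by
    rw [hδ, show (2 * D + 3) * l = D * l + (D + 3) * l by ring, mul_assoc, mul_comm (tw _),
      two_pow_mul_tw_add]
  obtain ⟨T, hT1, hT2⟩ := count_pairs S γ δ g hg (2 ^ (D * l)) hS2 hbad' (by
    intro q r hq1 hq2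
    refine le_trans ?_ (hB.lin l q r hq1 (by simpa using hq2))
    push_cast
    rw [hδQ, ← tw_succ ((D + 1) * l + c0)]
    exact mul_le_mul_of_nonneg_left (tw_anti (by nlinarith)) (by norm_num))
  rw [hT1]
  have hη : δ * g * ((2 ^ (D * l) : ℕ) : ℝ) = 2 * g * tw ((D + 3) * l) := by
    push_cast
    rw [mul_right_comm, hδQ]; ring
  rw [hη] at hT2
  have htp := tw_pos ((D + 3) * l)
  have hmain : (T.card : ℝ) ≤ 2 ^ (w + (c0 + D + 5)) := by
    by_cases h2 : (D + 3) * l < w + v + 3 + c0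
    · have h3 := count_mid T γ _ (2 ^ (D * l)) (by positivity) hT2
      push_cast at h3
      have a1 : (2 : ℝ) ^ (D * l) * tw ((D + 3) * l) = tw (3 * l) := by
        rw [show (D + 3) * l = D * l + 3 * l by ring, two_pow_mul_tw_add]
      have a2 : 4 * (g : ℝ) * tw (3 * l) ≤ 2 ^ (w + 3) := by
        have := tw_pos (3 * l)
        calc 4 * (g : ℝ) * tw (3 * l) ≤ 4 * 2 ^ (w + v + 1) * tw (3 * l) := by gcongr
          _ = 2 ^ (w + v + 3) * tw (3 * l) := by ring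
          _ ≤ 2 ^ (w + 3) := two_pow_mul_tw_le' (by omega)
      have a3 : D * l ≤ w + c0 + 3 := by
        have : (D + 3) * (D * l) ≤ (D + 3) * (w + c0 + 3) := by
          have b1 := Nat.mul_le_mul_left D h2.le
          rw [hw] at b1 ⊢
          nlinarith [Nat.zero_le (D * v), Nat.zero_le (D ^ 2 * v)]
        exact Nat.le_of_mul_le_mul_left this (by omega)
      calc (T.card : ℝ) ≤ _ := h3
        _ = 4 * (g : ℝ) * (2 ^ (D * l) * tw ((D + 3) * l)) + 2 ^ (D * l) := by ring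
        _ ≤ 2 ^ (w + 3) + 2 ^ (D * l) := by rw [a1]; linarith
        _ ≤ 2 ^ (w + (c0 + D + 4) + 1) := two_pow_add_le (by omega) (by omega)
        _ = _ := by ring
    · push Not at h2
      obtain ⟨s, hs⟩ := Nat.exists_eq_add_of_le h2
      set l' := s / (D + 1) with hl'
      have b1 : (D + 1) * l' ≤ s := Nat.mul_div_le _ _
      have b2 : s < (D + 1) * (l' + 1) := Nat.lt_mul_div_succ _ (by omega)
      have a1 : 2 * (2 * (g : ℝ) * tw ((D + 3) * l)) ≤ tw ((D + 1) * l' + c0) := by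
        calc 2 * (2 * (g : ℝ) * tw ((D + 3) * l))
            ≤ 2 * (2 * 2 ^ (w + v + 1) * tw ((D + 3) * l)) := by gcongr
          _ = 2 ^ (w + v + 3) * tw ((D + 3) * l) := by ring
          _ ≤ _ := two_pow_mul_tw_le (by omega)
      have h3 := count_large T γ _ (2 ^ (D * l)) (2 ^ (D * l')) Nat.one_le_two_pow
        (a1.trans (tw_le_one _)) hT2 (fun q r hq1 hq2 =>
          a1.trans (hB.lin l' q r hq1 (by simpa using hq2)))
      push_cast at h3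
      have a3 : D * l ≤ D * l' + (w + c0 + D + 4) := by
        have : (D + 1) * (D * l) ≤ (D + 1) * (D * l' + (w + c0 + D + 4)) := by
          have b3 : (D + 1) * l ≤ (D + 1) * l' + (w + v + c0 + D + 4) := by nlinarith
          have b4 := Nat.mul_le_mul_left D b3
          rw [hw] at b4 ⊢
          nlinarith [Nat.zero_le (D * v), Nat.zero_le (D ^ 2 * v)]
        exact Nat.le_of_mul_le_mul_left this (by omega)
      have a4 : (2 : ℝ) ^ (D * l) / 2 ^ (D * l') ≤ 2 ^ (w + c0 + D + 4) := by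
        rw [div_le_iff₀ (by positivity), ← pow_add]
        exact pow_le_pow_right₀ (by norm_num) (by omega)
      calc (T.card : ℝ) ≤ _ := h3
        _ ≤ 2 ^ (w + c0 + D + 4) + 2 ^ 0 := by rw [pow_zero]; linarith
        _ ≤ 2 ^ (w + (c0 + D + 4) + 1) := two_pow_add_le (by omega) (by omega)
        _ = _ := by ring
  have : 0 ≤ 20 * tw ρ * g * tw l := by positivity
  linarith

lemma bad2_card (T : ℤ[X] → Finset ℝ) (hT : ∀ P, P ≠ 0 → (T P).card ≤ P.natDegree)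
    (γ : ℝ) (g u w ρ n a : ℕ) (hg1 : 1 ≤ g) (hg2 : g ≤ 2 ^ (u + 1)) (S : Finset ℤ)
    (hρ : ρ < UV n * a) (hw : (n + 1) * (a + 2) ≤ w)
    (hbad : ∀ c ∈ S, ∃ P : ℤ[X], P ≠ 0 ∧ Bd n a P ∧ ∃ β ∈ T P,
      |(c + γ) / g - β| < tw (VV n * a) + tw (u + 1)) :
    (S.card : ℝ) ≤ tw ρ * g * tw (a + n + 6) + 2 ^ (w + (n + 2)) := by
  classical
  obtain ⟨F, hF1, hF2⟩ := exists_finset_Bd n a
  choose! P hP0 hP β hβ hlt using hbad
  let Z : Finset ℝ := (F.filter fun P => P ≠ 0 ∧ Bd n a P).biUnion T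
  have hZ : (Z.card : ℝ) ≤ 2 ^ ((n + 1) * (a + 2)) * n := by
    have h1 : Z.card ≤ F.card * n := by
      refine Finset.card_biUnion_le.trans ?_
      refine (Finset.sum_le_card_nsmul _ _ n fun P hP => ?_).trans ?_
      · obtain ⟨-, h1, h2⟩ := Finset.mem_filter.1 hP
        exact (hT P h1).trans h2.1
      · exact Nat.mul_le_mul_right _ (Finset.card_filter_le _ _)
    have h2 : (Z.card : ℝ) ≤ F.card * n := by exact_mod_cast h1
    exact h2.trans (mul_le_mul_of_nonneg_right hF1 (by positivity))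
  have ht1 := tw_pos (VV n * a)
  have ht2 := tw_pos (u + 1)
  have hg0 : (0 : ℝ) < g := by exact_mod_cast hg1
  have hgr : (g : ℝ) ≤ 2 ^ (u + 1) := by exact_mod_cast hg2
  have h1 := card_le_of_fibers S β Z (fun c hc => Finset.mem_biUnion.2 ⟨P c,
    Finset.mem_filter.2 ⟨hF2 _ (hP c hc), hP0 c hc, hP c hc⟩, hβ c hc⟩)
    (2 * (tw (VV n * a) + tw (u + 1)) * g + 1) (fun b _ =>
      count_near _ γ b _ g hg1 (by positivity) fun c hc => by
        obtain ⟨h1, h2⟩ := Finset.mem_filter.1 hc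
        rw [← h2]; exact hlt c h1)
  have h2 : tw (u + 1) * g ≤ 1 := by
    rw [← two_pow_mul_tw (u + 1), mul_comm]; gcongr
  have ha : 1 ≤ a := by
    rcases Nat.eq_zero_or_pos a with rfl | h
    · simp at hρ
    · exact h
  have hn := nat_le_two_pow n
  have h3 : (2 : ℝ) ^ ((n + 1) * (a + 2)) * n * (2 * tw (VV n * a))
      ≤ tw ρ * tw (a + n + 6) := by
    calc (2 : ℝ) ^ ((n + 1) * (a + 2)) * n * (2 * tw (VV n * a))
        ≤ 2 ^ ((n + 1) * (a + 2)) * 2 ^ n * (2 * tw (VV n * a)) := by gcongr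
      _ = 2 ^ ((n + 1) * (a + 2) + n + 1) * tw (VV n * a) := by ring
      _ ≤ tw (ρ + (a + n + 6)) := two_pow_mul_tw_le (by unfold VV; nlinarith)
      _ = _ := tw_add _ _
  have h4 : (2 : ℝ) ^ ((n + 1) * (a + 2)) * n * 3 ≤ 2 ^ (w + (n + 2)) := by
    have : (2 : ℝ) ^ ((n + 1) * (a + 2)) ≤ 2 ^ w := pow_le_pow_right₀ (by norm_num) hw
    calc (2 : ℝ) ^ ((n + 1) * (a + 2)) * n * 3 ≤ 2 ^ w * 2 ^ n * 4 := by gcongr; norm_num
      _ = _ := by ring
  calc (S.card : ℝ) ≤ _ := h1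
    _ ≤ (2 ^ ((n + 1) * (a + 2)) * n) * (2 * tw (VV n * a) * g + 3) := by
        refine mul_le_mul hZ (by nlinarith) (by positivity) (by positivity)
    _ = (2 : ℝ) ^ ((n + 1) * (a + 2)) * n * (2 * tw (VV n * a)) * g
        + 2 ^ ((n + 1) * (a + 2)) * n * 3 := by ring
    _ ≤ tw ρ * tw (a + n + 6) * g + 2 ^ (w + (n + 2)) := by gcongr
    _ = _ := by ring

lemma exists_good_c {m D N : ℕ} {γ : ℝ} {c0 : ℕ} {cb : ℕ → ℕ} (hB : Base m D N γ c0 cb)
    (T : ℤ[X] → Finset ℝ) (hT : ∀ P, P ≠ 0 → (T P).card ≤ P.natDegree)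
    (g v w u ρ j : ℕ) (hw : w = (D ^ 2 + 4 * D + 2) * v) (hu : u = w + v)
    (hg : g.Prime) (hg1 : 2 ^ u ≤ g) (hg2 : g ≤ 2 ^ (u + 1)) (hv : c0 + 1 ≤ v)
    (hρ : 20 * D + 22 ≤ ρ)
    (hbig : ((j + 3 : ℕ) : ℝ) * (u + 1) * 2 ^ (c0 + D + j + 5 + ρ + 4) ≤ 2 ^ v) (x0 : ℝ) :
    ∃ c : ℤ, x0 ≤ (c + γ) / g ∧ (c + γ) / g ≤ x0 + tw ρ / 2 ∧
      (∀ l, ρ < (2 * D + 2) * l + 2 → l < c0 + u + 1 → ∀ q p : ℤ, 1 ≤ q → q ≤ 2 ^ (D * l) →
        2 * tw ((2 * D + 3) * l) ≤ |(c + γ) / g - p / q|) ∧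
      (∀ n ≤ j, ∀ a, ρ < UV n * a → (n + 1) * (a + 2) ≤ w → ∀ P : ℤ[X], P ≠ 0 → Bd n a P →
        ∀ β ∈ T P, tw (VV n * a) + tw (u + 1) ≤ |(c + γ) / g - β|) := by
  classical
  have hg0 : (0 : ℝ) < g := by exact_mod_cast hg.pos
  have hgr : (2 : ℝ) ^ u ≤ g := by exact_mod_cast hg1
  have hr := tw_pos ρ
  let Cs : Finset ℤ := Finset.Icc ⌈g * x0 - γ⌉ ⌊g * (x0 + tw ρ / 2) - γ⌋
  have hCs : ∀ c ∈ Cs, x0 ≤ (c + γ) / g ∧ (c + γ) / g ≤ x0 + tw ρ / 2 := by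
    intro c hc
    obtain ⟨h1, h2⟩ := Finset.mem_Icc.1 hc
    rw [Int.ceil_le] at h1
    rw [Int.le_floor] at h2
    rw [le_div_iff₀ hg0, div_le_iff₀ hg0]
    constructor <;> linarith
  have hCcard : g * tw ρ / 2 - 1 ≤ (Cs.card : ℝ) := by
    have h1 : ⌊g * (x0 + tw ρ / 2) - γ⌋ + 1 - ⌈g * x0 - γ⌉ ≤ (Cs.card : ℤ) := by
      rw [Int.card_Icc]; exact Int.self_le_toNat _
    have h2 : ((⌊g * (x0 + tw ρ / 2) - γ⌋ : ℤ) : ℝ) + 1 - ((⌈g * x0 - γ⌉ : ℤ) : ℝ)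
        ≤ (Cs.card : ℝ) := by exact_mod_cast h1
    have h3 := Int.lt_floor_add_one (g * (x0 + tw ρ / 2) - γ)
    have h4 := Int.ceil_lt_add_one (g * x0 - γ)
    linarith
  have hdiff : ∀ c ∈ Cs, ∀ c' ∈ Cs, |c - c'| < g := by
    intro c hc c' hc'
    obtain ⟨h1, h2⟩ := hCs c hc
    obtain ⟨h3, h4⟩ := hCs c' hc'
    rw [le_div_iff₀ hg0] at h1 h3
    rw [div_le_iff₀ hg0] at h2 h4
    have h5 := tw_le_one ρ
    have h6 : |(c : ℝ) - c'| < g := by
      rw [abs_lt]; constructor <;> nlinarith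
    exact_mod_cast h6
  let Bad1 : ℕ → ℤ → Prop := fun l c => ∃ q p : ℤ, 1 ≤ q ∧ q ≤ 2 ^ (D * l) ∧
      |(c + γ) / g - p / q| < 2 * tw ((2 * D + 3) * l)
  let Bad2 : ℕ × ℕ → ℤ → Prop := fun x c => ∃ P : ℤ[X], P ≠ 0 ∧ Bd x.1 x.2 P ∧ ∃ β ∈ T P,
      |(c + γ) / g - β| < tw (VV x.1 * x.2) + tw (u + 1)
  let L1 : Finset ℕ := (range (c0 + u + 1)).filter fun l => ρ < (2 * D + 2) * l + 2
  let L2 : Finset (ℕ × ℕ) := (range (j + 1) ×ˢ range (u + 1)).filter fun x =>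
    ρ < UV x.1 * x.2 ∧ (x.1 + 1) * (x.2 + 2) ≤ w
  let B1 : Finset ℤ := L1.biUnion fun l => Cs.filter (Bad1 l)
  let B2 : Finset ℤ := L2.biUnion fun x => Cs.filter (Bad2 x)
  set E : ℝ := 2 ^ (w + (c0 + D + j + 5)) with hE
  have hE0 : 0 < E := by positivity
  have hL1 : ∀ l ∈ L1, 11 ≤ l := by
    intro l hl
    have := (Finset.mem_filter.1 hl).2
    by_contra h
    have : (2 * D + 2) * l ≤ (2 * D + 2) * 10 := Nat.mul_le_mul_left _ (by omega)
    omega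
  have hB1 : (B1.card : ℝ) ≤ tw ρ * g / 16 + (2 * (u + 1)) * E := by
    have h1 : (B1.card : ℝ) ≤ ∑ l ∈ L1, ((Cs.filter (Bad1 l)).card : ℝ) := by
      exact_mod_cast Finset.card_biUnion_le
    have h2 : ∑ l ∈ L1, ((Cs.filter (Bad1 l)).card : ℝ)
        ≤ ∑ l ∈ L1, (20 * tw ρ * g * tw l + E) := by
      refine Finset.sum_le_sum fun l hl => ?_
      have := bad1_card hB g v ρ l hg (by rw [← hw, ← hu]; exact hg2) hv x0 (Cs.filter (Bad1 l))
        (fun c hc => by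
          have := hCs c (Finset.mem_filter.1 hc).1
          constructor <;> linarith [this.1, this.2])
        (fun c hc c' hc' => hdiff c (Finset.mem_filter.1 hc).1 c' (Finset.mem_filter.1 hc').1)
        (Finset.mem_filter.1 hl).2 (by have := hL1 l hl; omega)
        (fun c hc => (Finset.mem_filter.1 hc).2)
      rw [← hw] at this
      refine this.trans (add_le_add_right ?_ _)
      exact pow_le_pow_right₀ (by norm_num) (by omega)
    rw [Finset.sum_add_distrib, ← Finset.mul_sum, Finset.sum_const, nsmul_eq_mul] at h2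
    have h3 := sum_tw_le L1 11 hL1
    rw [show tw 11 = 1 / 2048 by unfold tw; norm_num] at h3
    have h4 : (L1.card : ℝ) ≤ 2 * (u + 1) := by
      have : L1.card ≤ 2 * (u + 1) :=
        (Finset.card_filter_le _ _).trans (by rw [Finset.card_range]; omega)
      exact_mod_cast this
    have h5 : 20 * tw ρ * g * ∑ l ∈ L1, tw l ≤ 20 * tw ρ * g * (2 * (1 / 2048)) := by gcongr
    have h6 : (L1.card : ℝ) * E ≤ 2 * (u + 1) * E := by gcongr
    have h7 : 0 < tw ρ * g := by positivity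
    nlinarith
  have hB2 : (B2.card : ℝ) ≤ tw ρ * g / 16 + ((j + 1) * (u + 1)) * E := by
    have h1 : (B2.card : ℝ) ≤ ∑ x ∈ L2, ((Cs.filter (Bad2 x)).card : ℝ) := by
      exact_mod_cast Finset.card_biUnion_le
    have h2 : ∑ x ∈ L2, ((Cs.filter (Bad2 x)).card : ℝ)
        ≤ ∑ x ∈ range (j + 1) ×ˢ range (u + 1), (tw ρ * g * tw 6 * (tw x.1 * tw x.2) + E) := by
      refine le_trans (Finset.sum_le_sum fun x hx => ?_)
        (Finset.sum_le_sum_of_subset_of_nonneg (Finset.filter_subset _ _) fun x _ _ => by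
          have := tw_pos x.1
          have := tw_pos x.2
          have := tw_pos 6
          positivity)
      obtain ⟨h3, h4, h5⟩ := Finset.mem_filter.1 hx
      have h6 := Finset.mem_range.1 (Finset.mem_product.1 h3).1
      have := bad2_card T hT γ g u w ρ x.1 x.2 hg.pos hg2 (Cs.filter (Bad2 x)) h4 h5
        (fun c hc => (Finset.mem_filter.1 hc).2)
      refine this.trans (add_le_add (le_of_eq ?_) ?_)
      · rw [tw_add, tw_add]; ring
      · exact pow_le_pow_right₀ (by norm_num) (by omega)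
    rw [Finset.sum_add_distrib, ← Finset.mul_sum, Finset.sum_const, nsmul_eq_mul,
      Finset.sum_product' (f := fun a b => tw a * tw b), ← Finset.sum_mul_sum,
      show tw 6 = 1 / 64 by unfold tw; norm_num] at h2
    have h3 := sum_tw_le (range (j + 1)) 0 (fun _ _ => Nat.zero_le _)
    have h4 := sum_tw_le (range (u + 1)) 0 (fun _ _ => Nat.zero_le _)
    rw [tw_zero] at h3 h4
    have h5 : (∑ a ∈ range (j + 1), tw a) * ∑ a ∈ range (u + 1), tw a ≤ (2 * 1) * (2 * 1) :=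
      mul_le_mul h3 h4 (Finset.sum_nonneg fun _ _ => (tw_pos _).le) (by norm_num)
    simp only [Finset.card_product, Finset.card_range] at h2
    push_cast at h2
    have h7 : 0 < tw ρ * g := by positivity
    nlinarith
  have hEsmall : ((j : ℝ) + 3) * (u + 1) * E ≤ tw ρ * g / 16 := by
    have h1 : (2 : ℝ) ^ (ρ + 4) * (((j : ℝ) + 3) * (u + 1) * E) ≤ g := by
      push_cast at hbig
      calc (2 : ℝ) ^ (ρ + 4) * (((j : ℝ) + 3) * (u + 1) * E)
          = 2 ^ w * (((j : ℝ) + 3) * (u + 1) * 2 ^ (c0 + D + j + 5 + ρ + 4)) := by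
            rw [hE]; ring
        _ ≤ 2 ^ w * 2 ^ v := by gcongr
        _ = 2 ^ u := by rw [hu, pow_add]
        _ ≤ g := hgr
    have h2 := two_pow_mul_tw ρ
    have h3 := mul_le_mul_of_nonneg_left h1 hr.le
    have h4 : tw ρ * ((2 : ℝ) ^ (ρ + 4) * (((j : ℝ) + 3) * (u + 1) * E))
        = 16 * (2 ^ ρ * tw ρ) * (((j : ℝ) + 3) * (u + 1) * E) := by ring
    rw [h4, h2] at h3
    linarith
  have hE1 : 1 ≤ ((j : ℝ) + 3) * (u + 1) * E := by
    have h1 : (1 : ℝ) ≤ E := one_le_pow₀ (by norm_num)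
    have h2 : (1 : ℝ) ≤ (j : ℝ) + 3 := by have : (0 : ℝ) ≤ j := by positivity
                                          linarith
    have h3 : (1 : ℝ) ≤ (u : ℝ) + 1 := by have : (0 : ℝ) ≤ u := by positivity
                                          linarith
    exact one_le_mul_of_one_le_of_one_le (one_le_mul_of_one_le_of_one_le h2 h3) h1
  have hlt : (B1 ∪ B2).card < Cs.card := by
    have h1 : ((B1 ∪ B2).card : ℝ) ≤ B1.card + B2.card := by
      exact_mod_cast Finset.card_union_le _ _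
    have h2 : ((B1 ∪ B2).card : ℝ) < Cs.card := by nlinarith
    exact_mod_cast h2
  obtain ⟨c, hc, hcB⟩ := Finset.exists_mem_notMem_of_card_lt_card hlt
  rw [Finset.mem_union, not_or] at hcB
  refine ⟨c, (hCs c hc).1, (hCs c hc).2, ?_, ?_⟩
  · intro l h1 h2 q p hq1 hq2
    by_contra h3
    push Not at h3
    exact hcB.1 (Finset.mem_biUnion.2 ⟨l, Finset.mem_filter.2 ⟨Finset.mem_range.2 h2, h1⟩,
      Finset.mem_filter.2 ⟨hc, q, p, hq1, hq2, h3⟩⟩)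
  · intro n hn a h1 h2 P hP0 hP β hβ
    by_contra h3
    push Not at h3
    exact hcB.2 (Finset.mem_biUnion.2 ⟨(n, a), Finset.mem_filter.2 ⟨Finset.mem_product.2
      ⟨Finset.mem_range.2 (by simp; omega), Finset.mem_range.2 (by simp; nlinarith)⟩, h1, h2⟩,
      Finset.mem_filter.2 ⟨hc, P, hP0, hP, β, hβ, h3⟩⟩)

end Pool.Agent.MP_b86f6c_nt
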